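import Pool.Agent.QC.Run

/-!
# Algebraic computation trees

The syntactic computation model of the final theorem, and its connection with `Dec`.
-/

namespace Pool.Agent.QC

open MvPolynomial

variable {β : Type*}

/-- Algebraic computation trees with integer constants.  `Tree β n` is a tree with `n` registers
which already hold real numbers.  An operand is a register (`Sum.inl i`) or an integer
(`Sum.inr z`).  `add u v T`, `sub u v T`, `mul u v T` compute `u + v`, `u - v`, `u * v`, store the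
result in a new register and continue with `T`.  `sgn u T₁ T₂ T₃` tests the sign of `u` and
continues with `T₁`, `T₂`, `T₃` if `u < 0`, `u = 0`, `u > 0`.  `out b` stops with output `b`. -/
inductive Tree (β : Type*) : ℕ → Type _
  | out {n : ℕ} (b : β) : Tree β n
  | add {n : ℕ} (u v : Fin n ⊕ ℤ) (T : Tree β (n + 1)) : Tree β n
  | sub {n : ℕ} (u v : Fin n ⊕ ℤ) (T : Tree β (n + 1)) : Tree β n
  | mul {n : ℕ} (u v : Fin n ⊕ ℤ) (T : Tree β (n + 1)) : Tree β n
  | sgn {n : ℕ} (u : Fin n ⊕ ℤ) (T₁ T₂ T₃ : Tree β n) : Tree β n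

/-- The value of an operand. -/
def val {n : ℕ} (x : Fin n → ℝ) : Fin n ⊕ ℤ → ℝ := Sum.elim x (fun z : ℤ => (z : ℝ))

/-- The output of a tree when the registers hold `x`. -/
noncomputable def Tree.run : {n : ℕ} → Tree β n → (Fin n → ℝ) → β
  | _, .out b, _ => b
  | _, .add u v T, x => T.run (Fin.snoc x (val x u + val x v))
  | _, .sub u v T, x => T.run (Fin.snoc x (val x u - val x v))
  | _, .mul u v T, x => T.run (Fin.snoc x (val x u * val x v))
  | _, .sgn u T₁ T₂ T₃, x =>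
      if val x u < 0 then T₁.run x else if val x u = 0 then T₂.run x else T₃.run x

/-- The largest number of operations and sign tests on a branch. -/
def Tree.depth : {n : ℕ} → Tree β n → ℕ
  | _, .out _ => 0
  | _, .add _ _ T => T.depth + 1
  | _, .sub _ _ T => T.depth + 1
  | _, .mul _ _ T => T.depth + 1
  | _, .sgn _ T₁ T₂ T₃ => max T₁.depth (max T₂.depth T₃.depth) + 1

/-- The polynomial of an operand, when the registers hold the polynomials `r`. -/
noncomputable def opPoly {σ : Type*} {n : ℕ} (r : Fin n → MvPolynomial σ ℤ) :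
    Fin n ⊕ ℤ → MvPolynomial σ ℤ := Sum.elim r (fun z : ℤ => C z)

lemma val_ev {σ : Type*} {n : ℕ} (r : Fin n → MvPolynomial σ ℤ) (u : Fin n ⊕ ℤ) (x : σ → ℝ) :
    val (fun i => ev x (r i)) u = ev x (opPoly r u) := by
  cases u <;> simp [val, opPoly]

lemma snoc_ev {σ : Type*} {n : ℕ} (r : Fin n → MvPolynomial σ ℤ) (p : MvPolynomial σ ℤ)
    (x : σ → ℝ) :
    (Fin.snoc (fun i => ev x (r i)) (ev x p) : Fin (n + 1) → ℝ) =
      fun i => ev x ((Fin.snoc r p : Fin (n + 1) → MvPolynomial σ ℤ) i) := by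
  funext i
  refine Fin.lastCases ?_ (fun j => ?_) i
  · simp
  · simp

theorem exists_tree_aux {σ : Type*} {M c : ℕ} {K : Set (MvPolynomial σ ℤ)} {D : Set (σ → ℝ)}
    {F : (σ → ℝ) → β} (h : Dec M c K D F) :
    ∀ (n : ℕ) (r : Fin n → MvPolynomial σ ℤ), K ⊆ Set.range (opPoly r) →
      ∃ T : Tree β n, T.depth ≤ c ∧ ∀ x ∈ D, T.run (fun i => ev x (r i)) = F x := by
  unfold Dec at h
  induction h with
  | @ret c K D K₀ D₀ h1 h2 h3 =>
    intro n r hr
    rcases Set.eq_empty_or_nonempty D with rfl | ⟨x, hx⟩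
    · exact ⟨.out (F 0), by simp [Tree.depth], by simp⟩
    · exact ⟨.out (F x), by simp [Tree.depth], fun y hy => by
        simpa [Tree.run] using h3 x (h2 hx) y (h2 hy)⟩
  | @cst c K D z _ ih =>
    intro n r hr
    refine ih n r (Set.insert_subset ⟨Sum.inr z, by simp [opPoly]⟩ hr)
  | @op c K D p h1 h2 _ ih =>
    intro n r hr
    obtain ⟨a, ha, b, hb, h1⟩ := h1
    obtain ⟨u, rfl⟩ := hr ha
    obtain ⟨v, rfl⟩ := hr hb
    have hsub : insert p K ⊆
        Set.range (opPoly (Fin.snoc r p : Fin (n + 1) → MvPolynomial σ ℤ)) := by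
      rintro q (rfl | hq)
      · exact ⟨Sum.inl (Fin.last n), by simp [opPoly]⟩
      · obtain ⟨w, rfl⟩ := hr hq
        cases w with
        | inl i => exact ⟨Sum.inl i.castSucc, by simp [opPoly]⟩
        | inr z => exact ⟨Sum.inr z, by simp [opPoly]⟩
    obtain ⟨T, hT, hT2⟩ := ih (n + 1) _ hsub
    rcases h1 with rfl | rfl | rfl
    · refine ⟨.add u v T, by simpa [Tree.depth] using hT, fun x hx => ?_⟩
      rw [← hT2 x hx, Tree.run, val_ev, val_ev, ← ev_add, snoc_ev]
    · refine ⟨.sub u v T, by simpa [Tree.depth] using hT, fun x hx => ?_⟩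
      rw [← hT2 x hx, Tree.run, val_ev, val_ev, ← ev_sub, snoc_ev]
    · refine ⟨.mul u v T, by simpa [Tree.depth] using hT, fun x hx => ?_⟩
      rw [← hT2 x hx, Tree.run, val_ev, val_ev, ← ev_mul, snoc_ev]
  | @sgn c K D p h1 _ _ _ ih1 ih2 ih3 =>
    intro n r hr
    obtain ⟨u, rfl⟩ := hr h1
    obtain ⟨T₁, hT₁, h₁⟩ := ih1 n r hr
    obtain ⟨T₂, hT₂, h₂⟩ := ih2 n r hr
    obtain ⟨T₃, hT₃, h₃⟩ := ih3 n r hr
    refine ⟨.sgn u T₁ T₂ T₃, by simp [Tree.depth]; omega, fun x hx => ?_⟩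
    rw [Tree.run, val_ev]
    rcases lt_trichotomy (ev x (opPoly r u)) 0 with h | h | h
    · rw [if_pos h]; exact h₁ x ⟨hx, h⟩
    · rw [if_neg (by rw [h]; exact lt_irrefl _), if_pos h]; exact h₂ x ⟨hx, h⟩
    · rw [if_neg h.le.not_gt, if_neg h.ne']; exact h₃ x ⟨hx, h⟩

/-- From `Dec` to trees.  The inputs are indexed by `Fin n`. -/
theorem exists_tree {n M c : ℕ} {F : (Fin n → ℝ) → β}
    (h : Dec M c (Set.range X) Set.univ F) :
    ∃ T : Tree β n, T.depth ≤ c ∧ ∀ x, T.run x = F x := by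
  obtain ⟨T, h1, h2⟩ := exists_tree_aux h n X (by
    rintro _ ⟨i, rfl⟩
    exact ⟨Sum.inl i, by simp [opPoly]⟩)
  exact ⟨T, h1, fun x => by simpa using h2 x trivial⟩

end Pool.Agent.QC
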