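import Pool.Agent.QC.Rec.Chain
import Pool.Agent.QC.Tree
import Pool.Agent.QC.Asm.RecordInv

/-!
# MP_7c50a9_lc: the algorithmic part (interface)
-/

namespace Pool.Agent.QC

open MvPolynomial Filter Topology Set

/-- (C) The record is computed with `k ^ O(l)` operations. -/
theorem algorithm : ∃ A : ℕ, ∀ n l : ℕ, 1 ≤ n → 1 ≤ l →
    ∃ (Phi : MvPolynomial (Ix n l) ℂ), GoodPhi Phi ∧ ∃ (RS : RootSys Phi)
      (N1 : QP ℤ (n + 1)) (G : Fin l → QP ℤ (n + 1)), GoodBase Phi N1 G ∧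
      ∃ F₀ : (Ixb n l → ℝ) → List EvRec,
        (∃ M c, c ≤ (n + 1) ^ (A * l) ∧ Dec M c (range X) univ F₀) ∧
        ∀ x : Ixb n l → ℝ, ∀ᶠ δ in 𝓝[>] (0 : ℝ), ∀ᶠ ε in 𝓝[>] (0 : ℝ), ∀ᶠ ρ in 𝓝[>] (0 : ℝ),
          HasRec RS (tC (baseT (qZR N1) (fun i => qZR (G i)) (-1) (-1)))
            (qb (qZR N1) (fun i => qZR (G i)) (ofcf x) δ ε ρ) (-2 / ρ) (F₀ x) :=
  algorithm_main

/-- The final theorem before the translation to syntactic trees. -/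
theorem count_dec : ∃ A : ℕ, ∀ n l : ℕ, 1 ≤ n → 1 ≤ l →
    (∀ x : Ixb n l → ℝ, Finite (ConnectedComponents (Sset (ofcf x)))) ∧
    ∃ M c, c ≤ (n + 1) ^ (A * l) ∧ Dec M c (range (X : Ixb n l → MvPolynomial (Ixb n l) ℤ)) univ
      (fun x => Nat.card (ConnectedComponents (Sset (ofcf x)))) := by
  obtain ⟨A, hA⟩ := algorithm
  refine ⟨A, fun n l hn hl => ?_⟩
  obtain ⟨Phi, hPhi, RS, N1, G, hB, F₀, ⟨M, c, hc, hD⟩, hrec⟩ := hA n l hn hl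
  refine ⟨fun x => (Red.reduction hPhi hB (ofcf x)).1, M, c, hc, hD.factor ?_⟩
  intro x _ y _ hxy
  have hx := (hrec x).and (Red.reduction hPhi hB (ofcf x)).2
  have hy := (hrec y).and (Red.reduction hPhi hB (ofcf y)).2
  obtain ⟨δ, h1, h2⟩ := hx.exists
  obtain ⟨ε, h3, h4⟩ := (h1.and h2).exists
  obtain ⟨ρ, h5, h6, h7⟩ := (h3.and h4).exists
  obtain ⟨δ', h1', h2'⟩ := hy.exists
  obtain ⟨ε', h3', h4'⟩ := (h1'.and h2').exists
  obtain ⟨ρ', h5', h6', h7'⟩ := (h3'.and h4').exists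
  rw [← h7, ← h7']
  exact record_inv hn hPhi RS _ hB.nz h6 h6' (hxy ▸ h5) h5'

end Pool.Agent.QC
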