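import Pool.Agent.QC.FRed

/-!
# MP_7c50a9_lc, section 2.2: multiplication by `f`, the functional of exponent `a - 1`
-/

namespace Pool.Agent.QC

open MvPolynomial

variable {m : ℕ}

/-- The basic identity of section 2.2. -/
theorem Dop_mul_self (e : Fin m → ℕ) (a : ℂ) (f : Pol m) (i : Fin m) (P : Pol m) :
    Dop e (a - 1) f i (f * P) = f * Dop e a f i P := by
  simp only [Dop, th_mul]
  rw [show a - 1 + 1 = a by ring]
  simp only [map_add, map_one]
  ring

/-- The basic identity of section 2.3. -/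
theorem Dop_conn (e : Fin m → ℕ) (a : ℂ) (f h : Pol m) (i : Fin m) (P : Pol m) :
    f * Dop e a h i P + C a * (h * Dop e a f i P) = C (a + 1) * Dop e (a - 1) f i (h * P) := by
  simp only [Dop, th_mul]
  rw [show a - 1 + 1 = a by ring]
  simp only [map_add, map_one]
  ring

/-- `y ∘ f` is in `Zs` of exponent `a` for `y` in `Zs` of exponent `a - 1`. -/
theorem comp_mul_mem {e : Fin m → ℕ} {a : ℂ} {f : Pol m} {y : Fnl m}
    (hy : y ∈ Zs e (a - 1) f) : y ∘ₗ LinearMap.mulLeft ℂ f ∈ Zs e a f := by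
  intro i P
  rw [LinearMap.comp_apply, LinearMap.mulLeft_apply, ← Dop_mul_self]
  exact hy i (f * P)

/-- A functional killing `f A` and all `(th_i f) A` is zero for regular `f`. -/
theorem eq_zero_of_reg {e : Fin m → ℕ} {f : Pol m} (hf : Reg e f) {y : Fnl m}
    (h0 : ∀ P, y (f * P) = 0) (h1 : ∀ i P, y (th e i f * P) = 0) : y = 0 := by
  classical
  set I : Ideal (Pol m) := Ideal.span (insert f (Set.range (fun i => th e i f))) with hI
  have hzl : zeroLocus ℂ I = ∅ := by
    rw [Set.eq_empty_iff_forall_notMem]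
    intro w hw
    rw [mem_zeroLocus_iff] at hw
    refine hf ⟨w, ?_, fun i => ?_⟩
    · have := hw f (Ideal.subset_span (Set.mem_insert _ _))
      exact this
    · have := hw (th e i f) (Ideal.subset_span (Set.mem_insert_of_mem _ ⟨i, rfl⟩))
      exact this
  have htop : I = ⊤ := by
    have h2 := vanishingIdeal_zeroLocus_eq_radical (K := ℂ) I
    rw [hzl] at h2
    have h3 : I.radical = ⊤ := by
      rw [← h2, Ideal.eq_top_iff_one]
      rw [mem_vanishingIdeal_iff]
      intro x hx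
      exact absurd hx (Set.notMem_empty x)
    exact Ideal.radical_eq_top.mp h3
  have hkill : ∀ Q ∈ I, ∀ R : Pol m, y (R * Q) = 0 := by
    intro Q hQ
    refine Submodule.span_induction (p := fun Q _ => ∀ R : Pol m, y (R * Q) = 0)
      ?_ ?_ ?_ ?_ hQ
    · intro x hx R
      rcases hx with rfl | ⟨i, rfl⟩
      · rw [mul_comm]
        exact h0 R
      · rw [mul_comm]
        exact h1 i R
    · intro R
      rw [mul_zero, map_zero]
    · intro x z _ _ hx hz R
      rw [mul_add, map_add, hx R, hz R, add_zero]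
    · intro r x _ hx R
      rw [smul_eq_mul, ← mul_assoc]
      exact hx _
  refine LinearMap.ext (fun P => ?_)
  rw [LinearMap.zero_apply]
  have := hkill P (htop ▸ Submodule.mem_top) 1
  rwa [one_mul] at this

/-- Injectivity of `mu`. -/
theorem mu_inj {e : Fin m → ℕ} {a : ℂ} (ha : a ≠ 0) {f : Pol m} (hf : Reg e f) {y : Fnl m}
    (hy : y ∈ Zs e (a - 1) f) (h0 : ∀ P, y (f * P) = 0) : y = 0 := by
  refine eq_zero_of_reg hf h0 (fun i P => ?_)
  have h1 := hy i P
  simp only [Dop] at h1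
  rw [show a - 1 + 1 = a by ring, map_add, h0, add_zero, mul_assoc, ← smul_eq_C_mul, map_smul,
    smul_eq_mul] at h1
  exact (mul_eq_zero.mp h1).resolve_left ha

theorem low_unique {e : Fin m → ℕ} {a : ℂ} (ha : a ≠ 0) {f : Pol m} (hf : Reg e f)
    {y y₁ y₂ : Fnl m} (h1 : Low e a f y y₁) (h2 : Low e a f y y₂) : y₁ = y₂ := by
  have h3 : y₁ - y₂ = 0 := by
    refine mu_inj ha hf ((Zs e (a - 1) f).sub_mem h1.1 h2.1) (fun P => ?_)
    rw [LinearMap.sub_apply, h1.2, h2.2, sub_self]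
  exact sub_eq_zero.mp h3

theorem low_exists {e : Fin m → ℕ} (he : ∀ i, e i ≤ 1) {D : ℕ} (hD : 2 ≤ D) {c : Fin m → ℂ}
    {f : Pol m} (hf : TopF D c f) {a : ℂ} (ha : IrrC a) (hreg : Reg e f) {y : Fnl m}
    (hy : y ∈ Zs e a f) : ∃ y', Low e a f y y' := by
  set μ : Zs e (a - 1) f →ₗ[ℂ] Zs e a f :=
    { toFun := fun z => ⟨z.1 ∘ₗ LinearMap.mulLeft ℂ f, comp_mul_mem z.2⟩
      map_add' := by
        intro z z'
        refine Subtype.ext (LinearMap.ext (fun P => ?_))
        rfl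
      map_smul' := by
        intro r z
        refine Subtype.ext (LinearMap.ext (fun P => ?_))
        rfl } with hμ
  have e1 := boxEquiv he hD hf ha
  have e2 := boxEquiv he hD hf ha.sub_one
  have : FiniteDimensional ℂ (Zs e a f) := LinearEquiv.finiteDimensional e1.symm
  have : FiniteDimensional ℂ (Zs e (a - 1) f) := LinearEquiv.finiteDimensional e2.symm
  have hdim : Module.finrank ℂ (Zs e (a - 1) f) = Module.finrank ℂ (Zs e a f) :=
    (e2.trans e1.symm).finrank_eq
  have hinj : Function.Injective μ := by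
    rw [← LinearMap.ker_eq_bot, LinearMap.ker_eq_bot']
    intro z hz
    refine Subtype.ext (mu_inj ha.ne_zero hreg z.2 (fun P => ?_))
    have := LinearMap.congr_fun (congrArg Subtype.val hz) P
    simpa [hμ] using this
  have hsurj : Function.Surjective μ :=
    (LinearMap.injective_iff_surjective_of_finrank_eq_finrank hdim).mp hinj
  obtain ⟨z, hz⟩ := hsurj ⟨y, hy⟩
  refine ⟨z.1, z.2, fun P => ?_⟩
  have := LinearMap.congr_fun (congrArg Subtype.val hz) P
  simpa [hμ] using this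

theorem low_existsUnique {e : Fin m → ℕ} (he : ∀ i, e i ≤ 1) {D : ℕ} (hD : 2 ≤ D)
    {c : Fin m → ℂ} {f : Pol m} (hf : TopF D c f) {a : ℂ} (ha : IrrC a) (hreg : Reg e f)
    {y : Fnl m} (hy : y ∈ Zs e a f) : ∃! y', Low e a f y y' := by
  obtain ⟨y', hy'⟩ := low_exists he hD hf ha hreg hy
  exact ⟨y', hy', fun z hz => low_unique ha.ne_zero hreg hz hy'⟩

/-- The matrix of `y ↦ (y (h x ^ b))_b` in box coordinates. -/
noncomputable def mulMat {D : ℕ} (e : Fin m → ℕ) (a : ℂ) (c : Fin m → ℂ) (h F : Cf m D) :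
    Matrix (BoxT D e) (BoxT D e) ℂ :=
  fun b g => eval F (red e a c (pol h * mon b) g)

theorem mulMat_spec {e : Fin m → ℕ} (he : ∀ i, e i ≤ 1) {D : ℕ} (hD : 2 ≤ D)
    {c : Fin m → ℂ} {a : ℂ} (ha : IrrC a) (h : Cf m D) {F : Cf m D} (hF : TopF D c (pol F))
    {y : Fnl m} (hy : y ∈ Zs e a (pol F)) :
    (mulMat e a c h F).mulVec (fun b => y (mon b)) = fun b => y (pol h * mon b) := by
  funext b
  rw [red_spec he hD ha hF hy]
  rfl

theorem pol_add {D : ℕ} (h k : Cf m D) : pol (h + k) = pol h + pol k := by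
  simp only [pol_eq, Pi.add_apply, map_add, Finset.sum_add_distrib]

theorem pol_smul {D : ℕ} (r : ℂ) (h : Cf m D) : pol (r • h) = r • pol h := by
  simp only [pol_eq, Pi.smul_apply, Finset.smul_sum, smul_monomial]

/-- `pol` as a linear map. -/
noncomputable def polL (m D : ℕ) : Cf m D →ₗ[ℂ] Pol m where
  toFun := pol
  map_add' := pol_add
  map_smul' := pol_smul

theorem mulMat_eq {D : ℕ} (e : Fin m → ℕ) (a : ℂ) (c : Fin m → ℂ) (h F : Cf m D)
    (b g : BoxT D e) : mulMat e a c h F b g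
      = ∑ t, h t * eval F (red e a c (monomial (ofIdx t) 1 * mon b) g) := by
  unfold mulMat
  have h1 : pol h * mon b = ∑ t, h t • (monomial (ofIdx t) 1 * mon b : Pol m) := by
    rw [pol_eq, Finset.sum_mul]
    refine Finset.sum_congr rfl (fun t _ => ?_)
    rw [← smul_mul_assoc, smul_monomial, smul_eq_mul, mul_one]
  rw [h1, map_sum, Finset.sum_apply, map_sum]
  refine Finset.sum_congr rfl (fun t _ => ?_)
  rw [map_smul, Pi.smul_apply, smul_eval]

theorem mulMat_add {D : ℕ} (e : Fin m → ℕ) (a : ℂ) (c : Fin m → ℂ) (h k F : Cf m D) :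
    mulMat e a c (h + k) F = mulMat e a c h F + mulMat e a c k F := by
  ext b g
  rw [Matrix.add_apply, mulMat_eq, mulMat_eq, mulMat_eq, ← Finset.sum_add_distrib]
  refine Finset.sum_congr rfl (fun t _ => ?_)
  rw [Pi.add_apply]
  ring

theorem mulMat_smul {D : ℕ} (e : Fin m → ℕ) (a : ℂ) (c : Fin m → ℂ) (r : ℂ) (h F : Cf m D) :
    mulMat e a c (r • h) F = r • mulMat e a c h F := by
  ext b g
  rw [Matrix.smul_apply, mulMat_eq, mulMat_eq, smul_eq_mul, Finset.mul_sum]
  refine Finset.sum_congr rfl (fun t _ => ?_)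
  rw [Pi.smul_apply, smul_eq_mul]
  ring

theorem contDiff_eval {ι : Type*} [Fintype ι] (𝕜 : Type*) [NontriviallyNormedField 𝕜]
    [NormedAlgebra 𝕜 ℂ] (r : MvPolynomial ι ℂ) {n : WithTop ℕ∞} :
    ContDiff 𝕜 n (fun F : ι → ℂ => eval F r) := by
  induction r using MvPolynomial.induction_on with
  | C c => simpa using contDiff_const
  | add p q hp hq => simpa using hp.add hq
  | mul_X p i hp => simpa using hp.mul (contDiff_apply 𝕜 ℂ i)

theorem contDiff_mulMat {D : ℕ} (e : Fin m → ℕ) (a : ℂ) (c : Fin m → ℂ) (𝕜 : Type*)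
    [NontriviallyNormedField 𝕜] [NormedAlgebra 𝕜 ℂ] {n : WithTop ℕ∞} (b g : BoxT D e) :
    ContDiff 𝕜 n (fun p : Cf m D × Cf m D => mulMat e a c p.1 p.2 b g) := by
  simp only [mulMat_eq]
  refine ContDiff.sum (fun t _ => ContDiff.mul ?_ ?_)
  · exact (contDiff_apply 𝕜 ℂ t).comp contDiff_fst
  · exact (contDiff_eval 𝕜 _).comp contDiff_snd

/-- `mu` is invertible at regular `f`. -/
theorem isUnit_mu {e : Fin m → ℕ} (he : ∀ i, e i ≤ 1) {D : ℕ} (hD : 2 ≤ D)
    {c : Fin m → ℂ} {a : ℂ} (ha : IrrC a) {F : Cf m D} (hF : TopF D c (pol F))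
    (hreg : Reg e (pol F)) : IsUnit (mulMat e (a - 1) c F F) := by
  rw [← Matrix.mulVec_injective_iff_isUnit]
  intro u v huv
  obtain ⟨y, hy, hyu⟩ := box_surj he hD hF ha.sub_one (u - v)
  have h1 := mulMat_spec he hD ha.sub_one F hF hy
  have h2 : (fun b => y (mon b)) = u - v := funext hyu
  have h3 : (mulMat e (a - 1) c F F).mulVec (u - v) = 0 := by
    rw [Matrix.mulVec_sub]
    exact sub_eq_zero.mpr huv
  rw [h2, h3] at h1
  have h4 : y ∘ₗ LinearMap.mulLeft ℂ (pol F) = 0 :=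
    box_inj he hD hF ha (comp_mul_mem hy) (fun b => (congrFun h1 b).symm)
  have h5 : y = 0 := mu_inj ha.ne_zero hreg hy (fun P => LinearMap.congr_fun h4 P)
  rw [h5] at h2
  have h6 : u - v = 0 := by
    rw [← h2]
    rfl
  exact sub_eq_zero.mp h6

/-- The connection matrix in the direction `h`. -/
noncomputable def connMat {D : ℕ} (e : Fin m → ℕ) (a : ℂ) (c : Fin m → ℂ) (h F : Cf m D) :
    Matrix (BoxT D e) (BoxT D e) ℂ :=
  a • (mulMat e (a - 1) c h F * (mulMat e (a - 1) c F F)⁻¹)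

theorem connMat_spec {e : Fin m → ℕ} (he : ∀ i, e i ≤ 1) {D : ℕ} (hD : 2 ≤ D)
    {c : Fin m → ℂ} {a : ℂ} (ha : IrrC a) (h : Cf m D) {F : Cf m D} (hF : TopF D c (pol F))
    (hreg : Reg e (pol F)) {y y' : Fnl m} (hy : Low e a (pol F) y y') :
    (connMat e a c h F).mulVec (fun b => y (mon b)) = fun b => a * y' (pol h * mon b) := by
  have h1 := mulMat_spec he hD ha.sub_one F hF hy.1
  have h2 := mulMat_spec he hD ha.sub_one h hF hy.1
  have h3 : (fun b => y (mon b)) = (mulMat e (a - 1) c F F).mulVec (fun b => y' (mon b)) := by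
    rw [h1]
    funext b
    exact (hy.2 (mon b)).symm
  have h4 : (mulMat e (a - 1) c F F)⁻¹ * mulMat e (a - 1) c F F = 1 :=
    Matrix.nonsing_inv_mul _ ((Matrix.isUnit_iff_isUnit_det _).mp (isUnit_mu he hD ha hF hreg))
  unfold connMat
  rw [h3, Matrix.smul_mulVec, ← Matrix.mulVec_mulVec, Matrix.mulVec_mulVec _
    ((mulMat e (a - 1) c F F)⁻¹), h4, Matrix.one_mulVec, h2]
  funext b
  rfl

end Pool.Agent.QC
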