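import Mathlib

/-!
# MP_7c50a9_lc: theorem INV (section 6 of QC_Proof.md), the linear algebra

`Ev V` is what the record says about one event: its class and three subspaces of the fixed space
`V`.  `Trans d u o` says how the vectors `u` of the components before an event `d` and the vectors
`o` of the components after it are related.  `Hist l u` : the vectors `u` arise from the empty set
by the events of the list `l` (last event first).  Two histories with the same list have the same
number of components, and the vectors agree up to nonzero scalars.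
-/

namespace Pool.Agent.QC

/-- The class of an event: index zero, index one, other (index at least two, or a ghost). -/
inductive Cls
  | zero
  | one
  | other

/-- The data of an event. -/
structure Ev (V : Type*) [AddCommGroup V] [Module ℂ V] where
  /-- the class -/
  cls : Cls
  /-- the elements satisfying all conditions except those at the pair -/
  E : Submodule ℂ V
  /-- the condition at the upper (right) point of the pair -/
  U : Submodule ℂ V
  /-- the condition at the lower point of the pair -/
  L : Submodule ℂ V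

variable {V : Type*} [AddCommGroup V] [Module ℂ V]

/-- Index at least two, or a ghost: the components after the event are the components before
it. -/
def TransOther (d : Ev V) {ι κ : Type} (u : ι → V) (o : κ → V) : Prop :=
  Disjoint d.E d.U ∧ ∃ π : ι ≃ κ, ∀ i, o (π i) - u i ∈ d.E ∧ o (π i) ∈ d.U

/-- Index zero: one new component. -/
def TransZero (d : Ev V) {ι κ : Type} (u : ι → V) (o : κ → V) : Prop :=
  Disjoint d.E d.U ∧ (∀ x ∈ d.E, ∀ y ∈ d.E, x ≠ 0 → ∃ c : ℂ, y = c • x) ∧
    ∃ π : Option ι ≃ κ, o (π none) ∈ d.E ∧ o (π none) ≠ 0 ∧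
      ∀ i, o (π (some i)) - u i ∈ d.E ∧ o (π (some i)) ∈ d.U

/-- Index one: the components `im`, `ip` (containing the left and the right end) are joined if
they are different. -/
def TransOne (d : Ev V) {ι κ : Type} (u : ι → V) (o : κ → V) : Prop :=
  Disjoint d.E d.U ∧ Disjoint d.E d.L ∧ (∀ k, o k ∈ d.U ∧ o k ∈ d.L) ∧
    ∃ im ip : ι, (∀ i, u i ∈ d.U ↔ i ≠ im) ∧ (∀ i, u i ∈ d.L ↔ i ≠ ip) ∧
      ∃ π : ι → κ, Function.Surjective π ∧
        (∀ i j, π i = π j ↔ i = j ∨ ((i = im ∨ i = ip) ∧ (j = im ∨ j = ip))) ∧
        (∀ i, i ≠ im → i ≠ ip → o (π i) - u i ∈ d.E) ∧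
        (im = ip → o (π im) - u im ∈ d.E) ∧
        (im ≠ ip → o (π im) - (u im + u ip) ∈ d.E)

/-- The relation between the vectors before and after an event. -/
def Trans (d : Ev V) {ι κ : Type} (u : ι → V) (o : κ → V) : Prop :=
  match d.cls with
  | .zero => TransZero d u o
  | .one => TransOne d u o
  | .other => TransOther d u o

/-- Equal up to a bijection and nonzero scalars. -/
def Sim {ι ι' : Type} (u : ι → V) (u' : ι' → V) : Prop :=
  ∃ φ : ι ≃ ι', ∃ c : ι → ℂ, ∀ i, c i ≠ 0 ∧ u i = c i • u' (φ i)

lemma sub_smul_eq_zero {E U : Submodule ℂ V} (hEU : Disjoint E U) {o o' u u' : V} {c : ℂ}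
    (h : o - u ∈ E) (h' : o' - u' ∈ E) (hu : u = c • u') (ho : o ∈ U) (ho' : o' ∈ U) :
    o = c • o' := by
  have h1 : o - c • o' ∈ E := by
    have : o - c • o' = (o - u) - c • (o' - u') := by
      rw [hu, smul_sub]
      abel
    rw [this]
    exact E.sub_mem h (E.smul_mem c h')
  have h2 : o - c • o' ∈ U := U.sub_mem ho (U.smul_mem c ho')
  exact sub_eq_zero.mp (Submodule.disjoint_def.mp hEU _ h1 h2)

theorem sim_other {d : Ev V} {ι κ ι' κ' : Type} {u : ι → V} {o : κ → V} {u' : ι' → V}
    {o' : κ' → V} (h : Sim u u') (ht : TransOther d u o) (ht' : TransOther d u' o') :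
    Sim o o' := by
  obtain ⟨φ, c, hc⟩ := h
  obtain ⟨hEU, π, hπ⟩ := ht
  obtain ⟨_, π', hπ'⟩ := ht'
  refine ⟨(π.symm.trans φ).trans π', fun k => c (π.symm k), fun k => ⟨(hc _).1, ?_⟩⟩
  have h1 := hπ (π.symm k)
  have h2 := hπ' (φ (π.symm k))
  rw [Equiv.apply_symm_apply] at h1
  exact sub_smul_eq_zero hEU h1.1 h2.1 (hc _).2 h1.2 h2.2

theorem sim_zero {d : Ev V} {ι κ ι' κ' : Type} {u : ι → V} {o : κ → V} {u' : ι' → V}
    {o' : κ' → V} (h : Sim u u') (ht : TransZero d u o) (ht' : TransZero d u' o') :
    Sim o o' := by
  obtain ⟨φ, c, hc⟩ := h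
  obtain ⟨hEU, hdim, π, hn1, hn2, hπ⟩ := ht
  obtain ⟨_, _, π', hn1', hn2', hπ'⟩ := ht'
  obtain ⟨c₀, hc₀⟩ := hdim _ hn1' _ hn1 hn2'
  have hc₀' : c₀ ≠ 0 := by
    rintro rfl
    exact hn2 (by rw [hc₀, zero_smul])
  refine ⟨(π.symm.trans (Equiv.optionCongr φ)).trans π',
    fun k => (π.symm k).elim c₀ c, fun k => ?_⟩
  obtain ⟨x, rfl⟩ := π.surjective k
  rcases x with _ | i
  · simpa using ⟨hc₀', hc₀⟩
  · have h1 := hπ i
    have h2 := hπ' (φ i)
    refine ⟨by simpa using (hc i).1, ?_⟩
    have := sub_smul_eq_zero hEU h1.1 h2.1 (hc _).2 h1.2 h2.2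
    simpa using this

theorem sim_one {d : Ev V} {ι κ ι' κ' : Type} {u : ι → V} {o : κ → V} {u' : ι' → V}
    {o' : κ' → V} (h : Sim u u') (ht : TransOne d u o) (ht' : TransOne d u' o') :
    Sim o o' := by
  obtain ⟨φ, c, hc⟩ := h
  obtain ⟨hEU, hEL, ho, im, ip, him, hip, π, hs, hπ, h1, h2, h3⟩ := ht
  obtain ⟨_, _, ho', im', ip', him', hip', π', hs', hπ', h1', h2', h3'⟩ := ht'
  have hm : φ im = im' := by
    by_contra hne
    have h4 := (him' (φ im)).2 hne
    have h5 : u im ∈ d.U := by
      rw [(hc im).2]
      exact d.U.smul_mem _ h4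
    exact (him im).1 h5 rfl
  have hp : φ ip = ip' := by
    by_contra hne
    have h4 := (hip' (φ ip)).2 hne
    have h5 : u ip ∈ d.L := by
      rw [(hc ip).2]
      exact d.L.smul_mem _ h4
    exact (hip ip).1 h5 rfl
  -- the equality of vectors, for all components after the event
  have key : ∀ i, o (π i) = c i • o' (π' (φ i)) := by
    intro i
    have hUi := (ho (π i)).1
    have hLi := (ho (π i)).2
    have hUi' := (ho' (π' (φ i))).1
    have hLi' := (ho' (π' (φ i))).2
    by_cases hE : im = ip
    · -- no merging
      have hE' : im' = ip' := by rw [← hm, ← hp, hE]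
      have ha : o (π i) - u i ∈ d.E := by
        by_cases hi : i = im
        · subst hi
          exact h2 hE
        · exact h1 i hi (by rw [← hE]; exact hi)
      have hb : o' (π' (φ i)) - u' (φ i) ∈ d.E := by
        by_cases hi : φ i = im'
        · rw [hi]
          exact h2' hE'
        · exact h1' _ hi (by rw [← hE']; exact hi)
      exact sub_smul_eq_zero hEU ha hb (hc i).2 hUi hUi'
    · have hE' : im' ≠ ip' := by
        rw [← hm, ← hp]
        exact fun h => hE (φ.injective h)
      by_cases hi : i = im ∨ i = ip
      · -- the merged component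
        have hoi : π i = π im := (hπ i im).2 (Or.inr ⟨hi, Or.inl rfl⟩)
        have hoi' : π' (φ i) = π' im' := by
          refine (hπ' _ _).2 (Or.inr ⟨?_, Or.inl rfl⟩)
          rcases hi with rfl | rfl
          · exact Or.inl hm
          · exact Or.inr hp
        have e1 := h3 hE
        have e1' := h3' hE'
        have hum := hc im
        have hup := hc ip
        rw [hm] at hum
        rw [hp] at hup
        have umU : u ip ∈ d.U := (him ip).2 (Ne.symm hE)
        have umU' : u' ip' ∈ d.U := (him' ip').2 (Ne.symm hE')
        have umL : u im ∈ d.L := (hip im).2 hE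
        have umL' : u' im' ∈ d.L := (hip' im').2 hE'
        set e := o (π im) - (u im + u ip) with he
        set e' := o' (π' im') - (u' im' + u' ip') with he'
        -- e = c im • e'
        have k1 : e = c im • e' := by
          have a1 : e - c im • e' ∈ d.E := d.E.sub_mem e1 (d.E.smul_mem _ e1')
          have a2 : e - c im • e' ∈ d.U := by
            have : e - c im • e' =
                (o (π im) - u ip) - c im • (o' (π' im') - u' ip') := by
              rw [he, he', hum.2]
              module
            rw [this]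
            exact d.U.sub_mem (d.U.sub_mem (ho _).1 umU)
              (d.U.smul_mem _ (d.U.sub_mem (ho' _).1 umU'))
          exact sub_eq_zero.mp (Submodule.disjoint_def.mp hEU _ a1 a2)
        have k2 : e = c ip • e' := by
          have a1 : e - c ip • e' ∈ d.E := d.E.sub_mem e1 (d.E.smul_mem _ e1')
          have a2 : e - c ip • e' ∈ d.L := by
            have : e - c ip • e' =
                (o (π im) - u im) - c ip • (o' (π' im') - u' im') := by
              rw [he, he', hup.2]
              module
            rw [this]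
            exact d.L.sub_mem (d.L.sub_mem (ho _).2 umL)
              (d.L.smul_mem _ (d.L.sub_mem (ho' _).2 umL'))
          exact sub_eq_zero.mp (Submodule.disjoint_def.mp hEL _ a1 a2)
        have he0 : e' ≠ 0 := by
          intro h0
          have : u' im' = o' (π' im') - u' ip' := by
            have : o' (π' im') - (u' im' + u' ip') = 0 := h0
            have := sub_eq_zero.mp this
            rw [this]
            abel
          have : u' im' ∈ d.U := by
            rw [this]
            exact d.U.sub_mem (ho' _).1 umU'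
          exact (him' im').1 this rfl
        have hcc : c im = c ip := by
          have : (c im - c ip) • e' = 0 := by
            rw [sub_smul, ← k1, ← k2, sub_self]
          rcases smul_eq_zero.mp this with h | h
          · exact sub_eq_zero.mp h
          · exact absurd h he0
        have hci : c i = c im := by
          rcases hi with rfl | rfl
          · rfl
          · exact hcc.symm
        rw [hoi, hoi', hci]
        have a1 : o (π im) = e + (u im + u ip) := by rw [he]; abel
        have a2 : o' (π' im') = e' + (u' im' + u' ip') := by rw [he']; abel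
        rw [a1, a2, k1, hum.2, hup.2, ← hcc]
        module
      · push Not at hi
        have hi1 : φ i ≠ im' := by
          rw [← hm]
          exact fun h => hi.1 (φ.injective h)
        have hi2 : φ i ≠ ip' := by
          rw [← hp]
          exact fun h => hi.2 (φ.injective h)
        exact sub_smul_eq_zero hEU (h1 i hi.1 hi.2) (h1' _ hi1 hi2) (hc i).2 hUi hUi'
  -- the bijection
  have hiff : ∀ i j, π i = π j ↔ π' (φ i) = π' (φ j) := by
    intro i j
    rw [hπ, hπ', ← hm, ← hp]
    simp only [φ.injective.eq_iff]
  have hinv : ∀ k, π (Function.surjInv hs k) = k := Function.surjInv_eq hs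
  refine ⟨Equiv.ofBijective (fun k => π' (φ (Function.surjInv hs k))) ⟨?_, ?_⟩,
    fun k => c (Function.surjInv hs k), fun k => ⟨(hc _).1, ?_⟩⟩
  · intro k k' hk
    have := (hiff _ _).2 hk
    rwa [hinv, hinv] at this
  · intro k'
    obtain ⟨j', rfl⟩ := hs' k'
    obtain ⟨j, rfl⟩ := φ.surjective j'
    refine ⟨π j, ?_⟩
    refine ((hiff _ _).1 ?_)
    rw [hinv]
  · have := key (Function.surjInv hs k)
    rw [hinv] at this
    exact this

theorem sim_trans {d : Ev V} {ι κ ι' κ' : Type} {u : ι → V} {o : κ → V} {u' : ι' → V}
    {o' : κ' → V} (h : Sim u u') (ht : Trans d u o) (ht' : Trans d u' o') :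
    Sim o o' := by
  rcases d with ⟨cls, E, U, L⟩
  rcases cls with _ | _ | _
  · exact sim_zero h ht ht'
  · exact sim_one h ht ht'
  · exact sim_other h ht ht'

/-- The vectors `u` arise from the empty family by the events of `l`, the last event first. -/
inductive Hist : List (Ev V) → {ι : Type} → (ι → V) → Prop
  | nil {ι : Type} (h : IsEmpty ι) (u : ι → V) : Hist [] u
  | cons {l : List (Ev V)} {d : Ev V} {ι κ : Type} {u : ι → V} {o : κ → V} (h : Hist l u)
      (ht : Trans d u o) : Hist (d :: l) o

/-- **Theorem INV.** -/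
theorem Hist.sim {l : List (Ev V)} {ι : Type} {u : ι → V} (h : Hist l u) :
    ∀ {ι' : Type} {u' : ι' → V}, Hist l u' → Sim u u' := by
  induction h with
  | nil hι u =>
    intro ι' u' h'
    cases h' with
    | nil hι' =>
      exact ⟨Equiv.equivOfIsEmpty _ _, fun _ => 1, fun i => (hι.false i).elim⟩
  | cons _ ht ih =>
    intro ι' u' h'
    cases h' with
    | cons h1 h2 => exact sim_trans (ih h1) ht h2

theorem Hist.card_eq {l : List (Ev V)} {ι ι' : Type} {u : ι → V} {u' : ι' → V} (h : Hist l u)
    (h' : Hist l u') : Nat.card ι = Nat.card ι' := by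
  obtain ⟨φ, _⟩ := h.sim h'
  exact Nat.card_congr φ

end Pool.Agent.QC
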