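import Mathlib

/-!
# Chistov's identity

`det (1 - t A) * Σ_m (A ^ m)₀₀ t ^ m = det (1 - t A')`, `A'` = `A` without the first row and column.
-/

namespace Pool.Agent.QC

open Matrix Polynomial

variable {R : Type*} [CommRing R]

theorem chistov {n : ℕ} (A : Matrix (Fin (n + 1)) (Fin (n + 1)) R) :
    (A.charpolyRev : PowerSeries R) * PowerSeries.mk (fun m => (A ^ m) 0 0) =
      ((A.submatrix Fin.succ Fin.succ).charpolyRev : PowerSeries R) := by
  set B : Matrix (Fin (n + 1)) (Fin (n + 1)) (PowerSeries R) :=
    1 - (PowerSeries.X : PowerSeries R) • A.map (PowerSeries.C (R := R)) with hB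
  set S : Matrix (Fin (n + 1)) (Fin (n + 1)) (PowerSeries R) :=
    Matrix.of fun i j => PowerSeries.mk (fun m => (A ^ m) i j) with hS
  have hBS : B * S = 1 := by
    ext i j m
    rw [hB, Matrix.sub_mul, Matrix.one_mul, Matrix.smul_mul]
    cases m with
    | zero =>
      simp [hS, Matrix.one_apply]
    | succ m =>
      simp [hS, Matrix.one_apply, Matrix.mul_apply, PowerSeries.coeff_succ_X_mul, pow_succ']
      split_ifs <;> simp [PowerSeries.coeff_one]
  have hadj : B.adjugate = B.det • S := by
    have : B.adjugate * (B * S) = B.adjugate := by rw [hBS, Matrix.mul_one]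
    rw [← this, ← Matrix.mul_assoc, Matrix.adjugate_mul, Matrix.smul_mul, Matrix.one_mul]
  have hdet : ∀ {k : ℕ} (M : Matrix (Fin k) (Fin k) R),
      (M.charpolyRev : PowerSeries R) =
        (1 - (PowerSeries.X : PowerSeries R) • M.map (PowerSeries.C (R := R))).det := by
    intro k M
    rw [Matrix.charpolyRev]
    have := RingHom.map_det (Polynomial.coeToPowerSeries.ringHom (R := R))
      (1 - (X : R[X]) • M.map (C : R → R[X]))
    rw [Polynomial.coeToPowerSeries.ringHom_apply] at this
    rw [this]
    congr 1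
    ext i j m
    simp only [Polynomial.coeToPowerSeries.ringHom, RingHom.mapMatrix_apply, Matrix.map_apply,
      Matrix.sub_apply, Matrix.one_apply, Matrix.smul_apply, smul_eq_mul]
    simp
    split_ifs
    · rw [Polynomial.coeff_one, PowerSeries.coeff_one, mul_comm]
    · rw [Polynomial.coeff_zero, map_zero, mul_comm]
  have h00 := congrFun (congrFun hadj 0) 0
  rw [Matrix.smul_apply, smul_eq_mul, Matrix.adjugate_fin_succ_eq_det_submatrix] at h00
  rw [hdet, hdet, ← hB]
  simp only [hS, Matrix.of_apply] at h00
  rw [← h00]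
  simp only [Fin.coe_ofNat_eq_mod, Nat.zero_mod, add_zero, pow_zero, one_mul, Fin.succAbove_zero]
  congr 1
  ext i j m
  simp [hB, Matrix.one_apply]

end Pool.Agent.QC
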