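import Pool.Agent.QC.Run

/-!
# Substitution of polynomials

A computation with inputs `x : σ → ℝ` is used at inputs which are values of polynomials in other
variables.
-/

namespace Pool.Agent.QC

open MvPolynomial

variable {σ τ : Type*} {β γ : Type*}

lemma totalDegree_bind₁_le {f : σ → MvPolynomial τ ℤ} {m : ℕ} (hf : ∀ i, (f i).totalDegree ≤ m)
    (p : MvPolynomial σ ℤ) : (bind₁ f p).totalDegree ≤ p.totalDegree * m := by
  conv_lhs => rw [p.as_sum, map_sum]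
  refine totalDegree_finsetSum_le fun s hs => ?_
  rw [bind₁_monomial]
  refine (totalDegree_mul _ _).trans ?_
  rw [totalDegree_C, zero_add]
  refine (totalDegree_finsetProd _ _).trans ?_
  have h1 : ∀ i ∈ s.support, (f i ^ s i).totalDegree ≤ s i * m := fun i _ =>
    (totalDegree_pow _ _).trans (Nat.mul_le_mul_left _ (hf i))
  refine (Finset.sum_le_sum h1).trans ?_
  rw [← Finset.sum_mul]
  exact Nat.mul_le_mul_right _ (le_totalDegree hs)

/-- The point with coordinates `f i (y)`. -/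
noncomputable def spt (f : σ → MvPolynomial τ ℤ) (y : τ → ℝ) : σ → ℝ := fun i => ev y (f i)

lemma ev_spt (f : σ → MvPolynomial τ ℤ) (y : τ → ℝ) (p : MvPolynomial σ ℤ) :
    ev (spt f y) p = ev y (bind₁ f p) := by
  induction p using MvPolynomial.induction_on with
  | C a => simp
  | add p q hp hq => simp [hp, hq]
  | mul_X p i hp => simp [hp, spt]

lemma Step.subst {K : Set (MvPolynomial σ ℤ)} {K' : Set (MvPolynomial τ ℤ)}
    {f : σ → MvPolynomial τ ℤ} (hK : ∀ p ∈ K, bind₁ f p ∈ K') {r : MvPolynomial σ ℤ}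
    (h : Step K r) : Step K' (bind₁ f r) := by
  obtain ⟨p, hp, q, hq, rfl | rfl | rfl⟩ := h
  · rw [map_add]; exact Step.add (hK p hp) (hK q hq)
  · rw [map_sub]; exact Step.sub (hK p hp) (hK q hq)
  · rw [map_mul]; exact Step.mul (hK p hp) (hK q hq)

theorem Run.subst {M m c : ℕ} {Q : Set (MvPolynomial σ ℤ) → Set (σ → ℝ) → Prop}
    {K : Set (MvPolynomial σ ℤ)} {D : Set (σ → ℝ)} (h : Run M Q c K D)
    {f : σ → MvPolynomial τ ℤ} (hf : ∀ i, (f i).totalDegree ≤ m)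
    {K' : Set (MvPolynomial τ ℤ)} {D' : Set (τ → ℝ)} (hK : ∀ p ∈ K, bind₁ f p ∈ K')
    (hD : ∀ y ∈ D', spt f y ∈ D) :
    Run (M * m) (fun K₁ D₁ => ∃ K₀ D₀, Q K₀ D₀ ∧ (∀ p ∈ K₀, bind₁ f p ∈ K₁) ∧
      ∀ y ∈ D₁, spt f y ∈ D₀) c K' D' := by
  induction h generalizing K' D' with
  | ret K₀ D₀ h1 h2 h3 =>
    exact Run.pure ⟨K₀, D₀, h3, fun p hp => hK p (h1 hp), fun y hy => h2 (hD y hy)⟩
  | cst z _ ih =>
    refine Run.cst z (ih ?_ hD)
    rintro p (rfl | hp)
    · left; simp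
    · right; exact hK p hp
  | op h1 h2 _ ih =>
    refine Run.op (h1.subst hK) ((totalDegree_bind₁_le hf _).trans
      (Nat.mul_le_mul_right _ h2)) (ih ?_ hD)
    rintro p (rfl | hp)
    · left; rfl
    · right; exact hK p hp
  | @sgn c K D p h1 _ _ _ ih1 ih2 ih3 =>
    refine Run.sgn (hK p h1) (ih1 hK ?_) (ih2 hK ?_) (ih3 hK ?_)
    all_goals
      rintro y ⟨hy1, hy2⟩
      refine ⟨hD y hy1, ?_⟩
      show _
      simp only [Set.mem_ofPred_eq] at hy2 ⊢
      rw [ev_spt]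
      exact hy2

theorem Dec.subst {M m c : ℕ} {F : (σ → ℝ) → β}
    {K : Set (MvPolynomial σ ℤ)} {D : Set (σ → ℝ)} (h : Dec M c K D F)
    {f : σ → MvPolynomial τ ℤ} (hf : ∀ i, (f i).totalDegree ≤ m)
    {K' : Set (MvPolynomial τ ℤ)} {D' : Set (τ → ℝ)} (hK : ∀ p ∈ K, bind₁ f p ∈ K')
    (hD : ∀ y ∈ D', spt f y ∈ D) :
    Dec (M * m) c K' D' (fun y => F (spt f y)) := by
  refine (Run.subst h hf hK hD).mono le_rfl le_rfl subset_rfl subset_rfl ?_
  rintro K₁ D₁ ⟨K₀, D₀, h0, _, h2⟩ x hx y hy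
  exact h0 _ (h2 x hx) _ (h2 y hy)

/-- A computation of polynomials from a `Run`. -/
theorem Calc.of_run {M c : ℕ} {K P : Set (MvPolynomial σ ℤ)}
    (h : ∀ D, Run M (fun K₁ _ => P ⊆ K₁) c K D) : Calc M c K P := by
  intro Q D M' c' K' hM hK h'
  refine Run.bind (((h D).mono_M hM).mono_K hK) fun K₀ D₀ h0 K₁ D₁ h1 h2 h3 _ => ?_
  exact h'.mono le_rfl le_rfl (Set.union_subset h1 (h0.trans h2)) h3 fun _ _ => id

theorem Calc.to_run {M c : ℕ} {K P : Set (MvPolynomial σ ℤ)} (h : Calc M c K P)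
    (D : Set (σ → ℝ)) : Run M (fun K₁ _ => P ⊆ K₁) c K D := by
  have := h (fun K₁ _ => P ⊆ K₁) D M 0 K le_rfl subset_rfl (Run.pure Set.subset_union_right)
  simpa using this

theorem Calc.subst {M m c : ℕ} {K P : Set (MvPolynomial σ ℤ)} (h : Calc M c K P)
    {f : σ → MvPolynomial τ ℤ} (hf : ∀ i, (f i).totalDegree ≤ m)
    {K' : Set (MvPolynomial τ ℤ)} (hK : ∀ p ∈ K, bind₁ f p ∈ K') :
    Calc (M * m) c K' ((bind₁ f) '' P) := by
  refine Calc.of_run fun D => ?_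
  refine (Run.subst (h.to_run Set.univ) hf hK (fun _ _ => trivial)).mono le_rfl le_rfl
    subset_rfl subset_rfl ?_
  rintro K₁ D₁ ⟨K₀, D₀, h0, h1, _⟩ _ ⟨p, hp, rfl⟩
  exact h1 p (h0 hp)

lemma rename_eq_bind (g : σ → τ) (p : MvPolynomial σ ℤ) :
    MvPolynomial.rename g p = bind₁ (fun i => (X (g i) : MvPolynomial τ ℤ)) p := by
  induction p using MvPolynomial.induction_on with
  | C a => simp
  | add p q hp hq => simp [hp, hq]
  | mul_X p i hp => simp [hp]

/-- Renaming variables. -/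
theorem Dec.rename {M c : ℕ} {F : (σ → ℝ) → β}
    {K : Set (MvPolynomial σ ℤ)} {D : Set (σ → ℝ)} (h : Dec M c K D F) (g : σ → τ)
    {K' : Set (MvPolynomial τ ℤ)} {D' : Set (τ → ℝ)} (hK : ∀ p ∈ K, MvPolynomial.rename g p ∈ K')
    (hD : ∀ y ∈ D', (fun i => y (g i)) ∈ D) :
    Dec M c K' D' (fun y => F fun i => y (g i)) := by
  have hspt : ∀ y : τ → ℝ, spt (fun i => (X (g i) : MvPolynomial τ ℤ)) y = fun i => y (g i) := by
    intro y; funext i; simp [spt]
  have h1 := Dec.subst (m := 1) h (f := fun i => (X (g i) : MvPolynomial τ ℤ))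
    (fun i => (totalDegree_X _).le) (K' := K') (D' := D')
    (fun p hp => by
      have := hK p hp
      rwa [rename_eq_bind] at this)
    (fun y hy => by rw [hspt]; exact hD y hy)
  rw [mul_one] at h1
  simpa only [hspt] using h1

end Pool.Agent.QC
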