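import Pool.Agent.QC.Inp
import Pool.Agent.QC.Subst

/-!
# Polynomials of degree at most two and their coefficients
-/

namespace Pool.Agent.QC

open MvPolynomial

section Quad

variable {N : ℕ}

/-- The exponent `x_j x_k`. -/
noncomputable def e2 (j k : Fin N) : Fin N →₀ ℕ := Finsupp.single j 1 + Finsupp.single k 1

lemma degree_e2 (j k : Fin N) : (e2 j k).degree = 2 := by
  rw [e2, map_add, Finsupp.degree_single, Finsupp.degree_single]

/-- Exponents of degree one. -/
lemma exists_single_of_degree_one {m : Fin N →₀ ℕ} (h : m.degree = 1) :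
    ∃ j, m = Finsupp.single j 1 := by
  have h0 : m ≠ 0 := by rintro rfl; simp at h
  obtain ⟨j, hj⟩ := Finsupp.ne_iff.1 h0
  rw [Finsupp.coe_zero, Pi.zero_apply] at hj
  have h1 : Finsupp.single j 1 ≤ m := by
    rw [Finsupp.single_le_iff]
    omega
  obtain ⟨m', rfl⟩ := exists_add_of_le h1
  rw [map_add, Finsupp.degree_single] at h
  have h2 : m'.degree = 0 := by omega
  rw [Finsupp.degree_eq_zero_iff] at h2
  exact ⟨j, by rw [h2, add_zero]⟩

/-- Exponents of degree two. -/
lemma exists_e2_of_degree_two {m : Fin N →₀ ℕ} (h : m.degree = 2) :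
    ∃ j k, j ≤ k ∧ m = e2 j k := by
  have h0 : m ≠ 0 := by rintro rfl; simp at h
  obtain ⟨j, hj⟩ := Finsupp.ne_iff.1 h0
  rw [Finsupp.coe_zero, Pi.zero_apply] at hj
  have h1 : Finsupp.single j 1 ≤ m := by
    rw [Finsupp.single_le_iff]
    omega
  obtain ⟨m', rfl⟩ := exists_add_of_le h1
  rw [map_add, Finsupp.degree_single] at h
  obtain ⟨k, rfl⟩ := exists_single_of_degree_one (m := m') (by omega)
  rcases le_total j k with hjk | hjk
  · exact ⟨j, k, hjk, rfl⟩
  · exact ⟨k, j, hjk, add_comm _ _⟩

lemma e2_inj {j k j' k' : Fin N} (h : j ≤ k) (h' : j' ≤ k') (he : e2 j k = e2 j' k') :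
    j = j' ∧ k = k' := by
  have h1 : j' = j ∨ k' = j := by
    by_contra hcon
    rw [not_or] at hcon
    have hj := DFunLike.congr_fun he j
    simp [e2, Finsupp.single_apply, hcon.1, hcon.2] at hj
  rcases h1 with rfl | rfl
  · rw [e2, e2, add_right_inj] at he
    exact ⟨rfl, Finsupp.single_left_injective one_ne_zero he⟩
  · rw [e2, e2, add_comm (Finsupp.single j' 1), add_right_inj] at he
    have h2 : k = j' := Finsupp.single_left_injective one_ne_zero he
    subst h2
    exact ⟨le_antisymm h h', le_antisymm h' h⟩

/-- The coefficients of the quadratic polynomial with coefficients `c`. -/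
noncomputable def qOf {R : Type*} [Zero R] (c : (Fin N →₀ ℕ) → R) : QP R N :=
  (fun j k => if j ≤ k then c (e2 j k) else 0, fun j => c (Finsupp.single j 1), c 0)

lemma qvR_qOf (c : (Fin N →₀ ℕ) → ℝ) (x : Fin N → ℝ) :
    qvR (qOf c) x = (∑ j, ∑ k, if j ≤ k then c (e2 j k) * (x j * x k) else 0) +
      (∑ j, c (Finsupp.single j 1) * x j) + c 0 := by
  unfold qvR qOf
  simp only [ite_mul, zero_mul, mul_assoc]

/-- The value of a polynomial of degree at most two. -/
theorem eval_eq_qvR {P : MvPolynomial (Fin N) ℝ} (hP : P.totalDegree ≤ 2) (x : Fin N → ℝ) :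
    eval x P = qvR (qOf fun m => coeff m P) x := by
  have key : ∀ (m : Fin N →₀ ℕ) (a : ℝ), m.degree ≤ 2 →
      eval x (monomial m a) = qvR (qOf fun m' => if m = m' then a else 0) x := by
    intro m a hm
    rw [qvR_qOf]
    have hcases : m.degree = 0 ∨ m.degree = 1 ∨ m.degree = 2 := by omega
    rcases hcases with h | h | h
    · rw [Finsupp.degree_eq_zero_iff] at h
      subst h
      have h1 : ∀ j k : Fin N, (0 : Fin N →₀ ℕ) ≠ e2 j k := fun j k h => by
        have := degree_e2 j k
        rw [← h] at this
        simp at this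
      have h2 : ∀ j : Fin N, (0 : Fin N →₀ ℕ) ≠ Finsupp.single j 1 := fun j h => by
        have := congrArg Finsupp.degree h
        simp at this
      simp [h1, h2]
    · obtain ⟨j, rfl⟩ := exists_single_of_degree_one h
      have h1 : ∀ j' k : Fin N, (Finsupp.single j 1 : Fin N →₀ ℕ) ≠ e2 j' k := fun j' k h => by
        have := congrArg Finsupp.degree h
        rw [degree_e2] at this
        simp at this
      have h2 : ∀ j' : Fin N, ((Finsupp.single j 1 : Fin N →₀ ℕ) = Finsupp.single j' 1) ↔
          j = j' := fun j' => (Finsupp.single_left_injective one_ne_zero).eq_iff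
      simp [h1, h2, eval_monomial]
    · obtain ⟨j, k, hjk, rfl⟩ := exists_e2_of_degree_two h
      have h1 : ∀ j' : Fin N, e2 j k ≠ Finsupp.single j' 1 := fun j' h => by
        have := degree_e2 j k
        rw [h] at this
        simp at this
      have h0 : e2 j k ≠ 0 := fun h => by
        have := degree_e2 j k
        rw [h] at this
        simp at this
      have h2 : ∀ j' k' : Fin N, (if j' ≤ k' then (if e2 j k = e2 j' k' then a else 0) *
          (x j' * x k') else 0) = if j = j' then (if k = k' then a * (x j * x k) else 0) else 0 := by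
        intro j' k'
        by_cases hle : j' ≤ k'
        · rw [if_pos hle]
          by_cases he : e2 j k = e2 j' k'
          · obtain ⟨rfl, rfl⟩ := e2_inj hjk hle he
            simp
          · have : ¬ (j = j' ∧ k = k') := by
              rintro ⟨rfl, rfl⟩
              exact he rfl
            rw [if_neg he, zero_mul]
            by_cases h3 : j = j'
            · rw [if_pos h3, if_neg fun h4 => this ⟨h3, h4⟩]
            · rw [if_neg h3]
        · rw [if_neg hle]
          by_cases h3 : j = j'
          · subst h3
            rw [if_pos rfl]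
            by_cases h4 : k = k'
            · subst h4
              exact absurd hjk hle
            · rw [if_neg h4]
          · rw [if_neg h3]
      simp only [h2]
      simp only [h1, h0, if_false, zero_mul, Finset.sum_const_zero, add_zero]
      rw [eval_monomial, e2, Finsupp.prod_add_index' (by simp) (by intros; rw [pow_add])]
      simp
  have h1 : eval x P = ∑ m ∈ P.support, eval x (monomial m (coeff m P)) := by
    conv_lhs => rw [P.as_sum, map_sum]
  rw [h1, Finset.sum_congr rfl fun m hm => key m _ ((le_totalDegree hm).trans hP)]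
  simp only [qvR_qOf]
  rw [Finset.sum_add_distrib, Finset.sum_add_distrib]
  have h2 : ∀ m₀ : Fin N →₀ ℕ, (∑ m ∈ P.support, if m = m₀ then coeff m P else 0) =
      coeff m₀ P := by
    intro m₀
    rw [Finset.sum_ite_eq' P.support m₀ fun m => coeff m P]
    split_ifs with h
    · rfl
    · rw [notMem_support_iff] at h
      exact h.symm
  congr 1
  congr 1
  · rw [Finset.sum_comm]
    refine Finset.sum_congr rfl fun j _ => ?_
    rw [Finset.sum_comm]
    refine Finset.sum_congr rfl fun k _ => ?_
    split_ifs with hjk
    · rw [← Finset.sum_mul, h2]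
    · exact Finset.sum_const_zero
  · rw [Finset.sum_comm]
    refine Finset.sum_congr rfl fun j _ => ?_
    rw [← Finset.sum_mul, h2]
  · exact h2 0

end Quad

end Pool.Agent.QC
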