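import Pool.Agent.QC.Poly
import Pool.Agent.QC.Subst

/-!
# Complex numbers

`reP`, `imP`: real and imaginary part of a polynomial after the substitution of the imaginary unit
for the formal variable `none`.
-/

namespace Pool.Agent.QC

open MvPolynomial Filter Topology

variable {σ τ : Type*} {β γ : Type*}

/-! ### Complex numbers -/

/-- The value at a complex point. -/
noncomputable def cev (x : σ → ℂ) (p : MvPolynomial σ ℤ) : ℂ := aeval x p

/-- The point `(y, i)`. -/
noncomputable def ptI (y : σ → ℝ) : Option σ → ℂ := fun o => o.elim Complex.I fun i => (y i : ℂ)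

/-- Real part after the substitution of the imaginary unit for the variable `none`. -/
noncomputable def reP (M : ℕ) (g : MvPolynomial (Option σ) ℤ) : MvPolynomial σ ℤ :=
  ∑ j ∈ Finset.range (M + 1), C ((-1) ^ j) * zc g (2 * j)

/-- Imaginary part after the substitution of the imaginary unit for the variable `none`. -/
noncomputable def imP (M : ℕ) (g : MvPolynomial (Option σ) ℤ) : MvPolynomial σ ℤ :=
  ∑ j ∈ Finset.range (M + 1), C ((-1) ^ j) * zc g (2 * j + 1)

lemma totalDegree_reP {M : ℕ} {g : MvPolynomial (Option σ) ℤ} (hg : g.totalDegree ≤ M) (N : ℕ) :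
    (reP N g).totalDegree ≤ M := by
  refine totalDegree_finsetSum_le fun j _ => (totalDegree_mul _ _).trans ?_
  rw [totalDegree_C, zero_add]
  exact (totalDegree_zc g _).trans hg

lemma totalDegree_imP {M : ℕ} {g : MvPolynomial (Option σ) ℤ} (hg : g.totalDegree ≤ M) (N : ℕ) :
    (imP N g).totalDegree ≤ M := by
  refine totalDegree_finsetSum_le fun j _ => (totalDegree_mul _ _).trans ?_
  rw [totalDegree_C, zero_add]
  exact (totalDegree_zc g _).trans hg

theorem cev_ptI {M : ℕ} {g : MvPolynomial (Option σ) ℤ} (hg : g.totalDegree ≤ M) (y : σ → ℝ) :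
    cev (ptI y) g = (ev y (reP M g) : ℂ) + (ev y (imP M g) : ℂ) * Complex.I := by
  have h1 : ∀ g : MvPolynomial (Option σ) ℤ,
      cev (ptI y) g = ((zpoly g).map ((algebraMap ℝ ℂ).comp (evHom y))).eval Complex.I := by
    intro g
    unfold cev
    induction g using MvPolynomial.induction_on with
    | C a => simp
    | add p q hp hq => simp [hp, hq]
    | mul_X p i hp =>
      rw [map_mul, hp, zpoly_mul, Polynomial.map_mul, Polynomial.eval_mul]
      cases i <;> simp [ptI]
  have hd : ((zpoly g).map ((algebraMap ℝ ℂ).comp (evHom y))).natDegree < 2 * (M + 1) :=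
    lt_of_le_of_lt ((Polynomial.natDegree_map_le).trans ((natDegree_zpoly g).trans hg)) (by omega)
  rw [h1, Polynomial.eval_eq_sum_range' hd]
  have h2 : ∀ (N : ℕ) (f : ℕ → ℂ), ∑ i ∈ Finset.range (2 * N), f i =
      ∑ j ∈ Finset.range N, f (2 * j) + ∑ j ∈ Finset.range N, f (2 * j + 1) := by
    intro N f
    induction N with
    | zero => simp
    | succ N ih =>
      rw [show 2 * (N + 1) = 2 * N + 1 + 1 by ring, Finset.sum_range_succ, Finset.sum_range_succ,
        ih, Finset.sum_range_succ, Finset.sum_range_succ]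
      ring
  rw [h2, reP, imP, ev_sum, ev_sum]
  push_cast
  rw [Finset.sum_mul]
  congr 1
  · refine Finset.sum_congr rfl fun j _ => ?_
    rw [Polynomial.coeff_map, pow_mul, Complex.I_sq, ev_mul]
    simp [zc, mul_comm]
  · refine Finset.sum_congr rfl fun j _ => ?_
    rw [Polynomial.coeff_map, pow_succ, pow_mul, Complex.I_sq, ev_mul]
    simp only [zc, RingHom.comp_apply, evHom_apply, Complex.coe_algebraMap, ev_C]
    push_cast
    ring

theorem calc_reP_imP {M : ℕ} {K : Set (MvPolynomial σ ℤ)} {g : MvPolynomial (Option σ) ℤ}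
    (hg : g.totalDegree ≤ M) (hK : ∀ i, zc g i ∈ K) :
    Calc M (4 * (M + 1)) K ({reP M g} ∪ {imP M g}) := by
  have h0 : Calc M 0 K ({C 1} ∪ {C (-1)}) := (Calc.const 1).union (Calc.const (-1))
  have hc : ∀ j : ℕ, (C ((-1) ^ j) : MvPolynomial σ ℤ) ∈
      K ∪ ({C 1} ∪ {C (-1)} : Set (MvPolynomial σ ℤ)) := by
    intro j
    rcases neg_one_pow_eq_or ℤ j with h | h
    · rw [h]; exact Or.inr (Or.inl rfl)
    · rw [h]; exact Or.inr (Or.inr rfl)
  have hd : ∀ i : ℕ, ∀ j : ℕ, (C ((-1) ^ j) * zc g i : MvPolynomial σ ℤ).totalDegree ≤ M := by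
    intro i j
    refine (totalDegree_mul _ _).trans ?_
    rw [totalDegree_C, zero_add]
    exact (totalDegree_zc g _).trans hg
  have h1 : Calc M (2 * (Finset.range (M + 1)).card)
      (K ∪ ({C 1} ∪ {C (-1)} : Set (MvPolynomial σ ℤ))) {reP M g} :=
    Calc.dot _ (fun j _ => hc j) (fun j _ => Or.inl (hK _)) fun j _ => hd _ _
  have h2 : Calc M (2 * (Finset.range (M + 1)).card)
      (K ∪ ({C 1} ∪ {C (-1)} : Set (MvPolynomial σ ℤ))) {imP M g} :=
    Calc.dot _ (fun j _ => hc j) (fun j _ => Or.inl (hK _)) fun j _ => hd _ _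
  refine (h0.trans' (h1.union h2)).mono_c ?_
  rw [Finset.card_range]
  omega

end Pool.Agent.QC
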