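import Mathlib

/-!
# MP_7c50a9_lc: basic definitions (functionals, families, tuples of quadratic polynomials)

See the text QC_Proof.md. Everything is over the complex numbers; real objects are mapped there.
-/

namespace Pool.Agent.QC

open MvPolynomial

/-- Polynomials in `m` variables. -/
abbrev Pol (m : ℕ) := MvPolynomial (Fin m) ℂ

/-- Linear functionals on polynomials. -/
abbrev Fnl (m : ℕ) := Pol m →ₗ[ℂ] ℂ

/-- `theta_i = x_i ^ (e i) * d/dx_i`; the pattern `e` takes the values 0 and 1. -/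
noncomputable def th {m : ℕ} (e : Fin m → ℕ) (i : Fin m) (P : Pol m) : Pol m :=
  X i ^ e i * pderiv i P

/-- `D_i P = (a+1) (theta_i f) P + f theta_i P`. -/
noncomputable def Dop {m : ℕ} (e : Fin m → ℕ) (a : ℂ) (f : Pol m) (i : Fin m) (P : Pol m) :
    Pol m :=
  C (a + 1) * th e i f * P + f * th e i P

/-- The functionals killed by all `D_i`. -/
noncomputable def Zs {m : ℕ} (e : Fin m → ℕ) (a : ℂ) (f : Pol m) : Submodule ℂ (Fnl m) where
  carrier := {y | ∀ i P, y (Dop e a f i P) = 0}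
  add_mem' := by
    intro y z hy hz i P
    simp [hy i P, hz i P]
  zero_mem' := by
    intro i P
    simp
  smul_mem' := by
    intro c y hy i P
    simp [hy i P]

/-- Coefficient vectors: polynomials all of whose exponents are at most `D`. -/
abbrev Cf (m D : ℕ) := (Fin m → Fin (D + 1)) → ℂ

/-- The polynomial with coefficient vector `c`. -/
noncomputable def pol {m D : ℕ} (c : Cf m D) : Pol m :=
  ∑ d : Fin m → Fin (D + 1),
    monomial (Finsupp.equivFunOnFinite.symm (fun i => ((d i : Fin (D + 1)) : ℕ))) (c d)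

/-- `f` has the top form `- sum c_i x_i ^ D` with all `c_i` nonzero. -/
def TopF {m : ℕ} (D : ℕ) (c : Fin m → ℂ) (f : Pol m) : Prop :=
  (∀ i, c i ≠ 0) ∧ (f + ∑ i, C (c i) * X i ^ D).totalDegree < D

/-- `f` is regular for the pattern `e`: no common zero of `f` and of all `theta_i f`. -/
def Reg {m : ℕ} (e : Fin m → ℕ) (f : Pol m) : Prop :=
  ¬ ∃ w : Fin m → ℂ, eval w f = 0 ∧ ∀ i, eval w (th e i f) = 0

/-- `y'` is the functional of exponent `a - 1` below `y`: `y' (f P) = y P`. -/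
def Low {m : ℕ} (e : Fin m → ℕ) (a : ℂ) (f : Pol m) (y y' : Fnl m) : Prop :=
  y' ∈ Zs e (a - 1) f ∧ ∀ P, y' (f * P) = y P

/-- The index type of the box monomials `x ^ b`, `b i ≤ D - 2 + e i`. -/
abbrev BoxT {m : ℕ} (D : ℕ) (e : Fin m → ℕ) := (i : Fin m) → Fin (D - 1 + e i)

/-- The box monomials. -/
noncomputable def mon {m D : ℕ} {e : Fin m → ℕ} (b : BoxT D e) : Pol m :=
  monomial (Finsupp.equivFunOnFinite.symm (fun i => ((b i : Fin (D - 1 + e i)) : ℕ))) 1

section Families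

variable {E : Type*} [NormedAddCommGroup E] [NormedSpace ℂ E] {m D : ℕ}

/-- `y` is a solution on `U` for the family `F` of (coefficient vectors of) polynomials:
`d/dv y[P] = a y'[(dF/dv) P]`, `y'` the functional of exponent `a - 1` below `y`. -/
def Sol (e : Fin m → ℕ) (a : ℂ) (F : E → Cf m D) (U : Set E) (y : E → Fnl m) : Prop :=
  (∀ P, ContinuousOn (fun p => y p P) U) ∧
  ∀ p ∈ U, y p ∈ Zs e a (pol (F p)) ∧
    ∃ y', Low e a (pol (F p)) (y p) y' ∧
      ∀ P v, HasLineDerivAt ℂ (fun p => y p P) (a * y' (pol (fderiv ℂ F p v) * P)) p v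

/-- `u` is a parallel section over the map `h : T → E`: locally `u = y ∘ h`, `y` a solution on an
open set. -/
def IsPar {T : Type*} [TopologicalSpace T] (e : Fin m → ℕ) (a : ℂ) (F : E → Cf m D)
    (h : T → E) (u : T → Fnl m) : Prop :=
  ∀ t, ∃ N : Set E, IsOpen N ∧ h t ∈ N ∧ ∃ y, Sol e a F N y ∧ ∀ᶠ s in nhds t, u s = y (h s)

end Families

/-- The zero pattern. -/
def e0 (m : ℕ) : Fin m → ℕ := fun _ => 0

/-- The pattern with the last variable logarithmic. -/
def eV (n : ℕ) : Fin (n + 1) → ℕ := fun i => if i = Fin.last n then 1 else 0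

/-! ## Tuples of quadratic polynomials -/

/-- Coefficients of a polynomial of degree at most two in `N` variables. -/
abbrev QPc (N : ℕ) := (Fin N → Fin N → ℂ) × (Fin N → ℂ) × ℂ

/-- The same over a commutative ring `R`; `QPc N` is `QP ℂ N`. -/
abbrev QP (R : Type*) (N : ℕ) := (Fin N → Fin N → R) × (Fin N → R) × R

/-- The polynomial `sum a_ij x_i x_j + sum b_i x_i + c`. -/
noncomputable def qpol {N : ℕ} (p : QPc N) : Pol N :=
  (∑ i, ∑ j, C (p.1 i j) * X i * X j) + (∑ i, C (p.2.1 i) * X i) + C p.2.2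

/-- Tuples `(P_0, ..., P_l)` in `n + 1` variables. -/
abbrev Tup (n l : ℕ) := Fin (l + 1) → QPc (n + 1)

/-- Real tuples. -/
abbrev RTup (n l : ℕ) := Fin (l + 1) → QP ℝ (n + 1)

section Ops

variable {R : Type*} [CommRing R] {n l : ℕ}

/-- The tuple `q + t` (`t` is added to `P_0`). -/
def addT (q : Fin (l + 1) → QP R (n + 1)) (t : R) : Fin (l + 1) → QP R (n + 1) :=
  fun m => if m = 0 then ((q 0).1, (q 0).2.1, (q 0).2.2 + t) else q m

/-- The polynomial `p (x', x_n - c . x')`: frames. -/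
def shQ (c : Fin n → R) (p : QP R (n + 1)) : QP R (n + 1) :=
  let d : Fin (n + 1) → R := Fin.snoc c 0
  (fun i j => p.1 i j - d i * p.1 (Fin.last n) j - p.1 i (Fin.last n) * d j +
      d i * d j * p.1 (Fin.last n) (Fin.last n),
    fun i => p.2.1 i - d i * p.2.1 (Fin.last n), p.2.2)

/-- The tuple `q ^ c`: the tuple `q` in the frame `c`. -/
def shT (c : Fin n → R) (q : Fin (l + 1) → QP R (n + 1)) : Fin (l + 1) → QP R (n + 1) :=
  fun m => shQ c (q m)

end Ops

/-- Complexification of a real tuple. -/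
def tC {n l : ℕ} (q : RTup n l) : Tup n l :=
  fun m => (fun i j => ((q m).1 i j : ℂ), fun i => ((q m).2.1 i : ℂ), ((q m).2.2 : ℂ))

/-- Translation `x_n → x_n + z`. -/
noncomputable def shift {n : ℕ} (z : ℂ) : Pol (n + 1) →ₐ[ℂ] Pol (n + 1) :=
  aeval (Fin.snoc (fun i : Fin n => (X i.castSucc : Pol (n + 1)))
    (X (Fin.last n) + C z) : Fin (n + 1) → Pol (n + 1))

/-- The product of the tuple. -/
noncomputable def prodT {n l : ℕ} (q : Tup n l) : Pol (n + 1) := ∏ m, qpol (q m)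

/-- `f_q = prod P_m - 1`. -/
noncomputable def f0 {n l : ℕ} (q : Tup n l) : Pol (n + 1) := prodT q - 1

/-- The degree `D = 2 l + 4` of the auxiliary form. -/
abbrev DD (l : ℕ) : ℕ := 2 * l + 4

/-- The auxiliary form `sum_{i < n} x_i ^ D + en x_n ^ D`. -/
noncomputable def Eform {n : ℕ} (l : ℕ) (en : ℝ) : Pol (n + 1) :=
  (∑ i : Fin n, X i.castSucc ^ DD l) + C ((en : ℝ) : ℂ) * X (Fin.last n) ^ DD l

/-- `f = prod P_m - 1 - eta E`. -/
noncomputable def fpol {n l : ℕ} (en eta : ℝ) (q : Tup n l) : Pol (n + 1) :=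
  f0 q - C ((eta : ℝ) : ℂ) * Eform l en

/-- Coefficient vector of `f (x', x_n + z)`, a family over `(q, z)`. -/
noncomputable def FV {n l : ℕ} (en eta : ℝ) (p : Tup n l × ℂ) : Cf (n + 1) (DD l) :=
  fun d => coeff (Finsupp.equivFunOnFinite.symm (fun i => ((d i : Fin (DD l + 1)) : ℕ)))
    (shift p.2 (fpol en eta p.1))

/-- Coefficient vector of `f`, a family over tuples. -/
noncomputable def FZ {n l : ℕ} (en eta : ℝ) (q : Tup n l) : Cf (n + 1) (DD l) :=
  fun d => coeff (Finsupp.equivFunOnFinite.symm (fun i => ((d i : Fin (DD l + 1)) : ℕ)))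
    (fpol en eta q)

/-- Restriction of a polynomial to the slice `x_n = 0`. -/
noncomputable def slice {n : ℕ} : Pol (n + 1) →ₐ[ℂ] Pol n :=
  aeval (Fin.snoc (fun i : Fin n => (X i : Pol n)) 0 : Fin (n + 1) → Pol n)

/-- Coefficient vector of the slice `f (., z)` (`n` variables), a family over `(q, z)`. -/
noncomputable def FS {n l : ℕ} (en eta : ℝ) (p : Tup n l × ℂ) : Cf n (DD l) :=
  fun d => coeff (Finsupp.equivFunOnFinite.symm (fun i => ((d i : Fin (DD l + 1)) : ℕ)))
    (slice (shift p.2 (fpol en eta p.1)))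

/-- Critical points of `x_n` on `f = 0`. -/
def CritF {n : ℕ} (f : Pol (n + 1)) : Set (Fin (n + 1) → ℂ) :=
  {x | eval x f = 0 ∧ ∀ i : Fin n, eval x (pderiv i.castSucc f) = 0}

/-- Critical values of `x_n` on `f = 0`. -/
def SigF {n : ℕ} (f : Pol (n + 1)) : Set ℂ := (fun x => x (Fin.last n)) '' CritF f

/-- Singular points of `f = 0`. -/
def SingF {m : ℕ} (f : Pol m) : Set (Fin m → ℂ) :=
  {x | eval x f = 0 ∧ ∀ i, eval x (pderiv i f) = 0}

/-- The Hessian matrix. -/
noncomputable def hess {m : ℕ} (f : Pol m) (x : Fin m → ℂ) : Matrix (Fin m) (Fin m) ℂ :=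
  fun i j => eval x (pderiv i (pderiv j f))

/-- The Hessian matrix in `x'`. -/
noncomputable def hess' {n : ℕ} (f : Pol (n + 1)) (x : Fin (n + 1) → ℂ) :
    Matrix (Fin n) (Fin n) ℂ :=
  fun i j => eval x (pderiv i.castSucc (pderiv j.castSucc f))

/-- A critical point of `x_n` on `f = 0` is nondegenerate. -/
def NonDegC {n : ℕ} (f : Pol (n + 1)) (x : Fin (n + 1) → ℂ) : Prop :=
  (hess' f x).det ≠ 0 ∧ eval x (pderiv (Fin.last n) f) ≠ 0

/-! ## Real points -/

/-- Value of a real quadratic polynomial. -/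
def qvR {N : ℕ} (p : QP ℝ N) (x : Fin N → ℝ) : ℝ :=
  (∑ i, ∑ j, p.1 i j * x i * x j) + (∑ i, p.2.1 i * x i) + p.2.2

/-- The real function `f = prod P_m - 1 - eta E`. -/
def fR {n l : ℕ} (en eta : ℝ) (q : RTup n l) (x : Fin (n + 1) → ℝ) : ℝ :=
  (∏ m, qvR (q m) x) - 1 -
    eta * ((∑ i : Fin n, x i.castSucc ^ DD l) + en * x (Fin.last n) ^ DD l)

/-- The open set `W_t = {P_m > 0 (m > 0), (P_0 + t) prod_{m > 0} P_m > 1}`. -/
def Wset {n l : ℕ} (q : RTup n l) (t : ℝ) : Set (Fin (n + 1) → ℝ) :=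
  {x | (∀ m, m ≠ 0 → 0 < qvR (q m) x) ∧ 0 < fR 0 0 (addT q t) x}

/-- The real linear map which carries frame `0` to frame `c`: `x ↦ (x', x_n + c . x')`. -/
def shX {n : ℕ} (c : Fin n → ℝ) (x : Fin (n + 1) → ℝ) : Fin (n + 1) → ℝ :=
  Fin.snoc (fun i : Fin n => x i.castSucc) (x (Fin.last n) + ∑ i : Fin n, c i * x i.castSucc)

end Pool.Agent.QC
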