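import Pool.Agent.QC.Mat
import Pool.Agent.QC.Subst

/-!
# Characteristic polynomials, determinants, adjugates, powers
-/

namespace Pool.Agent.QC

open MvPolynomial

variable {σ : Type*} {β γ : Type*} {ι κ : Type*} [Fintype ι] [DecidableEq ι]

theorem charpoly_coeff_fin {R : Type*} [CommRing R] [Nontrivial R] {n : ℕ}
    (A : Matrix (Fin n) (Fin n) R) (i : ℕ) :
    A.charpoly.coeff i = if i ≤ n then A.charpolyRev.coeff (n - i) else 0 := by
  have hd : A.charpoly.natDegree = n := by rw [Matrix.charpoly_natDegree_eq_dim, Fintype.card_fin]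
  split_ifs with h
  · rw [← Matrix.reverse_charpoly, Polynomial.coeff_reverse, hd,
      Polynomial.revAt_le (by omega)]
    congr 1; omega
  · exact Polynomial.coeff_eq_zero_of_natDegree_lt (by omega)

lemma charpoly_equivFin {R : Type*} [CommRing R] (A : Matrix ι ι R) :
    (A.submatrix (Fintype.equivFin ι).symm (Fintype.equivFin ι).symm).charpoly = A.charpoly := by
  have := Matrix.charpoly_reindex (Fintype.equivFin ι) A
  rwa [Matrix.reindex_apply] at this

lemma totalDegree_charpoly_coeff {m : ℕ} {A : Matrix ι ι (MvPolynomial σ ℤ)}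
    (hd : ∀ i j, (A i j).totalDegree ≤ m) (i : ℕ) :
    (A.charpoly.coeff i).totalDegree ≤ (Fintype.card ι - i) * m := by
  rw [← charpoly_equivFin, charpoly_coeff_fin]
  split_ifs
  · exact totalDegree_charpolyRev_coeff (fun i j => hd _ _) _
  · simp

lemma totalDegree_charpoly_coeff' {m : ℕ} {A : Matrix ι ι (MvPolynomial σ ℤ)}
    (hd : ∀ i j, (A i j).totalDegree ≤ m) (i : ℕ) :
    (A.charpoly.coeff i).totalDegree ≤ Fintype.card ι * m :=
  (totalDegree_charpoly_coeff hd i).trans (Nat.mul_le_mul_right _ (Nat.sub_le _ _))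

lemma totalDegree_det {m : ℕ} {A : Matrix ι ι (MvPolynomial σ ℤ)}
    (hd : ∀ i j, (A i j).totalDegree ≤ m) :
    A.det.totalDegree ≤ Fintype.card ι * m := by
  rw [Matrix.det_eq_sign_charpoly_coeff]
  refine (totalDegree_mul _ _).trans ?_
  have h1 : ((-1 : MvPolynomial σ ℤ) ^ Fintype.card ι).totalDegree = 0 := by
    have : ((-1 : MvPolynomial σ ℤ) ^ Fintype.card ι) = C ((-1) ^ Fintype.card ι) := by simp
    rw [this, totalDegree_C]
  rw [h1, zero_add]
  exact totalDegree_charpoly_coeff' hd 0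

namespace Calc

variable {M M' c c' m : ℕ} {K K' P P' : Set (MvPolynomial σ ℤ)}

/-- The integers 0 and 1 (and any other finite set of constants) are free. -/
theorem zero_one : Calc M 0 K {0, 1} := by
  have h1 := (Calc.const (M := M) (K := K) 0).union (Calc.const (M := M) (K := K) 1)
  refine h1.mono_P ?_
  rintro _ (rfl | rfl)
  · left; simp
  · right; simp

/-- All coefficients of the characteristic polynomial. -/
theorem charpoly {A : Matrix ι ι (MvPolynomial σ ℤ)} (hA : ∀ i j, A i j ∈ K)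
    (hd : ∀ i j, (A i j).totalDegree ≤ m) (hM : Fintype.card ι * m ≤ M) :
    Calc M (2 * (Fintype.card ι + 1) ^ 4) K {q | ∃ i, q = A.charpoly.coeff i} := by
  set n := Fintype.card ι with hn
  have h1 := Calc.charpolyRev (N := n) (M := M) (K := K)
    (A := A.submatrix (Fintype.equivFin ι).symm (Fintype.equivFin ι).symm)
    (fun i j => hA _ _) (fun i j => hd _ _) hM
  have h2 := zero_one.union h1
  refine h2.mono le_rfl ?_ subset_rfl ?_
  · nlinarith [Nat.zero_le n, Nat.zero_le (n ^ 2), Nat.zero_le (n ^ 3)]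
  · rintro _ ⟨i, rfl⟩
    rw [← charpoly_equivFin, charpoly_coeff_fin]
    split_ifs
    · exact Or.inr ⟨_, by omega, rfl⟩
    · left; left; rfl

/-- The determinant. -/
theorem det {A : Matrix ι ι (MvPolynomial σ ℤ)} (hA : ∀ i j, A i j ∈ K)
    (hd : ∀ i j, (A i j).totalDegree ≤ m) (hM : Fintype.card ι * m ≤ M) :
    Calc M (3 * (Fintype.card ι + 1) ^ 4) K {A.det} := by
  have h1 := (charpoly hA hd hM).union (Calc.const (M := M) (K := K) ((-1) ^ Fintype.card ι))
  have h3 := totalDegree_det hd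
  rw [Matrix.det_eq_sign_charpoly_coeff] at h3 ⊢
  have h2 := h1.trans' (P' := {(-1) ^ Fintype.card ι * A.charpoly.coeff 0})
    (Calc.mul (Or.inr (Or.inr (by simp))) (Or.inr (Or.inl ⟨0, rfl⟩)) (h3.trans hM))
  refine h2.mono_c ?_
  have : 1 ≤ (Fintype.card ι + 1) ^ 4 := Nat.one_le_pow _ _ (by omega)
  omega

/-- A family of determinants. -/
theorem dets {ρ : Type*} [Fintype ρ] {A : ρ → Matrix ι ι (MvPolynomial σ ℤ)}
    (hA : ∀ r i j, A r i j ∈ K)
    (hd : ∀ r i j, (A r i j).totalDegree ≤ m) (hM : Fintype.card ι * m ≤ M) :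
    Calc M (Fintype.card ρ * (3 * (Fintype.card ι + 1) ^ 4)) K (Set.range fun r => (A r).det) :=
  Calc.range fun r => det (hA r) (hd r) hM

end Calc

lemma totalDegree_adjugate {m : ℕ} {A : Matrix ι ι (MvPolynomial σ ℤ)}
    (hd : ∀ i j, (A i j).totalDegree ≤ m) (i j : ι) :
    (A.adjugate i j).totalDegree ≤ Fintype.card ι * m := by
  rw [Matrix.adjugate_apply]
  refine totalDegree_det fun k l => ?_
  rw [Matrix.updateRow_apply]
  split_ifs
  · rw [Pi.single_apply]; split_ifs <;> simp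
  · exact hd _ _

/-- The entries of the adjugate. -/
theorem Calc.adjugate {M m : ℕ} {K : Set (MvPolynomial σ ℤ)}
    {A : Matrix ι ι (MvPolynomial σ ℤ)} (hA : ∀ i j, A i j ∈ K)
    (hd : ∀ i j, (A i j).totalDegree ≤ m) (hM : Fintype.card ι * m ≤ M) :
    Calc M (3 * (Fintype.card ι + 1) ^ 6) K {q | ∃ i j, q = A.adjugate i j} := by
  have h1 : Calc M (Fintype.card (ι × ι) * (3 * (Fintype.card ι + 1) ^ 4)) (K ∪ {0, 1})
      (Set.range fun r : ι × ι => (A.updateRow r.2 (Pi.single r.1 1)).det) := by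
    refine Calc.dets (A := fun r : ι × ι => A.updateRow r.2 (Pi.single r.1 1)) (m := m) ?_ ?_ hM
    · intro r i j
      rw [Matrix.updateRow_apply]
      split_ifs
      · rw [Pi.single_apply]
        split_ifs
        · exact Or.inr (Or.inr rfl)
        · exact Or.inr (Or.inl rfl)
      · exact Or.inl (hA _ _)
    · intro r i j
      rw [Matrix.updateRow_apply]
      split_ifs
      · rw [Pi.single_apply]; split_ifs <;> simp
      · exact hd _ _
  refine (Calc.zero_one.trans' h1).mono le_rfl ?_ subset_rfl ?_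
  · rw [Fintype.card_prod]
    set n := Fintype.card ι
    calc 0 + n * n * (3 * (n + 1) ^ 4) ≤ (n + 1) * (n + 1) * (3 * (n + 1) ^ 4) := by
          rw [zero_add]; gcongr <;> omega
      _ = 3 * (n + 1) ^ 6 := by ring
  · rintro _ ⟨i, j, rfl⟩
    exact ⟨(i, j), by rw [Matrix.adjugate_apply]⟩

lemma totalDegree_pow_entry {m : ℕ} {A : Matrix ι ι (MvPolynomial σ ℤ)}
    (hd : ∀ i j, (A i j).totalDegree ≤ m) (k : ℕ) (i j : ι) :
    ((A ^ k) i j).totalDegree ≤ k * m := by
  induction k generalizing i j with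
  | zero =>
    rw [pow_zero, Matrix.one_apply]
    split_ifs <;> simp
  | succ k ih =>
    rw [pow_succ, Matrix.mul_apply]
    refine totalDegree_finsetSum_le fun l _ => (totalDegree_mul _ _).trans ?_
    rw [Nat.add_mul, one_mul]
    exact add_le_add (ih i l) (hd l j)

/-- Products of matrices, arbitrary index types. -/
theorem Calc.mmul {ι₁ ι₂ ι₃ : Type*} [Fintype ι₁] [Fintype ι₂] [Fintype ι₃] {M : ℕ}
    {K : Set (MvPolynomial σ ℤ)} {A : Matrix ι₁ ι₂ (MvPolynomial σ ℤ)}
    {B : Matrix ι₂ ι₃ (MvPolynomial σ ℤ)} (hA : ∀ i j, A i j ∈ K)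
    (hB : ∀ i j, B i j ∈ K) (hd : ∀ i j k, (A i j * B j k).totalDegree ≤ M) :
    Calc M (Fintype.card ι₁ * Fintype.card ι₃ * (2 * Fintype.card ι₂)) K
      {q | ∃ i j, q = (A * B) i j} := by
  have h : ∀ x : ι₁ × ι₃, Calc M (2 * Fintype.card ι₂) K {(A * B) x.1 x.2} := by
    intro x
    have := dot (M := M) (K := K) (Finset.univ : Finset ι₂) (f := fun j => A x.1 j)
      (g := fun j => B j x.2) (fun j _ => hA _ _) (fun j _ => hB _ _) (fun j _ => hd _ _ _)
    rw [Finset.card_univ] at this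
    rwa [Matrix.mul_apply]
  have h1 := range h
  rw [Fintype.card_prod] at h1
  refine h1.mono_P ?_
  rintro _ ⟨i, j, rfl⟩
  exact ⟨(i, j), rfl⟩

/-- The entries of the powers `A ^ 0, ..., A ^ N`. -/
theorem Calc.mpow {M m N : ℕ} {K : Set (MvPolynomial σ ℤ)}
    {A : Matrix ι ι (MvPolynomial σ ℤ)} (hA : ∀ i j, A i j ∈ K)
    (hd : ∀ i j, (A i j).totalDegree ≤ m) (hM : N * m ≤ M) :
    Calc M (N * (2 * Fintype.card ι ^ 3)) K {q | ∃ k < N + 1, ∃ i j, q = (A ^ k) i j} := by
  have h0 : Calc M 0 K {q | ∃ i j, q = (A ^ 0) i j} := by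
    refine Calc.zero_one.mono_P ?_
    rintro _ ⟨i, j, rfl⟩
    rw [pow_zero, Matrix.one_apply]
    split_ifs
    · right; rfl
    · left; rfl
  have h1 : Calc M (N * (2 * Fintype.card ι ^ 3)) (K ∪ {q | ∃ i j, q = (A ^ 0) i j})
      {q | ∃ k < N, q ∈ {q | ∃ i j, q = (A ^ (k + 1)) i j}} := by
    refine Calc.iter (P := fun k => {q | ∃ i j, q = (A ^ (k + 1)) i j}) N fun k hk => ?_
    have h3 := Calc.mmul (M := M) (A := A ^ k) (B := A)
      (K := K ∪ {q | ∃ i j, q = (A ^ 0) i j} ∪
          {q | ∃ i < k, q ∈ {q | ∃ i' j, q = (A ^ (i + 1)) i' j}}) ?_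
      (fun i j => Or.inl (Or.inl (hA i j))) ?_
    · rw [pow_succ]
      refine h3.mono_c ?_
      apply le_of_eq; ring
    · intro i j
      rcases Nat.eq_zero_or_pos k with rfl | hk0
      · exact Or.inl (Or.inr ⟨i, j, rfl⟩)
      · exact Or.inr ⟨k - 1, by omega, i, j, by rw [Nat.sub_add_cancel hk0]⟩
    · intro i j l
      refine (totalDegree_mul _ _).trans ?_
      have h4 := totalDegree_pow_entry hd k i j
      have h5 := hd j l
      calc _ ≤ k * m + m := add_le_add h4 h5
        _ = (k + 1) * m := by ring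
        _ ≤ N * m := Nat.mul_le_mul_right _ hk
        _ ≤ M := hM
  have h2 := h0.trans h1
  rw [zero_add] at h2
  refine h2.mono_P ?_
  rintro _ ⟨k, hk, i, j, rfl⟩
  rcases Nat.eq_zero_or_pos k with rfl | hk0
  · exact Or.inl ⟨i, j, rfl⟩
  · exact Or.inr ⟨k - 1, by omega, i, j, by rw [Nat.sub_add_cancel hk0]⟩

omit [DecidableEq ι] in
/-- The trace of a computed matrix. -/
theorem Calc.trace {M : ℕ} {K : Set (MvPolynomial σ ℤ)}
    {A : Matrix ι ι (MvPolynomial σ ℤ)} (hA : ∀ i j, A i j ∈ K)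
    (hd : ∀ i j, (A i j).totalDegree ≤ M) :
    Calc M (Fintype.card ι) K {A.trace} := by
  have := Calc.sum (M := M) (K := K) (Finset.univ : Finset ι) (f := fun i => A i i)
    (fun i _ => hA i i) (fun i _ => hd i i)
  rwa [Finset.card_univ] at this

end Pool.Agent.QC
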