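import Pool.Agent.QC.Lift

/-!
# Lemma V: division

A computation on `(y, z)` is turned into a computation on `y` of its value at `z = 1 / g(y)`, where
`g` is a computed polynomial which does not vanish.  With one such variable `z` all rational
functions `N(y) / g(y)` can be used as real parameters.
-/

namespace Pool.Agent.QC

open MvPolynomial Filter Topology

variable {σ : Type*} {β γ : Type*}

/-- The powers of a computed polynomial. -/
theorem Calc.powsIic {M m : ℕ} {K : Set (MvPolynomial σ ℤ)} {g : MvPolynomial σ ℤ} (hg : g ∈ K)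
    (hgm : g.totalDegree ≤ m) (n : ℕ) (hM : n * m ≤ M) :
    Calc M n K ((fun i : ℕ => g ^ i) '' Set.Iic n) := by
  induction n with
  | zero =>
    have h := Calc.const (M := M) (K := K) 1
    refine h.mono_P ?_
    rintro _ ⟨i, hi, rfl⟩
    have : i = 0 := Nat.le_zero.1 hi
    subst this
    simp
  | succ n ih =>
    have h1 := ih (le_trans (Nat.mul_le_mul_right _ (Nat.le_succ n)) hM)
    have h2 : Calc M 1 (K ∪ (fun i : ℕ => g ^ i) '' Set.Iic n) {g ^ n * g} := by
      refine Calc.mul (Or.inr ⟨n, Set.mem_Iic.2 le_rfl, rfl⟩) (Or.inl hg) ?_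
      rw [← pow_succ]
      exact ((totalDegree_pow g (n + 1)).trans (Nat.mul_le_mul_left _ hgm)).trans hM
    refine (h1.trans h2).mono_P ?_
    rintro _ ⟨i, hi, rfl⟩
    rcases Nat.lt_or_ge n i with h | h
    · have : i = n + 1 := le_antisymm hi h
      subst this
      right
      simp only [pow_succ, Set.mem_singleton_iff]
    · left
      exact ⟨i, h, rfl⟩

/-- `g ^ M` times the value at `z = 1 / g`. -/
noncomputable def invNum (M : ℕ) (g : MvPolynomial σ ℤ) (p : MvPolynomial (Option σ) ℤ) :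
    MvPolynomial σ ℤ :=
  ∑ i ∈ Finset.range (M + 1), zc p i * g ^ (M - i)

theorem ev_invNum {M : ℕ} {g : MvPolynomial σ ℤ} {p : MvPolynomial (Option σ) ℤ}
    (hp : p.totalDegree ≤ M) {y : σ → ℝ} (hy : ev y g ≠ 0) :
    ev y (invNum M g p) = ev y g ^ M * ev (pt y (ev y g)⁻¹) p := by
  have hd : ((zpoly p).map (evHom y)).natDegree < M + 1 :=
    Nat.lt_succ_of_le ((Polynomial.natDegree_map_le).trans ((natDegree_zpoly p).trans hp))
  rw [ev_pt, Polynomial.eval_eq_sum_range' hd, Finset.mul_sum, invNum, ev_sum]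
  refine Finset.sum_congr rfl fun i hi => ?_
  have hi' : i ≤ M := Nat.lt_succ_iff.1 (Finset.mem_range.1 hi)
  have h1 : ev y g ^ M = ev y g ^ (M - i) * ev y g ^ i := by
    rw [← pow_add, Nat.sub_add_cancel hi']
  rw [ev_mul, ev_pow, Polynomial.coeff_map, evHom_apply, zc, h1, inv_pow]
  field_simp

/-- LEMMA V. -/
theorem Dec.inv {M m c : ℕ} {F' : (Option σ → ℝ) → β}
    {K' : Set (MvPolynomial (Option σ) ℤ)} {D' : Set (Option σ → ℝ)}
    (h : Dec M c K' D' F') (hK'M : ∀ g ∈ K', g.totalDegree ≤ M)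
    {K : Set (MvPolynomial σ ℤ)} {D : Set (σ → ℝ)} {g : MvPolynomial σ ℤ} (hg : g ∈ K)
    (hgm : g.totalDegree ≤ m) (hK : ∀ g ∈ K', ∀ i, zc g i ∈ K)
    (hD : ∀ y ∈ D, ev y g ≠ 0 ∧ pt y (ev y g)⁻¹ ∈ D') :
    Dec (M * (m + 1)) (c * (6 * (M + 1) ^ 2)) K D (fun y => F' (pt y (ev y g)⁻¹)) := by
  have oracle : ∀ p : MvPolynomial (Option σ) ℤ, p.totalDegree ≤ M →
      ∃ sg : (σ → ℝ) → SignType,
        (∀ y ∈ D, ∀ᶠ z in pure (ev y g)⁻¹, SignType.sign (ev (pt y z) p) = sg y) ∧
        ∀ K₁ D₁, K ⊆ K₁ → (∀ i, zc p i ∈ K₁) → D₁ ⊆ D →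
          Dec (M * (m + 1)) (3 * M + 4) K₁ D₁ sg := by
    intro p hp
    refine ⟨fun y => SignType.sign (ev (pt y (ev y g)⁻¹) p), fun y _ => by simp, ?_⟩
    intro K₁ D₁ hK₁ hpK hD₁
    have h1 : Calc (M * (m + 1)) M K₁ ((fun i : ℕ => g ^ i) '' Set.Iic M) :=
      Calc.powsIic (hK₁ hg) hgm M (by nlinarith)
    have h2 : Calc (M * (m + 1)) (2 * (Finset.range (M + 1)).card)
        (K₁ ∪ (fun i : ℕ => g ^ i) '' Set.Iic M) {invNum M g p} := by
      refine Calc.dot _ (fun i _ => Or.inl (hpK i))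
        (fun i _ => Or.inr ⟨M - i, Set.mem_Iic.2 (Nat.sub_le _ _), rfl⟩) fun i hi => ?_
      refine (totalDegree_mul _ _).trans ?_
      have h3 := (totalDegree_zc p i).trans hp
      have h4 : (g ^ (M - i)).totalDegree ≤ M * m :=
        (totalDegree_pow g (M - i)).trans (Nat.mul_le_mul (Nat.sub_le _ _) hgm)
      calc _ ≤ M + M * m := add_le_add h3 h4
        _ = M * (m + 1) := by ring
    have h3 : Dec (M * (m + 1)) (M + 2 * (Finset.range (M + 1)).card + 1) K₁ D₁
        (fun y => SignType.sign (ev y (invNum M g p))) := (h1.trans' h2).sign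
    have h4 : Dec (M * (m + 1)) 1 K₁ D₁ (fun y => SignType.sign (ev y g)) := Dec.sign (hK₁ hg)
    refine ((h3.pair h4).mono_c ?_).factor fun x hx y hy hxy => ?_
    · rw [Finset.card_range]; omega
    · have e1 := (Prod.mk.inj hxy).1
      have e2 := (Prod.mk.inj hxy).2
      have key : ∀ w ∈ D, SignType.sign (ev (pt w (ev w g)⁻¹) p) =
          SignType.sign (ev w g) ^ M * SignType.sign (ev w (invNum M g p)) := by
        intro w hw
        have hne := (hD w hw).1
        rw [ev_invNum hp hne, sign_mul, sign_pow, ← mul_assoc, ← mul_pow]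
        have : SignType.sign (ev w g) * SignType.sign (ev w g) = 1 := by
          rcases lt_or_gt_of_ne hne with h | h
          · rw [sign_neg h]; rfl
          · rw [sign_pos h]; rfl
        rw [this, one_pow, one_mul]
      rw [key x (hD₁ hx), key y (hD₁ hy), e1, e2]
  obtain ⟨F, h1, h2⟩ := Dec.lift (M₂ := M * (m + 1)) (cs := 3 * M + 4)
    (fun y : σ → ℝ => pure (ev y g)⁻¹) K D (fun _ _ => inferInstance)
    (by nlinarith) oracle h hK'M subset_rfl hK subset_rfl
    (fun y hy => by simpa using (hD y hy).2)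
  refine (h2.mono_c (Nat.mul_le_mul_left c (by nlinarith))).congr fun y hy => ?_
  have := h1 y hy
  rw [eventually_pure] at this
  exact this.symm

end Pool.Agent.QC
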