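import Pool.Agent.QC.Subst

/-!
# Coefficients with respect to several variables

`kc g b` is the coefficient of the monomial `z ^ b` in `g(y, z)`, `z` running through the variables
of the finite type `κ`.  A computation of polynomials in `(y, z)` gives a computation of all these
coefficients.
-/

namespace Pool.Agent.QC

open MvPolynomial

variable {σ κ : Type*} {β γ : Type*}

/-- A polynomial in `(y, z)` as a polynomial in `z`. -/
noncomputable def kpoly : MvPolynomial (σ ⊕ κ) ℤ →ₐ[ℤ] MvPolynomial κ (MvPolynomial σ ℤ) :=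
  aeval (Sum.elim (fun i => C (X i)) X)

/-- The coefficient of `z ^ b`. -/
noncomputable def kc (g : MvPolynomial (σ ⊕ κ) ℤ) (b : κ →₀ ℕ) : MvPolynomial σ ℤ :=
  coeff b (kpoly g)

@[simp] lemma kpoly_inl (i : σ) : kpoly (X (Sum.inl i) : MvPolynomial (σ ⊕ κ) ℤ) = C (X i) := by
  simp [kpoly]

@[simp] lemma kpoly_inr (j : κ) : kpoly (X (Sum.inr j) : MvPolynomial (σ ⊕ κ) ℤ) = X j := by
  simp [kpoly]

@[simp] lemma kpoly_C (z : ℤ) : kpoly (C z : MvPolynomial (σ ⊕ κ) ℤ) = C (C z) := by
  have : (C z : MvPolynomial (σ ⊕ κ) ℤ) = (z : MvPolynomial (σ ⊕ κ) ℤ) := by simp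
  rw [this, map_intCast]; simp

lemma kc_add (g h : MvPolynomial (σ ⊕ κ) ℤ) (b : κ →₀ ℕ) : kc (g + h) b = kc g b + kc h b := by
  simp [kc]

lemma kc_sub (g h : MvPolynomial (σ ⊕ κ) ℤ) (b : κ →₀ ℕ) : kc (g - h) b = kc g b - kc h b := by
  simp [kc]

lemma kc_mul [DecidableEq κ] (g h : MvPolynomial (σ ⊕ κ) ℤ) (b : κ →₀ ℕ) :
    kc (g * h) b = ∑ x ∈ Finset.HasAntidiagonal.antidiagonal b, kc g x.1 * kc h x.2 := by
  simp [kc, coeff_mul]

lemma kc_sum {ι : Type*} (s : Finset ι) (f : ι → MvPolynomial (σ ⊕ κ) ℤ) (b : κ →₀ ℕ) :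
    kc (∑ i ∈ s, f i) b = ∑ i ∈ s, kc (f i) b := by
  simp [kc, coeff_sum]

lemma kc_C (z : ℤ) (b : κ →₀ ℕ) [DecidableEq κ] : kc (C z : MvPolynomial (σ ⊕ κ) ℤ) b =
    if 0 = b then C z else 0 := by
  rw [kc, kpoly_C, coeff_C]

/-- The value of a polynomial in `(y, z)`. -/
theorem ev_sumElim (g : MvPolynomial (σ ⊕ κ) ℤ) (y : σ → ℝ) (z : κ → ℝ) :
    ev (Sum.elim y z) g = eval₂ (aeval y : MvPolynomial σ ℤ →ₐ[ℤ] ℝ).toRingHom z (kpoly g) := by
  induction g using MvPolynomial.induction_on with
  | C a => rw [ev_C, kpoly_C, eval₂_C]; simp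
  | add p q hp hq => simp [hp, hq]
  | mul_X p i hp =>
    rw [ev_mul, hp, map_mul, eval₂_mul]
    cases i <;> simp

lemma kc_degree_mono (d : (σ ⊕ κ) →₀ ℕ) (a : ℤ) : ∀ b, kc (monomial d a) b ≠ 0 →
    (kc (monomial d a) b).totalDegree + b.degree ≤ (monomial d a).totalDegree := by
  classical
  refine induction_on_monomial (motive := fun p => ∀ b, kc p b ≠ 0 →
    (kc p b).totalDegree + b.degree ≤ p.totalDegree) ?_ ?_ d a
  · intro a b hb
    rw [kc_C] at hb ⊢
    split_ifs with h
    · subst h; rw [map_zero, add_zero, totalDegree_C, totalDegree_C]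
    · rw [if_neg h] at hb; exact absurd rfl hb
  · intro p n ih b hb
    have hp : p ≠ 0 := by
      rintro rfl
      exact hb (by simp [kc])
    rw [totalDegree_mul_of_isDomain hp (X_ne_zero n), totalDegree_X]
    cases n with
    | inl i =>
      have h1 : kc (p * X (Sum.inl i)) b = kc p b * X i := by
        rw [kc, map_mul, kpoly_inl, mul_comm, coeff_C_mul, mul_comm]; rfl
      rw [h1] at hb ⊢
      have h2 := ih b (left_ne_zero_of_mul hb)
      have h3 := totalDegree_mul (kc p b) (X i)
      rw [totalDegree_X] at h3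
      omega
    | inr j =>
      have h1 : kc (p * X (Sum.inr j)) b =
          if j ∈ b.support then kc p (b - Finsupp.single j 1) else 0 := by
        rw [kc, map_mul, kpoly_inr, coeff_mul_X']; rfl
      rw [h1] at hb ⊢
      split_ifs at hb ⊢ with h
      · have h2 := ih _ hb
        have h3 : b.degree = (b - Finsupp.single j 1).degree + 1 := by
          have : b = (b - Finsupp.single j 1) + Finsupp.single j 1 := by
            ext i
            rw [Finsupp.add_apply, Finsupp.tsub_apply, Finsupp.single_apply]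
            split_ifs with hi
            · subst hi
              have := Finsupp.mem_support_iff.1 h
              omega
            · omega
          conv_lhs => rw [this, map_add, Finsupp.degree_single]
        omega
      · exact absurd rfl hb

/-- Degrees of the coefficients. -/
theorem kc_degree (g : MvPolynomial (σ ⊕ κ) ℤ) (b : κ →₀ ℕ) (h : kc g b ≠ 0) :
    (kc g b).totalDegree + b.degree ≤ g.totalDegree := by
  have h1 : kc g b = ∑ d ∈ g.support, kc (monomial d (coeff d g)) b := by
    conv_lhs => rw [g.as_sum, kc_sum]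
  have h2 : ∀ d ∈ g.support, kc (monomial d (coeff d g)) b ≠ 0 →
      (kc (monomial d (coeff d g)) b).totalDegree + b.degree ≤ g.totalDegree := by
    intro d hd hne
    refine (kc_degree_mono d _ b hne).trans ?_
    rw [totalDegree_monomial _ (mem_support_iff.1 hd)]
    exact le_totalDegree hd
  obtain ⟨d, hd, hne⟩ : ∃ d ∈ g.support, kc (monomial d (coeff d g)) b ≠ 0 := by
    rw [h1] at h
    exact Finset.exists_ne_zero_of_sum_ne_zero h
  have h3 := h2 d hd hne
  have h4 : (kc g b).totalDegree ≤ g.totalDegree - b.degree := by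
    rw [h1]
    refine totalDegree_finsetSum_le fun e he => ?_
    by_cases hz : kc (monomial e (coeff e g)) b = 0
    · rw [hz]; simp
    · have := h2 e he hz
      omega
  omega

lemma totalDegree_kc (g : MvPolynomial (σ ⊕ κ) ℤ) (b : κ →₀ ℕ) :
    (kc g b).totalDegree ≤ g.totalDegree := by
  by_cases h : kc g b = 0
  · rw [h]; simp
  · have := kc_degree g b h; omega

lemma kc_eq_zero (g : MvPolynomial (σ ⊕ κ) ℤ) {b : κ →₀ ℕ} (h : g.totalDegree < b.degree) :
    kc g b = 0 := by
  by_contra hne
  have := kc_degree g b hne; omega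

/-- Simulation by coefficients; `T` contains all exponents of degree at most `M`. -/
theorem Calc.kcoeffs {M c : ℕ} {K' P' : Set (MvPolynomial (σ ⊕ κ) ℤ)} (h : Calc M c K' P')
    {T : Finset (κ →₀ ℕ)} (hT : ∀ b : κ →₀ ℕ, b.degree ≤ M → b ∈ T)
    {K : Set (MvPolynomial σ ℤ)} (hK : ∀ g ∈ K', ∀ b, kc g b ∈ K) :
    Calc M (c * (2 * T.card ^ 2)) K {q | ∃ g ∈ P', ∃ b, q = kc g b} := by
  classical
  refine Calc.of_run fun D => ?_
  have h1 := h.to_run Set.univ
  clear h
  generalize (Set.univ : Set ((σ ⊕ κ) → ℝ)) = D' at h1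
  induction h1 generalizing K with
  | @ret c K' D' K₀ D₀ h1 h2 h3 =>
    refine Run.pure ?_
    rintro _ ⟨g, hg, b, rfl⟩
    exact hK g (h1 (h3 hg)) b
  | @cst c K' D' z _ ih =>
    refine Run.cst z (Run.cst 0 (ih ?_))
    rintro g (rfl | hg) b
    · rw [kc_C]
      split_ifs
      · right; left; rfl
      · left; simp
    · right; right; exact hK g hg b
  | @op c K' D' r h1 h2 _ ih =>
    have hstep : ∀ b ∈ T, Calc M (2 * T.card) K {kc r b} := by
      intro b hbT
      by_cases hb : b.degree ≤ M
      swap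
      · rw [kc_eq_zero r (by omega)]
        have := (Calc.const (M := M) (K := K) 0)
        rw [C_0] at this
        exact this.mono_c (by omega)
      have hd : (kc r b).totalDegree ≤ M := (totalDegree_kc r b).trans h2
      have hTpos : 1 ≤ T.card := Finset.card_pos.2 ⟨b, hbT⟩
      obtain ⟨p, hp, q, hq, rfl | rfl | rfl⟩ := h1
      · rw [kc_add] at hd ⊢
        exact (Calc.add (hK p hp b) (hK q hq b) hd).mono_c (by omega)
      · rw [kc_sub] at hd ⊢
        exact (Calc.sub (hK p hp b) (hK q hq b) hd).mono_c (by omega)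
      · rw [kc_mul]
        refine (Calc.dot (M := M) (K := K) (Finset.HasAntidiagonal.antidiagonal b)
          (f := fun x => kc p x.1) (g := fun x => kc q x.2) (fun x _ => hK p hp _)
          (fun x _ => hK q hq _) ?_).mono_c ?_
        · intro x _
          rcases eq_or_ne p 0 with rfl | hp0
          · simp [kc]
          rcases eq_or_ne q 0 with rfl | hq0
          · simp [kc]
          rw [totalDegree_mul_of_isDomain hp0 hq0] at h2
          refine (totalDegree_mul _ _).trans ?_
          have h3 := totalDegree_kc p x.1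
          have h4 := totalDegree_kc q x.2
          omega
        · refine Nat.mul_le_mul_left 2 ?_
          refine Finset.card_le_card_of_injOn Prod.fst ?_ ?_
          · intro x hx
            have hx' := Finset.HasAntidiagonal.mem_antidiagonal.1 (Finset.mem_coe.1 hx)
            refine hT _ (le_trans ?_ hb)
            rw [← hx', map_add]; exact Nat.le_add_right _ _
          · intro x hx y hy hxy
            have hx' := Finset.HasAntidiagonal.mem_antidiagonal.1 (Finset.mem_coe.1 hx)
            have hy' := Finset.HasAntidiagonal.mem_antidiagonal.1 (Finset.mem_coe.1 hy)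
            refine Prod.ext hxy ?_
            have : x.1 + x.2 = x.1 + y.2 := by
              rw [hx']
              have hxy' : x.1 = y.1 := hxy
              rw [hxy', hy']
            exact add_left_cancel this
    have hc : Calc M (T.card * (2 * T.card)) K (kc r '' T) := Calc.biUnion T hstep
    have h3 := ih (K := insert (C 0) K ∪ kc r '' T) (by
      rintro g (rfl | hg) b
      · by_cases hb : b ∈ T
        · exact Or.inr ⟨b, hb, rfl⟩
        · left; left
          rw [kc_eq_zero g (by
            by_contra hcon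
            exact hb (hT b (by omega)))]
          simp
      · exact Or.inl (Or.inr (hK g hg b)))
    refine Run.cst 0 (((hc.mono_K (Set.subset_insert _ _)).run h3).mono_c ?_)
    nlinarith
  | @sgn c K' D' p h1 _ _ _ ih1 ih2 ih3 =>
    exact (ih1 hK).mono_c (Nat.mul_le_mul_right _ (by omega))

/-- A finite set containing all exponents of degree at most `M`. -/
noncomputable def expsLe (κ : Type*) [Fintype κ] (M : ℕ) : Finset (κ →₀ ℕ) := by
  classical
  exact (Finset.univ : Finset (κ → Fin (M + 1))).image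
    fun b => Finsupp.equivFunOnFinite.symm fun i => ((b i : Fin (M + 1)) : ℕ)

lemma mem_expsLe [Fintype κ] {M : ℕ} {b : κ →₀ ℕ} (hb : b.degree ≤ M) : b ∈ expsLe κ M := by
  classical
  have h1 : ∀ i, b i ≤ M := fun i => (Finsupp.le_degree i b).trans hb
  refine Finset.mem_image.2 ⟨fun i => ⟨b i, by have := h1 i; omega⟩, Finset.mem_univ _, ?_⟩
  ext i
  simp

lemma card_expsLe (κ : Type*) [Fintype κ] (M : ℕ) :
    (expsLe κ M).card ≤ (M + 1) ^ Fintype.card κ := by
  classical
  refine Finset.card_image_le.trans ?_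
  rw [Finset.card_univ, Fintype.card_fun, Fintype.card_fin]

/-- `Calc.kcoeffs` with an explicit bound. -/
theorem Calc.kcoeffs' [Fintype κ] {M c : ℕ} {K' P' : Set (MvPolynomial (σ ⊕ κ) ℤ)}
    (h : Calc M c K' P') {K : Set (MvPolynomial σ ℤ)} (hK : ∀ g ∈ K', ∀ b, kc g b ∈ K) :
    Calc M (c * (2 * (M + 1) ^ (2 * Fintype.card κ))) K {q | ∃ g ∈ P', ∃ b, q = kc g b} := by
  refine (Calc.kcoeffs h (T := expsLe κ M) (fun b => mem_expsLe) hK).mono_c ?_
  have h1 := card_expsLe κ M
  have h2 : (expsLe κ M).card ^ 2 ≤ (M + 1) ^ (2 * Fintype.card κ) := by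
    calc (expsLe κ M).card ^ 2 ≤ ((M + 1) ^ Fintype.card κ) ^ 2 := Nat.pow_le_pow_left h1 2
      _ = (M + 1) ^ (2 * Fintype.card κ) := by rw [← pow_mul, mul_comm]
  gcongr

/-- The form for inputs: all variables known. -/
theorem Calc.kcoeffsX [Fintype κ] {M c : ℕ} {P' : Set (MvPolynomial (σ ⊕ κ) ℤ)}
    (h : Calc M c (Set.range X) P') :
    Calc M (c * (2 * (M + 1) ^ (2 * Fintype.card κ))) (Set.range X)
      {q | ∃ g ∈ P', ∃ b, q = kc g b} := by
  classical
  have h1 := Calc.kcoeffs' h (K := Set.range X ∪ {C 0, C 1}) (by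
    rintro _ ⟨i, rfl⟩ b
    cases i with
    | inl i =>
      rw [kc, kpoly_inl, coeff_C]
      split_ifs
      · exact Or.inl ⟨i, rfl⟩
      · right; left; simp
    | inr j =>
      rw [kc, kpoly_inr, coeff_X]
      split_ifs
      · right; right; simp
      · right; left; simp)
  have h2 : Calc M 0 (Set.range X : Set (MvPolynomial σ ℤ)) {C 0, C 1} := by
    refine ((Calc.const 0).union (Calc.const 1)).mono_P ?_
    rintro _ (rfl | rfl)
    · exact Or.inl rfl
    · exact Or.inr rfl
  simpa using h2.trans' h1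

end Pool.Agent.QC
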