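import Pool.Agent.QC.Lift

/-!
# Lemma R: real roots of a polynomial

A computation on `(y, z)` is turned into a computation on `y` of the list of its results at all
real roots `z₁ < z₂ < ...` of a polynomial `P_y`.  The signs of polynomials at these roots are
given by an oracle (this is the lemma SIGN).
-/

namespace Pool.Agent.QC

open MvPolynomial Filter Topology

variable {σ : Type*} {β γ : Type*}

/-- The distinct real roots in increasing order; empty for the zero polynomial. -/
noncomputable def rootList (p : Polynomial ℝ) : List ℝ := p.roots.toFinset.sort (· ≤ ·)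

lemma mem_rootList {p : Polynomial ℝ} (hp : p ≠ 0) {z : ℝ} :
    z ∈ rootList p ↔ p.eval z = 0 := by
  simp [rootList, hp]

lemma length_rootList_le (p : Polynomial ℝ) : (rootList p).length ≤ p.natDegree := by
  rw [rootList, Finset.length_sort]
  exact (Multiset.toFinset_card_le _).trans (Polynomial.card_roots' p)

lemma sortedLT_rootList (p : Polynomial ℝ) : (rootList p).Pairwise (· < ·) :=
  Finset.sortedLT_sort _ |>.pairwise

/-- The real polynomial `P_y`. -/
noncomputable def spec (P : Polynomial (MvPolynomial σ ℤ)) (y : σ → ℝ) : Polynomial ℝ :=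
  P.map (evHom y)

/-- LEMMA R.  `M`: degree bound of the computation on `(y, z)`, `c` its cost; `cs`: cost of a
sign determination at all roots of `P_y`; `d`: degree of `P`. -/
theorem Dec.roots {M M₂ cs c d : ℕ} {F' : (Option σ → ℝ) → β}
    (P : Polynomial (MvPolynomial σ ℤ)) (hPd : P.natDegree ≤ d)
    (K₀ : Set (MvPolynomial σ ℤ)) (hM : M ≤ M₂)
    (oracle : ∀ g : MvPolynomial (Option σ) ℤ, g.totalDegree ≤ M →
      ∀ K D, K₀ ⊆ K → (∀ i, zc g i ∈ K) →
        Dec M₂ cs K D fun y => (rootList (spec P y)).map fun z => SignType.sign (ev (pt y z) g))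
    {K' : Set (MvPolynomial (Option σ) ℤ)} {D' : Set (Option σ → ℝ)}
    (h : Dec M c K' D' F') (hK'M : ∀ g ∈ K', g.totalDegree ≤ M)
    {K : Set (MvPolynomial σ ℤ)} {D : Set (σ → ℝ)} (hK₀ : K₀ ⊆ K)
    (hK : ∀ g ∈ K', ∀ i, zc g i ∈ K)
    (hD : ∀ y ∈ D, ∀ z ∈ rootList (spec P y), pt y z ∈ D') :
    Dec M₂ (cs + d * (c * (cs + 2 * (M + 1) ^ 2))) K D
      fun y => (rootList (spec P y)).map fun z => F' (pt y z) := by
  have h0 : Dec M₂ cs K D (fun y => (rootList (spec P y)).length) := by
    have := (oracle 0 (by simp) (insert 0 K) D (hK₀.trans (Set.subset_insert _ _))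
      (fun i => Or.inl (by simp [zc, zpoly]))).comp List.length
    refine Run.cst 0 ?_
    rw [C_0]
    have h1 : Dec M₂ cs (insert 0 K) D (fun y => (rootList (spec P y)).length) := by
      simpa using this
    exact h1
  refine h0.bind fun n => ?_
  set D₀ : Set (σ → ℝ) := (fun y => (rootList (spec P y)).length) ⁻¹' {n} with hD₀
  rcases Set.eq_empty_or_nonempty (D ∩ D₀) with he | ⟨y₀, hy₀⟩
  · rw [he]; exact Dec.leaf (by simp)
  have hn : n ≤ d := by
    have h1 : (rootList (spec P y₀)).length = n := hy₀.2
    rw [← h1]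
    exact (length_rootList_le _).trans ((Polynomial.natDegree_map_le).trans hPd)
  have key : ∀ j : Fin n, Dec M₂ (c * (cs + 2 * (M + 1) ^ 2)) K (D ∩ D₀)
      (fun y => F' (pt y ((rootList (spec P y)).getD j 0))) := by
    intro j
    have horacle : ∀ g : MvPolynomial (Option σ) ℤ, g.totalDegree ≤ M →
        ∃ sg : (σ → ℝ) → SignType,
          (∀ y ∈ D₀, ∀ᶠ z in pure ((rootList (spec P y)).getD j 0),
            SignType.sign (ev (pt y z) g) = sg y) ∧
          ∀ K₁ D₁, K ⊆ K₁ → (∀ i, zc g i ∈ K₁) → D₁ ⊆ D₀ → Dec M₂ cs K₁ D₁ sg := by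
      intro g hg
      refine ⟨fun y => SignType.sign (ev (pt y ((rootList (spec P y)).getD j 0)) g),
        fun y _ => by simp, fun K₁ D₁ hK₁ hgK hD₁ => ?_⟩
      refine (oracle g hg K₁ D₁ (hK₀.trans hK₁) hgK).factor fun x hx y hy hxy => ?_
      have hx1 : (rootList (spec P x)).length = n := hD₁ hx
      have hy1 : (rootList (spec P y)).length = n := hD₁ hy
      have h2 := congrArg (fun l : List SignType => l.getD j 0) hxy
      simp only [List.getD_eq_getElem?_getD, List.getElem?_map] at h2
      rw [List.getElem?_eq_getElem (by rw [hx1]; exact j.2),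
        List.getElem?_eq_getElem (by rw [hy1]; exact j.2)] at h2
      simp only [List.getD_eq_getElem?_getD]
      rw [List.getElem?_eq_getElem (by rw [hx1]; exact j.2),
        List.getElem?_eq_getElem (by rw [hy1]; exact j.2)]
      simpa using h2
    obtain ⟨F, h1, h2⟩ := Dec.lift (fun y => pure ((rootList (spec P y)).getD j 0)) K D₀
      (fun _ _ => inferInstance) hM horacle h hK'M (K := K) (D := D ∩ D₀) subset_rfl hK
      Set.inter_subset_right (fun y hy => by
        have hy1 : (rootList (spec P y)).length = n := hy.2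
        simp only [eventually_pure]
        refine hD y hy.1 _ ?_
        rw [List.getD_eq_getElem _ _ (by rw [hy1]; exact j.2)]
        exact List.getElem_mem _)
    refine h2.congr fun y hy => ?_
    have := h1 y hy
    rw [eventually_pure] at this
    exact this.symm
  have h3 := Dec.pi key
  rw [Fintype.card_fin] at h3
  refine (h3.mono_c (Nat.mul_le_mul_right _ hn)).factor fun x hx y hy hxy => ?_
  have hx1 : (rootList (spec P x)).length = n := hx.2
  have hy1 : (rootList (spec P y)).length = n := hy.2
  refine List.ext_getElem (by simp [hx1, hy1]) fun j hj1 hj2 => ?_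
  have hj : j < n := by simpa [hx1] using hj1
  have h4 := congrFun hxy ⟨j, hj⟩
  simp only [List.getElem_map]
  rw [List.getD_eq_getElem _ _ (by rw [hx1]; exact hj),
    List.getD_eq_getElem _ _ (by rw [hy1]; exact hj)] at h4
  exact h4

end Pool.Agent.QC
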