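import Pool.Agent.QC.Poly
import Pool.Agent.QC.Kcoef
import Pool.Agent.QC.Inv
import Pool.Agent.QC.Root

/-!
# Families of computations of polynomial cost

`ι` is the type of the problem sizes and `L : ι → ℕ` a measure.  `Bd L a`: `a` is bounded by a power
of `L + 2`.  `Easy L D F`: the family of functions `F i` on `D i` is computed from the variables
with at most `(L i + 2) ^ A` steps, all polynomials of degree at most `(L i + 2) ^ A`.
`EasyP L P`: the polynomials of `P i` are computed in the same way.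
-/

namespace Pool.Agent.QC

open MvPolynomial Filter Topology

variable {ι ι' : Type*}

/-- `a` is bounded by a power of `L + 2`. -/
def Bd (L a : ι → ℕ) : Prop := ∃ A : ℕ, ∀ i, a i ≤ (L i + 2) ^ A

namespace Bd

variable {L a b : ι → ℕ}

theorem const (c : ℕ) : Bd L (fun _ => c) := by
  refine ⟨c, fun i => ?_⟩
  calc c ≤ 2 ^ c := Nat.lt_two_pow_self.le
    _ ≤ (L i + 2) ^ c := Nat.pow_le_pow_left (by omega) c

theorem self : Bd L L := ⟨1, fun i => by simp⟩

theorem mono (h : Bd L b) (hab : ∀ i, a i ≤ b i) : Bd L a := by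
  obtain ⟨A, hA⟩ := h
  exact ⟨A, fun i => (hab i).trans (hA i)⟩

theorem powA (A : ℕ) : Bd L (fun i => (L i + 2) ^ A) := ⟨A, fun _ => le_rfl⟩

theorem mul (ha : Bd L a) (hb : Bd L b) : Bd L (fun i => a i * b i) := by
  obtain ⟨A, hA⟩ := ha
  obtain ⟨B, hB⟩ := hb
  exact ⟨A + B, fun i => by rw [pow_add]; exact Nat.mul_le_mul (hA i) (hB i)⟩

theorem add (ha : Bd L a) (hb : Bd L b) : Bd L (fun i => a i + b i) := by
  obtain ⟨A, hA⟩ := ha
  obtain ⟨B, hB⟩ := hb
  refine ⟨A + B + 1, fun i => ?_⟩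
  have h1 : a i ≤ (L i + 2) ^ (A + B) :=
    (hA i).trans (Nat.pow_le_pow_right (by omega) (by omega))
  have h2 : b i ≤ (L i + 2) ^ (A + B) :=
    (hB i).trans (Nat.pow_le_pow_right (by omega) (by omega))
  rw [pow_succ]
  nlinarith [Nat.zero_le (L i), Nat.zero_le ((L i + 2) ^ (A + B))]

theorem pow (ha : Bd L a) (k : ℕ) : Bd L (fun i => a i ^ k) := by
  obtain ⟨A, hA⟩ := ha
  exact ⟨A * k, fun i => by rw [pow_mul]; exact Nat.pow_le_pow_left (hA i) k⟩

theorem comap (g : ι' → ι) (ha : Bd L a) : Bd (fun j => L (g j)) (fun j => a (g j)) := by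
  obtain ⟨A, hA⟩ := ha
  exact ⟨A, fun j => hA (g j)⟩

/-- Change of the measure. -/
theorem trans {L' : ι → ℕ} (ha : Bd L a) (hL : Bd L' L) : Bd L' a := by
  obtain ⟨A, hA⟩ := ha
  obtain ⟨B, hB⟩ := hL.add (const 2)
  exact ⟨B * A, fun i => (hA i).trans (by rw [pow_mul]; exact Nat.pow_le_pow_left (hB i) A)⟩

end Bd

/-- See the header. -/
def Easy (L : ι → ℕ) {σ : ι → Type*} {β : ι → Type*} (D : ∀ i, Set (σ i → ℝ))
    (F : ∀ i, (σ i → ℝ) → β i) : Prop :=
  ∃ A : ℕ, ∀ i, Dec ((L i + 2) ^ A) ((L i + 2) ^ A)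
    (Set.range (X : σ i → MvPolynomial (σ i) ℤ)) (D i) (F i)

/-- See the header. -/
def EasyP (L : ι → ℕ) {σ : ι → Type*} (P : ∀ i, Set (MvPolynomial (σ i) ℤ)) : Prop :=
  ∃ A : ℕ, ∀ i, Calc ((L i + 2) ^ A) ((L i + 2) ^ A)
    (Set.range (X : σ i → MvPolynomial (σ i) ℤ)) (P i) ∧
    ∀ p ∈ P i, p.totalDegree ≤ (L i + 2) ^ A

variable {L : ι → ℕ} {σ τ : ι → Type*} {β γ δ : ι → Type*}

theorem Easy.of_bd {D : ∀ i, Set (σ i → ℝ)} {F : ∀ i, (σ i → ℝ) → β i} {M c : ι → ℕ}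
    (hM : Bd L M) (hc : Bd L c)
    (h : ∀ i, Dec (M i) (c i) (Set.range (X : σ i → MvPolynomial (σ i) ℤ)) (D i) (F i)) :
    Easy L D F := by
  obtain ⟨A, hA⟩ := hM.add hc
  exact ⟨A, fun i => (h i).mono ((Nat.le_add_right _ _).trans (hA i))
    ((Nat.le_add_left _ _).trans (hA i)) subset_rfl subset_rfl⟩

theorem Easy.bd {D : ∀ i, Set (σ i → ℝ)} {F : ∀ i, (σ i → ℝ) → β i} (h : Easy L D F) :
    ∃ a : ι → ℕ, Bd L a ∧ (∀ i, 1 ≤ a i) ∧
      ∀ i, Dec (a i) (a i) (Set.range (X : σ i → MvPolynomial (σ i) ℤ)) (D i) (F i) := by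
  obtain ⟨A, hA⟩ := h
  exact ⟨_, Bd.powA A, fun i => Nat.one_le_pow _ _ (by omega), hA⟩

theorem EasyP.of_bd {P : ∀ i, Set (MvPolynomial (σ i) ℤ)} {M c : ι → ℕ}
    (hM : Bd L M) (hc : Bd L c)
    (h : ∀ i, Calc (M i) (c i) (Set.range (X : σ i → MvPolynomial (σ i) ℤ)) (P i))
    (hd : ∀ i, ∀ p ∈ P i, p.totalDegree ≤ M i) : EasyP L P := by
  obtain ⟨A, hA⟩ := hM.add hc
  exact ⟨A, fun i => ⟨(h i).mono ((Nat.le_add_right _ _).trans (hA i))
    ((Nat.le_add_left _ _).trans (hA i)) subset_rfl subset_rfl,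
    fun p hp => (hd i p hp).trans ((Nat.le_add_right _ _).trans (hA i))⟩⟩

theorem EasyP.bd {P : ∀ i, Set (MvPolynomial (σ i) ℤ)} (h : EasyP L P) :
    ∃ a : ι → ℕ, Bd L a ∧ (∀ i, 1 ≤ a i) ∧
      (∀ i, Calc (a i) (a i) (Set.range (X : σ i → MvPolynomial (σ i) ℤ)) (P i)) ∧
      ∀ i, ∀ p ∈ P i, p.totalDegree ≤ a i := by
  obtain ⟨A, hA⟩ := h
  exact ⟨_, Bd.powA A, fun i => Nat.one_le_pow _ _ (by omega), fun i => (hA i).1,
    fun i => (hA i).2⟩

/-! ### Polynomials -/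

namespace EasyP

variable {P P' : ∀ i, Set (MvPolynomial (σ i) ℤ)}

theorem mono (h : EasyP L P) (hP : ∀ i, P' i ⊆ P i) : EasyP L P' := by
  obtain ⟨a, ha, _, h1, h2⟩ := h.bd
  exact of_bd ha ha (fun i => (h1 i).mono_P (hP i)) fun i p hp => h2 i p (hP i hp)

/-- Chain: after the computation of `P`. -/
theorem chain (h : EasyP L P)
    (h' : ∀ a : ι → ℕ, Bd L a → (∀ i, 1 ≤ a i) → (∀ i, ∀ p ∈ P i, p.totalDegree ≤ a i) →
      ∃ M c : ι → ℕ, Bd L M ∧ Bd L c ∧
        (∀ i, Calc (M i) (c i) (Set.range (X : σ i → MvPolynomial (σ i) ℤ) ∪ P i) (P' i)) ∧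
        ∀ i, ∀ p ∈ P' i, p.totalDegree ≤ M i) : EasyP L P' := by
  obtain ⟨a, ha, ha1, h1, h2⟩ := h.bd
  obtain ⟨M, c, hM, hc, h3, h4⟩ := h' a ha ha1 h2
  refine of_bd (M := fun i => a i + M i) (c := fun i => a i + c i) (ha.add hM) (ha.add hc)
    (fun i => ?_) fun i p hp => (h4 i p hp).trans (Nat.le_add_left _ _)
  exact ((h1 i).mono_M (Nat.le_add_right _ _)).trans' ((h3 i).mono_M (Nat.le_add_left _ _))

theorem vars : EasyP L (fun i => Set.range (X : σ i → MvPolynomial (σ i) ℤ)) := by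
  refine of_bd (Bd.const 1) (Bd.const 0) (fun i => Calc.refl subset_rfl) ?_
  rintro i _ ⟨j, rfl⟩
  rw [totalDegree_X]

theorem const (c : ι → ℤ) : EasyP L (fun i => {(C (c i) : MvPolynomial (σ i) ℤ)}) := by
  refine of_bd (Bd.const 0) (Bd.const 0) (fun i => Calc.const _) ?_
  rintro i _ rfl
  rw [totalDegree_C]

theorem union (h : EasyP L P) (h' : EasyP L P') : EasyP L (fun i => P i ∪ P' i) := by
  obtain ⟨a, ha, _, h1, h2⟩ := h.bd
  obtain ⟨b, hb, _, h3, h4⟩ := h'.bd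
  refine of_bd (M := fun i => a i + b i) (c := fun i => a i + b i) (ha.add hb) (ha.add hb)
    (fun i => ((h1 i).mono_M (Nat.le_add_right _ _)).union
      ((h3 i).mono_M (Nat.le_add_left _ _))) ?_
  rintro i p (hp | hp)
  · exact (h2 i p hp).trans (Nat.le_add_right _ _)
  · exact (h4 i p hp).trans (Nat.le_add_left _ _)

theorem insert_const (h : EasyP L P) (c : ι → ℤ) : EasyP L (fun i => insert (C (c i)) (P i)) :=
  ((const c).union h).mono fun i => by
    rintro p (rfl | hp)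
    · exact Or.inl rfl
    · exact Or.inr hp

theorem zero_one (h : EasyP L P) : EasyP L (fun i => P i ∪ {0, 1}) :=
  ((h.insert_const fun _ => 0).insert_const fun _ => 1).mono fun i => by
    rintro p (hp | rfl | rfl)
    · exact Or.inr (Or.inr hp)
    · exact Or.inr (Or.inl (by simp))
    · exact Or.inl (by simp)

theorem comap (g : ι' → ι) (h : EasyP L P) : EasyP (fun j => L (g j)) (fun j => P (g j)) := by
  obtain ⟨A, hA⟩ := h
  exact ⟨A, fun j => hA (g j)⟩

/-- Change of the measure. -/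
theorem measure {L' : ι → ℕ} (hL : Bd L' L) (h : EasyP L P) : EasyP L' P := by
  obtain ⟨a, ha, _, h1, h2⟩ := h.bd
  exact of_bd (ha.trans hL) (ha.trans hL) h1 h2

section Pair

variable {p q : ∀ i, MvPolynomial (σ i) ℤ}

theorem add (hp : EasyP L (fun i => {p i})) (hq : EasyP L (fun i => {q i})) :
    EasyP L (fun i => {p i + q i}) := by
  refine (hp.union hq).chain fun a ha _ h2 => ⟨a, fun _ => 1, ha, Bd.const _, fun i => ?_, ?_⟩
  · exact Calc.add (Or.inr (Or.inl rfl)) (Or.inr (Or.inr rfl))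
      ((totalDegree_add _ _).trans (max_le (h2 i _ (Or.inl rfl)) (h2 i _ (Or.inr rfl))))
  · rintro i _ rfl
    exact (totalDegree_add _ _).trans (max_le (h2 i _ (Or.inl rfl)) (h2 i _ (Or.inr rfl)))

theorem sub (hp : EasyP L (fun i => {p i})) (hq : EasyP L (fun i => {q i})) :
    EasyP L (fun i => {p i - q i}) := by
  refine (hp.union hq).chain fun a ha _ h2 => ⟨a, fun _ => 1, ha, Bd.const _, fun i => ?_, ?_⟩
  · exact Calc.sub (Or.inr (Or.inl rfl)) (Or.inr (Or.inr rfl))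
      ((totalDegree_sub _ _).trans (max_le (h2 i _ (Or.inl rfl)) (h2 i _ (Or.inr rfl))))
  · rintro i _ rfl
    exact (totalDegree_sub _ _).trans (max_le (h2 i _ (Or.inl rfl)) (h2 i _ (Or.inr rfl)))

theorem mul (hp : EasyP L (fun i => {p i})) (hq : EasyP L (fun i => {q i})) :
    EasyP L (fun i => {p i * q i}) := by
  have hd : ∀ a : ι → ℕ, (∀ i, ∀ r ∈ ({p i} ∪ {q i} : Set (MvPolynomial (σ i) ℤ)),
      r.totalDegree ≤ a i) → ∀ i, (p i * q i).totalDegree ≤ a i + a i := fun a h2 i =>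
    (totalDegree_mul _ _).trans (add_le_add (h2 i _ (Or.inl rfl)) (h2 i _ (Or.inr rfl)))
  refine (hp.union hq).chain fun a ha _ h2 =>
    ⟨fun i => a i + a i, fun _ => 1, ha.add ha, Bd.const _, fun i => ?_, ?_⟩
  · exact Calc.mul (Or.inr (Or.inl rfl)) (Or.inr (Or.inr rfl)) (hd a h2 i)
  · rintro i _ rfl
    exact hd a h2 i

theorem neg (hp : EasyP L (fun i => {p i})) : EasyP L (fun i => {-p i}) := by
  have := (const (L := L) (σ := σ) fun _ => 0).sub hp
  simpa using this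

theorem pow (hp : EasyP L (fun i => {p i})) {k : ι → ℕ} (hk : Bd L k) :
    EasyP L (fun i => {p i ^ k i}) := by
  have hd : ∀ a : ι → ℕ, (∀ i, ∀ r ∈ ({p i} : Set (MvPolynomial (σ i) ℤ)),
      r.totalDegree ≤ a i) → ∀ i, (p i ^ k i).totalDegree ≤ k i * a i := fun a h2 i =>
    (totalDegree_pow _ _).trans (Nat.mul_le_mul_left _ (h2 i _ rfl))
  refine hp.chain fun a ha _ h2 => ⟨fun i => k i * a i, k, hk.mul ha, hk, fun i => ?_, ?_⟩
  · refine (Calc.powsIic (K := Set.range (X : σ i → MvPolynomial (σ i) ℤ) ∪ {p i})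
      (Or.inr rfl) (h2 i _ rfl) (k i) le_rfl).mono_P ?_
    rintro _ rfl
    exact ⟨k i, Set.mem_Iic.2 le_rfl, rfl⟩
  · rintro i _ rfl
    exact hd a h2 i

end Pair

section Family

variable {κ : ι → Type*} {f : ∀ i, κ i → MvPolynomial (σ i) ℤ}

/-- A polynomially large family of uniformly easy polynomials. -/
theorem range [∀ i, Fintype (κ i)] (hκ : Bd L (fun i => Fintype.card (κ i)))
    (h : EasyP (fun p : Σ i, κ i => L p.1) (σ := fun p => σ p.1) (fun p => {f p.1 p.2})) :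
    EasyP L (fun i => Set.range (f i)) := by
  obtain ⟨A, hA⟩ := h
  refine of_bd (M := fun i => (L i + 2) ^ A)
    (c := fun i => Fintype.card (κ i) * (L i + 2) ^ A) (Bd.powA A) (hκ.mul (Bd.powA A))
    (fun i => Calc.range fun j => (hA ⟨i, j⟩).1) ?_
  rintro i _ ⟨j, rfl⟩
  exact (hA ⟨i, j⟩).2 _ rfl

/-- Members of an easy family, uniformly. -/
theorem of_range (h : EasyP L (fun i => Set.range (f i))) :
    EasyP (fun p : Σ i, κ i => L p.1) (σ := fun p => σ p.1) (fun p => {f p.1 p.2}) := by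
  obtain ⟨A, hA⟩ := h
  refine ⟨A, fun p => ⟨(hA p.1).1.mono_P ?_, ?_⟩⟩
  · rintro _ rfl; exact ⟨p.2, rfl⟩
  · rintro _ rfl; exact (hA p.1).2 _ ⟨p.2, rfl⟩

/-- Members, one for each size. -/
theorem of_mem (h : EasyP L P) {p : ∀ i, MvPolynomial (σ i) ℤ} (hp : ∀ i, p i ∈ P i) :
    EasyP L (fun i => {p i}) :=
  h.mono fun i => by rintro _ rfl; exact hp i

/-- Sums over polynomially large index sets. -/
theorem sum [∀ i, Fintype (κ i)] (hκ : Bd L (fun i => Fintype.card (κ i)))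
    (h : EasyP L (fun i => Set.range (f i))) : EasyP L (fun i => {∑ j, f i j}) := by
  refine h.chain fun a ha _ h2 => ⟨a, fun i => Fintype.card (κ i), ha, hκ, fun i => ?_, ?_⟩
  · have := Calc.sum (M := a i) (K := Set.range (X : σ i → MvPolynomial (σ i) ℤ) ∪
      Set.range (f i)) Finset.univ (f := f i) (fun j _ => Or.inr ⟨j, rfl⟩)
      (fun j _ => h2 i _ ⟨j, rfl⟩)
    rwa [Finset.card_univ] at this
  · rintro i _ rfl
    exact totalDegree_finsetSum_le fun j _ => h2 i _ ⟨j, rfl⟩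

/-- Products over polynomially large index sets. -/
theorem prod [∀ i, Fintype (κ i)] (hκ : Bd L (fun i => Fintype.card (κ i)))
    (h : EasyP L (fun i => Set.range (f i))) : EasyP L (fun i => {∏ j, f i j}) := by
  classical
  have hd : ∀ a : ι → ℕ, (∀ i, ∀ r ∈ Set.range (f i), r.totalDegree ≤ a i) →
      ∀ i, ∀ s : Finset (κ i), (∏ j ∈ s, f i j).totalDegree ≤ s.card * a i := fun a h2 i s =>
    (totalDegree_finsetProd _ _).trans ((Finset.sum_le_card_nsmul _ _ (a i)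
      fun j _ => h2 i _ ⟨j, rfl⟩).trans (le_of_eq (by rw [smul_eq_mul])))
  refine h.chain fun a ha _ h2 => ⟨fun i => Fintype.card (κ i) * a i,
    fun i => Fintype.card (κ i), hκ.mul ha, hκ, fun i => ?_, ?_⟩
  · have key : ∀ s : Finset (κ i), Calc (Fintype.card (κ i) * a i) s.card
        (Set.range (X : σ i → MvPolynomial (σ i) ℤ) ∪ Set.range (f i)) {∏ j ∈ s, f i j} := by
      intro s
      induction s using Finset.induction_on with
      | empty =>
        have := Calc.const (M := Fintype.card (κ i) * a i)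
          (K := Set.range (X : σ i → MvPolynomial (σ i) ℤ) ∪ Set.range (f i)) 1
        simpa using this
      | @insert b s hb ih =>
        rw [Finset.prod_insert hb, Finset.card_insert_of_notMem hb]
        refine ih.trans' (Calc.mul (Or.inl (Or.inr ⟨b, rfl⟩)) (Or.inr rfl) ?_)
        rw [← Finset.prod_insert hb]
        exact (hd a h2 i _).trans (Nat.mul_le_mul_right _ (Finset.card_le_univ _))
    exact key Finset.univ
  · rintro i _ rfl
    exact (hd a h2 i Finset.univ).trans (Nat.mul_le_mul_right _ (Finset.card_le_univ _))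

/-- Sums of products. -/
theorem dot [∀ i, Fintype (κ i)] {g : ∀ i, κ i → MvPolynomial (σ i) ℤ}
    (hκ : Bd L (fun i => Fintype.card (κ i)))
    (hf : EasyP L (fun i => Set.range (f i))) (hg : EasyP L (fun i => Set.range (g i))) :
    EasyP L (fun i => {∑ j, f i j * g i j}) :=
  sum hκ (range hκ (mul hf.of_range hg.of_range))

end Family

end EasyP

end Pool.Agent.QC
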