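import Pool.Agent.QC.EasyFun
import Pool.Agent.QC.Cplx

/-!
# Families of computations: real and imaginary parts
-/

namespace Pool.Agent.QC

open MvPolynomial

variable {ι : Type*} {L : ι → ℕ} {σ : ι → Type*}

/-- Real and imaginary parts of polynomially many polynomials. -/
theorem EasyP.reIm {κ : ι → Type*} [∀ i, Fintype (κ i)]
    {f : ∀ i, κ i → MvPolynomial (Option (σ i)) ℤ} (hκ : Bd L (fun i => Fintype.card (κ i)))
    (h : EasyP L (σ := fun i => Option (σ i)) (fun i => Set.range (f i))) :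
    ∃ N : ι → ℕ, Bd L N ∧ (∀ i j, (f i j).totalDegree ≤ N i) ∧
      EasyP L (σ := σ) (fun i => Set.range fun j => reP (N i) (f i j)) ∧
      EasyP L (σ := σ) (fun i => Set.range fun j => imP (N i) (f i j)) := by
  obtain ⟨N, hN, _, _, h2⟩ := h.bd
  have hz := h.zc
  have key : EasyP L (σ := σ) (fun i => (Set.range fun j => reP (N i) (f i j)) ∪
      Set.range fun j => imP (N i) (f i j)) := by
    refine hz.chain fun a ha _ _ => ⟨N, fun i => Fintype.card (κ i) * (4 * (N i + 1)) +
      Fintype.card (κ i) * (4 * (N i + 1)), hN,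
      (hκ.mul ((Bd.const 4).mul (hN.add (Bd.const 1)))).add
        (hκ.mul ((Bd.const 4).mul (hN.add (Bd.const 1)))), fun i => ?_, ?_⟩
    · have h3 : ∀ j, Calc (N i) (4 * (N i + 1)) (Set.range X ∪
          {q | ∃ g ∈ Set.range (f i), ∃ j, q = QC.zc g j})
          ({reP (N i) (f i j)} ∪ {imP (N i) (f i j)}) := fun j =>
        calc_reP_imP (h2 i _ ⟨j, rfl⟩) fun t => Or.inr ⟨_, ⟨j, rfl⟩, t, rfl⟩
      exact (Calc.range fun j => (h3 j).mono_P Set.subset_union_left).union
        (Calc.range fun j => (h3 j).mono_P Set.subset_union_right)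
    · rintro i _ (⟨j, rfl⟩ | ⟨j, rfl⟩)
      · exact totalDegree_reP (h2 i _ ⟨j, rfl⟩) _
      · exact totalDegree_imP (h2 i _ ⟨j, rfl⟩) _
  exact ⟨N, hN, fun i j => h2 i _ ⟨j, rfl⟩, key.mono fun i => Set.subset_union_left,
    key.mono fun i => Set.subset_union_right⟩

end Pool.Agent.QC
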