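import Pool.Agent.QC.EasyMat
import Pool.Agent.QC.Rec.Choose
import Pool.Agent.QC.Sign.Sign

/-!
# Families of computations: functions and relations
-/

namespace Pool.Agent.QC

open MvPolynomial Filter Topology

variable {ι ι' : Type*} {L : ι → ℕ} {σ τ : ι → Type*} {β γ : ι → Type*}

namespace Easy

variable {D D' : ∀ i, Set (σ i → ℝ)} {F F' : ∀ i, (σ i → ℝ) → β i} {S : ∀ i, (σ i → ℝ) → γ i}

theorem leaf (h : ∀ i, ∀ x ∈ D i, ∀ y ∈ D i, F i x = F i y) : Easy L D F :=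
  of_bd (Bd.const 0) (Bd.const 0) fun i => Dec.leaf (h i)

theorem mono_D (h : Easy L D F) (hD : ∀ i, D' i ⊆ D i) : Easy L D' F := by
  obtain ⟨A, hA⟩ := h
  exact ⟨A, fun i => (hA i).mono_D (hD i)⟩

theorem comap (g : ι' → ι) (h : Easy L D F) :
    Easy (fun j => L (g j)) (fun j => D (g j)) (fun j => F (g j)) := by
  obtain ⟨A, hA⟩ := h
  exact ⟨A, fun j => hA (g j)⟩

/-- Change of the measure. -/
theorem measure {L' : ι → ℕ} (hL : Bd L' L) (h : Easy L D F) : Easy L' D F := by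
  obtain ⟨a, ha, _, h1⟩ := h.bd
  exact of_bd (ha.trans hL) (ha.trans hL) h1

theorem factor (h : Easy L D S)
    (h' : ∀ i, ∀ x ∈ D i, ∀ y ∈ D i, S i x = S i y → F i x = F i y) : Easy L D F := by
  obtain ⟨A, hA⟩ := h
  exact ⟨A, fun i => (hA i).factor (h' i)⟩

theorem congr (h : Easy L D F) (h' : ∀ i, ∀ x ∈ D i, F i x = F' i x) : Easy L D F' := by
  obtain ⟨A, hA⟩ := h
  exact ⟨A, fun i => (hA i).congr (h' i)⟩

theorem comp (h : Easy L D F) (g : ∀ i, β i → γ i) : Easy L D (fun i x => g i (F i x)) :=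
  h.factor fun i x _ y _ hxy => by rw [hxy]

theorem pair (h : Easy L D F) (h' : Easy L D S) :
    Easy L D (fun i x => (F i x, S i x)) := by
  obtain ⟨a, ha, _, h1⟩ := h.bd
  obtain ⟨b, hb, _, h2⟩ := h'.bd
  exact of_bd (M := fun i => a i + b i) (ha.add hb) (ha.add hb) fun i =>
    ((h1 i).mono_M (Nat.le_add_right _ _)).pair ((h2 i).mono_M (Nat.le_add_left _ _))

/-- Two results are combined. -/
theorem comp₂ {δ : ι → Type*} (h : Easy L D F) (h' : Easy L D S) (g : ∀ i, β i → γ i → δ i) :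
    Easy L D (fun i x => g i (F i x) (S i x)) :=
  (h.pair h').comp fun i p => g i p.1 p.2

/-- Polynomially many results, each of them uniformly easy. -/
theorem pi {κ : ι → Type*} [∀ i, Fintype (κ i)] {T : ∀ i, κ i → (σ i → ℝ) → β i}
    (hκ : Bd L (fun i => Fintype.card (κ i)))
    (h : Easy (fun p : Σ i, κ i => L p.1) (σ := fun p => σ p.1) (β := fun p => β p.1)
      (fun p => D p.1) (fun p => T p.1 p.2)) :
    Easy L D (fun i x j => T i j x) := by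
  obtain ⟨A, hA⟩ := h
  exact of_bd (Bd.powA A) (hκ.mul (Bd.powA A)) fun i => Dec.pi fun j => hA ⟨i, j⟩

/-- First find `S`, then, for every possible value of `S`, uniformly, find `F`. -/
theorem bind (h : Easy L D S)
    (h' : Easy (fun p : Σ i, γ i => L p.1) (σ := fun p => σ p.1) (β := fun p => β p.1)
      (fun p => D p.1 ∩ S p.1 ⁻¹' {p.2}) (fun p => F p.1)) : Easy L D F := by
  obtain ⟨a, ha, _, h1⟩ := h.bd
  obtain ⟨A, hA⟩ := h'
  refine of_bd (M := fun i => a i + (L i + 2) ^ A) (c := fun i => a i + (L i + 2) ^ A)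
    (ha.add (Bd.powA A)) (ha.add (Bd.powA A)) fun i => ?_
  exact ((h1 i).mono_M (Nat.le_add_right _ _)).bind fun s =>
    (hA ⟨i, s⟩).mono_M (Nat.le_add_left _ _)

/-- The same; only values which occur have to be considered. -/
theorem bind' (h : Easy L D S)
    (h' : Easy (fun p : {p : Σ i, γ i // (D p.1 ∩ S p.1 ⁻¹' {p.2}).Nonempty} => L p.1.1)
      (σ := fun p => σ p.1.1) (β := fun p => β p.1.1)
      (fun p => D p.1.1 ∩ S p.1.1 ⁻¹' {p.1.2}) (fun p => F p.1.1)) : Easy L D F := by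
  obtain ⟨A, hA⟩ := h'
  refine h.bind ⟨A, fun p => ?_⟩
  rcases Set.eq_empty_or_nonempty (D p.1 ∩ S p.1 ⁻¹' {p.2}) with he | hne
  · show Dec _ _ _ (D p.1 ∩ S p.1 ⁻¹' {p.2}) _
    rw [he]; exact Dec.leaf (by simp)
  · exact hA ⟨p, hne⟩

/-- Distinction of cases. -/
theorem cases {s : ∀ i, (σ i → ℝ) → Prop} (h : Easy L D s)
    (h1 : Easy L (fun i => D i ∩ {x | s i x}) F) (h2 : Easy L (fun i => D i ∩ {x | ¬ s i x}) F) :
    Easy L D F := by
  obtain ⟨A, hA⟩ := h1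
  obtain ⟨B, hB⟩ := h2
  refine h.bind ⟨A + B, fun p => ?_⟩
  obtain ⟨i, t⟩ := p
  have hA' := Nat.pow_le_pow_right (show 0 < L i + 2 by omega) (Nat.le_add_right A B)
  have hB' := Nat.pow_le_pow_right (show 0 < L i + 2 by omega) (Nat.le_add_left B A)
  by_cases ht : t
  · refine (hA i).mono hA' hA' subset_rfl ?_
    rintro x ⟨hx, hxt⟩
    refine ⟨hx, ?_⟩
    have : s i x = t := hxt
    show s i x
    rw [this]; exact ht
  · refine (hB i).mono hB' hB' subset_rfl ?_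
    rintro x ⟨hx, hxt⟩
    refine ⟨hx, ?_⟩
    have : s i x = t := hxt
    show ¬ s i x
    rw [this]; exact ht

/-- The sign of an easy polynomial. -/
theorem sign {p : ∀ i, MvPolynomial (σ i) ℤ} (hp : EasyP L (fun i => {p i})) :
    Easy L D (fun i x => SignType.sign (ev x (p i))) := by
  obtain ⟨a, ha, _, h1, _⟩ := hp.bd
  exact of_bd (M := a) (c := fun i => a i + 1) ha (ha.add (Bd.const 1)) fun i => (h1 i).sign

theorem pos {p : ∀ i, MvPolynomial (σ i) ℤ} (hp : EasyP L (fun i => {p i})) :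
    Easy L D (fun i x => 0 < ev x (p i)) :=
  (sign hp).factor fun i x _ y _ hxy => by
    rw [← sign_eq_one_iff, hxy, sign_eq_one_iff]

theorem isZero {p : ∀ i, MvPolynomial (σ i) ℤ} (hp : EasyP L (fun i => {p i})) :
    Easy L D (fun i x => ev x (p i) = 0) :=
  (sign hp).factor fun i x _ y _ hxy => by
    rw [← sign_eq_zero_iff, hxy, sign_eq_zero_iff]

/-- The signs of polynomially many polynomials. -/
theorem signs {κ : ι → Type*} [∀ i, Fintype (κ i)] {f : ∀ i, κ i → MvPolynomial (σ i) ℤ}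
    (hκ : Bd L (fun i => Fintype.card (κ i))) (hf : EasyP L (fun i => Set.range (f i))) :
    Easy L D (fun i x j => SignType.sign (ev x (f i j))) :=
  pi (T := fun i j x => SignType.sign (ev x (f i j))) hκ (sign hf.of_range)

/-- Substitution of easy polynomials. -/
theorem subst {u : ∀ i, σ i → MvPolynomial (τ i) ℤ} (h : Easy L D F)
    (hu : EasyP L (fun i => Set.range (u i))) {D₁ : ∀ i, Set (τ i → ℝ)}
    (hD : ∀ i, ∀ y ∈ D₁ i, spt (u i) y ∈ D i) :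
    Easy L D₁ (fun i y => F i (spt (u i) y)) := by
  obtain ⟨a, ha, _, h1⟩ := h.bd
  obtain ⟨b, hb, _, h3, h4⟩ := hu.bd
  refine of_bd (M := fun i => a i * b i + b i) (c := fun i => b i + a i)
    ((ha.mul hb).add hb) (hb.add ha) fun i => ?_
  refine ((h3 i).mono_M (Nat.le_add_left _ _)).dec (((h1 i).subst
    (fun j => h4 i _ ⟨j, rfl⟩) ?_ (hD i)).mono_M (Nat.le_add_right _ _))
  rintro _ ⟨j, rfl⟩
  rw [bind₁_X_right]
  exact Or.inr ⟨j, rfl⟩

/-- Renaming of variables. -/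
theorem rename (g : ∀ i, σ i → τ i) (h : Easy L D F) {D₁ : ∀ i, Set (τ i → ℝ)}
    (hD : ∀ i, ∀ y ∈ D₁ i, (fun j => y (g i j)) ∈ D i) :
    Easy L D₁ (fun i y => F i fun j => y (g i j)) := by
  obtain ⟨A, hA⟩ := h
  refine ⟨A, fun i => (hA i).rename (g i) ?_ (hD i)⟩
  rintro _ ⟨j, rfl⟩
  rw [rename_X]
  exact ⟨_, rfl⟩

end Easy

/-- The `z`-coefficients of the variables. -/
lemma zc_X_mem {σ : Type*} (o : Option σ) (j : ℕ) :
    zc (X o : MvPolynomial (Option σ) ℤ) j ∈ (Set.range X ∪ {0, 1} : Set (MvPolynomial σ ℤ)) := by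
  cases o with
  | none =>
    rw [zc, zpoly_none, Polynomial.coeff_X]
    split_ifs
    · exact Or.inr (Or.inr rfl)
    · exact Or.inr (Or.inl rfl)
  | some o =>
    rw [zc, zpoly_some, Polynomial.coeff_C]
    split_ifs
    · exact Or.inl ⟨o, rfl⟩
    · exact Or.inr (Or.inl rfl)

/-- Infinitesimals. -/
theorem Easy.lim {D' : ∀ i, Set (Option (σ i) → ℝ)} {F' : ∀ i, (Option (σ i) → ℝ) → β i}
    (h : Easy L D' F') {D : ∀ i, Set (σ i → ℝ)}
    (hD : ∀ i, ∀ y ∈ D i, ∀ᶠ z in 𝓝[>] (0 : ℝ), pt y z ∈ D' i) :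
    ∃ F₀ : ∀ i, (σ i → ℝ) → β i,
      (∀ i, ∀ y ∈ D i, ∀ᶠ z in 𝓝[>] (0 : ℝ), F' i (pt y z) = F₀ i y) ∧ Easy L D F₀ := by
  obtain ⟨a, ha, ha1, h1⟩ := h.bd
  have key : ∀ i, ∃ F₀ : (σ i → ℝ) → β i,
      (∀ y ∈ D i, ∀ᶠ z in 𝓝[>] (0 : ℝ), F' i (pt y z) = F₀ y) ∧
        Dec (a i) (a i * (3 * (a i + 1) ^ 2)) (Set.range X ∪ {0, 1}) (D i) F₀ := fun i =>
    Dec.lim (h1 i) (by rintro _ ⟨o, rfl⟩; rw [totalDegree_X]; exact ha1 i)
      (by rintro _ ⟨o, rfl⟩ j; exact zc_X_mem o j) (hD i)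
  choose F₀ h2 h3 using key
  refine ⟨F₀, h2, Easy.of_bd (M := a) (c := fun i => a i * (3 * (a i + 1) ^ 2)) ha
    (ha.mul ((Bd.const 3).mul ((ha.add (Bd.const 1)).pow 2))) fun i => ?_⟩
  simpa using (Calc.zero_one (M := a i) (K := Set.range X)).dec (h3 i)

/-- If the limit function is known. -/
theorem Easy.lim' {D' : ∀ i, Set (Option (σ i) → ℝ)} {F' : ∀ i, (Option (σ i) → ℝ) → β i}
    (h : Easy L D' F') {D : ∀ i, Set (σ i → ℝ)} {F₀ : ∀ i, (σ i → ℝ) → β i}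
    (hD : ∀ i, ∀ y ∈ D i, ∀ᶠ z in 𝓝[>] (0 : ℝ), pt y z ∈ D' i ∧ F' i (pt y z) = F₀ i y) :
    Easy L D F₀ := by
  obtain ⟨F₁, h1, h2⟩ := h.lim fun i y hy => (hD i y hy).mono fun z hz => hz.1
  refine h2.congr fun i y hy => ?_
  obtain ⟨z, hz, hz'⟩ := ((h1 i y hy).and (hD i y hy)).exists
  rw [← hz, hz'.2]

/-- Reciprocals. -/
theorem Easy.inv {D' : ∀ i, Set (Option (σ i) → ℝ)} {F' : ∀ i, (Option (σ i) → ℝ) → β i}
    (h : Easy L D' F') {g : ∀ i, MvPolynomial (σ i) ℤ} (hg : EasyP L (fun i => {g i}))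
    {D : ∀ i, Set (σ i → ℝ)}
    (hD : ∀ i, ∀ y ∈ D i, ev y (g i) ≠ 0 ∧ pt y (ev y (g i))⁻¹ ∈ D' i) :
    Easy L D (fun i y => F' i (pt y (ev y (g i))⁻¹)) := by
  obtain ⟨a, ha, ha1, h1⟩ := h.bd
  obtain ⟨b, hb, hb1, h3, h4⟩ := hg.bd
  have key : ∀ i, Dec (a i * (b i + 1)) (a i * (6 * (a i + 1) ^ 2))
      (Set.range X ∪ {0, 1} ∪ {g i}) (D i) (fun y => F' i (pt y (ev y (g i))⁻¹)) := fun i =>
    Dec.inv (h1 i) (by rintro _ ⟨o, rfl⟩; rw [totalDegree_X]; exact ha1 i) (Or.inr rfl)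
      (h4 i _ rfl) (by rintro _ ⟨o, rfl⟩ j; exact Or.inl (zc_X_mem o j)) (hD i)
  refine Easy.of_bd (M := fun i => a i * (b i + 1) + b i)
    (c := fun i => 0 + (b i + a i * (6 * (a i + 1) ^ 2)))
    ((ha.mul (hb.add (Bd.const 1))).add hb)
    ((Bd.const 0).add (hb.add (ha.mul ((Bd.const 6).mul ((ha.add (Bd.const 1)).pow 2)))))
    fun i => ?_
  have h5 := ((h3 i).mono (Nat.le_add_left (b i) (a i * (b i + 1))) le_rfl
    (Set.subset_union_left (s := Set.range (X : σ i → MvPolynomial (σ i) ℤ)) (t := {0, 1}))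
    subset_rfl).dec ((key i).mono_M (Nat.le_add_right _ _))
  exact (Calc.zero_one (M := a i * (b i + 1) + b i) (K := Set.range X)).dec h5

/-- The results at all real roots of a polynomial. -/
theorem Easy.roots {D' : ∀ i, Set (Option (σ i) → ℝ)} {F' : ∀ i, (Option (σ i) → ℝ) → β i}
    (h : Easy L D' F') {P : ∀ i, Polynomial (MvPolynomial (σ i) ℤ)}
    (hP : EasyP L (fun i => Set.range (P i).coeff)) (hPd : Bd L (fun i => (P i).natDegree))
    {D : ∀ i, Set (σ i → ℝ)}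
    (hD : ∀ i, ∀ y ∈ D i, ∀ z ∈ rootList (spec (P i) y), pt y z ∈ D' i) :
    Easy L D (fun i y => (rootList (spec (P i) y)).map fun z => F' i (pt y z)) := by
  obtain ⟨a, ha, ha1, h1⟩ := h.bd
  obtain ⟨b, hb, hb1, h3, h4⟩ := hP.bd
  set d : ι → ℕ := fun i => a i + (P i).natDegree with hd
  have hdB : Bd L d := ha.add hPd
  set m : ι → ℕ := fun i => a i + b i with hm
  have hmB : Bd L m := ha.add hb
  set M₂ : ι → ℕ := fun i => a i + b i + 64 * (d i + 2) ^ 5 * m i with hM₂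
  have hM₂B : Bd L M₂ := (ha.add hb).add
    (((Bd.const 64).mul ((hdB.add (Bd.const 2)).pow 5)).mul hmB)
  have key : ∀ i, Dec (M₂ i) ((d i + 2) ^ 32 + (P i).natDegree *
      (a i * ((d i + 2) ^ 32 + 2 * (a i + 1) ^ 2)))
      (Set.range X ∪ {0, 1} ∪ Set.range (P i).coeff) (D i)
      (fun y => (rootList (spec (P i) y)).map fun z => F' i (pt y z)) := by
    intro i
    refine Dec.roots (M := a i) (P i) le_rfl
      (Set.range X ∪ {0, 1} ∪ Set.range (P i).coeff) (by simp only [hM₂]; omega) ?_ (h1 i)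
      (by rintro _ ⟨o, rfl⟩; rw [totalDegree_X]; exact ha1 i) subset_rfl
      (by rintro _ ⟨o, rfl⟩ j; exact Or.inl (zc_X_mem o j)) (hD i)
    intro g hg K D₁ hK hgK
    have h5 := Dec.signs (D := D₁) (m := m i) (d := d i) (M := M₂ i) (K := K) (P i) (zpoly g)
      (by simp only [hd]; omega) ((natDegree_zpoly g).trans (by simp only [hd]; omega))
      (Set.subset_union_right.trans hK) (by rintro _ ⟨j, rfl⟩; exact hgK j)
      (fun j => (h4 i _ ⟨j, rfl⟩).trans (by simp only [hm]; omega))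
      (fun j => ((totalDegree_zc g j).trans hg).trans (by simp only [hm]; omega))
      (by simp only [hM₂]; omega)
    refine h5.congr fun y _ => ?_
    refine List.map_congr_left fun z _ => ?_
    rw [ev_pt]; rfl
  refine Easy.of_bd (M := M₂)
    (c := fun i => b i + ((d i + 2) ^ 32 + (P i).natDegree *
      (a i * ((d i + 2) ^ 32 + 2 * (a i + 1) ^ 2)))) hM₂B
    (hb.add (((hdB.add (Bd.const 2)).pow 32).add (hPd.mul (ha.mul
      (((hdB.add (Bd.const 2)).pow 32).add ((Bd.const 2).mul ((ha.add (Bd.const 1)).pow 2)))))))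
    fun i => ?_
  have h5 := ((h3 i).mono (show b i ≤ M₂ i by simp only [hM₂]; omega) le_rfl
    (Set.subset_union_left (s := Set.range (X : σ i → MvPolynomial (σ i) ℤ)) (t := {0, 1}))
    subset_rfl).dec (key i)
  simpa using (Calc.zero_one (M := M₂ i) (K := Set.range X)).dec h5

/-- The results at all real roots, when `P` is given as a polynomial in `(y, z)`. -/
theorem Easy.roots' {D' : ∀ i, Set (Option (σ i) → ℝ)} {F' : ∀ i, (Option (σ i) → ℝ) → β i}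
    (h : Easy L D' F') {p : ∀ i, MvPolynomial (Option (σ i)) ℤ}
    (hp : EasyP L (σ := fun i => Option (σ i)) (fun i => {p i})) {D : ∀ i, Set (σ i → ℝ)}
    (hD : ∀ i, ∀ y ∈ D i, ∀ z ∈ rootList (spec (zpoly (p i)) y), pt y z ∈ D' i) :
    Easy L D (fun i y => (rootList (spec (zpoly (p i)) y)).map fun z => F' i (pt y z)) := by
  refine h.roots (hp.zc.mono fun i => ?_) ?_ hD
  · rintro _ ⟨j, rfl⟩
    exact ⟨p i, rfl, j, rfl⟩
  · obtain ⟨a, ha, _, _, h2⟩ := hp.bd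
    exact ha.mono fun i => (natDegree_zpoly _).trans (h2 i _ rfl)

/-! ### The final form -/

/-- For measures with values `≥ 2` the summand `2` can be omitted. -/
theorem Easy.dec {D : ∀ i, Set (σ i → ℝ)} {F : ∀ i, (σ i → ℝ) → β i} (h : Easy L D F)
    (hL : ∀ i, 2 ≤ L i) : ∃ A : ℕ, ∀ i, Dec (L i ^ A) (L i ^ A)
      (Set.range (X : σ i → MvPolynomial (σ i) ℤ)) (D i) (F i) := by
  obtain ⟨A, hA⟩ := h
  refine ⟨2 * A, fun i => ?_⟩
  have h1 : (L i + 2) ^ A ≤ L i ^ (2 * A) := by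
    rw [pow_mul]
    refine Nat.pow_le_pow_left ?_ A
    have := hL i
    nlinarith
  exact (hA i).mono h1 h1 subset_rfl subset_rfl

/-! ### Relations -/

/-- A family of results, which satisfy given relations, is computed. -/
def EasyR (L : ι → ℕ) {σ : ι → Type*} {β : ι → Type*} (D : ∀ i, Set (σ i → ℝ))
    (R : ∀ i, (σ i → ℝ) → β i → Prop) : Prop :=
  ∃ F : ∀ i, (σ i → ℝ) → β i, Easy L D F ∧ ∀ i, ∀ x ∈ D i, R i x (F i x)

namespace EasyR

variable {D : ∀ i, Set (σ i → ℝ)} {R R' : ∀ i, (σ i → ℝ) → β i → Prop}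

theorem of_bd {M c : ι → ℕ} (hM : Bd L M) (hc : Bd L c)
    (h : ∀ i, DecRel (M i) (c i) (Set.range (X : σ i → MvPolynomial (σ i) ℤ)) (D i) (R i)) :
    EasyR L D R := by
  choose F h1 h2 using h
  exact ⟨F, Easy.of_bd hM hc h1, h2⟩

theorem dec (h : EasyR L D R) : ∃ a : ι → ℕ, Bd L a ∧ (∀ i, 1 ≤ a i) ∧
    ∀ i, DecRel (a i) (a i) (Set.range (X : σ i → MvPolynomial (σ i) ℤ)) (D i) (R i) := by
  obtain ⟨F, h1, h2⟩ := h
  obtain ⟨a, ha, ha1, h3⟩ := h1.bd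
  exact ⟨a, ha, ha1, fun i => ⟨F i, h3 i, h2 i⟩⟩

theorem of_easy {F : ∀ i, (σ i → ℝ) → β i} (h : Easy L D F) (hR : ∀ i, ∀ x ∈ D i, R i x (F i x)) :
    EasyR L D R := ⟨F, h, hR⟩

theorem imp (h : EasyR L D R) (h' : ∀ i, ∀ x ∈ D i, ∀ b, R i x b → R' i x b) : EasyR L D R' := by
  obtain ⟨F, h1, h2⟩ := h
  exact ⟨F, h1, fun i x hx => h' i x hx _ (h2 i x hx)⟩

theorem mono_D {D' : ∀ i, Set (σ i → ℝ)} (h : EasyR L D R) (hD : ∀ i, D' i ⊆ D i) :
    EasyR L D' R := by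
  obtain ⟨F, h1, h2⟩ := h
  exact ⟨F, h1.mono_D hD, fun i x hx => h2 i x (hD i hx)⟩

/-- First find `S`, then, for every possible value of `S`, uniformly, find a result. -/
theorem bind {S : ∀ i, (σ i → ℝ) → γ i} (h : Easy L D S)
    (h' : EasyR (fun p : Σ i, γ i => L p.1) (σ := fun p => σ p.1) (β := fun p => β p.1)
      (fun p => D p.1 ∩ S p.1 ⁻¹' {p.2}) (fun p => R p.1)) : EasyR L D R := by
  obtain ⟨F, h1, h2⟩ := h'
  have h3 : Easy L D (fun i x => F ⟨i, S i x⟩ x) := by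
    refine h.bind ?_
    refine h1.congr fun p x hx => ?_
    obtain ⟨i, s⟩ := p
    have hs : S i x = s := hx.2
    show F ⟨i, s⟩ x = F ⟨i, S i x⟩ x
    rw [hs]
  exact ⟨_, h3, fun i x hx => h2 ⟨i, S i x⟩ x ⟨hx, rfl⟩⟩

theorem subst {u : ∀ i, σ i → MvPolynomial (τ i) ℤ} (h : EasyR L D R)
    (hu : EasyP L (fun i => Set.range (u i))) {D₁ : ∀ i, Set (τ i → ℝ)}
    (hD : ∀ i, ∀ y ∈ D₁ i, spt (u i) y ∈ D i) :
    EasyR L D₁ (fun i y => R i (spt (u i) y)) := by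
  obtain ⟨F, h1, h2⟩ := h
  exact ⟨_, h1.subst hu hD, fun i y hy => h2 i _ (hD i y hy)⟩

/-- Infinitesimals. -/
theorem lim {D' : ∀ i, Set (Option (σ i) → ℝ)} {R' : ∀ i, (Option (σ i) → ℝ) → β i → Prop}
    (h : EasyR L D' R')
    (hD : ∀ i, ∀ y ∈ D i, ∀ᶠ z in 𝓝[>] (0 : ℝ), pt y z ∈ D' i) :
    EasyR L D (fun i y b => ∀ᶠ z in 𝓝[>] (0 : ℝ), R' i (pt y z) b) := by
  obtain ⟨F, h1, h2⟩ := h
  obtain ⟨F₀, h3, h4⟩ := h1.lim hD
  refine ⟨F₀, h4, fun i y hy => ?_⟩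
  filter_upwards [h3 i y hy, hD i y hy] with z hz hz'
  rw [← hz]; exact h2 i _ hz'

/-- Reciprocals. -/
theorem inv {D' : ∀ i, Set (Option (σ i) → ℝ)} {R' : ∀ i, (Option (σ i) → ℝ) → β i → Prop}
    (h : EasyR L D' R') {g : ∀ i, MvPolynomial (σ i) ℤ} (hg : EasyP L (fun i => {g i}))
    (hD : ∀ i, ∀ y ∈ D i, ev y (g i) ≠ 0 ∧ pt y (ev y (g i))⁻¹ ∈ D' i) :
    EasyR L D (fun i y => R' i (pt y (ev y (g i))⁻¹)) := by
  obtain ⟨F, h1, h2⟩ := h
  exact ⟨_, h1.inv hg hD, fun i y hy => h2 i _ (hD i y hy).2⟩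

/-- Roots. -/
theorem roots {D' : ∀ i, Set (Option (σ i) → ℝ)} {R' : ∀ i, (Option (σ i) → ℝ) → β i → Prop}
    (h : EasyR L D' R') {P : ∀ i, Polynomial (MvPolynomial (σ i) ℤ)}
    (hP : EasyP L (fun i => Set.range (P i).coeff)) (hPd : Bd L (fun i => (P i).natDegree))
    (hD : ∀ i, ∀ y ∈ D i, ∀ z ∈ rootList (spec (P i) y), pt y z ∈ D' i) :
    EasyR L D (fun i y (b : List (β i)) =>
      List.Forall₂ (fun z c => R' i (pt y z) c) (rootList (spec (P i) y)) b) := by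
  obtain ⟨F, h1, h2⟩ := h
  refine ⟨_, h1.roots hP hPd hD, fun i y hy => ?_⟩
  show List.Forall₂ (fun z c => R' i (pt y z) c) (rootList (spec (P i) y))
    (List.map (fun z => F i (pt y z)) (rootList (spec (P i) y)))
  rw [List.forall₂_map_right_iff]
  exact List.forall₂_same.2 fun z hz => h2 i _ (hD i y hy z hz)

end EasyR

end Pool.Agent.QC
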