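import Pool.Agent.QC.Easy

/-!
# Families of computations: matrices, polynomials, substitution
-/

namespace Pool.Agent.QC

open MvPolynomial Filter Topology

variable {ι ι' : Type*} {L : ι → ℕ} {σ τ : ι → Type*}

namespace EasyP

/-! ### Matrices -/

section Matrices

variable {κ κ₁ κ₂ κ₃ : ι → Type*}

/-- A family of matrices is given by the set of its entries. -/
theorem charpoly [∀ i, Fintype (κ i)] [∀ i, DecidableEq (κ i)]
    {A : ∀ i, Matrix (κ i) (κ i) (MvPolynomial (σ i) ℤ)}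
    (hκ : Bd L (fun i => Fintype.card (κ i)))
    (h : EasyP L (fun i => {q | ∃ r s, q = A i r s})) :
    EasyP L (fun i => {q | ∃ j, q = (A i).charpoly.coeff j}) := by
  refine h.chain fun a ha _ h2 => ⟨fun i => Fintype.card (κ i) * a i,
    fun i => 2 * (Fintype.card (κ i) + 1) ^ 4, hκ.mul ha,
    (Bd.const 2).mul ((hκ.add (Bd.const 1)).pow 4), fun i => ?_, ?_⟩
  · exact Calc.charpoly (fun r s => Or.inr ⟨r, s, rfl⟩) (fun r s => h2 i _ ⟨r, s, rfl⟩) le_rfl
  · rintro i _ ⟨j, rfl⟩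
    exact totalDegree_charpoly_coeff' (fun r s => h2 i _ ⟨r, s, rfl⟩) j

theorem det [∀ i, Fintype (κ i)] [∀ i, DecidableEq (κ i)]
    {A : ∀ i, Matrix (κ i) (κ i) (MvPolynomial (σ i) ℤ)}
    (hκ : Bd L (fun i => Fintype.card (κ i)))
    (h : EasyP L (fun i => {q | ∃ r s, q = A i r s})) :
    EasyP L (fun i => {(A i).det}) := by
  refine h.chain fun a ha _ h2 => ⟨fun i => Fintype.card (κ i) * a i,
    fun i => 3 * (Fintype.card (κ i) + 1) ^ 4, hκ.mul ha,
    (Bd.const 3).mul ((hκ.add (Bd.const 1)).pow 4), fun i => ?_, ?_⟩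
  · exact Calc.det (fun r s => Or.inr ⟨r, s, rfl⟩) (fun r s => h2 i _ ⟨r, s, rfl⟩) le_rfl
  · rintro i _ rfl
    exact totalDegree_det (fun r s => h2 i _ ⟨r, s, rfl⟩)

theorem adjugate [∀ i, Fintype (κ i)] [∀ i, DecidableEq (κ i)]
    {A : ∀ i, Matrix (κ i) (κ i) (MvPolynomial (σ i) ℤ)}
    (hκ : Bd L (fun i => Fintype.card (κ i)))
    (h : EasyP L (fun i => {q | ∃ r s, q = A i r s})) :
    EasyP L (fun i => {q | ∃ r s, q = (A i).adjugate r s}) := by
  refine h.chain fun a ha _ h2 => ⟨fun i => Fintype.card (κ i) * a i,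
    fun i => 3 * (Fintype.card (κ i) + 1) ^ 6, hκ.mul ha,
    (Bd.const 3).mul ((hκ.add (Bd.const 1)).pow 6), fun i => ?_, ?_⟩
  · exact Calc.adjugate (fun r s => Or.inr ⟨r, s, rfl⟩) (fun r s => h2 i _ ⟨r, s, rfl⟩) le_rfl
  · rintro i _ ⟨r, s, rfl⟩
    exact totalDegree_adjugate (fun r s => h2 i _ ⟨r, s, rfl⟩) r s

theorem matMul [∀ i, Fintype (κ₁ i)] [∀ i, Fintype (κ₂ i)] [∀ i, Fintype (κ₃ i)]
    {A : ∀ i, Matrix (κ₁ i) (κ₂ i) (MvPolynomial (σ i) ℤ)}
    {B : ∀ i, Matrix (κ₂ i) (κ₃ i) (MvPolynomial (σ i) ℤ)}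
    (h₁ : Bd L (fun i => Fintype.card (κ₁ i))) (h₂ : Bd L (fun i => Fintype.card (κ₂ i)))
    (h₃ : Bd L (fun i => Fintype.card (κ₃ i)))
    (hA : EasyP L (fun i => {q | ∃ r s, q = A i r s}))
    (hB : EasyP L (fun i => {q | ∃ r s, q = B i r s})) :
    EasyP L (fun i => {q | ∃ r s, q = (A i * B i) r s}) := by
  refine (hA.union hB).chain fun a ha _ h2 => ⟨fun i => a i + a i,
    fun i => Fintype.card (κ₁ i) * Fintype.card (κ₃ i) * (2 * Fintype.card (κ₂ i)), ha.add ha,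
    (h₁.mul h₃).mul ((Bd.const 2).mul h₂), fun i => ?_, ?_⟩
  · exact Calc.mmul (fun r s => Or.inr (Or.inl ⟨r, s, rfl⟩))
      (fun r s => Or.inr (Or.inr ⟨r, s, rfl⟩)) fun r s t => (totalDegree_mul _ _).trans
        (add_le_add (h2 i _ (Or.inl ⟨r, s, rfl⟩)) (h2 i _ (Or.inr ⟨s, t, rfl⟩)))
  · rintro i _ ⟨r, s, rfl⟩
    rw [Matrix.mul_apply]
    exact totalDegree_finsetSum_le fun t _ => (totalDegree_mul _ _).trans
        (add_le_add (h2 i _ (Or.inl ⟨r, t, rfl⟩)) (h2 i _ (Or.inr ⟨t, s, rfl⟩)))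

theorem matPow [∀ i, Fintype (κ i)] [∀ i, DecidableEq (κ i)]
    {A : ∀ i, Matrix (κ i) (κ i) (MvPolynomial (σ i) ℤ)} {N : ι → ℕ}
    (hκ : Bd L (fun i => Fintype.card (κ i))) (hN : Bd L N)
    (h : EasyP L (fun i => {q | ∃ r s, q = A i r s})) :
    EasyP L (fun i => {q | ∃ k < N i + 1, ∃ r s, q = (A i ^ k) r s}) := by
  refine h.chain fun a ha _ h2 => ⟨fun i => N i * a i,
    fun i => N i * (2 * Fintype.card (κ i) ^ 3), hN.mul ha,
    hN.mul ((Bd.const 2).mul (hκ.pow 3)), fun i => ?_, ?_⟩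
  · exact Calc.mpow (fun r s => Or.inr ⟨r, s, rfl⟩) (fun r s => h2 i _ ⟨r, s, rfl⟩) le_rfl
  · rintro i _ ⟨k, hk, r, s, rfl⟩
    exact (totalDegree_pow_entry (fun r s => h2 i _ ⟨r, s, rfl⟩) k r s).trans
      (Nat.mul_le_mul_right _ (by omega))

theorem trace [∀ i, Fintype (κ i)]
    {A : ∀ i, Matrix (κ i) (κ i) (MvPolynomial (σ i) ℤ)}
    (hκ : Bd L (fun i => Fintype.card (κ i)))
    (h : EasyP L (fun i => {q | ∃ r s, q = A i r s})) :
    EasyP L (fun i => {(A i).trace}) :=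
  EasyP.sum (f := fun i r => A i r r) hκ (h.mono fun i => by
    rintro _ ⟨r, rfl⟩; exact ⟨r, r, rfl⟩)

end Matrices

/-! ### Polynomials in one variable -/

section Polys

variable {A B : ∀ i, Polynomial (MvPolynomial (σ i) ℤ)}

theorem padd (hNA : Bd L (fun i => (A i).natDegree)) (hNB : Bd L (fun i => (B i).natDegree))
    (hA : EasyP L (fun i => Set.range (A i).coeff))
    (hB : EasyP L (fun i => Set.range (B i).coeff)) :
    EasyP L (fun i => Set.range (A i + B i).coeff) := by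
  refine (hA.union hB).chain fun a ha _ h2 => ⟨a,
    fun i => (A i).natDegree + (B i).natDegree + 1, ha, (hNA.add hNB).add (Bd.const 1),
    fun i => ?_, ?_⟩
  · exact Calc.padd (Set.subset_union_left.trans Set.subset_union_right)
      (Set.subset_union_right.trans Set.subset_union_right) (Nat.le_add_right _ _)
      (Nat.le_add_left _ _) (fun j => h2 i _ (Or.inl ⟨j, rfl⟩))
      (fun j => h2 i _ (Or.inr ⟨j, rfl⟩))
  · rintro i _ ⟨j, rfl⟩
    rw [Polynomial.coeff_add]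
    exact (totalDegree_add _ _).trans (max_le (h2 i _ (Or.inl ⟨j, rfl⟩))
      (h2 i _ (Or.inr ⟨j, rfl⟩)))

theorem psub (hNA : Bd L (fun i => (A i).natDegree)) (hNB : Bd L (fun i => (B i).natDegree))
    (hA : EasyP L (fun i => Set.range (A i).coeff))
    (hB : EasyP L (fun i => Set.range (B i).coeff)) :
    EasyP L (fun i => Set.range (A i - B i).coeff) := by
  refine (hA.union hB).chain fun a ha _ h2 => ⟨a,
    fun i => (A i).natDegree + (B i).natDegree + 1, ha, (hNA.add hNB).add (Bd.const 1),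
    fun i => ?_, ?_⟩
  · exact Calc.psub (Set.subset_union_left.trans Set.subset_union_right)
      (Set.subset_union_right.trans Set.subset_union_right) (Nat.le_add_right _ _)
      (Nat.le_add_left _ _) (fun j => h2 i _ (Or.inl ⟨j, rfl⟩))
      (fun j => h2 i _ (Or.inr ⟨j, rfl⟩))
  · rintro i _ ⟨j, rfl⟩
    rw [Polynomial.coeff_sub]
    exact (totalDegree_sub _ _).trans (max_le (h2 i _ (Or.inl ⟨j, rfl⟩))
      (h2 i _ (Or.inr ⟨j, rfl⟩)))

theorem pmul (hNA : Bd L (fun i => (A i).natDegree)) (hNB : Bd L (fun i => (B i).natDegree))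
    (hA : EasyP L (fun i => Set.range (A i).coeff))
    (hB : EasyP L (fun i => Set.range (B i).coeff)) :
    EasyP L (fun i => Set.range (A i * B i).coeff) := by
  refine (hA.union hB).chain fun a ha _ h2 => ⟨fun i => a i + a i,
    fun i => 2 * ((A i).natDegree + (B i).natDegree + 1) ^ 2, ha.add ha,
    (Bd.const 2).mul (((hNA.add hNB).add (Bd.const 1)).pow 2), fun i => ?_, ?_⟩
  · exact Calc.pmul (Set.subset_union_left.trans Set.subset_union_right)
      (Set.subset_union_right.trans Set.subset_union_right) Polynomial.natDegree_mul_le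
      (fun j => h2 i _ (Or.inl ⟨j, rfl⟩))
      (fun j => h2 i _ (Or.inr ⟨j, rfl⟩)) le_rfl
  · rintro i _ ⟨j, rfl⟩
    exact totalDegree_coeff_mul (fun j => h2 i _ (Or.inl ⟨j, rfl⟩))
      (fun j => h2 i _ (Or.inr ⟨j, rfl⟩)) j

theorem pder (hNA : Bd L (fun i => (A i).natDegree))
    (hA : EasyP L (fun i => Set.range (A i).coeff)) :
    EasyP L (fun i => Set.range (Polynomial.derivative (A i)).coeff) := by
  refine hA.chain fun a ha _ h2 => ⟨a, fun i => (A i).natDegree + 1, ha,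
    hNA.add (Bd.const 1), fun i => ?_, ?_⟩
  · exact Calc.pder Set.subset_union_right le_rfl (fun j => h2 i _ ⟨j, rfl⟩)
  · rintro i _ ⟨j, rfl⟩
    rw [Polynomial.coeff_derivative]
    refine (totalDegree_mul _ _).trans ?_
    have h3 : ((j : MvPolynomial (σ i) ℤ) + 1) = C ((j : ℤ) + 1) := by simp
    rw [h3, totalDegree_C, add_zero]
    exact h2 i _ ⟨_, rfl⟩

theorem peval {w : ∀ i, MvPolynomial (σ i) ℤ} (hNA : Bd L (fun i => (A i).natDegree))
    (hA : EasyP L (fun i => Set.range (A i).coeff)) (hw : EasyP L (fun i => {w i})) :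
    EasyP L (fun i => {(A i).eval (w i)}) := by
  refine (hA.union hw).chain fun a ha _ h2 => ⟨fun i => a i + (A i).natDegree * a i,
    fun i => 2 * ((A i).natDegree + 1), ha.add (hNA.mul ha),
    (Bd.const 2).mul (hNA.add (Bd.const 1)), fun i => ?_, ?_⟩
  · exact Calc.peval (Set.subset_union_left.trans Set.subset_union_right)
      (Or.inr (Or.inr rfl)) le_rfl (fun j => h2 i _ (Or.inl ⟨j, rfl⟩))
      (h2 i _ (Or.inr rfl)) le_rfl
  · rintro i _ rfl
    rw [Polynomial.eval_eq_sum_range]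
    refine totalDegree_finsetSum_le fun j hj => (totalDegree_mul _ _).trans
      (add_le_add (h2 i _ (Or.inl ⟨j, rfl⟩)) ((totalDegree_pow _ _).trans ?_))
    exact Nat.mul_le_mul (Nat.lt_succ_iff.1 (Finset.mem_range.1 hj)) (h2 i _ (Or.inr rfl))

theorem ppow {k : ι → ℕ} (hk : Bd L k) (hNA : Bd L (fun i => (A i).natDegree))
    (hA : EasyP L (fun i => Set.range (A i).coeff)) :
    EasyP L (fun i => {q | ∃ j < k i + 1, ∃ t, q = (A i ^ j).coeff t}) := by
  refine hA.chain fun a ha _ h2 => ⟨fun i => k i * a i,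
    fun i => k i * (2 * (k i * (A i).natDegree + 1) ^ 2), hk.mul ha,
    hk.mul ((Bd.const 2).mul (((hk.mul hNA).add (Bd.const 1)).pow 2)), fun i => ?_, ?_⟩
  · exact Calc.ppow Set.subset_union_right le_rfl (fun j => h2 i _ ⟨j, rfl⟩) le_rfl
  · rintro i _ ⟨j, hj, t, rfl⟩
    exact (totalDegree_coeff_pow (fun j => h2 i _ ⟨j, rfl⟩) j t).trans
      (Nat.mul_le_mul_right _ (by omega))

end Polys

/-! ### Coefficients, substitution, renaming -/

/-- The coefficients of the powers of the variable `none`. -/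
theorem zc {P : ∀ i, Set (MvPolynomial (Option (σ i)) ℤ)}
    (h : EasyP L (σ := fun i => Option (σ i)) P) :
    EasyP L (σ := σ) (fun i => {q | ∃ g ∈ P i, ∃ j, q = QC.zc g j}) := by
  obtain ⟨a, ha, ha1, h1, h2⟩ := h.bd
  refine of_bd (M := a) (c := fun i => a i * (3 * (a i + 1) ^ 2)) ha
    (ha.mul ((Bd.const 3).mul ((ha.add (Bd.const 1)).pow 2))) (fun i => ?_) ?_
  · have h3 := Calc.lift (h1 i) (by
      rintro _ ⟨o, rfl⟩
      rw [totalDegree_X]; exact ha1 i) (K := Set.range X ∪ {0, 1}) (by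
      rintro _ ⟨o, rfl⟩ j
      cases o with
      | none =>
        rw [QC.zc, zpoly_none, Polynomial.coeff_X]
        split_ifs
        · exact Or.inr (Or.inr rfl)
        · exact Or.inr (Or.inl rfl)
      | some o =>
        rw [QC.zc, zpoly_some, Polynomial.coeff_C]
        split_ifs
        · exact Or.inl ⟨o, rfl⟩
        · exact Or.inr (Or.inl rfl))
    simpa using (Calc.zero_one (M := a i) (K := Set.range X)).trans' h3
  · rintro i _ ⟨g, hg, j, rfl⟩
    exact (totalDegree_zc g j).trans (h2 i g hg)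

/-- The coefficients with respect to several variables; here the degree bound `M` must be small
compared with the number of these variables. -/
theorem kc {κ : ι → Type*} [∀ i, Fintype (κ i)]
    {P : ∀ i, Set (MvPolynomial (σ i ⊕ κ i) ℤ)} {M c : ι → ℕ} (hM : Bd L M) (hc : Bd L c)
    (hκ : Bd L (fun i => (M i + 1) ^ Fintype.card (κ i)))
    (h : ∀ i, Calc (M i) (c i) (Set.range X) (P i)) (hd : ∀ i, ∀ p ∈ P i, p.totalDegree ≤ M i) :
    EasyP L (σ := σ) (fun i => {q | ∃ g ∈ P i, ∃ b, q = QC.kc g b}) := by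
  refine of_bd hM (hc.mul ((Bd.const 2).mul (hκ.pow 2))) (fun i => ?_) ?_
  · refine (Calc.kcoeffsX (h i)).mono_c (le_of_eq ?_)
    rw [mul_comm 2 (Fintype.card (κ i)), pow_mul]
  · rintro i _ ⟨g, hg, b, rfl⟩
    exact (totalDegree_kc g b).trans (hd i g hg)

/-- Substitution. -/
theorem subst {P : ∀ i, Set (MvPolynomial (σ i) ℤ)} {u : ∀ i, σ i → MvPolynomial (τ i) ℤ}
    (h : EasyP L P) (hu : EasyP L (fun i => Set.range (u i))) :
    EasyP L (fun i => (bind₁ (u i)) '' P i) := by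
  obtain ⟨a, ha, _, h1, h2⟩ := h.bd
  refine hu.chain fun b hb _ h4 => ⟨fun i => a i * b i, a, ha.mul hb, ha, fun i => ?_, ?_⟩
  · refine Calc.subst (h1 i) (fun j => h4 i _ ⟨j, rfl⟩) ?_
    rintro _ ⟨j, rfl⟩
    rw [bind₁_X_right]
    exact Or.inr ⟨j, rfl⟩
  · rintro i _ ⟨p, hp, rfl⟩
    exact (totalDegree_bind₁_le (fun j => h4 i _ ⟨j, rfl⟩) p).trans
      (Nat.mul_le_mul_right _ (h2 i p hp))

/-- Renaming of variables. -/
theorem rename {P : ∀ i, Set (MvPolynomial (σ i) ℤ)} (g : ∀ i, σ i → τ i)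
    (h : EasyP L P) : EasyP L (fun i => (MvPolynomial.rename (g i)) '' P i) := by
  have hu : EasyP L (fun i => Set.range (fun j => (X (g i j) : MvPolynomial (τ i) ℤ))) :=
    vars.mono fun i => by rintro _ ⟨j, rfl⟩; exact ⟨g i j, rfl⟩
  refine (h.subst hu).mono fun i => ?_
  rintro _ ⟨p, hp, rfl⟩
  exact ⟨p, hp, (rename_eq_bind (g i) p).symm⟩

end EasyP

end Pool.Agent.QC
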