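import Pool.Agent.QC.EasyFun

/-!
# The sizes `(n, l)` and the measure `(n + 1) ^ l`
-/

namespace Pool.Agent.QC

/-- Sizes: `n + 1` variables, `l` inequalities. -/
abbrev NL := {p : ℕ × ℕ // 1 ≤ p.1 ∧ 1 ≤ p.2}

/-- One less than the number of variables. -/
abbrev NL.n (p : NL) : ℕ := p.1.1

/-- The number of inequalities. -/
abbrev NL.l (p : NL) : ℕ := p.1.2

lemma NL.hn (p : NL) : 1 ≤ p.n := p.2.1

lemma NL.hl (p : NL) : 1 ≤ p.l := p.2.2

/-- The measure. -/
def LL (p : NL) : ℕ := (p.n + 1) ^ p.l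

lemma two_le_LL (p : NL) : 2 ≤ LL p := by
  have h1 := p.hn
  have h2 := p.hl
  calc 2 = 2 ^ 1 := rfl
    _ ≤ 2 ^ p.l := Nat.pow_le_pow_right (by norm_num) h2
    _ ≤ (p.n + 1) ^ p.l := Nat.pow_le_pow_left (by omega) _

/-- Polynomially bounded in `n` alone. -/
def BdN (a : NL → ℕ) : Prop := ∃ A : ℕ, ∀ p, a p ≤ (p.n + 1) ^ A

/-- At most linear in `l`. -/
def BdLin (b : NL → ℕ) : Prop := ∃ B : ℕ, ∀ p, b p ≤ B * p.l

namespace BdN

variable {a b : NL → ℕ}

theorem const (c : ℕ) : BdN (fun _ => c) := by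
  refine ⟨c, fun p => ?_⟩
  calc c ≤ 2 ^ c := Nat.lt_two_pow_self.le
    _ ≤ (p.n + 1) ^ c := Nat.pow_le_pow_left (by have := p.hn; omega) c

theorem n : BdN (fun p => p.n) := ⟨1, fun p => by rw [pow_one]; exact Nat.le_succ _⟩

theorem mono (h : BdN b) (hab : ∀ p, a p ≤ b p) : BdN a := by
  obtain ⟨A, hA⟩ := h
  exact ⟨A, fun p => (hab p).trans (hA p)⟩

theorem mul (ha : BdN a) (hb : BdN b) : BdN (fun p => a p * b p) := by
  obtain ⟨A, hA⟩ := ha
  obtain ⟨B, hB⟩ := hb
  exact ⟨A + B, fun p => by rw [pow_add]; exact Nat.mul_le_mul (hA p) (hB p)⟩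

theorem add (ha : BdN a) (hb : BdN b) : BdN (fun p => a p + b p) := by
  obtain ⟨A, hA⟩ := ha
  obtain ⟨B, hB⟩ := hb
  refine ⟨A + B + 1, fun p => ?_⟩
  have hn := p.hn
  have h1 : a p ≤ (p.n + 1) ^ (A + B) :=
    (hA p).trans (Nat.pow_le_pow_right (by omega) (by omega))
  have h2 : b p ≤ (p.n + 1) ^ (A + B) :=
    (hB p).trans (Nat.pow_le_pow_right (by omega) (by omega))
  rw [pow_succ]
  nlinarith [Nat.zero_le ((p.n + 1) ^ (A + B))]

theorem pow (ha : BdN a) (k : ℕ) : BdN (fun p => a p ^ k) := by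
  obtain ⟨A, hA⟩ := ha
  exact ⟨A * k, fun p => by rw [pow_mul]; exact Nat.pow_le_pow_left (hA p) k⟩

/-- A bound in `n` is a bound for the measure `LL`. -/
theorem bd (ha : BdN a) : Bd LL a := by
  obtain ⟨A, hA⟩ := ha
  refine ⟨A, fun p => (hA p).trans ?_⟩
  refine Nat.pow_le_pow_left ?_ A
  have h1 : (p.n + 1) ^ 1 ≤ (p.n + 1) ^ p.l := Nat.pow_le_pow_right (by omega) p.hl
  rw [pow_one] at h1
  exact h1.trans (Nat.le_add_right _ _)

end BdN

namespace BdLin

variable {a b : NL → ℕ}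

theorem const (c : ℕ) : BdLin (fun _ => c) := ⟨c, fun p => Nat.le_mul_of_pos_right _ p.hl⟩

theorem l : BdLin (fun p => p.l) := ⟨1, fun p => by rw [one_mul]⟩

theorem mono (h : BdLin b) (hab : ∀ p, a p ≤ b p) : BdLin a := by
  obtain ⟨A, hA⟩ := h
  exact ⟨A, fun p => (hab p).trans (hA p)⟩

theorem add (ha : BdLin a) (hb : BdLin b) : BdLin (fun p => a p + b p) := by
  obtain ⟨A, hA⟩ := ha
  obtain ⟨B, hB⟩ := hb
  exact ⟨A + B, fun p => by rw [Nat.add_mul]; exact Nat.add_le_add (hA p) (hB p)⟩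

theorem mulc (c : ℕ) (ha : BdLin a) : BdLin (fun p => c * a p) := by
  obtain ⟨A, hA⟩ := ha
  exact ⟨c * A, fun p => by rw [Nat.mul_assoc]; exact Nat.mul_le_mul_left _ (hA p)⟩

theorem bd (ha : BdLin a) : Bd LL a := by
  obtain ⟨A, hA⟩ := ha
  refine ((Bd.const A).mul (b := LL) Bd.self).mono fun p => (hA p).trans ?_
  refine Nat.mul_le_mul_left _ ?_
  calc p.l ≤ 2 ^ p.l := Nat.lt_two_pow_self.le
    _ ≤ (p.n + 1) ^ p.l := Nat.pow_le_pow_left (by have := p.hn; omega) _

end BdLin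

theorem bd_n : Bd LL (fun p => p.n) := BdN.n.bd

theorem bd_l : Bd LL (fun p => p.l) := BdLin.l.bd

/-- Powers with exponents linear in `l` of numbers polynomial in `n`. -/
theorem Bd.powNL {a b : NL → ℕ} (ha : BdN a) (hb : BdLin b) : Bd LL (fun p => a p ^ b p) := by
  obtain ⟨A, hA⟩ := ha
  obtain ⟨B, hB⟩ := hb
  refine ⟨A * B, fun p => ?_⟩
  have hn := p.hn
  calc a p ^ b p ≤ ((p.n + 1) ^ A) ^ b p := Nat.pow_le_pow_left (hA p) _
    _ ≤ ((p.n + 1) ^ A) ^ (B * p.l) := Nat.pow_le_pow_right (Nat.pow_pos (by omega)) (hB p)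
    _ = ((p.n + 1) ^ p.l) ^ (A * B) := by rw [← pow_mul, ← pow_mul]; congr 1; ring
    _ ≤ (LL p + 2) ^ (A * B) := Nat.pow_le_pow_left (Nat.le_add_right _ _) _

/-- A bound for binomial coefficients. -/
theorem choose_mul_le (a m : ℕ) (ha : 1 ≤ a) : (a * m).choose m ≤ (4 * a) ^ m := by
  have h1 : (a + 1) ^ a ≤ 4 * a ^ a := by
    have h2 : ((a : ℝ) + 1) ^ a ≤ 4 * (a : ℝ) ^ a := by
      have ha' : (0 : ℝ) < a := by exact_mod_cast ha
      have h3 : (a : ℝ) + 1 = a * (1 / a + 1) := by field_simp; ring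
      have h4 : (1 / (a : ℝ) + 1) ^ a ≤ Real.exp 1 := by
        calc (1 / (a : ℝ) + 1) ^ a ≤ (Real.exp (1 / a)) ^ a :=
              pow_le_pow_left₀ (by positivity) (Real.add_one_le_exp _) a
          _ = Real.exp 1 := by rw [← Real.exp_nat_mul]; congr 1; field_simp
      have h5 : Real.exp 1 ≤ 4 := by
        have := Real.exp_one_lt_d9
        linarith
      rw [h3, mul_pow, mul_comm]
      exact mul_le_mul_of_nonneg_right (h4.trans h5) (by positivity)
    exact_mod_cast h2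
  have h2 : (a * m).choose m * a ^ (a * m - m) ≤ (a + 1) ^ (a * m) := by
    rw [add_pow]
    have hm : m ∈ Finset.range (a * m + 1) := Finset.mem_range.2 (by nlinarith)
    have := Finset.single_le_sum (f := fun k => a ^ k * 1 ^ (a * m - k) * (a * m).choose k)
      (s := Finset.range (a * m + 1)) (fun _ _ => Nat.zero_le _)
      (Finset.mem_range.2 (show a * m - m < a * m + 1 by omega))
    simp only [one_pow, mul_one] at this ⊢
    rw [Nat.choose_symm (by nlinarith)] at this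
    rw [mul_comm]
    exact this
  have h3 : (a * m).choose m * a ^ (a * m) ≤ (4 * a) ^ m * a ^ (a * m) := by
    calc (a * m).choose m * a ^ (a * m)
        = (a * m).choose m * a ^ (a * m - m) * a ^ m := by
          rw [mul_assoc, ← pow_add]
          congr 2
          have : m ≤ a * m := by nlinarith
          omega
      _ ≤ (a + 1) ^ (a * m) * a ^ m := Nat.mul_le_mul_right _ h2
      _ = ((a + 1) ^ a) ^ m * a ^ m := by rw [pow_mul]
      _ ≤ (4 * a ^ a) ^ m * a ^ m := Nat.mul_le_mul_right _ (Nat.pow_le_pow_left h1 m)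
      _ = (4 * a) ^ m * a ^ (a * m) := by rw [mul_pow, mul_pow, ← pow_mul]; ring
  exact Nat.le_of_mul_le_mul_right h3 (Nat.pow_pos (by omega))

/-- Binomial coefficients `C(N, m)` with `N ≤ a m`. -/
theorem Bd.chooseNL {N m a : NL → ℕ} (ha : BdN a) (hm : BdLin m) (hN : ∀ p, N p ≤ a p * m p) :
    Bd LL (fun p => (N p).choose (m p)) := by
  have h1 : BdN (fun p => 4 * (a p + 1)) := (BdN.const 4).mul (ha.add (BdN.const 1))
  refine (Bd.powNL h1 hm).mono fun p => ?_
  calc (N p).choose (m p) ≤ ((a p + 1) * m p).choose (m p) :=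
        Nat.choose_le_choose _ ((hN p).trans (Nat.mul_le_mul_right _ (by omega)))
    _ ≤ (4 * (a p + 1)) ^ m p := choose_mul_le _ _ (by omega)

/-- The number of exponent vectors of degree at most `D`. -/
theorem card_mons_le (κ : Type*) [Fintype κ] [DecidableEq κ] (D : ℕ) :
    Fintype.card {b : κ → Fin (D + 1) // ∑ k, ((b k : Fin (D + 1)) : ℕ) ≤ D} ≤
      (Fintype.card κ + D).choose (Fintype.card κ) := by
  have h1 : ((Finset.univ : Finset (Option κ)).finsuppAntidiag D).card =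
      (Fintype.card κ + D).choose (Fintype.card κ) := by
    rw [Finset.card_finsuppAntidiag_nat_eq_choose, Finset.card_univ, Fintype.card_option,
      show Fintype.card κ + 1 + D - 1 = Fintype.card κ + D by omega]
    exact (Nat.choose_symm_add).symm
  rw [← h1, ← Fintype.card_coe]
  refine Fintype.card_le_of_injective (fun b : {b : κ → Fin (D + 1) //
    ∑ k, ((b k : Fin (D + 1)) : ℕ) ≤ D} => ⟨Finsupp.equivFunOnFinite.symm
    (fun o : Option κ => o.elim (D - ∑ k, ((b.1 k : Fin (D + 1)) : ℕ))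
      fun k => ((b.1 k : Fin (D + 1)) : ℕ)), ?_⟩) ?_
  · rw [Finset.mem_finsuppAntidiag]
    refine ⟨?_, Finset.subset_univ _⟩
    have := b.2
    simp only [Finsupp.coe_equivFunOnFinite_symm, Fintype.sum_option, Option.elim_none,
      Option.elim_some]
    omega
  · intro b c hbc
    apply Subtype.ext
    funext k
    have h2 := congrArg (fun f => (f.1 : Option κ →₀ ℕ) (some k)) hbc
    exact Fin.ext (by simpa using h2)

end Pool.Agent.QC
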