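import Pool.Agent.QC.Tame.Core

/-!
# MP_7c50a9_lc: generic tuples, paths, words of order types, the record of an input

Definitions shared by the parts: genericity (9.1), elimination (10.1, root systems), algorithm
(10.4, 10.5: the record is computed by a tree), reduction (1.1) and the theorem
same record => same number of components.  The theorems are in QCG/Final (genericity),
Red/Base (exists_base), Red/Main (reduction), Asm/RecordInv (record_inv), Alg (algorithm).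
-/

namespace Pool.Agent.QC

open MvPolynomial Filter Topology Set

/-! ## Generic tuples -/

section Nice

variable {n l : ℕ}

/-- Condition (T0), auxiliary form `sum_{i < n} x_i ^ D`. -/
def T0 (q : Tup n l) : Prop :=
  (∀ ξ : Fin (n + 1) → ℂ, (∃ i : Fin n, ξ i.castSucc ≠ 0) → ∀ (c : Fin (l + 1) → ℂ) (κ : ℂ),
    (∀ m, c m * qform (q m) ξ = 0) →
    (∀ i : Fin n, ∑ m, c m * qfgrad (q m) i.castSucc ξ = κ * ξ i.castSucc ^ (DD l - 1)) →
    (∑ m, c m * qfgrad (q m) (Fin.last n) ξ = 0) → c = 0 ∧ κ = 0) ∧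
  ∀ m, (q m).1 (Fin.last n) (Fin.last n) ≠ 0

/-- Condition (T'). -/
def T1 (q : Tup n l) : Prop :=
  ∀ ξ : Fin (n + 1) → ℂ, ξ ≠ 0 → ξ (Fin.last n) = 0 → ∀ (c : Fin (l + 1) → ℂ) (κ : ℂ),
    (∀ m, c m * qform (q m) ξ = 0) →
    (∀ i : Fin n, ∑ m, c m * qfgrad (q m) i.castSucc ξ = κ * ξ i.castSucc ^ (DD l - 1)) →
    c = 0 ∧ κ = 0

/-- Condition (N2): critical points of `x_n` on `f = 0` are nondegenerate with distinct values. -/
def N2 (q : Tup n l) : Prop :=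
  (∀ x ∈ CritF (f0 q), NonDegC (f0 q) x) ∧ InjOn (fun x => x (Fin.last n)) (CritF (f0 q))

/-- Condition (N3) for one level: singular points of `f = 0` and the critical points there. -/
def N3at (q : Tup n l) : Prop :=
  ∀ v ∈ SingF (f0 q), (hess (f0 q) v).det ≠ 0 ∧ (hess' (f0 q) v).det ≠ 0 ∧
    (∀ v' ∈ SingF (f0 q), v' = v) ∧
    (∀ w ∈ CritF (f0 q), w ≠ v → NonDegC (f0 q) w ∧ w (Fin.last n) ≠ v (Fin.last n)) ∧
    InjOn (fun x => x (Fin.last n)) (CritF (f0 q))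

/-- Generic tuples. -/
def Nice (q : Tup n l) : Prop := T0 q ∧ T1 q ∧ N2 q ∧ ∀ t : ℂ, N3at (addT q t)

/-- The index type of the coefficients of tuples. -/
abbrev Ix (n l : ℕ) := Fin (l + 1) × ((Fin (n + 1) × Fin (n + 1)) ⊕ (Fin (n + 1) ⊕ Unit))

/-- The coefficients of a tuple. -/
def cfs {R : Type*} (q : Fin (l + 1) → QP R (n + 1)) : Ix n l → R :=
  fun i => Sum.elim (fun jk => (q i.1).1 jk.1 jk.2)
    (Sum.elim (fun j => (q i.1).2.1 j) (fun _ => (q i.1).2.2)) i.2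

/-- `Phi` is a good genericity polynomial. -/
def GoodPhi (Phi : MvPolynomial (Ix n l) ℂ) : Prop :=
  ∀ q : Tup n l, eval (cfs q) Phi ≠ 0 → Nice q

end Nice

/-! ## Root systems: what the elimination polynomial `r(q, Z)` gives -/

/-- `Rt q` is the set of roots of `r(q, .)`: it contains the critical values, and has constant
cardinality and varies continuously where `Phi ≠ 0`. -/
structure RootSys {n l : ℕ} (Phi : MvPolynomial (Ix n l) ℂ) where
  /-- the root set -/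
  Rt : Tup n l → Set ℂ
  /-- its cardinality -/
  M : ℕ
  finite : ∀ q, eval (cfs q) Phi ≠ 0 → (Rt q).Finite
  card : ∀ q, eval (cfs q) Phi ≠ 0 → (Rt q).ncard = M
  sub : ∀ q, eval (cfs q) Phi ≠ 0 → SigF (f0 q) ⊆ Rt q
  cont : ∀ q, eval (cfs q) Phi ≠ 0 → ∀ z ∈ Rt q, ∀ O ∈ 𝓝 z, ∀ᶠ q' in 𝓝 q, (Rt q' ∩ O).Nonempty
  conj : ∀ q : RTup n l, ∀ z ∈ Rt (tC q), (starRingEnd ℂ) z ∈ Rt (tC q)

/-! ## Order types and words -/

/-- The pair (rank of the real part, rank of the imaginary part) of `z` in `S`; rank = number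
of distinct smaller values. -/
noncomputable def rk (S : Set ℂ) (z : ℂ) : ℕ × ℕ :=
  ({x ∈ Complex.re '' S | x < z.re}.ncard, {y ∈ Complex.im '' S | y < z.im}.ncard)

/-- The order type of a (finite) set of complex numbers. -/
noncomputable def OT (S : Set ℂ) : Set (ℕ × ℕ) := rk S '' S

/-- Two functions on `[0,1]` are equal up to an increasing homeomorphism of `[0,1]`. -/
def reSetoid (α : Type*) : Setoid (Set.Icc (0 : ℝ) 1 → α) where
  r a b := ∃ φ : Set.Icc (0 : ℝ) 1 ≃o Set.Icc (0 : ℝ) 1, ∀ s, a s = b (φ s)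
  iseqv :=
    { refl := fun a => ⟨OrderIso.refl _, fun _ => rfl⟩
      symm := by
        rintro a b ⟨φ, h⟩
        exact ⟨φ.symm, fun s => by rw [h, OrderIso.apply_symm_apply]⟩
      trans := by
        rintro a b c ⟨φ, h⟩ ⟨ψ, h'⟩
        exact ⟨φ.trans ψ, fun s => by rw [h, h']; rfl⟩ }

/-- Words: functions `[0,1] → order types` up to reparametrisation. -/
abbrev Wrd := Quotient (reSetoid (Set (ℕ × ℕ)))

/-- The word of a moving set of complex numbers. -/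
noncomputable def word (S : ℝ → Set ℂ) : Wrd :=
  Quotient.mk (reSetoid (Set (ℕ × ℕ))) (fun s => OT (S s))

/-! ## Paths -/

section Paths

variable {n l : ℕ}

/-- The arc from `0` to `z` above the segment. -/
noncomputable def arc (ω : ℝ) (z : ℂ) (s : ℝ) : ℂ := z * s + Complex.I * (ω * s * (1 - s) : ℝ)

/-- Path A: from `q₀` to `q₁`. -/
noncomputable def pathA (q₀ q₁ : Tup n l) (ω : ℝ) (s : ℝ) : Tup n l :=
  (1 - arc ω 1 s) • q₀ + arc ω 1 s • q₁

/-- Path B: from `q + t₀` to `q + t`. -/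
noncomputable def pathB (q : Tup n l) (t₀ t : ℂ) (ω : ℝ) (s : ℝ) : Tup n l :=
  addT q (t₀ + arc ω (t - t₀) s)

/-- Path C: the frames from `0` to `c`. -/
noncomputable def pathC (q : Tup n l) (c : Fin n → ℂ) (ω : ℝ) (s : ℝ) : Tup n l :=
  shT (arc ω 1 s • c) q

end Paths

/-! ## Real events -/

section Events

variable {n l : ℕ}

/-- A real point as a complex point. -/
def xC {m : ℕ} (x : Fin m → ℝ) : Fin m → ℂ := fun i => (x i : ℂ)

/-- The Hessian of `f` at `v` divided by `prod_{m > 0} P_m(v)`, a real matrix. -/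
noncomputable def HR (q : RTup n l) (v : Fin (n + 1) → ℝ) :
    Matrix (Fin (n + 1)) (Fin (n + 1)) ℝ :=
  fun i j => (hess (f0 (tC q)) (xC v) i j).re / ∏ m : Fin l, qvR (q m.succ) v

/-- Negative definite. -/
def NegDef {m : ℕ} (H : Matrix (Fin m) (Fin m) ℝ) : Prop :=
  ∀ a : Fin m → ℝ, a ≠ 0 → a ⬝ᵥ H.mulVec a < 0

/-- Exactly one positive eigenvalue (and nondegenerate). -/
def OnePos {m : ℕ} (H : Matrix (Fin m) (Fin m) ℝ) : Prop :=
  ∃ a : Fin m → ℝ, 0 < a ⬝ᵥ H.mulVec a ∧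
    ∀ x : Fin m → ℝ, x ≠ 0 → x ⬝ᵥ H.mulVec a = 0 → x ⬝ᵥ H.mulVec x < 0

/-- The point is in `Omega`. -/
def inOm (q : RTup n l) (v : Fin (n + 1) → ℝ) : Prop := ∀ m : Fin l, 0 < qvR (q m.succ) v

/-- The event times in `(t₀, 0)`. -/
def EvT (q : RTup n l) (t₀ : ℝ) : Set ℝ :=
  {t | t ∈ Ioo t₀ 0 ∧ (SingF (f0 (tC (addT q t)))).Nonempty}

/-- The record of an event. -/
structure EvRec where
  /-- 0: new component, 1: saddle of index one, 2: all others -/
  cls : Fin 3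
  /-- the pair `w_+-` is real after the event -/
  real : Bool
  /-- word of path A -/
  wA : Wrd
  /-- word of path B -/
  wB : Wrd
  /-- word of path C -/
  wC : Wrd
  /-- in the real case: the number of real roots smaller than `v_n` at the end -/
  cnt : ℕ

/-- `R` is a record of the event `t` of `q` (initial level `t₀`, base point `q₀`). -/
def HasEv {Phi : MvPolynomial (Ix n l) ℂ} (RS : RootSys Phi) (q₀ : Tup n l) (q : RTup n l)
    (t₀ t : ℝ) (R : EvRec) : Prop :=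
  ∃ (c : Fin n → ℝ) (v : Fin (n + 1) → ℝ),
    xC v ∈ SingF (f0 (tC (shT c (addT q t)))) ∧
    eval (cfs (tC (shT c q))) Phi ≠ 0 ∧
    (R.real = true → c = 0 ∧ NegDef (HR (shT c (addT q t)) v)) ∧
    (R.real = false →
      0 < ((HR (shT c (addT q t)) v)⁻¹ : Matrix _ _ ℝ) (Fin.last n) (Fin.last n)) ∧
    (R.cls = 0 ↔ inOm (shT c q) v ∧ NegDef (HR (shT c (addT q t)) v)) ∧
    (R.cls = 1 ↔ inOm (shT c q) v ∧ OnePos (HR (shT c (addT q t)) v)) ∧
    ∀ᶠ κ in 𝓝[>] (0 : ℝ), ∀ᶠ ω in 𝓝[>] (0 : ℝ),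
      word (fun s => RS.Rt (pathA q₀ (tC (addT q t₀)) ω s)) = R.wA ∧
      word (fun s => RS.Rt (pathB (tC q) t₀ ((t + κ : ℝ) : ℂ) ω s)) = R.wB ∧
      word (fun s => RS.Rt (pathC (tC (addT q (t + κ))) (xC c) ω s)) = R.wC ∧
      (R.real = true →
        {z ∈ RS.Rt (tC (addT q (t + κ))) | z.im = 0 ∧ z.re < v (Fin.last n)}.ncard = R.cnt)

/-- `ρ` is a record of `q`. -/
def HasRec {Phi : MvPolynomial (Ix n l) ℂ} (RS : RootSys Phi) (q₀ : Tup n l) (q : RTup n l)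
    (t₀ : ℝ) (ρ : List EvRec) : Prop :=
  ∃ ts : List ℝ, ts.Pairwise (· < ·) ∧ (∀ t, t ∈ ts ↔ t ∈ EvT q t₀) ∧
    List.Forall₂ (HasEv RS q₀ q t₀) ts ρ

/-- Good real tuples. -/
structure Good (Phi : MvPolynomial (Ix n l) ℂ) (q : RTup n l) (t₀ : ℝ) : Prop where
  neg : t₀ < 0
  nz : eval (cfs (tC q)) Phi ≠ 0
  nz₀ : eval (cfs (tC (addT q t₀))) Phi ≠ 0
  empty : Wset q t₀ = ∅
  compact : IsCompact {x | 0 ≤ qvR (q 0) x}

end Events

/-! ## Base and reduction -/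

section Reduction

variable {n l : ℕ}

/-- An integral quadratic polynomial `>= 1` on real space with positive definite quadratic part,
as a real one. -/
structure PosQ (p : QP ℝ (n + 1)) : Prop where
  one_le : ∀ x, 1 ≤ qvR p x
  pos : ∀ ξ : Fin (n + 1) → ℝ, ξ ≠ 0 → 0 < ∑ i, ∑ j, p.1 i j * ξ i * ξ j

/-- Real version of an integral polynomial. -/
def qZR (p : QP ℤ (n + 1)) : QP ℝ (n + 1) :=
  (fun i j => (p.1 i j : ℝ), fun i => (p.2.1 i : ℝ), (p.2.2 : ℝ))

/-- The constant polynomial `t`. -/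
def qcst (t : ℝ) : QP ℝ (n + 1) := (0, 0, t)

/-- The tuple `(a + b N_1, G)`. -/
def baseT (N1 : QP ℝ (n + 1)) (G : Fin l → QP ℝ (n + 1)) (a b : ℝ) : RTup n l :=
  Fin.cons (qcst a + b • N1) G

/-- The conditions on the base data. -/
structure GoodBase (Phi : MvPolynomial (Ix n l) ℂ) (N1 : QP ℤ (n + 1))
    (G : Fin l → QP ℤ (n + 1)) : Prop where
  posN : PosQ (qZR N1)
  posG : ∀ i, PosQ (qZR (G i))
  nz : eval (cfs (tC (baseT (qZR N1) (fun i => qZR (G i)) (-1) (-1)))) Phi ≠ 0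
  nz' : eval (cfs (tC (baseT (qZR N1) (fun i => qZR (G i)) 1 (-1)))) Phi ≠ 0

/-- The perturbed input `((1 - δ N_1) / ρ, (1 - ε) b_i + ε G_i)`. -/
noncomputable def qb (N1 : QP ℝ (n + 1)) (G : Fin l → QP ℝ (n + 1)) (b : Fin l → QP ℝ (n + 1))
    (δ ε ρ : ℝ) : RTup n l :=
  Fin.cons (ρ⁻¹ • (qcst 1 + (-δ) • N1)) (fun i => (1 - ε) • b i + ε • G i)

/-- The input set `S = {b_i >= 0}`. -/
def Sset (b : Fin l → QP ℝ (n + 1)) : Set (Fin (n + 1) → ℝ) := {x | ∀ i, 0 ≤ qvR (b i) x}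

end Reduction

end Pool.Agent.QC
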