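import Pool.Agent.QC.Lift

/-!
# Lemma I: infinitesimals

A computation on `(y, z)` is turned into a computation on `y` of the value for all sufficiently
small `z > 0`.
-/

namespace Pool.Agent.QC

open MvPolynomial Filter Topology

variable {σ : Type*} {β γ : Type*}

/-- The sign of a real polynomial immediately to the right of `0` is the sign of its lowest
nonzero coefficient. -/
theorem eventually_sign_eval (P : Polynomial ℝ) :
    ∀ᶠ z in 𝓝[>] (0 : ℝ), SignType.sign (P.eval z) = SignType.sign P.trailingCoeff := by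
  rcases eq_or_ne P 0 with rfl | hP
  · simp
  obtain ⟨Q, hQ⟩ : (Polynomial.X ^ P.natTrailingDegree : Polynomial ℝ) ∣ P :=
    Polynomial.X_pow_dvd_iff.2 fun d hd => Polynomial.coeff_eq_zero_of_lt_natTrailingDegree hd
  have h0 : P.trailingCoeff = Q.coeff 0 := by
    rw [Polynomial.trailingCoeff]
    conv_lhs => rw [hQ]
    rw [← hQ]
    have := Polynomial.coeff_X_pow_mul Q P.natTrailingDegree 0
    rw [zero_add] at this
    rw [← this, ← hQ]
  have h1 : Q.eval 0 ≠ 0 := by
    rw [← Polynomial.coeff_zero_eq_eval_zero, ← h0]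
    exact Polynomial.trailingCoeff_nonzero_iff_nonzero.2 hP
  have hcont : Tendsto (fun z => Q.eval z) (𝓝[>] (0 : ℝ)) (𝓝 (Q.eval 0)) :=
    Q.continuous.continuousAt.tendsto.mono_left nhdsWithin_le_nhds
  have hs : ∀ᶠ z in 𝓝[>] (0 : ℝ), SignType.sign (Q.eval z) = SignType.sign (Q.eval 0) := by
    rcases lt_or_gt_of_ne h1 with h | h
    · filter_upwards [hcont.eventually (Iio_mem_nhds h)] with z hz
      rw [sign_neg h, sign_neg hz]
    · filter_upwards [hcont.eventually (Ioi_mem_nhds h)] with z hz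
      rw [sign_pos h, sign_pos hz]
  filter_upwards [hs, self_mem_nhdsWithin] with z hz hz0
  have : P.eval z = z ^ P.natTrailingDegree * Q.eval z := by
    conv_lhs => rw [hQ]
    simp
  rw [this, sign_mul, sign_pos (pow_pos hz0 _), one_mul, hz, h0,
    Polynomial.coeff_zero_eq_eval_zero]

/-- The signs of the coefficients determine the sign of the lowest nonzero coefficient. -/
theorem sign_trailingCoeff_congr {P R : Polynomial ℝ}
    (h : ∀ i, SignType.sign (P.coeff i) = SignType.sign (R.coeff i)) :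
    SignType.sign P.trailingCoeff = SignType.sign R.trailingCoeff := by
  have hz : ∀ i, P.coeff i = 0 ↔ R.coeff i = 0 := fun i => by
    rw [← sign_eq_zero_iff, h i, sign_eq_zero_iff]
  have hn : P.natTrailingDegree = R.natTrailingDegree := by
    have hs : P.support = R.support := by
      ext i
      simp [hz i]
    rw [Polynomial.natTrailingDegree, Polynomial.natTrailingDegree, Polynomial.trailingDegree,
      Polynomial.trailingDegree, hs]
  rw [Polynomial.trailingCoeff, Polynomial.trailingCoeff, hn, h]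

/-- LEMMA I.  The value of `F' (y, z)` for all small `z > 0` exists and is computed. -/
theorem Dec.lim {M c : ℕ} {F' : (Option σ → ℝ) → β}
    {K' : Set (MvPolynomial (Option σ) ℤ)} {D' : Set (Option σ → ℝ)}
    (h : Dec M c K' D' F') (hK'M : ∀ g ∈ K', g.totalDegree ≤ M)
    {K : Set (MvPolynomial σ ℤ)} {D : Set (σ → ℝ)}
    (hK : ∀ g ∈ K', ∀ i, zc g i ∈ K)
    (hD : ∀ y ∈ D, ∀ᶠ z in 𝓝[>] (0 : ℝ), pt y z ∈ D') :
    ∃ F : (σ → ℝ) → β, (∀ y ∈ D, ∀ᶠ z in 𝓝[>] (0 : ℝ), F' (pt y z) = F y) ∧
      Dec M (c * (3 * (M + 1) ^ 2)) K D F := by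
  have oracle : ∀ g : MvPolynomial (Option σ) ℤ, g.totalDegree ≤ M →
      ∃ sg : (σ → ℝ) → SignType,
        (∀ y ∈ D, ∀ᶠ z in 𝓝[>] (0 : ℝ), SignType.sign (ev (pt y z) g) = sg y) ∧
        ∀ K₁ D₁, K ⊆ K₁ → (∀ i, zc g i ∈ K₁) → D₁ ⊆ D → Dec M (M + 1) K₁ D₁ sg := by
    intro g hg
    refine ⟨fun y => SignType.sign ((zpoly g).map (evHom y)).trailingCoeff, fun y _ => ?_, ?_⟩
    · filter_upwards [eventually_sign_eval ((zpoly g).map (evHom y))] with z hz
      rw [ev_pt, hz]
    · intro K D _ hgK _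
      have h3 : Dec M (Fintype.card (Fin (M + 1)) * 1) K D
          (fun y (i : Fin (M + 1)) => SignType.sign (ev y (zc g i))) :=
        Dec.pi fun i => Dec.sign (hgK i)
      rw [Fintype.card_fin, mul_one] at h3
      refine h3.factor fun x _ y _ hxy => sign_trailingCoeff_congr fun i => ?_
      simp only [Polynomial.coeff_map, evHom_apply]
      by_cases hi : i ≤ M
      · exact congrFun hxy ⟨i, by omega⟩
      · have := zc_eq_zero g (i := i) (by omega)
        simp only [zc] at this
        simp [this]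
  obtain ⟨F, h1, h2⟩ := Dec.lift (M₂ := M) (cs := M + 1) (fun _ : σ → ℝ => 𝓝[>] (0 : ℝ)) K D
    (fun _ _ => inferInstance) le_rfl oracle h hK'M subset_rfl hK subset_rfl hD
  exact ⟨F, h1, h2.mono_c (Nat.mul_le_mul_left c (by nlinarith))⟩

end Pool.Agent.QC
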