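import Pool.Agent.QC.Det
import Pool.Agent.QC.Lim

/-!
# Arithmetic of polynomials whose coefficients are computed
-/

namespace Pool.Agent.QC

open MvPolynomial

variable {σ : Type*} {β γ : Type*}

/-- A computation of polynomials in `(y, z)` is simulated by one of their `z`-coefficients. -/
theorem Calc.lift {M c : ℕ} {K' P' : Set (MvPolynomial (Option σ) ℤ)}
    (h : Calc M c K' P') (hK'M : ∀ g ∈ K', g.totalDegree ≤ M)
    {K : Set (MvPolynomial σ ℤ)} (hK : ∀ g ∈ K', ∀ i, zc g i ∈ K) :
    Calc M (c * (3 * (M + 1) ^ 2)) K {q | ∃ g ∈ P', ∃ i, q = zc g i} := by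
  refine Calc.of_run fun D => ?_
  have oracle : ∀ g : MvPolynomial (Option σ) ℤ, g.totalDegree ≤ M →
      ∃ sg : (σ → ℝ) → SignType,
        (∀ y ∈ (Set.univ : Set (σ → ℝ)),
          ∀ᶠ z in nhdsWithin (0 : ℝ) (Set.Ioi 0), SignType.sign (ev (pt y z) g) = sg y) ∧
        ∀ K₁ D₁, K ⊆ K₁ → (∀ i, zc g i ∈ K₁) → D₁ ⊆ (Set.univ : Set (σ → ℝ)) →
          Dec M (M + 1) K₁ D₁ sg := by
    intro g hg
    refine ⟨fun y => SignType.sign ((zpoly g).map (evHom y)).trailingCoeff, fun y _ => ?_, ?_⟩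
    · filter_upwards [eventually_sign_eval ((zpoly g).map (evHom y))] with z hz
      rw [ev_pt, hz]
    · intro K D _ hgK _
      have h3 : Dec M (Fintype.card (Fin (M + 1)) * 1) K D
          (fun y (i : Fin (M + 1)) => SignType.sign (ev y (zc g i))) :=
        Dec.pi fun i => Dec.sign (hgK i)
      rw [Fintype.card_fin, mul_one] at h3
      refine h3.factor fun x _ y _ hxy => sign_trailingCoeff_congr fun i => ?_
      simp only [Polynomial.coeff_map, evHom_apply]
      by_cases hi : i ≤ M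
      · exact congrFun hxy ⟨i, by omega⟩
      · have := zc_eq_zero g (i := i) (by omega)
        simp only [zc] at this
        simp [this]
  have h1 := Run.lift (M₂ := M) (cs := M + 1)
    (fun _ : σ → ℝ => nhdsWithin (0 : ℝ) (Set.Ioi 0)) K Set.univ le_rfl oracle
    (h.to_run Set.univ) hK'M (K := K) (D := D) subset_rfl hK (Set.subset_univ _)
    (fun y _ => Filter.Eventually.of_forall fun z => trivial)
  refine h1.mono le_rfl (Nat.mul_le_mul_left c (by nlinarith)) subset_rfl subset_rfl ?_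
  rintro K₁ D₁ ⟨K₀, D₀, h0, h2, -, -⟩ _ ⟨g, hg, i, rfl⟩
  exact h2 g (h0 hg) i

namespace Calc

variable {M M' c c' m N : ℕ} {K K' P P' : Set (MvPolynomial σ ℤ)}

/-- Coefficients of a polynomial of degree at most `N`: it is enough to compute the first
`N + 1`. -/
theorem coeffs {A : Polynomial (MvPolynomial σ ℤ)} (hA : A.natDegree ≤ N)
    (h : ∀ i ≤ N, Calc M c K {A.coeff i}) : Calc M ((N + 1) * c) K (Set.range A.coeff) := by
  have h1 : Calc M (Fintype.card (Fin (N + 1)) * c) K
      (Set.range fun i : Fin (N + 1) => A.coeff i) := Calc.range fun i => h i (by omega)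
  rw [Fintype.card_fin] at h1
  refine (zero_one.union h1).mono le_rfl (by omega) subset_rfl ?_
  rintro _ ⟨i, rfl⟩
  by_cases hi : i ≤ N
  · exact Or.inr ⟨⟨i, by omega⟩, rfl⟩
  · rw [Polynomial.coeff_eq_zero_of_natDegree_lt (by omega)]
    exact Or.inl (Or.inl rfl)

theorem padd {A B : Polynomial (MvPolynomial σ ℤ)} (hA : Set.range A.coeff ⊆ K)
    (hB : Set.range B.coeff ⊆ K) (hAN : A.natDegree ≤ N) (hBN : B.natDegree ≤ N)
    (hAd : ∀ i, (A.coeff i).totalDegree ≤ M) (hBd : ∀ i, (B.coeff i).totalDegree ≤ M) :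
    Calc M (N + 1) K (Set.range (A + B).coeff) := by
  have := coeffs (M := M) (K := K) (c := 1) (A := A + B) (N := N)
    ((Polynomial.natDegree_add_le _ _).trans (max_le hAN hBN)) fun i _ => by
      rw [Polynomial.coeff_add]
      exact Calc.add (hA ⟨i, rfl⟩) (hB ⟨i, rfl⟩)
        ((totalDegree_add _ _).trans (max_le (hAd i) (hBd i)))
  simpa using this

theorem psub {A B : Polynomial (MvPolynomial σ ℤ)} (hA : Set.range A.coeff ⊆ K)
    (hB : Set.range B.coeff ⊆ K) (hAN : A.natDegree ≤ N) (hBN : B.natDegree ≤ N)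
    (hAd : ∀ i, (A.coeff i).totalDegree ≤ M) (hBd : ∀ i, (B.coeff i).totalDegree ≤ M) :
    Calc M (N + 1) K (Set.range (A - B).coeff) := by
  have := coeffs (M := M) (K := K) (c := 1) (A := A - B) (N := N)
    ((Polynomial.natDegree_sub_le _ _).trans (max_le hAN hBN)) fun i _ => by
      rw [Polynomial.coeff_sub]
      exact Calc.sub (hA ⟨i, rfl⟩) (hB ⟨i, rfl⟩)
        ((totalDegree_sub _ _).trans (max_le (hAd i) (hBd i)))
  simpa using this

/-- Product of two polynomials. -/
theorem pmul {A B : Polynomial (MvPolynomial σ ℤ)} {a b : ℕ} (hA : Set.range A.coeff ⊆ K)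
    (hB : Set.range B.coeff ⊆ K) (hAB : (A * B).natDegree ≤ N)
    (hAd : ∀ i, (A.coeff i).totalDegree ≤ a) (hBd : ∀ i, (B.coeff i).totalDegree ≤ b)
    (hM : a + b ≤ M) : Calc M (2 * (N + 1) ^ 2) K (Set.range (A * B).coeff) := by
  refine (coeffs (M := M) (K := K) (c := 2 * (N + 1)) hAB fun i hi => ?_).mono_c
    (le_of_eq (by ring))
  rw [Polynomial.coeff_mul]
  refine (Calc.dot (M := M) (K := K) (Finset.HasAntidiagonal.antidiagonal i)
      (f := fun x => A.coeff x.1) (g := fun x => B.coeff x.2) (fun x _ => hA ⟨_, rfl⟩)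
      (fun x _ => hB ⟨_, rfl⟩) ?_).mono_c ?_
  · intro x _
    exact (totalDegree_mul _ _).trans ((add_le_add (hAd _) (hBd _)).trans hM)
  · rw [Finset.Nat.card_antidiagonal]; omega

/-- Product with a coefficient. -/
theorem psmul {A : Polynomial (MvPolynomial σ ℤ)} {p : MvPolynomial σ ℤ} {a b : ℕ}
    (hp : p ∈ K) (hA : Set.range A.coeff ⊆ K) (hAN : A.natDegree ≤ N)
    (hpd : p.totalDegree ≤ a) (hAd : ∀ i, (A.coeff i).totalDegree ≤ b)
    (hM : a + b ≤ M) : Calc M (N + 1) K (Set.range (Polynomial.C p * A).coeff) := by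
  have := coeffs (M := M) (K := K) (c := 1) (A := Polynomial.C p * A) (N := N)
    ((Polynomial.natDegree_C_mul_le _ _).trans hAN) fun i _ => by
      rw [Polynomial.coeff_C_mul]
      exact Calc.mul hp (hA ⟨i, rfl⟩)
        ((totalDegree_mul _ _).trans ((add_le_add hpd (hAd i)).trans hM))
  simpa using this

/-- The derivative. -/
theorem pder {A : Polynomial (MvPolynomial σ ℤ)} (hA : Set.range A.coeff ⊆ K)
    (hAN : A.natDegree ≤ N) (hAd : ∀ i, (A.coeff i).totalDegree ≤ M) :
    Calc M (N + 1) K (Set.range (Polynomial.derivative A).coeff) := by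
  have := coeffs (M := M) (K := K) (c := 1) (A := Polynomial.derivative A) (N := N)
    ((Polynomial.natDegree_derivative_le _).trans (by omega)) fun i _ => by
      rw [Polynomial.coeff_derivative]
      have h1 : (A.coeff (i + 1) * ((i : MvPolynomial σ ℤ) + 1)).totalDegree ≤ M := by
        refine (totalDegree_mul _ _).trans ?_
        have h2 : ((i : MvPolynomial σ ℤ) + 1) = C ((i : ℤ) + 1) := by simp
        rw [h2, totalDegree_C, add_zero]
        exact hAd _
      have h3 := (Calc.const (M := M) (K := K) ((i : ℤ) + 1)).trans'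
        (P' := {A.coeff (i + 1) * ((i : MvPolynomial σ ℤ) + 1)})
        (Calc.mul (Or.inl (hA ⟨i + 1, rfl⟩)) (Or.inr (by simp)) h1)
      simpa using h3
  simpa using this

/-- Evaluation at a computed polynomial (Horner). -/
theorem peval {A : Polynomial (MvPolynomial σ ℤ)} {w : MvPolynomial σ ℤ} {a b : ℕ}
    (hA : Set.range A.coeff ⊆ K) (hw : w ∈ K) (hAN : A.natDegree ≤ N)
    (hAd : ∀ i, (A.coeff i).totalDegree ≤ a) (hwd : w.totalDegree ≤ b)
    (hM : a + N * b ≤ M) : Calc M (2 * (N + 1)) K {A.eval w} := by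
  -- `H j = ∑_{i ≤ j} A_{N - j + i} w ^ i`, `H N = A(w)`
  let H : ℕ → MvPolynomial σ ℤ := fun j => ∑ i ∈ Finset.range (j + 1), A.coeff (N - j + i) * w ^ i
  have hHd : ∀ j ≤ N, (H j).totalDegree ≤ M := fun j hj => by
    refine totalDegree_finsetSum_le fun i hi => ?_
    have hi' := Finset.mem_range.1 hi
    refine (totalDegree_mul _ _).trans ((add_le_add (hAd _) (totalDegree_pow _ _)).trans ?_)
    calc a + i * w.totalDegree ≤ a + N * b := by gcongr; omega
      _ ≤ M := hM
  have hH0 : H 0 = A.coeff N := by simp [H]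
  have hHs : ∀ j < N, H (j + 1) = A.coeff (N - (j + 1)) + H j * w := fun j hj => by
    simp only [H]
    rw [Finset.sum_range_succ' _ (j + 1), Finset.sum_mul]
    rw [add_comm]
    simp only [add_zero, pow_zero, mul_one]
    congr 1
    refine Finset.sum_congr rfl fun i _ => ?_
    rw [pow_succ, mul_assoc]
    congr 2
    omega
  have hHN : H N = A.eval w := by
    simp only [H, Nat.sub_self, zero_add]
    rw [Polynomial.eval_eq_sum_range' (Nat.lt_succ_of_le hAN)]
  have hmuld : ∀ j < N, (H j * w).totalDegree ≤ M := fun j hj => by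
    refine (totalDegree_mul _ _).trans ?_
    have h1 : (H j).totalDegree ≤ a + j * b := by
      refine totalDegree_finsetSum_le fun i hi => ?_
      have hi' := Finset.mem_range.1 hi
      refine (totalDegree_mul _ _).trans ((add_le_add (hAd _) (totalDegree_pow _ _)).trans ?_)
      gcongr; omega
    calc (H j).totalDegree + w.totalDegree ≤ a + j * b + b := add_le_add h1 hwd
      _ = a + (j + 1) * b := by ring
      _ ≤ a + N * b := by gcongr; omega
      _ ≤ M := hM
  have h1 : Calc M ((N + 1) * 2) K {q | ∃ j < N + 1, q = H j} := by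
    refine Calc.iter' (N + 1) fun j hj => ?_
    rcases Nat.eq_zero_or_pos j with rfl | hj0
    · rw [hH0]
      exact (Calc.refl (by rintro _ rfl; exact Or.inl (hA ⟨N, rfl⟩))).mono_c (by omega)
    · obtain ⟨j, rfl⟩ : ∃ i, j = i + 1 := ⟨j - 1, by omega⟩
      rw [hHs j (by omega)]
      have h2 : Calc M 1 (K ∪ {q | ∃ i < j + 1, q = H i}) {H j * w} :=
        Calc.mul (Or.inr ⟨j, by omega, rfl⟩) (Or.inl hw) (hmuld j (by omega))
      refine h2.trans' (c' := 1) (Calc.add (Or.inl (Or.inl (hA ⟨_, rfl⟩))) (Or.inr rfl) ?_)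
      rw [← hHs j (by omega)]
      exact hHd _ (by omega)
  refine h1.mono le_rfl (by omega) subset_rfl ?_
  rintro _ rfl
  exact ⟨N, by omega, hHN.symm⟩

end Calc

/-- Degree bound for the coefficients of powers. -/
lemma totalDegree_coeff_pow {A : Polynomial (MvPolynomial σ ℤ)} {a : ℕ}
    (hAd : ∀ i, (A.coeff i).totalDegree ≤ a) (k i : ℕ) :
    ((A ^ k).coeff i).totalDegree ≤ k * a := by
  induction k generalizing i with
  | zero =>
    rw [pow_zero, Polynomial.coeff_one]
    split_ifs <;> simp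
  | succ k ih =>
    rw [pow_succ, Polynomial.coeff_mul]
    refine totalDegree_finsetSum_le fun x _ => (totalDegree_mul _ _).trans ?_
    rw [Nat.add_mul, one_mul]
    exact add_le_add (ih _) (hAd _)

lemma totalDegree_coeff_mul {A B : Polynomial (MvPolynomial σ ℤ)} {a b : ℕ}
    (hAd : ∀ i, (A.coeff i).totalDegree ≤ a) (hBd : ∀ i, (B.coeff i).totalDegree ≤ b) (i : ℕ) :
    ((A * B).coeff i).totalDegree ≤ a + b := by
  rw [Polynomial.coeff_mul]
  refine totalDegree_finsetSum_le fun x _ => (totalDegree_mul _ _).trans ?_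
  exact add_le_add (hAd _) (hBd _)

/-- Powers of a polynomial, exponents up to `k`. -/
theorem Calc.ppow {M N a k : ℕ} {K : Set (MvPolynomial σ ℤ)}
    {A : Polynomial (MvPolynomial σ ℤ)} (hA : Set.range A.coeff ⊆ K) (hAN : k * A.natDegree ≤ N)
    (hAd : ∀ i, (A.coeff i).totalDegree ≤ a) (hM : k * a ≤ M) :
    Calc M (k * (2 * (N + 1) ^ 2)) K {q | ∃ j < k + 1, ∃ i, q = (A ^ j).coeff i} := by
  have h0 : Calc M 0 K (Set.range (A ^ 0).coeff) := by
    refine Calc.zero_one.mono_P ?_
    rintro _ ⟨i, rfl⟩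
    rw [pow_zero, Polynomial.coeff_one]
    split_ifs
    · right; rfl
    · left; rfl
  have h1 : Calc M (k * (2 * (N + 1) ^ 2)) (K ∪ Set.range (A ^ 0).coeff)
      {q | ∃ j < k, q ∈ Set.range (A ^ (j + 1)).coeff} := by
    refine Calc.iter (P := fun j => Set.range (A ^ (j + 1)).coeff) k fun j hj => ?_
    have hs : A ^ (j + 1) = A ^ j * A := pow_succ A j
    show Calc M (2 * (N + 1) ^ 2) _ (Set.range (A ^ (j + 1)).coeff)
    rw [hs]
    refine Calc.pmul (a := j * a) (b := a) ?_ (hA.trans (Set.subset_union_left.trans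
      Set.subset_union_left)) ?_ (totalDegree_coeff_pow hAd j) hAd ?_
    · rcases Nat.eq_zero_or_pos j with rfl | hj0
      · exact Set.subset_union_right.trans Set.subset_union_left
      · rintro _ ⟨i, rfl⟩
        exact Or.inr ⟨j - 1, by omega, i, by rw [Nat.sub_add_cancel hj0]⟩
    · rw [← hs]
      exact (Polynomial.natDegree_pow_le).trans ((Nat.mul_le_mul_right _ hj).trans hAN)
    · calc j * a + a = (j + 1) * a := by ring
        _ ≤ k * a := Nat.mul_le_mul_right _ hj
        _ ≤ M := hM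
  have h2 := h0.trans h1
  rw [zero_add] at h2
  refine h2.mono_P ?_
  rintro _ ⟨j, hj, i, rfl⟩
  rcases Nat.eq_zero_or_pos j with rfl | hj0
  · exact Or.inl ⟨i, rfl⟩
  · exact Or.inr ⟨j - 1, by omega, i, by rw [Nat.sub_add_cancel hj0]⟩

end Pool.Agent.QC
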