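import Pool.Agent.QC.FSyz

/-!
# MP_7c50a9_lc, section 2.1: the box monomials are independent modulo the ranges of the `Dop`
-/

namespace Pool.Agent.QC

open MvPolynomial

variable {m : ℕ}

theorem leZ_totalDegree (P : Pol m) : LeZ P P.totalDegree := by
  intro s hs
  have := le_totalDegree (mem_support_iff.mpr hs)
  rw [Finsupp.degree_eq_sum]
  rw [Finsupp.sum_fintype _ _ (fun _ => rfl)] at this
  exact_mod_cast this

theorem TopF.decomp {D : ℕ} {c : Fin m → ℂ} {f : Pol m} (h : TopF D c f) :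
    ∃ g, f = topP D c + g ∧ LeZ g ((D : ℤ) - 1) := by
  refine ⟨f + ∑ i, C (c i) * X i ^ D, ?_, ?_⟩
  · unfold topP
    ring
  · refine (leZ_totalDegree _).mono ?_
    have := h.2
    omega

/-- The top sum is in the ideal of the `th_i Φ`. -/
theorem sum_Dop_top {e : Fin m → ℕ} (he : ∀ i, e i ≤ 1) {D : ℕ} (hD : 1 ≤ D) (c : Fin m → ℂ)
    (a : ℂ) (P : Fin m → Pol m) :
    ∑ i, Dop e a (topP D c) i (P i) =
      ∑ i, (C (a + 1) * P i + C (1 / (D : ℂ)) * (xh e i * ∑ j, th e j (P j))) *
        th e i (topP D c) := by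
  have hD0 : (D : ℂ) ≠ 0 := by
    have : D ≠ 0 := by omega
    exact_mod_cast this
  have hE : ∑ i, xh e i * th e i (topP D c) = C (D : ℂ) * topP D c := by
    have := euler_xh e he (homZ_topP D c)
    simpa using this
  set Φ : Pol m := topP D c with hΦ
  set Q : Pol m := ∑ j, th e j (P j) with hQ
  have h1 : ∑ i, (C (a + 1) * P i + C (1 / (D : ℂ)) * (xh e i * Q)) * th e i Φ
      = ∑ i, C (a + 1) * th e i Φ * P i + C (1 / (D : ℂ)) * Q * ∑ i, xh e i * th e i Φ := by
    rw [Finset.mul_sum, ← Finset.sum_add_distrib]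
    refine Finset.sum_congr rfl (fun i _ => ?_)
    ring
  have h2 : (C (1 / (D : ℂ)) : Pol m) * C (D : ℂ) = 1 := by
    rw [← map_mul, one_div, inv_mul_cancel₀ hD0, map_one]
  have h3 : ∑ i, Dop e a Φ i (P i) = ∑ i, C (a + 1) * th e i Φ * P i + Φ * Q := by
    rw [hQ, Finset.mul_sum, ← Finset.sum_add_distrib]
    rfl
  rw [h1, hE, h3]
  linear_combination (-(Q * Φ)) * h2

/-- All exponents of the monomials of `G` are in the box. -/
def InBox (D : ℕ) (e : Fin m → ℕ) (G : Pol m) : Prop :=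
  ∀ s, coeff s G ≠ 0 → ∀ i, s i < D - 1 + e i

theorem top_part_zero {e : Fin m → ℕ} (he : ∀ i, e i ≤ 1) {D : ℕ} (hD : 1 ≤ D)
    (c : Fin m → ℂ) (a : ℂ) (P : Fin m → Pol m)
    (h : InBox D e (∑ i, Dop e a (topP D c) i (P i))) :
    ∑ i, Dop e a (topP D c) i (P i) = 0 := by
  ext s
  rw [coeff_zero]
  by_contra hs
  have hbox := h s hs
  refine hs ?_
  rw [sum_Dop_top he hD, coeff_sum]
  refine Finset.sum_eq_zero (fun i _ => ?_)
  rw [th_topP, X_pow_eq_monomial, mul_neg, coeff_neg, mul_left_comm, coeff_C_mul,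
    coeff_mul_monomial', if_neg, mul_zero, neg_zero]
  rw [Finsupp.single_le_iff]
  exact not_le.mpr (hbox i)

theorem box_indep {e : Fin m → ℕ} (he : ∀ i, e i ≤ 1) {D : ℕ} (hD : 2 ≤ D) {c : Fin m → ℂ}
    {f : Pol m} (hf : TopF D c f) {a : ℂ} (ha : IrrC a) :
    ∀ n : ℕ, ∀ P : Fin m → Pol m,
      (∀ i, LeZ (P i) ((n : ℤ) - ((D - 1 + e i : ℕ) : ℤ))) →
      InBox D e (∑ i, Dop e a f i (P i)) → ∑ i, Dop e a f i (P i) = 0 := by
  obtain ⟨g, hfg, hg⟩ := hf.decomp
  have hMi : ∀ i, ((D - 1 + e i : ℕ) : ℤ) = (D : ℤ) - 1 + e i := by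
    intro i
    have : 1 ≤ D := by omega
    push_cast [Nat.cast_sub this]
    ring
  intro n
  induction n with
  | zero =>
    intro P hP _
    refine Finset.sum_eq_zero (fun i _ => ?_)
    rw [(hP i).eq_zero (by rw [hMi]; push_cast; omega), Dop_zero]
  | succ n ih =>
    intro P hP hbox
    set d : ℤ := (n : ℤ) + 1 with hd
    have hP' : ∀ i, LeZ (P i) (d - ((D - 1 + e i : ℕ) : ℤ)) := by
      intro i
      have := hP i
      push_cast at this ⊢
      exact this
    set P0 : Fin m → Pol m := fun i => compZ (d - ((D - 1 + e i : ℕ) : ℤ)) (P i) with hP0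
    have hP0h : ∀ i, HomZ (P0 i) (d - ((D - 1 + e i : ℕ) : ℤ)) := fun i => homZ_compZ _ _
    have hcomp : compZ d (∑ i, Dop e a f i (P i)) = ∑ i, Dop e a (topP D c) i (P0 i) := by
      rw [compZ_sum]
      refine Finset.sum_congr rfl (fun i _ => ?_)
      have h1 : Dop e a f i (P i) = Dop e a (topP D c) i (P0 i)
          + (Dop e a (topP D c) i (P i - P0 i) + Dop e a g i (P i)) := by
        rw [hfg, Dop_add_left, Dop_sub]
        ring
      rw [h1, compZ_add, HomZ.compZ_self, LeZ.compZ_eq_zero (k := d - 1), add_zero]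
      · refine LeZ.add ?_ ?_
        · have := leZ_Dop a (homZ_topP D c).le (hP' i).sub_compZ i (e := e)
          refine this.mono ?_
          rw [hMi]
          omega
        · have := leZ_Dop a hg (hP' i) i (e := e)
          refine this.mono ?_
          rw [hMi]
          omega
      · omega
      · have := homZ_Dop a (homZ_topP D c) (hP0h i) i (e := e)
        rw [show (D : ℤ) - 1 + e i + (d - ((D - 1 + e i : ℕ) : ℤ)) = d by rw [hMi]; ring] at this
        exact this
    have htop : ∑ i, Dop e a (topP D c) i (P0 i) = 0 := by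
      refine top_part_zero he (by omega) c a P0 ?_
      rw [← hcomp]
      intro s hs
      refine hbox s ?_
      intro h0
      rw [coeff_compZ, h0] at hs
      simp at hs
    obtain ⟨K, hK, hKh, hKP⟩ := lift_syz he (by omega) hf.1 ha d P0 hP0h htop
    have key : ∑ i, Dop e a f i (P i - ∑ j, Dop e (a + 1) f j (K i j))
        = ∑ i, Dop e a f i (P i) := by
      have : ∑ i, Dop e a f i (P i - ∑ j, Dop e (a + 1) f j (K i j))
          = ∑ i, Dop e a f i (P i) - ∑ i, Dop e a f i (∑ j, Dop e (a + 1) f j (K i j)) := by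
        rw [← Finset.sum_sub_distrib]
        exact Finset.sum_congr rfl (fun i _ => Dop_sub e a f i _ _)
      rw [this, sum_Dop_Dop e a f K hK, sub_zero]
    rw [← key]
    refine ih _ ?_ (by rw [key]; exact hbox)
    intro i
    have h2 : P i - ∑ j, Dop e (a + 1) f j (K i j)
        = (P i - P0 i) - ∑ j, Dop e (a + 1) g j (K i j) := by
      have h3 : ∑ j, Dop e (a + 1) f j (K i j)
          = ∑ j, Dop e (a + 1) (topP D c) j (K i j) + ∑ j, Dop e (a + 1) g j (K i j) := by
        rw [← Finset.sum_add_distrib]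
        refine Finset.sum_congr rfl (fun j _ => ?_)
        rw [hfg, Dop_add_left]
      rw [h3, ← hKP i]
      ring
    rw [h2]
    refine LeZ.sub ?_ (LeZ.sum _ _ (fun j _ => ?_))
    · refine (hP' i).sub_compZ.mono ?_
      omega
    · have := leZ_Dop (a + 1) hg (hKh i j).le j (e := e)
      refine this.mono ?_
      rw [hMi i, hMi j]
      omega

/-- **Independence**: a combination of box monomials in `∑ D_i A` vanishes. -/
theorem box_disjoint {e : Fin m → ℕ} (he : ∀ i, e i ≤ 1) {D : ℕ} (hD : 2 ≤ D) {c : Fin m → ℂ}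
    {f : Pol m} (hf : TopF D c f) {a : ℂ} (ha : IrrC a) (P : Fin m → Pol m)
    (h : InBox D e (∑ i, Dop e a f i (P i))) : ∑ i, Dop e a f i (P i) = 0 := by
  refine box_indep he hD hf ha (∑ i, ((P i).totalDegree + (D - 1 + e i))) P ?_ h
  intro i
  refine (leZ_totalDegree (P i)).mono ?_
  have : (P i).totalDegree + (D - 1 + e i) ≤ ∑ i, ((P i).totalDegree + (D - 1 + e i)) :=
    Finset.single_le_sum (f := fun i => (P i).totalDegree + (D - 1 + e i))
      (fun _ _ => Nat.zero_le _) (Finset.mem_univ i)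
  omega

/-- The map `P ↦ ∑ D_i P_i`. -/
noncomputable def DopL (e : Fin m → ℕ) (a : ℂ) (f : Pol m) :
    (Fin m → Pol m) →ₗ[ℂ] Pol m where
  toFun P := ∑ i, Dop e a f i (P i)
  map_add' P Q := by
    rw [← Finset.sum_add_distrib]
    exact Finset.sum_congr rfl (fun i _ => Dop_add e a f i _ _)
  map_smul' r P := by
    rw [RingHom.id_apply, Finset.smul_sum]
    exact Finset.sum_congr rfl (fun i _ => Dop_smul e a f i r _)

theorem coeff_mon {D : ℕ} {e : Fin m → ℕ} (b : BoxT D e) (s : Fin m →₀ ℕ) :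
    coeff s (mon b) = if (∀ i, ((b i : Fin (D - 1 + e i)) : ℕ) = s i) then 1 else 0 := by
  classical
  unfold mon
  rw [coeff_monomial]
  congr 1
  rw [Finsupp.ext_iff]
  simp

theorem inBox_sum_mon {D : ℕ} {e : Fin m → ℕ} (u : BoxT D e → ℂ) :
    InBox D e (∑ b, u b • mon b) := by
  intro s hs i
  rw [coeff_sum] at hs
  obtain ⟨b, _, hb⟩ := Finset.exists_ne_zero_of_sum_ne_zero hs
  rw [coeff_smul, coeff_mon] at hb
  by_cases h : ∀ i, ((b i : Fin (D - 1 + e i)) : ℕ) = s i
  · rw [← h i]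
    exact (b i).2
  · simp [h] at hb

theorem sum_mon_eq_zero {D : ℕ} {e : Fin m → ℕ} {u : BoxT D e → ℂ}
    (h : ∑ b, u b • (mon b : Pol m) = 0) (b : BoxT D e) : u b = 0 := by
  have h1 := congrArg (coeff (Finsupp.equivFunOnFinite.symm
    (fun i => ((b i : Fin (D - 1 + e i)) : ℕ)))) h
  rw [coeff_sum, coeff_zero, Finset.sum_eq_single b] at h1
  · rw [coeff_smul, coeff_mon, if_pos (by simp)] at h1
    simpa using h1
  · intro b' _ hb'
    rw [coeff_smul, coeff_mon, if_neg, smul_zero]
    intro h2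
    refine hb' ?_
    funext i
    ext
    simpa using h2 i
  · intro h2
    exact absurd (Finset.mem_univ b) h2

/-- **Surjectivity**: box values can be prescribed. -/
theorem box_surj {e : Fin m → ℕ} (he : ∀ i, e i ≤ 1) {D : ℕ} (hD : 2 ≤ D) {c : Fin m → ℂ}
    {f : Pol m} (hf : TopF D c f) {a : ℂ} (ha : IrrC a) (v : BoxT D e → ℂ) :
    ∃ y ∈ Zs e a f, ∀ b : BoxT D e, y (mon b) = v b := by
  classical
  set W : Submodule ℂ (Pol m) := LinearMap.range (DopL e a f) with hW
  set L : (BoxT D e → ℂ) →ₗ[ℂ] (Pol m ⧸ W) :=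
    W.mkQ ∘ₗ (Fintype.linearCombination ℂ (fun b : BoxT D e => (mon b : Pol m))) with hL
  have hinj : LinearMap.ker L = ⊥ := by
    rw [LinearMap.ker_eq_bot']
    intro u hu
    rw [hL, LinearMap.comp_apply, Submodule.mkQ_apply, Submodule.Quotient.mk_eq_zero] at hu
    obtain ⟨P, hP⟩ := hu
    have hP' : ∑ i, Dop e a f i (P i) = ∑ b, u b • (mon b : Pol m) := by
      rw [Fintype.linearCombination_apply] at hP
      exact hP
    have h0 : ∑ b, u b • (mon b : Pol m) = 0 := by
      rw [← hP']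
      refine box_disjoint he hD hf ha P ?_
      rw [hP']
      exact inBox_sum_mon u
    funext b
    exact sum_mon_eq_zero h0 b
  obtain ⟨g, hg⟩ := LinearMap.exists_leftInverse_of_injective L hinj
  refine ⟨(Fintype.linearCombination ℂ v) ∘ₗ g ∘ₗ W.mkQ, ?_, ?_⟩
  · intro i P
    have h1 : W.mkQ (Dop e a f i P) = 0 := by
      rw [Submodule.mkQ_apply, Submodule.Quotient.mk_eq_zero]
      refine ⟨Pi.single i P, ?_⟩
      change ∑ j, Dop e a f j ((Pi.single i P : Fin m → Pol m) j) = _
      rw [Finset.sum_eq_single i]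
      · rw [Pi.single_eq_same]
      · intro j _ hj
        rw [Pi.single_eq_of_ne hj, Dop_zero]
      · intro h2
        exact absurd (Finset.mem_univ i) h2
    rw [LinearMap.comp_apply, LinearMap.comp_apply, h1, map_zero, map_zero]
  · intro b
    have h1 : W.mkQ (mon b) = L (Pi.single b 1) := by
      rw [hL, LinearMap.comp_apply, Fintype.linearCombination_apply_single, one_smul]
    have h2 : g (L (Pi.single b 1)) = Pi.single b 1 := by
      have := LinearMap.congr_fun hg (Pi.single b 1)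
      simpa using this
    rw [LinearMap.comp_apply, LinearMap.comp_apply, h1, h2,
      Fintype.linearCombination_apply_single, one_smul]

end Pool.Agent.QC
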