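import Pool.Agent.QC.Defs

/-!
# MP_7c50a9_lc, section 2.1: degrees in the integers, homogeneous components, Euler
-/

namespace Pool.Agent.QC

open MvPolynomial

variable {m : ℕ}

/-- All monomials of `P` have degree `k`. -/
def HomZ (P : Pol m) (k : ℤ) : Prop := ∀ s, coeff s P ≠ 0 → ((s.degree : ℕ) : ℤ) = k

/-- All monomials of `P` have degree at most `k`. -/
def LeZ (P : Pol m) (k : ℤ) : Prop := ∀ s, coeff s P ≠ 0 → ((s.degree : ℕ) : ℤ) ≤ k

theorem HomZ.le {P : Pol m} {k : ℤ} (h : HomZ P k) : LeZ P k := fun s hs => (h s hs).le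

theorem LeZ.mono {P : Pol m} {k l : ℤ} (h : LeZ P k) (hkl : k ≤ l) : LeZ P l :=
  fun s hs => (h s hs).trans hkl

theorem homZ_zero (k : ℤ) : HomZ (0 : Pol m) k := by
  intro s hs
  simp at hs

theorem leZ_zero (k : ℤ) : LeZ (0 : Pol m) k := (homZ_zero k).le

theorem HomZ.add {P Q : Pol m} {k : ℤ} (hP : HomZ P k) (hQ : HomZ Q k) : HomZ (P + Q) k := by
  intro s hs
  by_cases h : coeff s P = 0
  · refine hQ s ?_
    intro h'
    rw [coeff_add, h, h', add_zero] at hs
    exact hs rfl
  · exact hP s h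

theorem LeZ.add {P Q : Pol m} {k : ℤ} (hP : LeZ P k) (hQ : LeZ Q k) : LeZ (P + Q) k := by
  intro s hs
  by_cases h : coeff s P = 0
  · refine hQ s ?_
    intro h'
    rw [coeff_add, h, h', add_zero] at hs
    exact hs rfl
  · exact hP s h

theorem HomZ.neg {P : Pol m} {k : ℤ} (hP : HomZ P k) : HomZ (-P) k := by
  intro s hs
  refine hP s ?_
  intro h
  rw [coeff_neg, h, neg_zero] at hs
  exact hs rfl

theorem LeZ.neg {P : Pol m} {k : ℤ} (hP : LeZ P k) : LeZ (-P) k := by
  intro s hs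
  refine hP s ?_
  intro h
  rw [coeff_neg, h, neg_zero] at hs
  exact hs rfl

theorem HomZ.sub {P Q : Pol m} {k : ℤ} (hP : HomZ P k) (hQ : HomZ Q k) : HomZ (P - Q) k := by
  rw [sub_eq_add_neg]
  exact hP.add hQ.neg

theorem LeZ.sub {P Q : Pol m} {k : ℤ} (hP : LeZ P k) (hQ : LeZ Q k) : LeZ (P - Q) k := by
  rw [sub_eq_add_neg]
  exact hP.add hQ.neg

theorem HomZ.sum {ι : Type*} (t : Finset ι) (P : ι → Pol m) {k : ℤ}
    (h : ∀ i ∈ t, HomZ (P i) k) : HomZ (∑ i ∈ t, P i) k := by
  classical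
  induction t using Finset.induction_on with
  | empty => simpa using homZ_zero k
  | insert a t ha ih =>
    rw [Finset.sum_insert ha]
    exact (h a (Finset.mem_insert_self a t)).add
      (ih (fun i hi => h i (Finset.mem_insert_of_mem hi)))

theorem LeZ.sum {ι : Type*} (t : Finset ι) (P : ι → Pol m) {k : ℤ}
    (h : ∀ i ∈ t, LeZ (P i) k) : LeZ (∑ i ∈ t, P i) k := by
  classical
  induction t using Finset.induction_on with
  | empty => simpa using leZ_zero k
  | insert a t ha ih =>
    rw [Finset.sum_insert ha]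
    exact (h a (Finset.mem_insert_self a t)).add
      (ih (fun i hi => h i (Finset.mem_insert_of_mem hi)))

theorem exists_of_coeff_mul_ne {P Q : Pol m} {s : Fin m →₀ ℕ} (hs : coeff s (P * Q) ≠ 0) :
    ∃ u v, u + v = s ∧ coeff u P ≠ 0 ∧ coeff v Q ≠ 0 := by
  classical
  rw [coeff_mul] at hs
  obtain ⟨x, hx, hne⟩ := Finset.exists_ne_zero_of_sum_ne_zero hs
  rw [Finset.HasAntidiagonal.mem_antidiagonal] at hx
  exact ⟨x.1, x.2, hx, left_ne_zero_of_mul hne, right_ne_zero_of_mul hne⟩

theorem HomZ.mul {P Q : Pol m} {k l : ℤ} (hP : HomZ P k) (hQ : HomZ Q l) :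
    HomZ (P * Q) (k + l) := by
  intro s hs
  obtain ⟨u, v, huv, hu, hv⟩ := exists_of_coeff_mul_ne hs
  rw [← huv, map_add, Nat.cast_add, hP u hu, hQ v hv]

theorem LeZ.mul {P Q : Pol m} {k l : ℤ} (hP : LeZ P k) (hQ : LeZ Q l) :
    LeZ (P * Q) (k + l) := by
  intro s hs
  obtain ⟨u, v, huv, hu, hv⟩ := exists_of_coeff_mul_ne hs
  rw [← huv, map_add, Nat.cast_add]
  exact add_le_add (hP u hu) (hQ v hv)

theorem homZ_monomial (s : Fin m →₀ ℕ) (c : ℂ) :
    HomZ (monomial s c : Pol m) ((s.degree : ℕ) : ℤ) := by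
  classical
  intro u hu
  rw [coeff_monomial] at hu
  split_ifs at hu with h
  · rw [h]
  · exact absurd rfl hu

theorem homZ_C (c : ℂ) : HomZ (C c : Pol m) 0 := by
  have := homZ_monomial (m := m) 0 c
  simpa using this

theorem HomZ.C_mul {P : Pol m} {k : ℤ} (hP : HomZ P k) (c : ℂ) : HomZ (C c * P) k := by
  have := (homZ_C c).mul hP
  simpa using this

theorem LeZ.C_mul {P : Pol m} {k : ℤ} (hP : LeZ P k) (c : ℂ) : LeZ (C c * P) k := by
  have := (homZ_C c).le.mul hP
  simpa using this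

theorem homZ_X_pow (i : Fin m) (n : ℕ) : HomZ (X i ^ n : Pol m) n := by
  have := homZ_monomial (m := m) (Finsupp.single i n) 1
  rw [X_pow_eq_monomial]
  simpa using this

theorem HomZ.eq_zero {P : Pol m} {k : ℤ} (hP : HomZ P k) (hk : k < 0) : P = 0 := by
  ext s
  rw [coeff_zero]
  by_contra h
  have := hP s h
  omega

theorem LeZ.eq_zero {P : Pol m} {k : ℤ} (hP : LeZ P k) (hk : k < 0) : P = 0 := by
  ext s
  rw [coeff_zero]
  by_contra h
  have := hP s h
  omega

theorem homZ_pderiv_aux {P : Pol m} {i : Fin m} {s : Fin m →₀ ℕ}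
    (hs : coeff s (pderiv i P) ≠ 0) : coeff (s + Finsupp.single i 1) P ≠ 0 := by
  rw [coeff_pderiv] at hs
  exact left_ne_zero_of_mul hs

theorem HomZ.pderiv {P : Pol m} {k : ℤ} (hP : HomZ P k) (i : Fin m) :
    HomZ (pderiv i P) (k - 1) := by
  intro s hs
  have := hP _ (homZ_pderiv_aux hs)
  rw [map_add, Finsupp.degree_single] at this
  push_cast at this
  omega

theorem LeZ.pderiv {P : Pol m} {k : ℤ} (hP : LeZ P k) (i : Fin m) :
    LeZ (MvPolynomial.pderiv i P) (k - 1) := by
  intro s hs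
  have := hP _ (homZ_pderiv_aux hs)
  rw [map_add, Finsupp.degree_single] at this
  push_cast at this
  omega

theorem HomZ.th {P : Pol m} {k : ℤ} (hP : HomZ P k) (e : Fin m → ℕ) (i : Fin m) :
    HomZ (th e i P) (k - 1 + e i) := by
  have := (homZ_X_pow i (e i)).mul (hP.pderiv i)
  rw [show k - 1 + (e i : ℤ) = (e i : ℤ) + (k - 1) by ring]
  exact this

theorem LeZ.th {P : Pol m} {k : ℤ} (hP : LeZ P k) (e : Fin m → ℕ) (i : Fin m) :
    LeZ (Pool.Agent.QC.th e i P) (k - 1 + e i) := by
  have := (homZ_X_pow i (e i)).le.mul (hP.pderiv i)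
  rw [show k - 1 + (e i : ℤ) = (e i : ℤ) + (k - 1) by ring]
  exact this

/-- The homogeneous component of degree `k`. -/
noncomputable def compZ (k : ℤ) (P : Pol m) : Pol m :=
  if 0 ≤ k then homogeneousComponent k.toNat P else 0

theorem coeff_compZ (k : ℤ) (P : Pol m) (s : Fin m →₀ ℕ) :
    coeff s (compZ k P) = if ((s.degree : ℕ) : ℤ) = k then coeff s P else 0 := by
  unfold compZ
  by_cases hk : 0 ≤ k
  · rw [if_pos hk, coeff_homogeneousComponent]
    by_cases h : ((s.degree : ℕ) : ℤ) = k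
    · rw [if_pos h, if_pos (by omega)]
    · rw [if_neg h, if_neg (by omega)]
  · rw [if_neg hk, coeff_zero, if_neg (by omega)]

theorem homZ_compZ (k : ℤ) (P : Pol m) : HomZ (compZ k P) k := by
  intro s hs
  rw [coeff_compZ] at hs
  by_contra h
  rw [if_neg h] at hs
  exact hs rfl

theorem LeZ.sub_compZ {P : Pol m} {k : ℤ} (hP : LeZ P k) : LeZ (P - compZ k P) (k - 1) := by
  intro s hs
  rw [coeff_sub, coeff_compZ] at hs
  split_ifs at hs with h
  · simp at hs
  · rw [sub_zero] at hs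
    have := hP s hs
    omega

theorem compZ_add (k : ℤ) (P Q : Pol m) : compZ k (P + Q) = compZ k P + compZ k Q := by
  ext s
  simp only [coeff_add, coeff_compZ]
  split_ifs <;> simp

theorem compZ_zero (k : ℤ) : compZ k (0 : Pol m) = 0 := by
  ext s
  simp [coeff_compZ]

theorem compZ_neg (k : ℤ) (P : Pol m) : compZ k (-P) = -compZ k P := by
  ext s
  simp only [coeff_neg, coeff_compZ]
  split_ifs <;> simp

theorem compZ_sum {ι : Type*} (t : Finset ι) (k : ℤ) (P : ι → Pol m) :
    compZ k (∑ i ∈ t, P i) = ∑ i ∈ t, compZ k (P i) := by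
  classical
  induction t using Finset.induction_on with
  | empty => simpa using compZ_zero k
  | insert a t ha ih => rw [Finset.sum_insert ha, Finset.sum_insert ha, compZ_add, ih]

theorem HomZ.compZ_self {P : Pol m} {k : ℤ} (hP : HomZ P k) : compZ k P = P := by
  ext s
  rw [coeff_compZ]
  split_ifs with h
  · rfl
  · by_contra h'
    exact h (hP s (fun h'' => h' h''.symm))

theorem LeZ.compZ_eq_zero {P : Pol m} {k l : ℤ} (hP : LeZ P k) (hkl : k < l) :
    compZ l P = 0 := by
  ext s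
  rw [coeff_compZ, coeff_zero]
  split_ifs with h
  · by_contra h'
    have := hP s h'
    omega
  · rfl

theorem compZ_mul {P Q : Pol m} {k l : ℤ} (hQ : HomZ Q l) :
    compZ (k + l) (P * Q) = compZ k P * Q := by
  classical
  ext s
  rw [coeff_compZ]
  split_ifs with h
  · rw [coeff_mul, coeff_mul]
    refine Finset.sum_congr rfl ?_
    intro x hx
    rw [Finset.HasAntidiagonal.mem_antidiagonal] at hx
    by_cases hv : coeff x.2 Q = 0
    · rw [hv, mul_zero, mul_zero]
    · rw [coeff_compZ, if_pos]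
      have h2 := hQ _ hv
      rw [← hx, map_add, Nat.cast_add] at h
      omega
  · by_contra h'
    obtain ⟨u, v, huv, hu, hv⟩ := exists_of_coeff_mul_ne (Ne.symm h')
    refine h ?_
    rw [← huv, map_add, Nat.cast_add, homZ_compZ k P u hu, hQ v hv]

/-- Euler's identity. -/
theorem HomZ.euler {P : Pol m} {k : ℤ} (hP : HomZ P k) :
    ∑ i, X i * MvPolynomial.pderiv i P = C (k : ℂ) * P := by
  classical
  have key : ∀ s : Fin m →₀ ℕ, ∀ c : ℂ,
      ∑ i, X i * MvPolynomial.pderiv i (monomial s c : Pol m)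
        = C ((s.degree : ℕ) : ℂ) * monomial s c := by
    intro s c
    have h1 : ∀ i, X i * MvPolynomial.pderiv i (monomial s c : Pol m)
        = C ((s i : ℕ) : ℂ) * monomial s c := by
      intro i
      rw [pderiv_monomial]
      by_cases hi : s i = 0
      · simp [hi]
      · have h2 : Finsupp.single i 1 + (s - Finsupp.single i 1) = s := by
          refine add_tsub_cancel_of_le ?_
          rw [Finsupp.single_le_iff]
          omega
        rw [X, monomial_mul, h2, C_mul_monomial, one_mul, mul_comm]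
    rw [Finset.sum_congr rfl (fun i _ => h1 i), ← Finset.sum_mul, ← map_sum]
    congr 2
    rw [Finsupp.degree_eq_sum]
    push_cast
    rfl
  conv_lhs => rw [P.as_sum]
  conv_rhs => rw [P.as_sum]
  simp only [map_sum, Finset.mul_sum]
  rw [Finset.sum_comm]
  refine Finset.sum_congr rfl ?_
  intro s hs
  rw [key s, ← hP s (mem_support_iff.mp hs)]
  simp

end Pool.Agent.QC
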