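import Pool.Agent.QC.FHom

/-!
# MP_7c50a9_lc, section 2.1: the first syzygies of powers of the variables
-/

namespace Pool.Agent.QC

open MvPolynomial

variable {m : ℕ}

/-- Syzygies of `X_i ^ M_i`, `i ∈ s`, are Koszul syzygies. -/
theorem koszul (M : Fin m → ℕ) (s : Finset (Fin m)) : ∀ g : Fin m → Pol m,
    ∑ i ∈ s, g i * X i ^ M i = 0 →
    ∃ K : Fin m → Fin m → Pol m, (∀ i j, K i j = - K j i) ∧
      ∀ i ∈ s, g i = ∑ j ∈ s, K i j * X j ^ M j := by
  classical
  induction s using Finset.induction_on with
  | empty =>
    intro g _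
    exact ⟨fun _ _ => 0, by simp, by simp⟩
  | insert n s hn ih =>
    intro g hg
    rw [Finset.sum_insert hn] at hg
    set b : Fin m → Pol m := fun i => divMonomial (g i) (Finsupp.single n (M n)) with hb
    set a : Fin m → Pol m := fun i => modMonomial (g i) (Finsupp.single n (M n)) with ha
    have hdec : ∀ i, g i = a i + b i * X n ^ M n := by
      intro i
      have := modMonomial_add_divMonomial (g i) (Finsupp.single n (M n))
      rw [X_pow_eq_monomial, mul_comm (b i)]
      exact this.symm
    have hsum : ∑ i ∈ s, g i * X i ^ M i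
        = ∑ i ∈ s, a i * X i ^ M i + (∑ i ∈ s, b i * X i ^ M i) * X n ^ M n := by
      rw [Finset.sum_mul, ← Finset.sum_add_distrib]
      refine Finset.sum_congr rfl ?_
      intro i _
      conv_lhs => rw [hdec i]
      ring
    have hzero : ∑ i ∈ s, a i * X i ^ M i = 0 := by
      ext t
      rw [coeff_zero]
      by_cases ht : M n ≤ t n
      · rw [coeff_sum]
        refine Finset.sum_eq_zero ?_
        intro i hi
        have hin : i ≠ n := fun h => hn (h ▸ hi)
        rw [X_pow_eq_monomial, coeff_mul_monomial']
        split_ifs with hle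
        · rw [ha]
          simp only
          rw [coeff_modMonomial_of_le, zero_mul]
          rw [Finsupp.single_le_iff, Finsupp.tsub_apply, Finsupp.single_eq_of_ne hin.symm]
          omega
        · rfl
      · have h1 : ∑ i ∈ s, a i * X i ^ M i
            = (-(g n + ∑ i ∈ s, b i * X i ^ M i)) * X n ^ M n := by
          rw [hsum] at hg
          linear_combination hg
        rw [h1, X_pow_eq_monomial, coeff_mul_monomial', if_neg]
        rw [Finsupp.single_le_iff]
        exact ht
    have hgn : g n = -∑ i ∈ s, b i * X i ^ M i := by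
      rw [hsum, hzero, zero_add, ← add_mul] at hg
      have hX : (X n ^ M n : Pol m) ≠ 0 := pow_ne_zero _ (X_ne_zero n)
      have := (mul_eq_zero.mp hg).resolve_right hX
      exact eq_neg_of_add_eq_zero_left this
    obtain ⟨K, hK, hK'⟩ := ih a hzero
    refine ⟨fun i j => if i = n then (if j = n then 0 else -b j) else
      (if j = n then b i else K i j), ?_, ?_⟩
    · intro i j
      by_cases hi : i = n <;> by_cases hj : j = n <;> simp [hi, hj]
      exact hK i j
    · intro i hi
      rw [Finset.sum_insert hn]
      by_cases hin : i = n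
      · subst hin
        simp only [if_true, zero_mul, zero_add]
        rw [hgn, ← Finset.sum_neg_distrib]
        refine Finset.sum_congr rfl ?_
        intro j hj
        have : j ≠ i := fun h => hn (h ▸ hj)
        rw [if_neg this]
        ring
      · have his : i ∈ s := (Finset.mem_insert.mp hi).resolve_left hin
        simp only [if_neg hin, if_true]
        rw [hdec i, hK' i his, add_comm]
        congr 1
        refine Finset.sum_congr rfl ?_
        intro j hj
        have : j ≠ n := fun h => hn (h ▸ hj)
        rw [if_neg this]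

/-- Homogeneous version. -/
theorem koszul_hom (M : Fin m → ℕ) (d : ℤ) (g : Fin m → Pol m)
    (hg : ∀ i, HomZ (g i) (d - M i)) (h : ∑ i, g i * X i ^ M i = 0) :
    ∃ K : Fin m → Fin m → Pol m, (∀ i j, K i j = - K j i) ∧
      (∀ i j, HomZ (K i j) (d - M i - M j)) ∧ ∀ i, g i = ∑ j, K i j * X j ^ M j := by
  obtain ⟨K, hK, hK'⟩ := koszul M Finset.univ g h
  refine ⟨fun i j => compZ (d - M i - M j) (K i j), ?_, fun i j => homZ_compZ _ _, ?_⟩
  · intro i j
    change compZ (d - M i - M j) (K i j) = -compZ (d - M j - M i) (K j i)
    rw [hK i j, compZ_neg, sub_right_comm]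
  · intro i
    have h1 := congrArg (compZ (d - M i)) (hK' i (Finset.mem_univ i))
    rw [(hg i).compZ_self, compZ_sum] at h1
    rw [h1]
    refine Finset.sum_congr rfl ?_
    intro j _
    have := compZ_mul (P := K i j) (k := d - M i - M j) (homZ_X_pow j (M j))
    rw [← this]
    congr 1
    ring

end Pool.Agent.QC
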