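import Pool.Agent.QC.FKos

/-!
# MP_7c50a9_lc, section 2.1: the operators `th` and `Dop`, lifting of the top syzygies
-/

namespace Pool.Agent.QC

open MvPolynomial

variable {m : ℕ}

theorem pderiv_comm' (i j : Fin m) (P : Pol m) :
    pderiv i (pderiv j P) = pderiv j (pderiv i P) := by
  classical
  by_cases hij : i = j
  · rw [hij]
  · ext s
    rw [coeff_pderiv, coeff_pderiv, coeff_pderiv, coeff_pderiv]
    have h1 : s + Finsupp.single i 1 + Finsupp.single j 1
        = s + Finsupp.single j 1 + Finsupp.single i 1 := add_right_comm _ _ _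
    rw [h1]
    have h2 : (s + Finsupp.single i 1 : Fin m →₀ ℕ) j = s j := by
      rw [Finsupp.add_apply, Finsupp.single_eq_of_ne (Ne.symm hij), add_zero]
    have h3 : (s + Finsupp.single j 1 : Fin m →₀ ℕ) i = s i := by
      rw [Finsupp.add_apply, Finsupp.single_eq_of_ne hij, add_zero]
    rw [h2, h3]
    ring

theorem th_add (e : Fin m → ℕ) (i : Fin m) (P Q : Pol m) :
    th e i (P + Q) = th e i P + th e i Q := by
  simp only [th, map_add, mul_add]

theorem th_zero (e : Fin m → ℕ) (i : Fin m) : th e i (0 : Pol m) = 0 := by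
  simp only [th, map_zero, mul_zero]

theorem th_neg (e : Fin m → ℕ) (i : Fin m) (P : Pol m) : th e i (-P) = -th e i P := by
  simp only [th, map_neg, mul_neg]

theorem th_sub (e : Fin m → ℕ) (i : Fin m) (P Q : Pol m) :
    th e i (P - Q) = th e i P - th e i Q := by
  simp only [th, map_sub, mul_sub]

theorem th_sum {ι : Type*} (e : Fin m → ℕ) (i : Fin m) (t : Finset ι) (P : ι → Pol m) :
    th e i (∑ k ∈ t, P k) = ∑ k ∈ t, th e i (P k) := by
  simp only [th, map_sum, Finset.mul_sum]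

theorem th_mul (e : Fin m → ℕ) (i : Fin m) (P Q : Pol m) :
    th e i (P * Q) = th e i P * Q + P * th e i Q := by
  simp only [th, Derivation.leibniz, smul_eq_mul]
  ring

theorem th_C (e : Fin m → ℕ) (i : Fin m) (c : ℂ) : th e i (C c : Pol m) = 0 := by
  simp [th]

theorem th_C_mul (e : Fin m → ℕ) (i : Fin m) (c : ℂ) (P : Pol m) :
    th e i (C c * P) = C c * th e i P := by
  rw [th_mul, th_C, zero_mul, zero_add]

theorem th_smul (e : Fin m → ℕ) (i : Fin m) (c : ℂ) (P : Pol m) :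
    th e i (c • P) = c • th e i P := by
  rw [smul_eq_C_mul, th_C_mul, smul_eq_C_mul]

theorem th_X_pow_of_ne (e : Fin m → ℕ) {i j : Fin m} (hij : i ≠ j) (n : ℕ) :
    th e i (X j ^ n : Pol m) = 0 := by
  have h : pderiv i (X j : Pol m) = 0 := pderiv_X_of_ne (Ne.symm hij)
  simp [th, h]

theorem th_X_pow_self (e : Fin m → ℕ) (i : Fin m) (n : ℕ) :
    th e i (X i ^ n : Pol m) = C (n : ℂ) * (X i ^ e i * X i ^ (n - 1)) := by
  simp only [th, pderiv_pow, pderiv_X_self, mul_one]
  rw [show ((n : ℕ) : Pol m) = C (n : ℂ) by simp]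
  ring

theorem th_comm (e : Fin m → ℕ) (i j : Fin m) (P : Pol m) :
    th e i (th e j P) = th e j (th e i P) := by
  by_cases hij : i = j
  · rw [hij]
  · have h1 : th e i (X j ^ e j * pderiv j P) = X j ^ e j * th e i (pderiv j P) := by
      rw [th_mul, th_X_pow_of_ne e hij, zero_mul, zero_add]
    have h2 : th e j (X i ^ e i * pderiv i P) = X i ^ e i * th e j (pderiv i P) := by
      rw [th_mul, th_X_pow_of_ne e (Ne.symm hij), zero_mul, zero_add]
    change th e i (X j ^ e j * pderiv j P) = th e j (X i ^ e i * pderiv i P)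
    rw [h1, h2]
    simp only [th]
    rw [pderiv_comm' i j]
    ring

theorem Dop_add (e : Fin m → ℕ) (a : ℂ) (f : Pol m) (i : Fin m) (P Q : Pol m) :
    Dop e a f i (P + Q) = Dop e a f i P + Dop e a f i Q := by
  simp only [Dop, th_add]
  ring

theorem Dop_zero (e : Fin m → ℕ) (a : ℂ) (f : Pol m) (i : Fin m) :
    Dop e a f i 0 = 0 := by
  simp only [Dop, th_zero]
  ring

theorem Dop_neg (e : Fin m → ℕ) (a : ℂ) (f : Pol m) (i : Fin m) (P : Pol m) :
    Dop e a f i (-P) = -Dop e a f i P := by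
  simp only [Dop, th_neg]
  ring

theorem Dop_sub (e : Fin m → ℕ) (a : ℂ) (f : Pol m) (i : Fin m) (P Q : Pol m) :
    Dop e a f i (P - Q) = Dop e a f i P - Dop e a f i Q := by
  simp only [Dop, th_sub]
  ring

theorem Dop_C_mul (e : Fin m → ℕ) (a : ℂ) (f : Pol m) (i : Fin m) (c : ℂ) (P : Pol m) :
    Dop e a f i (C c * P) = C c * Dop e a f i P := by
  simp only [Dop, th_C_mul]
  ring

theorem Dop_smul (e : Fin m → ℕ) (a : ℂ) (f : Pol m) (i : Fin m) (c : ℂ) (P : Pol m) :
    Dop e a f i (c • P) = c • Dop e a f i P := by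
  rw [smul_eq_C_mul, Dop_C_mul, smul_eq_C_mul]

theorem Dop_sum {ι : Type*} (e : Fin m → ℕ) (a : ℂ) (f : Pol m) (i : Fin m) (t : Finset ι)
    (P : ι → Pol m) : Dop e a f i (∑ k ∈ t, P k) = ∑ k ∈ t, Dop e a f i (P k) := by
  simp only [Dop, th_sum, Finset.mul_sum, Finset.sum_add_distrib]

/-- `Dop` is additive in `f`. -/
theorem Dop_add_left (e : Fin m → ℕ) (a : ℂ) (f g : Pol m) (i : Fin m) (P : Pol m) :
    Dop e a (f + g) i P = Dop e a f i P + Dop e a g i P := by
  simp only [Dop, th_add]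
  ring

theorem Dop_C_mul_left (e : Fin m → ℕ) (a c : ℂ) (f : Pol m) (i : Fin m) (P : Pol m) :
    Dop e a (C c * f) i P = C c * Dop e a f i P := by
  simp only [Dop, th_C_mul]
  ring

theorem leZ_Dop {e : Fin m → ℕ} {f P : Pol m} {k l : ℤ} (a : ℂ) (hf : LeZ f k)
    (hP : LeZ P l) (i : Fin m) : LeZ (Dop e a f i P) (k - 1 + e i + l) := by
  have h1 : LeZ (C (a + 1) * th e i f * P) (k - 1 + e i + l) :=
    ((hf.th e i).C_mul (a + 1)).mul hP
  have h2 : LeZ (f * th e i P) (k - 1 + e i + l) := by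
    have := hf.mul (hP.th e i)
    rw [show k - 1 + (e i : ℤ) + l = k + (l - 1 + e i) by ring]
    exact this
  exact h1.add h2

theorem homZ_Dop {e : Fin m → ℕ} {f P : Pol m} {k l : ℤ} (a : ℂ) (hf : HomZ f k)
    (hP : HomZ P l) (i : Fin m) : HomZ (Dop e a f i P) (k - 1 + e i + l) := by
  have h1 : HomZ (C (a + 1) * th e i f * P) (k - 1 + e i + l) :=
    ((hf.th e i).C_mul (a + 1)).mul hP
  have h2 : HomZ (f * th e i P) (k - 1 + e i + l) := by
    have := hf.mul (hP.th e i)
    rw [show k - 1 + (e i : ℤ) + l = k + (l - 1 + e i) by ring]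
    exact this
  exact h1.add h2

/-- `D_i^(a) D_j^(a+1)` is symmetric in `i` and `j`. -/
theorem Dop_Dop (e : Fin m → ℕ) (a : ℂ) (f : Pol m) (i j : Fin m) (P : Pol m) :
    Dop e a f i (Dop e (a + 1) f j P) = Dop e a f j (Dop e (a + 1) f i P) := by
  simp only [Dop, th_add, th_mul, th_C]
  rw [th_comm e i j f, th_comm e i j P]
  simp only [map_add, map_one]
  ring

/-- Antisymmetric double sums vanish. -/
theorem sum_Dop_Dop (e : Fin m → ℕ) (a : ℂ) (f : Pol m) (K : Fin m → Fin m → Pol m)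
    (hK : ∀ i j, K i j = -K j i) :
    ∑ i, Dop e a f i (∑ j, Dop e (a + 1) f j (K i j)) = 0 := by
  have h1 : ∑ i, Dop e a f i (∑ j, Dop e (a + 1) f j (K i j))
      = ∑ i, ∑ j, Dop e a f i (Dop e (a + 1) f j (K i j)) :=
    Finset.sum_congr rfl (fun i _ => Dop_sum e a f i _ _)
  have h2 : ∑ i, ∑ j, Dop e a f i (Dop e (a + 1) f j (K i j))
      = -∑ i, ∑ j, Dop e a f i (Dop e (a + 1) f j (K i j)) := by
    conv_lhs => rw [Finset.sum_comm]
    rw [← Finset.sum_neg_distrib]
    refine Finset.sum_congr rfl (fun j _ => ?_)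
    rw [← Finset.sum_neg_distrib]
    refine Finset.sum_congr rfl (fun i _ => ?_)
    rw [Dop_Dop, hK i j, Dop_neg, Dop_neg]
  rw [h1]
  exact self_eq_neg.mp h2

/-- `x^_i = x_i ^ (1 - e i)`. -/
noncomputable def xh (e : Fin m → ℕ) (i : Fin m) : Pol m := X i ^ (1 - e i)

theorem xh_mul_th (e : Fin m → ℕ) (he : ∀ i, e i ≤ 1) (i : Fin m) (P : Pol m) :
    xh e i * th e i P = X i * pderiv i P := by
  unfold xh th
  have := he i
  rw [← mul_assoc, ← pow_add, show 1 - e i + e i = 1 by omega, pow_one]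

theorem euler_xh (e : Fin m → ℕ) (he : ∀ i, e i ≤ 1) {P : Pol m} {k : ℤ} (hP : HomZ P k) :
    ∑ i, xh e i * th e i P = C (k : ℂ) * P := by
  rw [← hP.euler]
  exact Finset.sum_congr rfl (fun i _ => xh_mul_th e he i P)

theorem th_xh_of_ne (e : Fin m → ℕ) {i j : Fin m} (hij : i ≠ j) : th e i (xh e j) = 0 :=
  th_X_pow_of_ne e hij _

theorem th_xh_self (e : Fin m → ℕ) (he : ∀ i, e i ≤ 1) (i : Fin m) :
    th e i (xh e i) = C ((1 : ℂ) - e i) := by
  unfold xh
  rw [th_X_pow_self]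
  have h := he i
  interval_cases h' : e i <;> simp

theorem homZ_xh (e : Fin m → ℕ) (he : ∀ i, e i ≤ 1) (i : Fin m) :
    HomZ (xh e i) (1 - e i) := by
  have := homZ_X_pow i (1 - e i)
  have h := he i
  rw [Nat.cast_sub h, Nat.cast_one] at this
  exact this

/-- the number of variables which are not logarithmic -/
def n0 (e : Fin m → ℕ) : ℂ := ∑ i, ((1 : ℂ) - e i)

theorem sum_th_xh_mul (e : Fin m → ℕ) (he : ∀ i, e i ≤ 1) {P : Pol m} {k : ℤ}
    (hP : HomZ P k) : ∑ i, th e i (xh e i * P) = C (n0 e + k) * P := by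
  simp only [th_mul, Finset.sum_add_distrib]
  rw [euler_xh e he hP, map_add, add_mul, n0, map_sum, Finset.sum_mul]
  congr 1
  exact Finset.sum_congr rfl (fun i _ => by rw [th_xh_self e he i])

end Pool.Agent.QC
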