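import Pool.Agent.QC.FBox

/-!
# MP_7c50a9_lc, section 2.1: reduction to the box, polynomial in the coefficient vector
-/

namespace Pool.Agent.QC

open MvPolynomial

variable {m : ℕ}

/-- Every monomial outside the box is a top sum. -/
theorem mono_top {e : Fin m → ℕ} (he : ∀ i, e i ≤ 1) {D : ℕ} (hD : 1 ≤ D) {c : Fin m → ℂ}
    (hc : ∀ i, c i ≠ 0) {a : ℂ} (ha : IrrC a) (s : Fin m →₀ ℕ) (i0 : Fin m)
    (hs : D - 1 + e i0 ≤ s i0) :
    ∃ P : Fin m → Pol m,
      (∀ i, HomZ (P i) (((s.degree : ℕ) : ℤ) - ((D - 1 + e i : ℕ) : ℤ))) ∧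
      ∑ i, Dop e a (topP D c) i (P i) = monomial s 1 := by
  classical
  have hD0 : (D : ℂ) ≠ 0 := by
    have : D ≠ 0 := by omega
    exact_mod_cast this
  have hMi : ∀ i, ((D - 1 + e i : ℕ) : ℤ) = (D : ℤ) - 1 + e i := by
    intro i
    push_cast [Nat.cast_sub hD]
    ring
  set dl : ℤ := ((s.degree : ℕ) : ℤ) with hdl
  have hss : (s - Finsupp.single i0 (D - 1 + e i0)) + Finsupp.single i0 (D - 1 + e i0) = s := by
    refine tsub_add_cancel_of_le ?_
    rw [Finsupp.single_le_iff]
    exact hs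
  have hcD : c i0 * D ≠ 0 := mul_ne_zero (hc i0) hD0
  set R : Fin m → Pol m := Pi.single i0
    (monomial (s - Finsupp.single i0 (D - 1 + e i0)) (-(1 / (c i0 * D)))) with hR
  have hRh : ∀ i, HomZ (R i) (dl - ((D - 1 + e i : ℕ) : ℤ)) := by
    intro i
    by_cases hi : i = i0
    · subst hi
      rw [hR, Pi.single_eq_same]
      have h1 := homZ_monomial (m := m) (s - Finsupp.single i (D - 1 + e i)) (-(1 / (c i * D)))
      have h2 := congrArg Finsupp.degree hss
      rw [map_add, Finsupp.degree_single] at h2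
      rw [show dl - ((D - 1 + e i : ℕ) : ℤ)
        = (((s - Finsupp.single i (D - 1 + e i)).degree : ℕ) : ℤ) by rw [hdl, ← h2]; push_cast; ring]
      exact h1
    · rw [hR, Pi.single_eq_of_ne hi]
      exact homZ_zero _
  set Q0 : Pol m := ∑ j, th e j (R j) with hQ0
  have hQ0h : HomZ Q0 (dl - D) := by
    refine HomZ.sum _ _ (fun i _ => ?_)
    have := (hRh i).th e i
    rw [hMi] at this
    rw [show dl - (D : ℤ) = dl - ((D : ℤ) - 1 + e i) - 1 + e i by ring]
    exact this
  set c' : ℂ := (a + 1) + (1 / (D : ℂ)) * (n0 e + ((dl - D : ℤ) : ℂ)) with hc'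
  have hc'D : c' * D = (a + 1) * D + n0 e + ((dl - D : ℤ) : ℂ) := by
    rw [hc']
    field_simp
    ring
  have hc'0 : c' ≠ 0 := by
    obtain ⟨z, hz⟩ := n0_int e
    refine left_ne_zero_of_mul (b := (D : ℂ)) ?_
    rw [hc'D, hz]
    have := ha.add_one.mul_add_ne hD (z + (dl - D))
    push_cast at this ⊢
    rwa [← add_assoc] at this
  have ha1 : a + 1 ≠ 0 := ha.add_one.ne_zero
  set Q : Pol m := C (1 / c') * Q0 with hQ
  have hQh : HomZ Q (dl - D) := hQ0h.C_mul _
  have hQ0Q : Q0 = C c' * Q := by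
    rw [hQ, ← mul_assoc, ← map_mul, mul_one_div_cancel hc'0, map_one, one_mul]
  set P : Fin m → Pol m := fun i => C (1 / (a + 1)) * (R i - C (1 / (D : ℂ)) * (xh e i * Q))
    with hP
  have hPh : ∀ i, HomZ (P i) (dl - ((D - 1 + e i : ℕ) : ℤ)) := by
    intro i
    refine HomZ.C_mul ((hRh i).sub (HomZ.C_mul ?_ _)) _
    have := (homZ_xh e he i).mul hQh
    rw [show dl - ((D - 1 + e i : ℕ) : ℤ) = 1 - (e i : ℤ) + (dl - D) by rw [hMi]; ring]
    exact this
  have e1 : (C c' : Pol m) = C (a + 1) + C (1 / (D : ℂ)) * C (n0 e + ((dl - D : ℤ) : ℂ)) := by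
    rw [hc', map_add, map_mul]
  have e2 : (C (1 / (a + 1)) : Pol m) * C (a + 1) = 1 := by
    rw [← map_mul, one_div_mul_cancel ha1, map_one]
  have hthP : ∑ j, th e j (P j) = Q := by
    have h1 : ∑ j, th e j (P j) = C (1 / (a + 1)) * (∑ j, th e j (R j)
        - C (1 / (D : ℂ)) * ∑ j, th e j (xh e j * Q)) := by
      rw [Finset.mul_sum, ← Finset.sum_sub_distrib, Finset.mul_sum]
      refine Finset.sum_congr rfl (fun j _ => ?_)
      rw [hP]
      simp only
      rw [th_C_mul, th_sub, th_C_mul]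
    rw [h1, sum_th_xh_mul e he hQh, ← hQ0, hQ0Q, e1]
    linear_combination Q * e2
  refine ⟨P, hPh, ?_⟩
  rw [sum_Dop_top he hD, hthP]
  have h3 : ∀ i, C (a + 1) * P i + C (1 / (D : ℂ)) * (xh e i * Q) = R i := by
    intro i
    rw [hP]
    simp only
    linear_combination (R i - C (1 / (D : ℂ)) * (xh e i * Q)) * e2
  rw [Finset.sum_congr rfl (fun i _ => by rw [h3 i]), Finset.sum_eq_single i0]
  · rw [hR, Pi.single_eq_same, th_topP, X_pow_eq_monomial, C_mul_monomial, ← map_neg,
      monomial_mul, hss]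
    congr 1
    rw [neg_mul_neg, mul_one, one_div_mul_cancel hcD]
  · intro j _ hj
    rw [hR, Pi.single_eq_of_ne hj, zero_mul]
  · intro h
    exact absurd (Finset.mem_univ i0) h

/-- The exponent vector of an index of `Cf`. -/
noncomputable def ofIdx {D : ℕ} (t : Fin m → Fin (D + 1)) : Fin m →₀ ℕ :=
  Finsupp.equivFunOnFinite.symm (fun i => ((t i : Fin (D + 1)) : ℕ))

theorem ofIdx_inj {D : ℕ} {t t' : Fin m → Fin (D + 1)} (h : ofIdx t = ofIdx t') : t = t' := by
  funext i
  ext
  have := DFunLike.congr_fun h i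
  simpa [ofIdx] using this

theorem degree_ofIdx {D : ℕ} (t : Fin m → Fin (D + 1)) :
    (ofIdx t).degree = ∑ i, ((t i : Fin (D + 1)) : ℕ) := by
  rw [Finsupp.degree_eq_sum]
  rfl

theorem pol_eq {D : ℕ} (F : Cf m D) : pol F = ∑ t, monomial (ofIdx t) (F t) := rfl

/-- Decomposition of `pol F`. -/
theorem pol_decomp {D : ℕ} {c : Fin m → ℂ} {F : Cf m D} (h : TopF D c (pol F)) :
    pol F = topP D c + ∑ t ∈ Finset.univ.filter
      (fun t : Fin m → Fin (D + 1) => (ofIdx t).degree < D), C (F t) * monomial (ofIdx t) 1 := by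
  classical
  obtain ⟨g, hfg, hg⟩ := h.decomp
  set S : Pol m := ∑ t ∈ Finset.univ.filter
      (fun t : Fin m → Fin (D + 1) => (ofIdx t).degree < D), C (F t) * monomial (ofIdx t) 1
    with hS
  set S' : Pol m := ∑ t ∈ Finset.univ.filter
      (fun t : Fin m → Fin (D + 1) => ¬ (ofIdx t).degree < D), C (F t) * monomial (ofIdx t) 1
    with hS'
  have hsum : pol F = S + S' := by
    rw [pol_eq, hS, hS', Finset.sum_filter_add_sum_filter_not]
    refine Finset.sum_congr rfl (fun t _ => ?_)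
    rw [C_mul_monomial, mul_one]
  have hSle : LeZ S ((D : ℤ) - 1) := by
    refine LeZ.sum _ _ (fun t ht => LeZ.C_mul ?_ _)
    refine (homZ_monomial (ofIdx t) 1).le.mono ?_
    have := (Finset.mem_filter.mp ht).2
    omega
  have hS'0 : ∀ s : Fin m →₀ ℕ, s.degree < D → coeff s S' = 0 := by
    intro s hs
    rw [hS', coeff_sum]
    refine Finset.sum_eq_zero (fun t ht => ?_)
    rw [coeff_C_mul, coeff_monomial, if_neg, mul_zero]
    intro h'
    have h2 := (Finset.mem_filter.mp ht).2
    rw [h'] at h2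
    exact h2 hs
  have : g = S := by
    have h1 : g - S = S' - topP D c := by
      rw [hfg] at hsum
      linear_combination hsum
    have h2 : g - S = 0 := by
      ext s
      rw [coeff_zero]
      by_cases hs : s.degree < D
      · rw [h1, coeff_sub, hS'0 s hs, zero_sub, neg_eq_zero]
        by_contra h3
        have := homZ_topP D c s h3
        omega
      · by_contra h3
        have := (hg.sub hSle) s h3
        omega
    exact sub_eq_zero.mp h2
  rw [hfg, this]

theorem exists_red_mono {e : Fin m → ℕ} (he : ∀ i, e i ≤ 1) {D : ℕ} (hD : 2 ≤ D)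
    {c : Fin m → ℂ} (hc : ∀ i, c i ≠ 0) {a : ℂ} (ha : IrrC a) (n : ℕ)
    (ih : ∀ P : Pol m, LeZ P ((n : ℤ) - 1) →
      ∃ r : BoxT D e → MvPolynomial (Fin m → Fin (D + 1)) ℂ,
        ∀ F : Cf m D, TopF D c (pol F) → ∀ y ∈ Zs e a (pol F),
          y P = ∑ b, eval F (r b) * y (mon b))
    (s : Fin m →₀ ℕ) (hs : s.degree ≤ n) :
    ∃ r : BoxT D e → MvPolynomial (Fin m → Fin (D + 1)) ℂ,
      ∀ F : Cf m D, TopF D c (pol F) → ∀ y ∈ Zs e a (pol F),
        y (monomial s 1) = ∑ b, eval F (r b) * y (mon b) := by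
  classical
  by_cases hbox : ∀ i, s i < D - 1 + e i
  · refine ⟨Pi.single (fun i => ⟨s i, hbox i⟩) 1, ?_⟩
    intro F _ y _
    rw [Finset.sum_eq_single (fun i => (⟨s i, hbox i⟩ : Fin (D - 1 + e i)))]
    · rw [Pi.single_eq_same, (eval F).map_one, one_mul]
      congr 2
      ext i
      simp
    · intro b _ hb
      rw [Pi.single_eq_of_ne hb, map_zero, zero_mul]
    · intro h
      exact absurd (Finset.mem_univ _) h
  · push Not at hbox
    obtain ⟨i0, hi0⟩ := hbox
    obtain ⟨P, hPh, hP⟩ := mono_top he (by omega) hc ha s i0 hi0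
    have hlow : ∀ t : Fin m → Fin (D + 1), (ofIdx t).degree < D →
        LeZ (∑ i, Dop e a (monomial (ofIdx t) 1) i (P i)) ((n : ℤ) - 1) := by
      intro t ht
      refine LeZ.sum _ _ (fun i _ => ?_)
      refine (leZ_Dop a (homZ_monomial (ofIdx t) 1).le (hPh i).le i).mono ?_
      have : ((D - 1 + e i : ℕ) : ℤ) = (D : ℤ) - 1 + e i := by
        have : 1 ≤ D := by omega
        push_cast [Nat.cast_sub this]
        ring
      rw [this]
      have h1 : ((s.degree : ℕ) : ℤ) ≤ n := by exact_mod_cast hs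
      have h2 : (((ofIdx t).degree : ℕ) : ℤ) < D := by exact_mod_cast ht
      linarith
    choose! r hr using fun t ht => ih _ (hlow t ht)
    refine ⟨fun b => -∑ t ∈ Finset.univ.filter
      (fun t : Fin m → Fin (D + 1) => (ofIdx t).degree < D), X t * r t b, ?_⟩
    intro F hF y hy
    have hdec := pol_decomp hF
    have h1 : ∑ i, Dop e a (pol F) i (P i) = monomial s 1 + ∑ t ∈ Finset.univ.filter
        (fun t : Fin m → Fin (D + 1) => (ofIdx t).degree < D),
          C (F t) * ∑ i, Dop e a (monomial (ofIdx t) 1) i (P i) := by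
      rw [← hP]
      have h2 : ∀ i, Dop e a (pol F) i (P i) = Dop e a (topP D c) i (P i)
          + ∑ t ∈ Finset.univ.filter
            (fun t : Fin m → Fin (D + 1) => (ofIdx t).degree < D),
            C (F t) * Dop e a (monomial (ofIdx t) 1) i (P i) := by
        intro i
        conv_lhs => rw [hdec]
        rw [Dop_add_left]
        congr 1
        have h3 : ∀ T : Finset (Fin m → Fin (D + 1)),
            Dop e a (∑ t ∈ T, C (F t) * monomial (ofIdx t) 1) i (P i)
            = ∑ t ∈ T, C (F t) * Dop e a (monomial (ofIdx t) 1) i (P i) := by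
          intro T
          induction T using Finset.induction_on with
          | empty => simp [Dop, th_zero]
          | insert t T ht ihT =>
            rw [Finset.sum_insert ht, Finset.sum_insert ht, Dop_add_left, Dop_C_mul_left, ihT]
        exact h3 _
      rw [Finset.sum_congr rfl (fun i _ => h2 i), Finset.sum_add_distrib]
      congr 1
      rw [Finset.sum_comm]
      refine Finset.sum_congr rfl (fun t _ => ?_)
      rw [Finset.mul_sum]
    have h4 := congrArg y h1
    rw [map_sum, Finset.sum_eq_zero (fun i _ => hy i (P i)), map_add, map_sum] at h4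
    have h5 : y (monomial s 1) = -∑ t ∈ Finset.univ.filter
        (fun t : Fin m → Fin (D + 1) => (ofIdx t).degree < D),
          F t * y (∑ i, Dop e a (monomial (ofIdx t) 1) i (P i)) := by
      rw [eq_neg_iff_add_eq_zero, h4]
      congr 1
      refine Finset.sum_congr rfl (fun t _ => ?_)
      rw [← smul_eq_C_mul, map_smul, smul_eq_mul]
    rw [h5]
    have h6 : ∀ t ∈ Finset.univ.filter
        (fun t : Fin m → Fin (D + 1) => (ofIdx t).degree < D),
        F t * y (∑ i, Dop e a (monomial (ofIdx t) 1) i (P i))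
        = ∑ b, F t * (eval F (r t b) * y (mon b)) := by
      intro t ht
      rw [hr t (Finset.mem_filter.mp ht).2 F hF y hy, Finset.mul_sum]
    rw [Finset.sum_congr rfl h6, Finset.sum_comm, ← Finset.sum_neg_distrib]
    refine Finset.sum_congr rfl (fun b _ => ?_)
    rw [map_neg, map_sum, neg_mul, Finset.sum_mul]
    congr 1
    refine Finset.sum_congr rfl (fun t _ => ?_)
    rw [map_mul, eval_X]
    ring

theorem exists_red {e : Fin m → ℕ} (he : ∀ i, e i ≤ 1) {D : ℕ} (hD : 2 ≤ D)
    {c : Fin m → ℂ} (hc : ∀ i, c i ≠ 0) {a : ℂ} (ha : IrrC a) :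
    ∀ n : ℕ, ∀ P : Pol m, LeZ P ((n : ℤ) - 1) →
      ∃ r : BoxT D e → MvPolynomial (Fin m → Fin (D + 1)) ℂ,
        ∀ F : Cf m D, TopF D c (pol F) → ∀ y ∈ Zs e a (pol F),
          y P = ∑ b, eval F (r b) * y (mon b) := by
  intro n
  induction n with
  | zero =>
    intro P hP
    refine ⟨0, ?_⟩
    intro F _ y _
    rw [hP.eq_zero (by simp)]
    simp
  | succ n ih =>
    intro P hP
    have h1 : ∀ s ∈ P.support, ∃ r : BoxT D e → MvPolynomial (Fin m → Fin (D + 1)) ℂ,
        ∀ F : Cf m D, TopF D c (pol F) → ∀ y ∈ Zs e a (pol F),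
          y (monomial s 1) = ∑ b, eval F (r b) * y (mon b) := by
      intro s hs
      refine exists_red_mono he hD hc ha n ih s ?_
      have := hP s (mem_support_iff.mp hs)
      push_cast at this
      omega
    choose! r hr using h1
    refine ⟨fun b => ∑ s ∈ P.support, C (coeff s P) * r s b, ?_⟩
    intro F hF y hy
    conv_lhs => rw [P.as_sum]
    rw [map_sum]
    have h2 : ∀ s ∈ P.support, y (monomial s (coeff s P))
        = ∑ b, coeff s P * (eval F (r s b) * y (mon b)) := by
      intro s hs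
      have h3 : (monomial s (coeff s P) : Pol m) = coeff s P • monomial s 1 := by
        rw [smul_monomial, smul_eq_mul, mul_one]
      rw [h3, map_smul, smul_eq_mul, hr s hs F hF y hy, Finset.mul_sum]
    rw [Finset.sum_congr rfl h2, Finset.sum_comm]
    refine Finset.sum_congr rfl (fun b _ => ?_)
    rw [map_sum, Finset.sum_mul]
    refine Finset.sum_congr rfl (fun s _ => ?_)
    rw [map_mul, eval_C]
    ring

/-- The box coefficients of the reduction of a monomial (junk value `0` when the hypotheses on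
`e`, `D`, `c`, `a` fail). -/
theorem exists_redMono {D : ℕ} (e : Fin m → ℕ) (a : ℂ) (c : Fin m → ℂ) (s : Fin m →₀ ℕ) :
    ∃ r : BoxT D e → MvPolynomial (Fin m → Fin (D + 1)) ℂ,
      (∀ i, e i ≤ 1) → 2 ≤ D → (∀ i, c i ≠ 0) → IrrC a →
      ∀ F : Cf m D, TopF D c (pol F) → ∀ y ∈ Zs e a (pol F),
        y (monomial s 1) = ∑ b, eval F (r b) * y (mon b) := by
  classical
  by_cases h : (∀ i, e i ≤ 1) ∧ 2 ≤ D ∧ (∀ i, c i ≠ 0) ∧ IrrC a
  · obtain ⟨r, hr⟩ := exists_red h.1 h.2.1 h.2.2.1 h.2.2.2 (s.degree + 1) (monomial s 1) (by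
      refine (homZ_monomial s 1).le.mono ?_
      push_cast
      omega)
    exact ⟨r, fun _ _ _ _ => hr⟩
  · refine ⟨0, fun h1 h2 h3 h4 => absurd ⟨h1, h2, h3, h4⟩ h⟩

/-- The reduction of a polynomial to the box: coefficients polynomial in the coefficient vector
of `f`. -/
noncomputable def red {D : ℕ} (e : Fin m → ℕ) (a : ℂ) (c : Fin m → ℂ) :
    Pol m →ₗ[ℂ] (BoxT D e → MvPolynomial (Fin m → Fin (D + 1)) ℂ) :=
  (basisMonomials (Fin m) ℂ).constr ℂ (fun s => (exists_redMono e a c s).choose)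

theorem red_monomial {D : ℕ} (e : Fin m → ℕ) (a : ℂ) (c : Fin m → ℂ) (s : Fin m →₀ ℕ) :
    red (D := D) e a c (monomial s 1) = (exists_redMono e a c s).choose := by
  have := (basisMonomials (Fin m) ℂ).constr_basis ℂ
    (fun s => (exists_redMono (D := D) e a c s).choose) s
  rw [coe_basisMonomials] at this
  exact this

theorem red_spec {e : Fin m → ℕ} (he : ∀ i, e i ≤ 1) {D : ℕ} (hD : 2 ≤ D)
    {c : Fin m → ℂ} {a : ℂ} (ha : IrrC a) {F : Cf m D} (hF : TopF D c (pol F))
    {y : Fnl m} (hy : y ∈ Zs e a (pol F)) (P : Pol m) :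
    y P = ∑ b, eval F (red e a c P b) * y (mon b) := by
  induction P using MvPolynomial.induction_on' with
  | monomial s r =>
    have h3 : (monomial s r : Pol m) = r • monomial s 1 := by
      rw [smul_monomial, smul_eq_mul, mul_one]
    rw [h3, map_smul, map_smul, red_monomial, smul_eq_mul,
      (exists_redMono e a c s).choose_spec he hD hF.1 ha F hF y hy, Finset.mul_sum]
    refine Finset.sum_congr rfl (fun b _ => ?_)
    rw [Pi.smul_apply, smul_eval]
    ring
  | add P Q hP hQ =>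
    rw [map_add, map_add, hP, hQ, ← Finset.sum_add_distrib]
    refine Finset.sum_congr rfl (fun b _ => ?_)
    rw [Pi.add_apply, map_add]
    ring

theorem topF_pol_coeff {D : ℕ} {c : Fin m → ℂ} {f : Pol m} (h : TopF D c f) :
    ∃ F : Cf m D, pol F = f := by
  classical
  obtain ⟨g, hfg, hg⟩ := h.decomp
  refine ⟨fun t => coeff (ofIdx t) f, ?_⟩
  have hle : LeZ f D := by
    rw [hfg]
    exact (homZ_topP D c).le.add (hg.mono (by omega))
  ext s
  rw [pol_eq, coeff_sum]
  by_cases hs : ∀ i, s i < D + 1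
  · have h1 : ofIdx (fun i => (⟨s i, hs i⟩ : Fin (D + 1))) = s := by
      ext i
      simp [ofIdx]
    rw [Finset.sum_eq_single (fun i => (⟨s i, hs i⟩ : Fin (D + 1)))]
    · rw [h1, coeff_monomial, if_pos rfl]
    · intro t _ ht
      rw [coeff_monomial, if_neg]
      intro h2
      exact ht (ofIdx_inj (h2.trans h1.symm))
    · intro h2
      exact absurd (Finset.mem_univ _) h2
  · push Not at hs
    obtain ⟨i, hi⟩ := hs
    have h1 : coeff s f = 0 := by
      by_contra h2
      have h3 := hle s h2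
      have h4 : s i ≤ s.degree := by
        rw [Finsupp.degree_eq_sum]
        exact Finset.single_le_sum (fun _ _ => Nat.zero_le _) (Finset.mem_univ i)
      omega
    rw [h1]
    refine Finset.sum_eq_zero (fun t _ => ?_)
    rw [coeff_monomial, if_neg]
    intro h2
    have := DFunLike.congr_fun h2 i
    simp only [ofIdx, Finsupp.equivFunOnFinite_symm_apply_apply] at this
    have := (t i).2
    omega

theorem box_inj {e : Fin m → ℕ} (he : ∀ i, e i ≤ 1) {D : ℕ} (hD : 2 ≤ D) {c : Fin m → ℂ}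
    {f : Pol m} (hf : TopF D c f) {a : ℂ} (ha : IrrC a) {y : Fnl m} (hy : y ∈ Zs e a f)
    (h : ∀ b : BoxT D e, y (mon b) = 0) : y = 0 := by
  obtain ⟨F, rfl⟩ := topF_pol_coeff hf
  refine LinearMap.ext (fun P => ?_)
  rw [red_spec he hD ha hf hy P]
  simp [h]

/-- **Section 2.1**: box values are coordinates on `Zs`. -/
theorem box_bijective {e : Fin m → ℕ} (he : ∀ i, e i ≤ 1) {D : ℕ} (hD : 2 ≤ D) {c : Fin m → ℂ}
    {f : Pol m} (hf : TopF D c f) {a : ℂ} (ha : IrrC a) :
    Function.Bijective (fun (y : Zs e a f) (b : BoxT D e) => y.1 (mon b)) := by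
  constructor
  · intro y z hyz
    have h1 : y.1 - z.1 = 0 := by
      refine box_inj he hD hf ha ((Zs e a f).sub_mem y.2 z.2) (fun b => ?_)
      have := congrFun hyz b
      simp only at this
      rw [LinearMap.sub_apply, this, sub_self]
    exact Subtype.ext (sub_eq_zero.mp h1)
  · intro v
    obtain ⟨y, hy, hyv⟩ := box_surj he hD hf ha v
    exact ⟨⟨y, hy⟩, funext hyv⟩

/-- The box coordinates. -/
noncomputable def boxEquiv {e : Fin m → ℕ} (he : ∀ i, e i ≤ 1) {D : ℕ} (hD : 2 ≤ D)
    {c : Fin m → ℂ} {f : Pol m} (hf : TopF D c f) {a : ℂ} (ha : IrrC a) :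
    Zs e a f ≃ₗ[ℂ] (BoxT D e → ℂ) :=
  LinearEquiv.ofBijective
    { toFun := fun (y : Zs e a f) (b : BoxT D e) => y.1 (mon b)
      map_add' := fun _ _ => rfl
      map_smul' := fun _ _ => rfl } (box_bijective he hD hf ha)

theorem boxEquiv_apply {e : Fin m → ℕ} (he : ∀ i, e i ≤ 1) {D : ℕ} (hD : 2 ≤ D)
    {c : Fin m → ℂ} {f : Pol m} (hf : TopF D c f) {a : ℂ} (ha : IrrC a) (y : Zs e a f)
    (b : BoxT D e) : boxEquiv he hD hf ha y b = y.1 (mon b) := rfl

end Pool.Agent.QC
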