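import Pool.Agent.QC.FOp

/-!
# MP_7c50a9_lc, section 2.1: lifting the syzygies of the top symbol
-/

namespace Pool.Agent.QC

open MvPolynomial

variable {m : ℕ}

/-- `a` is irrational (as a complex number). -/
def IrrC (a : ℂ) : Prop := ∀ p q : ℤ, q ≠ 0 → (q : ℂ) * a ≠ p

theorem IrrC.sub_one {a : ℂ} (ha : IrrC a) : IrrC (a - 1) := by
  intro p q hq h
  refine ha (p + q) q hq ?_
  push_cast
  linear_combination h

theorem IrrC.add_one {a : ℂ} (ha : IrrC a) : IrrC (a + 1) := by
  intro p q hq h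
  refine ha (p - q) q hq ?_
  push_cast
  linear_combination h

theorem IrrC.ne_int {a : ℂ} (ha : IrrC a) (p : ℤ) : a ≠ p := by
  have := ha p 1 one_ne_zero
  simpa using this

theorem IrrC.ne_zero {a : ℂ} (ha : IrrC a) : a ≠ 0 := by
  simpa using ha.ne_int 0

theorem IrrC.mul_add_ne {a : ℂ} (ha : IrrC a) {D : ℕ} (hD : 1 ≤ D) (p : ℤ) :
    a * D + p ≠ 0 := by
  intro h
  refine ha (-p) D (by omega) ?_
  push_cast
  linear_combination h

theorem n0_int (e : Fin m → ℕ) : ∃ z : ℤ, n0 e = z := by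
  refine ⟨∑ i, ((1 : ℤ) - e i), ?_⟩
  unfold n0
  push_cast
  rfl

/-- The top form `- sum c_i x_i ^ D`. -/
noncomputable def topP (D : ℕ) (c : Fin m → ℂ) : Pol m := -∑ i, C (c i) * X i ^ D

theorem homZ_topP (D : ℕ) (c : Fin m → ℂ) : HomZ (topP D c) D :=
  (HomZ.sum _ _ (fun i _ => (homZ_X_pow i D).C_mul (c i))).neg

theorem th_topP {D : ℕ} (c : Fin m → ℂ) (e : Fin m → ℕ) (i : Fin m) :
    th e i (topP D c) = -(C (c i * D) * X i ^ (D - 1 + e i)) := by
  classical
  unfold topP
  rw [th_neg, th_sum, Finset.sum_eq_single i]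
  · rw [th_C_mul, th_X_pow_self, map_mul, pow_add]
    ring
  · intro j _ hj
    rw [th_C_mul, th_X_pow_of_ne e (Ne.symm hj), mul_zero]
  · intro h
    exact absurd (Finset.mem_univ i) h

theorem sum_antisymm_mul {R : Type*} [CommRing R] [NoZeroDivisors R] [CharZero R]
    (K S : Fin m → Fin m → R) (hK : ∀ i j, K i j = -K j i) (hS : ∀ i j, S i j = S j i) :
    ∑ i, ∑ j, K i j * S i j = 0 := by
  have h2 : ∑ i, ∑ j, K i j * S i j = -∑ i, ∑ j, K i j * S i j := by
    conv_lhs => rw [Finset.sum_comm]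
    rw [← Finset.sum_neg_distrib]
    refine Finset.sum_congr rfl (fun j _ => ?_)
    rw [← Finset.sum_neg_distrib]
    refine Finset.sum_congr rfl (fun i _ => ?_)
    rw [hK i j, hS i j]
    ring
  exact self_eq_neg.mp h2

theorem sum_th_th_antisymm (e : Fin m → ℕ) (K : Fin m → Fin m → Pol m)
    (hK : ∀ i j, K i j = -K j i) : ∑ j, ∑ i, th e j (th e i (K i j)) = 0 := by
  have h2 : ∑ j, ∑ i, th e j (th e i (K i j)) = -∑ j, ∑ i, th e j (th e i (K i j)) := by
    conv_lhs => rw [Finset.sum_comm]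
    rw [← Finset.sum_neg_distrib]
    refine Finset.sum_congr rfl (fun i _ => ?_)
    rw [← Finset.sum_neg_distrib]
    refine Finset.sum_congr rfl (fun j _ => ?_)
    rw [th_comm e j i, hK i j, th_neg, th_neg]
  exact self_eq_neg.mp h2

/-- **Lifting of syzygies.** -/
theorem lift_syz {e : Fin m → ℕ} (he : ∀ i, e i ≤ 1) {D : ℕ} (hD : 1 ≤ D) {c : Fin m → ℂ}
    (hc : ∀ i, c i ≠ 0) {a : ℂ} (ha : IrrC a) (d : ℤ) (P : Fin m → Pol m)
    (hP : ∀ i, HomZ (P i) (d - ((D - 1 + e i : ℕ) : ℤ)))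
    (h : ∑ i, Dop e a (topP D c) i (P i) = 0) :
    ∃ K : Fin m → Fin m → Pol m, (∀ i j, K i j = -K j i) ∧
      (∀ i j, HomZ (K i j) (d - ((D - 1 + e i : ℕ) : ℤ) - ((D - 1 + e j : ℕ) : ℤ))) ∧
      ∀ i, P i = ∑ j, Dop e (a + 1) (topP D c) j (K i j) := by
  classical
  have hD0 : (D : ℂ) ≠ 0 := by
    have : D ≠ 0 := by omega
    exact_mod_cast this
  have hMi : ∀ i, ((D - 1 + e i : ℕ) : ℤ) = (D : ℤ) - 1 + e i := by
    intro i
    push_cast [Nat.cast_sub hD]
    ring
  set Φ : Pol m := topP D c with hΦ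
  have hΦh : HomZ Φ D := homZ_topP D c
  have hE : ∑ i, xh e i * th e i Φ = C (D : ℂ) * Φ := by
    have := euler_xh e he hΦh
    simpa using this
  set Q : Pol m := ∑ i, th e i (P i) with hQ
  have hQh : HomZ Q (d - D) := by
    refine HomZ.sum _ _ (fun i _ => ?_)
    have := (hP i).th e i
    rw [hMi] at this
    rw [show d - (D : ℤ) = d - ((D : ℤ) - 1 + e i) - 1 + e i by ring]
    exact this
  set R : Fin m → Pol m := fun i => C (a + 1) * P i + C (1 / (D : ℂ)) * (xh e i * Q) with hR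
  have hRh : ∀ i, HomZ (R i) (d - ((D - 1 + e i : ℕ) : ℤ)) := by
    intro i
    refine ((hP i).C_mul (a + 1)).add (HomZ.C_mul ?_ _)
    have := (homZ_xh e he i).mul hQh
    rw [show d - ((D - 1 + e i : ℕ) : ℤ) = 1 - (e i : ℤ) + (d - D) by rw [hMi]; ring]
    exact this
  have hR0 : ∑ i, R i * th e i Φ = 0 := by
    have h1 : ∑ i, R i * th e i Φ
        = ∑ i, C (a + 1) * th e i Φ * P i + C (1 / (D : ℂ)) * Q * ∑ i, xh e i * th e i Φ := by
      rw [Finset.mul_sum, ← Finset.sum_add_distrib]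
      refine Finset.sum_congr rfl (fun i _ => ?_)
      rw [hR]
      ring
    have h2 : (C (1 / (D : ℂ)) : Pol m) * C (D : ℂ) = 1 := by
      rw [← map_mul, one_div, inv_mul_cancel₀ hD0, map_one]
    have h3 : ∑ i, Dop e a Φ i (P i) = ∑ i, C (a + 1) * th e i Φ * P i + Φ * Q := by
      rw [hQ, Finset.mul_sum, ← Finset.sum_add_distrib]
      rfl
    rw [h1, hE]
    rw [h3] at h
    linear_combination h + Q * Φ * h2
  -- Koszul
  obtain ⟨k, hk, hkh, hkR⟩ := koszul_hom (fun i => D - 1 + e i) d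
    (fun i => C (-(c i * D)) * R i) (fun i => (hRh i).C_mul _) (by
      rw [← hR0]
      refine Finset.sum_congr rfl (fun i _ => ?_)
      rw [hΦ, th_topP, map_neg]
      ring)
  have hcD : ∀ i, c i * D ≠ 0 := fun i => mul_ne_zero (hc i) hD0
  set K : Fin m → Fin m → Pol m := fun i j => C (1 / ((c i * D) * (c j * D))) * k i j with hKdef
  have hK : ∀ i j, K i j = -K j i := by
    intro i j
    rw [hKdef]
    simp only
    rw [hk i j, mul_comm (c i * (D : ℂ))]
    ring
  have hKh : ∀ i j, HomZ (K i j) (d - ((D - 1 + e i : ℕ) : ℤ) - ((D - 1 + e j : ℕ) : ℤ)) :=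
    fun i j => (hkh i j).C_mul _
  have hRK : ∀ i, R i = ∑ j, K i j * th e j Φ := by
    intro i
    have h1 : C (1 / (-(c i * D))) * (C (-(c i * D)) * R i) = R i := by
      rw [← mul_assoc, ← map_mul, one_div, inv_mul_cancel₀ (neg_ne_zero.mpr (hcD i)), map_one,
        one_mul]
    rw [← h1, hkR i, Finset.mul_sum]
    refine Finset.sum_congr rfl (fun j _ => ?_)
    rw [hΦ, th_topP, hKdef]
    simp only
    have h2 : (C (1 / (-(c i * D))) : Pol m)
        = -(C (1 / ((c i * D) * (c j * D))) * C (c j * D)) := by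
      rw [← map_mul, ← map_neg]
      congr 1
      have := hc i
      have := hc j
      field_simp
    rw [h2]
    ring
  -- the constant
  set c0 : ℂ := (a + 1) + (n0 e + ((d - D : ℤ) : ℂ)) / D with hc0
  have hc0D : c0 * D = (a + 1) * D + n0 e + ((d - D : ℤ) : ℂ) := by
    rw [hc0]
    field_simp
    ring
  have hc0D0 : c0 * D ≠ 0 := by
    obtain ⟨z, hz⟩ := n0_int e
    rw [hc0D, hz]
    have := ha.add_one.mul_add_ne hD (z + (d - D))
    push_cast at this ⊢
    rwa [← add_assoc] at this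
  have hc00 : c0 ≠ 0 := left_ne_zero_of_mul hc0D0
  set L : Fin m → Pol m := fun j => ∑ i, th e i (K i j) with hL
  have hLh : ∀ j, HomZ (L j) (d - D - ((D - 1 + e j : ℕ) : ℤ)) := by
    intro j
    refine HomZ.sum _ _ (fun i _ => ?_)
    have := (hKh i j).th e i
    rw [show d - (D : ℤ) - ((D - 1 + e j : ℕ) : ℤ)
      = d - ((D - 1 + e i : ℕ) : ℤ) - ((D - 1 + e j : ℕ) : ℤ) - 1 + e i by rw [hMi i]; ring]
    exact this
  have hB : C c0 * Q = ∑ j, L j * th e j Φ := by
    have h1 : ∑ i, th e i (R i) = C c0 * Q := by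
      have h2 : ∑ i, th e i (R i) = C (a + 1) * Q + C (1 / (D : ℂ)) * ∑ i, th e i (xh e i * Q) := by
        rw [hQ, Finset.mul_sum, Finset.mul_sum, ← Finset.sum_add_distrib]
        refine Finset.sum_congr rfl (fun i _ => ?_)
        rw [hR]
        simp only
        rw [th_add, th_C_mul, th_C_mul]
      have h3 : c0 = (a + 1) + (1 / (D : ℂ)) * (n0 e + ((d - D : ℤ) : ℂ)) := by
        rw [hc0]
        ring
      have h4 : (C c0 : Pol m) = C (a + 1) + C (1 / (D : ℂ)) * C (n0 e + ((d - D : ℤ) : ℂ)) := by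
        rw [h3, ← map_mul, ← map_add]
      rw [h2, sum_th_xh_mul e he hQh, h4]
      ring
    have h3 : ∑ i, th e i (R i)
        = ∑ j, L j * th e j Φ + ∑ i, ∑ j, K i j * th e i (th e j Φ) := by
      have h4 : ∀ i, th e i (R i) = ∑ j, th e i (K i j) * th e j Φ
          + ∑ j, K i j * th e i (th e j Φ) := by
        intro i
        rw [hRK i, th_sum, ← Finset.sum_add_distrib]
        exact Finset.sum_congr rfl (fun j _ => th_mul e i _ _)
      rw [Finset.sum_congr rfl (fun i _ => h4 i), Finset.sum_add_distrib]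
      congr 1
      rw [Finset.sum_comm]
      refine Finset.sum_congr rfl (fun j _ => ?_)
      rw [hL, Finset.sum_mul]
    rw [sum_antisymm_mul K (fun i j => th e i (th e j Φ)) hK (fun i j => th_comm e i j Φ),
      add_zero] at h3
    rw [← h1, h3]
  have hCL : ∀ i, ∑ j, th e j (K i j) = -L i := by
    intro i
    rw [hL, ← Finset.sum_neg_distrib]
    refine Finset.sum_congr rfl (fun j _ => ?_)
    rw [hK i j, th_neg]
  have hDL0 : ∑ j, th e j (L j) = 0 := by
    rw [← sum_th_th_antisymm e K hK]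
    refine Finset.sum_congr rfl (fun j _ => ?_)
    rw [hL, th_sum]
  have hDL : ∀ i, ∑ j, th e j (xh e i * L j) = C ((1 : ℂ) - e i) * L i := by
    intro i
    have h1 : ∑ j, th e j (xh e i * L j)
        = ∑ j, th e j (xh e i) * L j + xh e i * ∑ j, th e j (L j) := by
      rw [Finset.mul_sum, ← Finset.sum_add_distrib]
      exact Finset.sum_congr rfl (fun j _ => th_mul e j _ _)
    rw [h1, hDL0, mul_zero, add_zero, Finset.sum_eq_single i]
    · rw [th_xh_self e he]
    · intro j _ hj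
      rw [th_xh_of_ne e hj, zero_mul]
    · intro h
      exact absurd (Finset.mem_univ i) h
  have hEL : ∀ i, ∑ j, th e j (xh e j * L i)
      = C (n0 e + ((d - D - ((D - 1 + e i : ℕ) : ℤ) : ℤ) : ℂ)) * L i :=
    fun i => sum_th_xh_mul e he (hLh i)
  -- the lifted matrix
  have ha1 : a + 1 ≠ 0 := ha.add_one.ne_zero
  have ha2 : a + 2 ≠ 0 := by
    have := ha.add_one.add_one.ne_zero
    rwa [add_assoc, one_add_one_eq_two] at this
  set NK : Fin m → Fin m → Pol m := fun i j =>
    K i j - C (1 / (c0 * D)) * (xh e i * L j - xh e j * L i) with hNK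
  refine ⟨fun i j => C (1 / ((a + 1) * (a + 2))) * NK i j, ?_, ?_, ?_⟩
  · intro i j
    rw [hNK]
    simp only
    rw [hK i j]
    ring
  · intro i j
    refine HomZ.C_mul ((hKh i j).sub (HomZ.C_mul (HomZ.sub ?_ ?_) _)) _
    · have := (homZ_xh e he i).mul (hLh j)
      rw [show d - ((D - 1 + e i : ℕ) : ℤ) - ((D - 1 + e j : ℕ) : ℤ)
        = 1 - (e i : ℤ) + (d - D - ((D - 1 + e j : ℕ) : ℤ)) by rw [hMi i]; ring]
      exact this
    · have := (homZ_xh e he j).mul (hLh i)
      rw [show d - ((D - 1 + e i : ℕ) : ℤ) - ((D - 1 + e j : ℕ) : ℤ)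
        = 1 - (e j : ℤ) + (d - D - ((D - 1 + e i : ℕ) : ℤ)) by rw [hMi j]; ring]
      exact this
  · intro i
    have hS1 : ∑ j, th e j Φ * NK i j = R i - C (1 / (c0 * D)) *
        (xh e i * (C c0 * Q) - L i * (C (D : ℂ) * Φ)) := by
      rw [hB, ← hE]
      conv_rhs => rw [hRK i]
      rw [Finset.mul_sum, Finset.mul_sum, ← Finset.sum_sub_distrib, Finset.mul_sum,
        ← Finset.sum_sub_distrib]
      refine Finset.sum_congr rfl (fun j _ => ?_)
      rw [hNK]
      ring
    have hS2 : ∑ j, th e j (NK i j) = -L i - C (1 / (c0 * D)) *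
        (C ((1 : ℂ) - e i) * L i -
          C (n0 e + ((d - D - ((D - 1 + e i : ℕ) : ℤ) : ℤ) : ℂ)) * L i) := by
      rw [← hCL i, ← hDL i, ← hEL i, ← Finset.sum_sub_distrib, Finset.mul_sum,
        ← Finset.sum_sub_distrib]
      refine Finset.sum_congr rfl (fun j _ => ?_)
      rw [hNK]
      simp only
      rw [th_sub, th_C_mul e j (1 / (c0 * D)), th_sub]
    have hfin : ∑ j, Dop e (a + 1) Φ j (C (1 / ((a + 1) * (a + 2))) * NK i j)
        = C (1 / ((a + 1) * (a + 2))) *
          (C (a + 2) * ∑ j, th e j Φ * NK i j + Φ * ∑ j, th e j (NK i j)) := by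
      rw [Finset.mul_sum, Finset.mul_sum, ← Finset.sum_add_distrib, Finset.mul_sum]
      refine Finset.sum_congr rfl (fun j _ => ?_)
      rw [Dop_C_mul]
      simp only [Dop]
      rw [show a + 1 + 1 = a + 2 by ring]
      ring
    rw [hfin, hS1, hS2, hR]
    simp only
    -- now an identity with constants
    have e1 : (C (1 / (c0 * D)) : Pol m) * C c0 = C (1 / (D : ℂ)) := by
      rw [← map_mul]
      congr 1
      field_simp
    have e2 : (C (1 / (c0 * D)) : Pol m) * C (D : ℂ) = C (1 / c0) := by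
      rw [← map_mul]
      congr 1
      field_simp
    have e3 : (C (a + 2) : Pol m) * C (1 / c0) + (-1 - C (1 / (c0 * D)) * (C ((1 : ℂ) - e i) -
        C (n0 e + ((d - D - ((D - 1 + e i : ℕ) : ℤ) : ℤ) : ℂ)))) = 0 := by
      have : (-1 : Pol m) = C (-1 : ℂ) := by simp
      rw [this, ← map_sub, ← map_mul, ← map_mul, ← map_sub, ← map_add, ← map_zero (C : ℂ →+* Pol m)]
      congr 1
      rw [hMi i]
      push_cast
      have h5 : (a + 2) * (1 / c0) = (a + 2) * D / (c0 * D) := by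
        field_simp
      have h6 : (-1 : ℂ) = -(c0 * D) / (c0 * D) := by
        field_simp
      rw [h5, h6, hc0D]
      push_cast
      have h7 : (a + 1) * (D : ℂ) + n0 e + ((d : ℂ) - D) ≠ 0 := by
        rw [hc0D] at hc0D0
        push_cast at hc0D0
        exact hc0D0
      field_simp
      ring
    have e4 : (C (1 / ((a + 1) * (a + 2))) : Pol m) * (C (a + 2) * C (a + 1)) = 1 := by
      rw [← map_mul, ← map_mul, ← map_one (C : ℂ →+* Pol m)]
      congr 1
      field_simp
    linear_combination (-P i) * e4 +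
      C (1 / ((a + 1) * (a + 2))) * C (a + 2) * xh e i * Q * e1
      - C (1 / ((a + 1) * (a + 2))) * C (a + 2) * L i * Φ * e2
      - C (1 / ((a + 1) * (a + 2))) * L i * Φ * e3

end Pool.Agent.QC
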