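import Pool.Agent.QC.FMu
import Pool.Agent.QC.LS.Defs

/-!
# MP_7c50a9_lc, 2.4: y-part and slices

`Fy.sol_ymap`: the y-part of a solution of the family `(q, z) ↦ f_q (x', x_n + z)` (pattern `eV`) is
a solution of the family `f_q` (pattern `e0`) and locally independent of `z`.
`Fy.sol_sl`: a solution for the slices gives a solution of the family with pattern `eV`.
-/

set_option autoImplicit false

namespace Pool.Agent.QC.Fy

open MvPolynomial Filter Topology Set

variable {n : ℕ}

/-! ## Shift and slice -/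

theorem shift_C (z c : ℂ) : shift (n := n) z (C c) = C c := by
  simp [shift]

theorem shift_X_cast (z : ℂ) (i : Fin n) : shift z (X i.castSucc) = X i.castSucc := by
  simp [shift]

theorem shift_X_last (z : ℂ) : shift z (X (Fin.last n)) = X (Fin.last n) + C z := by
  simp [shift]

theorem slice_C (c : ℂ) : slice (n := n) (C c) = C c := by
  simp [slice]

theorem slice_X_cast (i : Fin n) : slice (X i.castSucc) = X i := by
  simp [slice]

theorem slice_X_last : slice (X (Fin.last n)) = 0 := by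
  simp [slice]

theorem pderiv_shift (z : ℂ) (i : Fin (n + 1)) (P : Pol (n + 1)) :
    pderiv i (shift z P) = shift z (pderiv i P) := by
  induction P using MvPolynomial.induction_on with
  | C c => simp
  | add p q hp hq => simp only [map_add, hp, hq]
  | mul_X p j hp =>
    have hX : pderiv i (shift z (X j)) = shift z (pderiv i (X j)) := by
      refine Fin.lastCases ?_ (fun k => ?_) j
      · rw [shift_X_last, map_add, pderiv_C, add_zero]
        by_cases h : (Fin.last n) = i
        · subst h; rw [pderiv_X_self, map_one]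
        · rw [pderiv_X_of_ne h, map_zero]
      · rw [shift_X_cast]
        by_cases h : k.castSucc = i
        · subst h; rw [pderiv_X_self, map_one]
        · rw [pderiv_X_of_ne h, map_zero]
    rw [map_mul, Derivation.leibniz, Derivation.leibniz, map_add, hX, hp]
    simp only [smul_eq_mul, map_mul]

theorem pderiv_slice (i : Fin n) (P : Pol (n + 1)) :
    pderiv i (slice P) = slice (pderiv i.castSucc P) := by
  induction P using MvPolynomial.induction_on with
  | C c => simp
  | add p q hp hq => simp only [map_add, hp, hq]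
  | mul_X p j hp =>
    have hX : pderiv i (slice (X j)) = slice (pderiv i.castSucc (X j)) := by
      refine Fin.lastCases ?_ (fun k => ?_) j
      · rw [slice_X_last, map_zero, pderiv_X_of_ne (Fin.castSucc_lt_last i).ne', map_zero]
      · rw [slice_X_cast]
        by_cases h : k = i
        · subst h; rw [pderiv_X_self, pderiv_X_self, map_one]
        · rw [pderiv_X_of_ne h, pderiv_X_of_ne (fun h' => h (Fin.castSucc_injective n h')),
            map_zero]
    rw [map_mul, Derivation.leibniz, Derivation.leibniz, map_add, hX, hp]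
    simp only [smul_eq_mul, map_mul]

/-! ## The y-part is a functional of the pattern `e0` -/

/-- The y-part. -/
noncomputable def yp (z : ℂ) (J : Fnl (n + 1)) : Fnl (n + 1) :=
  J ∘ₗ LinearMap.mulLeft ℂ (X (Fin.last n)) ∘ₗ (shift z).toLinearMap

theorem yp_apply (z : ℂ) (J : Fnl (n + 1)) (P : Pol (n + 1)) :
    yp z J P = J (X (Fin.last n) * shift z P) := rfl

/-- The slice functional. -/
noncomputable def slf (y : Fnl n) : Fnl (n + 1) := y ∘ₗ slice.toLinearMap

theorem slf_apply (y : Fnl n) (P : Pol (n + 1)) : slf y P = y (slice P) := rfl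

theorem eV_cast (i : Fin n) : eV n i.castSucc = 0 := by
  simp [eV, (Fin.castSucc_lt_last i).ne]

theorem eV_last : eV n (Fin.last n) = 1 := by simp [eV]

theorem shift_Dop_cast (z a : ℂ) (f P : Pol (n + 1)) (i : Fin n) :
    X (Fin.last n) * shift z (Dop (e0 (n + 1)) a f i.castSucc P)
      = Dop (eV n) a (shift z f) i.castSucc (X (Fin.last n) * shift z P) := by
  unfold Dop th
  rw [eV_cast]
  have h1 : pderiv i.castSucc (X (Fin.last n) * shift z P)
      = X (Fin.last n) * shift z (pderiv i.castSucc P) := by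
    rw [Derivation.leibniz, pderiv_X_of_ne (Fin.castSucc_lt_last i).ne', smul_zero,
      add_zero, smul_eq_mul, pderiv_shift]
  rw [h1, pderiv_shift]
  simp only [e0, pow_zero, one_mul, map_add, map_mul, shift_C, map_one]
  ring

theorem shift_Dop_last (z a : ℂ) (f P : Pol (n + 1)) :
    X (Fin.last n) * shift z (Dop (e0 (n + 1)) a f (Fin.last n) P)
      = Dop (eV n) a (shift z f) (Fin.last n) (shift z P) := by
  unfold Dop th
  rw [eV_last, pderiv_shift, pderiv_shift]
  simp only [e0, pow_zero, one_mul, pow_one, map_add, map_mul, shift_C, map_one]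
  ring

theorem yp_mem {z a : ℂ} {f : Pol (n + 1)} {J : Fnl (n + 1)} (hJ : J ∈ Zs (eV n) a (shift z f)) :
    yp z J ∈ Zs (e0 (n + 1)) a f := by
  intro i P
  rw [yp_apply]
  refine Fin.lastCases ?_ (fun k => ?_) i
  · rw [shift_Dop_last]; exact hJ _ _
  · rw [shift_Dop_cast]; exact hJ _ _

theorem yp_low {z a : ℂ} {f : Pol (n + 1)} {J J' : Fnl (n + 1)}
    (h : Low (eV n) a (shift z f) J J') : Low (e0 (n + 1)) a f (yp z J) (yp z J') := by
  refine ⟨yp_mem h.1, fun P => ?_⟩
  rw [yp_apply, yp_apply, ← h.2, map_mul (shift z)]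
  congr 1
  ring

/-! ## Slices -/

theorem slice_Dop_cast (a : ℂ) (f P : Pol (n + 1)) (i : Fin n) :
    slice (Dop (eV n) a f i.castSucc P) = Dop (e0 n) a (slice f) i (slice P) := by
  unfold Dop th
  rw [eV_cast, pderiv_slice, pderiv_slice]
  simp only [e0, pow_zero, one_mul, map_add, map_mul, slice_C, map_one]

theorem slice_Dop_last (a : ℂ) (f P : Pol (n + 1)) :
    slice (Dop (eV n) a f (Fin.last n) P) = 0 := by
  unfold Dop th
  rw [eV_last]
  simp only [pow_one, map_add, map_mul, slice_X_last, zero_mul, mul_zero, add_zero]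

theorem slf_mem {a : ℂ} {f : Pol (n + 1)} {y : Fnl n} (hy : y ∈ Zs (e0 n) a (slice f)) :
    slf y ∈ Zs (eV n) a f := by
  intro i P
  rw [slf_apply]
  refine Fin.lastCases ?_ (fun k => ?_) i
  · rw [slice_Dop_last, map_zero]
  · rw [slice_Dop_cast]; exact hy _ _

theorem slf_low {a : ℂ} {f : Pol (n + 1)} {y y' : Fnl n}
    (h : Low (e0 n) a (slice f) y y') : Low (eV n) a f (slf y) (slf y') := by
  refine ⟨slf_mem h.1, fun P => ?_⟩
  rw [slf_apply, slf_apply, ← h.2, map_mul slice]

/-! ## Derivatives of `z ↦ shift z P` under a functional -/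

theorem hasDeriv_shift {u : ℂ → Fnl (n + 1)} {u' : Fnl (n + 1)}
    (hu : ∀ P, HasDerivAt (fun s => u s P) (u' P) 0) (z w : ℂ) (P : Pol (n + 1)) :
    ∀ Q, HasDerivAt (fun s : ℂ => u s (Q * shift (z + s * w) P))
      (u' (Q * shift z P) + w * u 0 (Q * shift z (pderiv (Fin.last n) P))) 0 := by
  induction P using MvPolynomial.induction_on with
  | C c =>
    intro Q
    have := hu (Q * C c)
    simpa [shift_C] using this
  | add p q hp hq =>
    intro Q
    have := (hp Q).add (hq Q)
    refine (this.congr_deriv ?_).congr_of_eventuallyEq ?_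
    · simp only [map_add, mul_add]; ring
    · exact Eventually.of_forall fun s => by simp only [map_add, mul_add, Pi.add_apply]
  | mul_X p i hp =>
    intro Q
    revert i
    refine Fin.lastCases ?_ (fun j => ?_)
    · have h1 := hp (Q * X (Fin.last n))
      have h2 : HasDerivAt (fun s : ℂ => z + s * w) w 0 := by
        simpa using ((hasDerivAt_id (0 : ℂ)).mul_const w).const_add z
      have h3 := h1.add (h2.mul (hp Q))
      have h4 : ∀ (y : Fnl (n + 1)) (R : Pol (n + 1)) (z' : ℂ),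
          y (Q * shift z' (R * X (Fin.last n)))
            = y (Q * X (Fin.last n) * shift z' R) + z' * y (Q * shift z' R) := by
        intro y R z'
        rw [← smul_eq_mul z', ← map_smul, ← map_add, map_mul (shift z'), shift_X_last]
        congr 1
        rw [smul_eq_C_mul]; ring
      have h7 : pderiv (Fin.last n) (p * X (Fin.last n))
          = p + pderiv (Fin.last n) p * X (Fin.last n) := by
        rw [Derivation.leibniz, pderiv_X_self, smul_eq_mul, smul_eq_mul, mul_one, mul_comm (X _)]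
      refine (h3.congr_deriv ?_).congr_of_eventuallyEq ?_
      · rw [h7, h4, map_add (shift z), mul_add Q, map_add (u 0), h4]
        simp only [zero_mul, add_zero]
        ring
      · exact Eventually.of_forall fun s => h4 (u s) p (z + s * w)
    · have h1 := hp (Q * X j.castSucc)
      have h7 : pderiv (Fin.last n) (p * X j.castSucc)
          = pderiv (Fin.last n) p * X j.castSucc := by
        rw [Derivation.leibniz, pderiv_X_of_ne (Fin.castSucc_lt_last j).ne, smul_zero, zero_add,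
          smul_eq_mul, mul_comm]
      have h8 : ∀ R z', Q * shift z' (R * X j.castSucc) = Q * X j.castSucc * shift z' R := by
        intro R z'
        rw [map_mul, shift_X_cast]; ring
      refine (h1.congr_deriv ?_).congr_of_eventuallyEq ?_
      · rw [h7, h8, h8]
      · refine Eventually.of_forall fun s => ?_
        show u s _ = u s _
        rw [h8]

theorem continuousOn_shift {E : Type*} [TopologicalSpace E] {N : Set (E × ℂ)}
    {y : E × ℂ → Fnl (n + 1)} (hy : ∀ P, ContinuousOn (fun p => y p P) N) (P : Pol (n + 1)) :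
    ∀ Q, ContinuousOn (fun p : E × ℂ => y p (Q * shift p.2 P)) N := by
  induction P using MvPolynomial.induction_on with
  | C c =>
    intro Q
    simpa [shift_C] using hy (Q * C c)
  | add p q hp hq =>
    intro Q
    refine ((hp Q).add (hq Q)).congr fun x _ => ?_
    show y x (Q * shift x.2 (p + q)) = y x (Q * shift x.2 p) + y x (Q * shift x.2 q)
    rw [map_add (shift x.2), mul_add, map_add]
  | mul_X p i hp =>
    intro Q
    revert i
    refine Fin.lastCases ?_ (fun j => ?_)
    · have h2 : ContinuousOn (fun p : E × ℂ => p.2) N := continuous_snd.continuousOn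
      refine ((hp (Q * X (Fin.last n))).add (h2.mul (hp Q))).congr fun x _ => ?_
      show y x (Q * shift x.2 (p * X (Fin.last n)))
        = y x (Q * X (Fin.last n) * shift x.2 p) + x.2 * y x (Q * shift x.2 p)
      rw [← smul_eq_mul x.2, ← map_smul, ← map_add, map_mul (shift x.2), shift_X_last]
      congr 1
      rw [smul_eq_C_mul]; ring
    · refine (hp (Q * X j.castSucc)).congr fun x _ => ?_
      show y x (Q * shift x.2 (p * X j.castSucc)) = y x (Q * X j.castSucc * shift x.2 p)
      rw [map_mul (shift x.2), shift_X_cast]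
      congr 1
      ring

/-! ## Families -/

section Fam

variable {E : Type*} [NormedAddCommGroup E] [NormedSpace ℂ E] {m D : ℕ}

theorem hasDeriv_pol {c : ℂ → Cf m D} {c' : Cf m D} (hc : HasDerivAt c c' 0) (u : Pol m →ₗ[ℂ] ℂ) :
    HasDerivAt (fun s => u (pol (c s))) (u (pol c')) 0 := by
  have h := ((u ∘ₗ polL m D).toContinuousLinearMap.hasFDerivAt (x := c 0)).comp_hasDerivAt 0 hc
  exact h

theorem hasDeriv_line {F : E → Cf m D} {p : E} (hF : DifferentiableAt ℂ F p) (v : E) :
    HasDerivAt (fun s : ℂ => F (p + s • v)) (fderiv ℂ F p v) 0 := by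
  exact hF.hasFDerivAt.hasLineDerivAt v

/-- A functional of `shift (z + s w) (pol (c s))`. -/
theorem hasDeriv_shift_pol {c : ℂ → Cf (n + 1) D} {c' : Cf (n + 1) D} (hc : HasDerivAt c c' 0)
    (z w : ℂ) (u : Fnl (n + 1)) :
    HasDerivAt (fun s : ℂ => u (shift (z + s * w) (pol (c s))))
      (u (shift z (pol c') + C w * shift z (pderiv (Fin.last n) (pol (c 0))))) 0 := by
  have hs : ∀ (k : Cf (n + 1) D) (T : Pol (n + 1) →ₗ[ℂ] ℂ), T (pol k)
      = ∑ d, k d * T (monomial (ofIdx d) 1) := by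
    intro k T
    rw [pol_eq, map_sum]
    refine Finset.sum_congr rfl fun d _ => ?_
    rw [← smul_eq_mul, ← map_smul, smul_monomial, smul_eq_mul, mul_one]
  have h1 : ∀ d : Fin (n + 1) → Fin (D + 1),
      HasDerivAt (fun s : ℂ => u (shift (z + s * w) (monomial (ofIdx d) 1)))
      (w * u (shift z (pderiv (Fin.last n) (monomial (ofIdx d) 1)))) 0 := by
    intro d
    have := hasDeriv_shift (u := fun _ => u) (u' := 0)
      (fun P => by simpa using hasDerivAt_const (0 : ℂ) (u P)) z w (monomial (ofIdx d) 1) 1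
    simpa using this
  have h2 : HasDerivAt (fun s : ℂ => ∑ d, c s d * u (shift (z + s * w) (monomial (ofIdx d) 1)))
      (∑ d, (c' d * u (shift z (monomial (ofIdx d) 1)) +
        c 0 d * (w * u (shift z (pderiv (Fin.last n) (monomial (ofIdx d) 1)))))) 0 := by
    refine HasDerivAt.fun_sum fun d _ => ?_
    have h3 := ((hasDerivAt_pi.1 hc) d).mul (h1 d)
    refine h3.congr_deriv ?_
    simp only [zero_mul, add_zero]
  refine (h2.congr_deriv ?_).congr_of_eventuallyEq ?_
  · rw [Finset.sum_add_distrib, map_add]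
    congr 1
    · exact (hs c' (u ∘ₗ (shift z).toLinearMap)).symm
    · rw [← smul_eq_C_mul, map_smul, smul_eq_mul]
      have h4 : u (shift z (pderiv (Fin.last n) (pol (c 0)))) = ∑ d, c 0 d *
          u (shift z (pderiv (Fin.last n) (monomial (ofIdx d) 1))) :=
        hs (c 0) (u ∘ₗ (shift z).toLinearMap ∘ₗ (pderiv (Fin.last n)).toLinearMap)
      rw [h4, Finset.mul_sum]
      refine Finset.sum_congr rfl fun d _ => ?_
      ring
  · exact Eventually.of_forall fun s => hs (c s) (u ∘ₗ (shift (z + s * w)).toLinearMap)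

theorem pol_fderiv {F : E × ℂ → Cf (n + 1) D} {G : E → Cf (n + 1) D}
    (hF : Differentiable ℂ F) (hG : Differentiable ℂ G)
    (h : ∀ p, pol (F p) = shift p.2 (pol (G p.1))) (p v : E × ℂ) :
    pol (fderiv ℂ F p v) = shift p.2 (pol (fderiv ℂ G p.1 v.1)) +
      C v.2 * shift p.2 (pderiv (Fin.last n) (pol (G p.1))) := by
  ext d
  have h1 := hasDeriv_pol (hasDeriv_line (hF p) v) (lcoeff ℂ d)
  have h2 := hasDeriv_shift_pol (hasDeriv_line (hG p.1) v.1) p.2 v.2 (lcoeff ℂ d)
  have h3 : (fun s : ℂ => (lcoeff ℂ d) (pol (F (p + s • v))))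
      = fun s : ℂ => (lcoeff ℂ d) (shift (p.2 + s * v.2) (pol (G (p.1 + s • v.1)))) := by
    funext s
    rw [h]; rfl
  rw [h3] at h1
  have h4 := h1.unique h2
  simpa using h4

theorem pol_fderiv_slice {F : E → Cf (n + 1) D} {S : E → Cf n D}
    (hF : Differentiable ℂ F) (hS : Differentiable ℂ S)
    (h : ∀ p, pol (S p) = slice (pol (F p))) (p v : E) :
    pol (fderiv ℂ S p v) = slice (pol (fderiv ℂ F p v)) := by
  ext d
  have h1 := hasDeriv_pol (hasDeriv_line (hS p) v) (lcoeff ℂ d)
  have h2 := hasDeriv_pol (hasDeriv_line (hF p) v) (lcoeff ℂ d ∘ₗ slice.toLinearMap)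
  have h3 : (fun s : ℂ => (lcoeff ℂ d) (pol (S (p + s • v))))
      = fun s : ℂ => (lcoeff ℂ d ∘ₗ slice.toLinearMap) (pol (F (p + s • v))) := by
    funext s
    rw [h]; rfl
  rw [h3] at h1
  exact h1.unique h2

/-- The y-part of a solution is a solution. -/
theorem sol_yp {a : ℂ} {F : E × ℂ → Cf (n + 1) D} {G : E → Cf (n + 1) D}
    (hF : Differentiable ℂ F) (hG : Differentiable ℂ G)
    (h : ∀ p, pol (F p) = shift p.2 (pol (G p.1))) {N : Set (E × ℂ)} {y : E × ℂ → Fnl (n + 1)}
    (hy : Sol (eV n) a F N y) :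
    Sol (e0 (n + 1)) a (fun p : E × ℂ => G p.1) N (fun p => yp p.2 (y p)) := by
  refine ⟨fun P => continuousOn_shift hy.1 P (X (Fin.last n)), fun p hp => ?_⟩
  obtain ⟨h1, y', h2, h3⟩ := hy.2 p hp
  rw [h] at h1 h2
  refine ⟨yp_mem h1, yp p.2 y', yp_low h2, fun P v => ?_⟩
  set g : Pol (n + 1) := pol (fderiv ℂ F p v) with hg
  have hfd : fderiv ℂ (fun p : E × ℂ => G p.1) p v = fderiv ℂ G p.1 v.1 := by
    have h4 : HasFDerivAt (fun p : E × ℂ => G p.1)
        ((fderiv ℂ G p.1).comp (ContinuousLinearMap.fst ℂ E ℂ)) p :=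
      (hG p.1).hasFDerivAt.comp p hasFDerivAt_fst
    rw [h4.fderiv]; rfl
  have hu : ∀ Q, HasDerivAt (fun s : ℂ => y (p + s • v) Q)
      ((a • (y' ∘ₗ LinearMap.mulLeft ℂ g)) Q) 0 := by
    intro Q
    exact h3 Q v
  have h5 := hasDeriv_shift (u := fun s : ℂ => y (p + s • v)) hu p.2 v.2 P (X (Fin.last n))
  show HasDerivAt (fun s : ℂ => y (p + s • v) (X (Fin.last n) * shift (p.2 + s * v.2) P)) _ 0
  refine h5.congr_deriv ?_
  rw [hfd]
  show a * y' (g * (X (Fin.last n) * shift p.2 P)) +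
      v.2 * y (p + (0 : ℂ) • v) (X (Fin.last n) * shift p.2 (pderiv (Fin.last n) P))
    = a * y' (X (Fin.last n) * shift p.2 (pol (fderiv ℂ G p.1 v.1) * P))
  rw [hg, pol_fderiv hF hG h, zero_smul, add_zero, ← h2.2]
  have h6 := h2.1 (Fin.last n) (shift p.2 P)
  unfold Dop th at h6
  rw [eV_last, pderiv_shift, pderiv_shift, pow_one, sub_add_cancel, mul_assoc (C a),
    ← smul_eq_C_mul, map_add, map_smul, smul_eq_mul] at h6
  set f := pol (G p.1)
  set g' := pol (fderiv ℂ G p.1 v.1)
  have h7 : (shift p.2 g' + C v.2 * shift p.2 (pderiv (Fin.last n) f)) *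
      (X (Fin.last n) * shift p.2 P) = X (Fin.last n) * shift p.2 (g' * P) +
        v.2 • (X (Fin.last n) * shift p.2 (pderiv (Fin.last n) f) * shift p.2 P) := by
    rw [map_mul, smul_eq_C_mul]; ring
  have h8 : shift p.2 f * (X (Fin.last n) * shift p.2 (pderiv (Fin.last n) P))
      = shift p.2 f * (X (Fin.last n) * shift p.2 (pderiv (Fin.last n) P)) := rfl
  rw [h7, map_add, map_smul, smul_eq_mul]
  linear_combination v.2 * h6

/-- The slice functional of a solution is a solution. -/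
theorem sol_slf {a : ℂ} {F : E → Cf (n + 1) D} {S : E → Cf n D}
    (hF : Differentiable ℂ F) (hS : Differentiable ℂ S)
    (h : ∀ p, pol (S p) = slice (pol (F p))) {N : Set E} {y : E → Fnl n}
    (hy : Sol (e0 n) a S N y) : Sol (eV n) a F N (fun p => slf (y p)) := by
  refine ⟨fun P => hy.1 (slice P), fun p hp => ?_⟩
  obtain ⟨h1, y', h2, h3⟩ := hy.2 p hp
  rw [h] at h1 h2
  refine ⟨slf_mem h1, slf y', slf_low h2, fun P v => ?_⟩
  have h4 := h3 (slice P) v
  rw [pol_fderiv_slice hF hS h, ← map_mul] at h4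
  exact h4

/-- A solution of the family `(q, z) ↦ G q` is locally independent of `z`. -/
theorem sol_fst {e : Fin m → ℕ} {a : ℂ} {G : E → Cf m D} (hG : Differentiable ℂ G)
    {N : Set (E × ℂ)} (hN : IsOpen N) {y : E × ℂ → Fnl m}
    (hy : Sol e a (fun p : E × ℂ => G p.1) N y) {p : E × ℂ} (hp : p ∈ N) :
    ∃ B : Set E, ∃ B' : Set ℂ, IsOpen B ∧ p.1 ∈ B ∧ IsOpen B' ∧ p.2 ∈ B' ∧ B ×ˢ B' ⊆ N ∧
      (∀ q ∈ B, ∀ z ∈ B', y (q, z) = y (q, p.2)) ∧ Sol e a G B (fun q => y (q, p.2)) := by
  have hfd : ∀ p v : E × ℂ, fderiv ℂ (fun p : E × ℂ => G p.1) p v = fderiv ℂ G p.1 v.1 := by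
    intro p v
    have h4 : HasFDerivAt (fun p : E × ℂ => G p.1)
        ((fderiv ℂ G p.1).comp (ContinuousLinearMap.fst ℂ E ℂ)) p :=
      (hG p.1).hasFDerivAt.comp p hasFDerivAt_fst
    rw [h4.fderiv]; rfl
  obtain ⟨ε, hε, hb⟩ := Metric.isOpen_iff.1 hN p hp
  have hsub : Metric.ball p.1 ε ×ˢ Metric.ball p.2 ε ⊆ N := by
    rintro ⟨q, z⟩ ⟨h1, h2⟩
    refine hb ?_
    rw [← ball_prod_same] 
    exact ⟨h1, h2⟩
  refine ⟨Metric.ball p.1 ε, Metric.ball p.2 ε, Metric.isOpen_ball, Metric.mem_ball_self hε,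
    Metric.isOpen_ball, Metric.mem_ball_self hε, hsub, fun q hq z hz => ?_, ?_, ?_⟩
  · refine LinearMap.ext fun P => ?_
    have hd : ∀ z ∈ Metric.ball p.2 ε, HasDerivAt (fun z => y (q, z) P) 0 z := by
      intro z hz
      obtain ⟨h1, y', h2, h3⟩ := hy.2 (q, z) (hsub ⟨hq, hz⟩)
      have h4 := h3 P (0, 1)
      rw [hfd] at h4
      have h5 : pol (fderiv ℂ G (q, z).1 ((0 : E), (1 : ℂ)).1) = 0 := by
        show pol (fderiv ℂ G q 0) = 0
        rw [map_zero]
        exact (polL m D).map_zero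
      rw [h5, zero_mul, map_zero, mul_zero] at h4
      have h6 : HasDerivAt (fun t : ℂ => y ((q, z) + t • ((0 : E), (1 : ℂ))) P) 0 0 := h4
      have h7 : (fun t : ℂ => y ((q, z) + t • ((0 : E), (1 : ℂ))) P)
          = fun t : ℂ => (fun z => y (q, z) P) (z + t) := by
        funext t
        simp
      rw [h7] at h6
      have h8 := HasDerivAt.comp_sub_const (x := z) (a := z) (f := fun t : ℂ => (fun z => y (q, z) P) (z + t)) (f' := 0) (by simpa using h6)
      simpa using h8
    exact Metric.isOpen_ball.is_const_of_deriv_eq_zero (convex_ball p.2 ε).isPreconnected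
      (fun z hz => (hd z hz).differentiableAt.differentiableWithinAt)
      (fun z hz => (hd z hz).deriv) hz (Metric.mem_ball_self hε)
  · intro P
    refine (hy.1 P).comp (f := fun q : E => (q, p.2)) (by fun_prop) ?_
    intro q hq
    exact hsub ⟨hq, Metric.mem_ball_self hε⟩
  · intro q hq
    obtain ⟨h1, y', h2, h3⟩ := hy.2 (q, p.2) (hsub ⟨hq, Metric.mem_ball_self hε⟩)
    refine ⟨h1, y', h2, fun P v => ?_⟩
    have h4 := h3 P (v, 0)
    rw [hfd] at h4
    have h5 : HasDerivAt (fun t : ℂ => y ((q, p.2) + t • (v, (0 : ℂ))) P)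
      (a * y' (pol (fderiv ℂ G q v) * P)) 0 := h4
    have h6 : (fun t : ℂ => y ((q, p.2) + t • (v, (0 : ℂ))) P)
        = fun t : ℂ => y (q + t • v, p.2) P := by
      funext t
      simp
    rw [h6] at h5
    exact h5

/-! ## Parallel sections -/

theorem par_yp {a : ℂ} {F : E × ℂ → Cf (n + 1) D} {G : E → Cf (n + 1) D}
    (hF : Differentiable ℂ F) (hG : Differentiable ℂ G)
    (h : ∀ p, pol (F p) = shift p.2 (pol (G p.1))) {T : Type*} [TopologicalSpace T] {S : Set T}
    {k : T → E × ℂ} (hk : ContinuousOn k S) {u : T → Fnl (n + 1)}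
    (hu : ∀ t ∈ S, ∃ (N : Set (E × ℂ)) (y : E × ℂ → Fnl (n + 1)), k t ∈ N ∧
      (IsOpen N ∧ Sol (eV n) a F N y) ∧ ∀ᶠ s in 𝓝[S] t, u s = y (k s)) :
    ∀ t ∈ S, ∃ (N : Set E) (y : E → Fnl (n + 1)), (k t).1 ∈ N ∧
      (IsOpen N ∧ Sol (e0 (n + 1)) a G N y) ∧
      ∀ᶠ s in 𝓝[S] t, yp (k s).2 (u s) = y (k s).1 := by
  intro t ht
  obtain ⟨N, y, h1, ⟨h2, h3⟩, h4⟩ := hu t ht
  obtain ⟨B, B', hB, hpB, hB', hpB', hsub, hc, hs⟩ := sol_fst hG h2 (sol_yp hF hG h h3) h1
  refine ⟨B, _, hpB, ⟨hB, hs⟩, ?_⟩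
  have h5 : ∀ᶠ s in 𝓝[S] t, k s ∈ B ×ˢ B' :=
    (hk t ht).eventually ((hB.prod hB').mem_nhds ⟨hpB, hpB'⟩)
  filter_upwards [h4, h5] with s hs1 hs2
  rw [hs1]
  exact hc _ hs2.1 _ hs2.2

theorem par_slf {a : ℂ} {F : E → Cf (n + 1) D} {G : E → Cf n D}
    (hF : Differentiable ℂ F) (hG : Differentiable ℂ G)
    (h : ∀ p, pol (G p) = slice (pol (F p))) {T : Type*} [TopologicalSpace T] {S : Set T}
    {k : T → E} {u : T → Fnl n}
    (hu : ∀ t ∈ S, ∃ (N : Set E) (y : E → Fnl n), k t ∈ N ∧
      (IsOpen N ∧ Sol (e0 n) a G N y) ∧ ∀ᶠ s in 𝓝[S] t, u s = y (k s)) :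
    ∀ t ∈ S, ∃ (N : Set E) (y : E → Fnl (n + 1)), k t ∈ N ∧
      (IsOpen N ∧ Sol (eV n) a F N y) ∧ ∀ᶠ s in 𝓝[S] t, slf (u s) = y (k s) := by
  intro t ht
  obtain ⟨N, y, h1, ⟨h2, h3⟩, h4⟩ := hu t ht
  exact ⟨N, _, h1, ⟨h2, sol_slf hF hG h h3⟩, h4.mono fun s hs => by rw [hs]⟩

end Fam

end Pool.Agent.QC.Fy
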