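import Pool.Agent.QC.Alg
import Pool.Agent.QC.Coef

/-!
# MP_7c50a9_lc: the number of connected components is computed by trees of depth `k ^ O(ℓ)`

The last step: from the coefficients of polynomials of degree at most two to syntactic trees.
-/

namespace Pool.Agent.QC

open MvPolynomial Set

section Trans

variable {n l N : ℕ}

/-- The coefficient of the exponent `m` (zero if the degree of `m` is larger than two), up to
sign. -/
noncomputable def cfX (e : Fin N ≃ Fin l × {m : Fin (n + 1) →₀ ℕ // m.degree ≤ 2}) (s : ℤ)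
    (i : Fin l) (m : Fin (n + 1) →₀ ℕ) : MvPolynomial (Fin N) ℤ := by
  classical
  exact if h : m.degree ≤ 2 then C s * X (e.symm (i, ⟨m, h⟩)) else 0

/-- The substitution. -/
noncomputable def uF (e : Fin N ≃ Fin l × {m : Fin (n + 1) →₀ ℕ // m.degree ≤ 2}) (s : ℤ) :
    Ixb n l → MvPolynomial (Fin N) ℤ :=
  fun i => Sum.elim (fun jk => (qOf (cfX e s i.1)).1 jk.1 jk.2)
    (Sum.elim (fun j => (qOf (cfX e s i.1)).2.1 j) (fun _ => (qOf (cfX e s i.1)).2.2)) i.2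

lemma ev_cfX (e : Fin N ≃ Fin l × {m : Fin (n + 1) →₀ ℕ // m.degree ≤ 2}) (s : ℤ)
    (P : Fin l → MvPolynomial (Fin (n + 1)) ℝ) (hP : ∀ i, (P i).totalDegree ≤ 2)
    (i : Fin l) (m : Fin (n + 1) →₀ ℕ) :
    ev (fun j => coeff (e j).2.1 (P (e j).1)) (cfX e s i m) = s * coeff m (P i) := by
  unfold cfX
  split_ifs with h
  · rw [ev_mul, ev_C, ev_X, Equiv.apply_symm_apply]
  · rw [ev_zero, coeff_eq_zero_of_totalDegree_lt, mul_zero]
    exact lt_of_le_of_lt (hP i) (not_le.1 h)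

lemma ev_qOf {N' : ℕ} (y : Fin N → ℝ) (c : (Fin N' →₀ ℕ) → MvPolynomial (Fin N) ℤ) :
    ((fun j k => ev y ((qOf c).1 j k)), (fun j => ev y ((qOf c).2.1 j)), ev y (qOf c).2.2) =
      qOf fun m => ev y (c m) := by
  unfold qOf
  simp only [apply_ite (ev y), ev_zero]

lemma ofcf_spt (e : Fin N ≃ Fin l × {m : Fin (n + 1) →₀ ℕ // m.degree ≤ 2}) (s : ℤ)
    (P : Fin l → MvPolynomial (Fin (n + 1)) ℝ) (hP : ∀ i, (P i).totalDegree ≤ 2) :
    ofcf (spt (uF e s) fun j => coeff (e j).2.1 (P (e j).1)) =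
      fun i => qOf fun m => s * coeff m (P i) := by
  funext i
  have h1 := ev_qOf (fun j => coeff (e j).2.1 (P (e j).1)) (cfX e s i)
  simp only [ev_cfX e s P hP] at h1
  exact h1

lemma Sset_spt_pos (e : Fin N ≃ Fin l × {m : Fin (n + 1) →₀ ℕ // m.degree ≤ 2})
    (P : Fin l → MvPolynomial (Fin (n + 1)) ℝ) (hP : ∀ i, (P i).totalDegree ≤ 2) :
    Sset (ofcf (spt (uF e 1) fun j => coeff (e j).2.1 (P (e j).1))) =
      {x | ∀ i, 0 ≤ eval x (P i)} := by
  rw [ofcf_spt e 1 P hP]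
  ext x
  simp only [Sset, mem_ofPred_eq, Int.cast_one, one_mul, eval_eq_qvR (hP _)]

lemma Sset_spt_neg (e : Fin N ≃ Fin l × {m : Fin (n + 1) →₀ ℕ // m.degree ≤ 2})
    (P : Fin l → MvPolynomial (Fin (n + 1)) ℝ) (hP : ∀ i, (P i).totalDegree ≤ 2) :
    Sset (ofcf (spt (uF e (-1)) fun j => coeff (e j).2.1 (P (e j).1))) =
      {x | ∀ i, eval x (P i) ≤ 0} := by
  rw [ofcf_spt e (-1) P hP]
  ext x
  have h1 : ∀ i, qvR (qOf fun m => ((-1 : ℤ) : ℝ) * coeff m (P i)) x = -eval x (P i) := by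
    intro i
    have h2 : ∀ m, ((-1 : ℤ) : ℝ) * coeff m (P i) = coeff m (-P i) := fun m => by
      rw [coeff_neg]; push_cast; ring
    simp only [h2]
    rw [← map_neg, eval_eq_qvR (by rw [totalDegree_neg]; exact hP i)]
  simp only [Sset, mem_ofPred_eq, h1, Left.nonneg_neg_iff]

lemma calc_cfX (e : Fin N ≃ Fin l × {m : Fin (n + 1) →₀ ℕ // m.degree ≤ 2}) (s : ℤ)
    (i : Fin l) (m : Fin (n + 1) →₀ ℕ) :
    Calc 1 1 (Set.range X) {cfX e s i m} ∧ (cfX e s i m).totalDegree ≤ 1 := by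
  unfold cfX
  split_ifs with h
  · have h1 : (C s * X (e.symm (i, ⟨m, h⟩)) : MvPolynomial (Fin N) ℤ).totalDegree ≤ 1 :=
      (totalDegree_mul _ _).trans (by rw [totalDegree_C, totalDegree_X])
    refine ⟨?_, h1⟩
    have h2 := (Calc.const (M := 1) (K := Set.range (X : Fin N → MvPolynomial (Fin N) ℤ)) s).trans'
      (Calc.mul (Or.inr rfl) (Or.inl ⟨e.symm (i, ⟨m, h⟩), rfl⟩) h1)
    simpa using h2
  · refine ⟨?_, by simp⟩
    have h2 := Calc.const (M := 1) (K := Set.range (X : Fin N → MvPolynomial (Fin N) ℤ)) 0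
    rw [C_0] at h2
    exact h2.mono_c (Nat.zero_le _)

lemma calc_uF (e : Fin N ≃ Fin l × {m : Fin (n + 1) →₀ ℕ // m.degree ≤ 2}) (s : ℤ)
    (i : Ixb n l) : Calc 1 1 (Set.range X) {uF e s i} ∧ (uF e s i).totalDegree ≤ 1 := by
  rcases i with ⟨i, ⟨j, k⟩ | j | j⟩
  · show Calc 1 1 (Set.range X) {if j ≤ k then cfX e s i (e2 j k) else 0} ∧
      (if j ≤ k then cfX e s i (e2 j k) else 0).totalDegree ≤ 1
    split_ifs
    · exact calc_cfX e s i _
    · refine ⟨?_, by simp⟩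
      have h2 := Calc.const (M := 1) (K := Set.range (X : Fin N → MvPolynomial (Fin N) ℤ)) 0
      rw [C_0] at h2
      exact h2.mono_c (Nat.zero_le _)
  · exact calc_cfX e s i _
  · exact calc_cfX e s i 0

/-- From computations on `Ixb n l` to trees. -/
theorem tree_of_dec {β : Type*} {M c : ℕ} {F : (Ixb n l → ℝ) → β}
    (h : Dec M c (range (X : Ixb n l → MvPolynomial (Ixb n l) ℤ)) univ F)
    (e : Fin N ≃ Fin l × {m : Fin (n + 1) →₀ ℕ // m.degree ≤ 2}) (s : ℤ) :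
    ∃ T : Tree β N, T.depth ≤ Fintype.card (Ixb n l) + c ∧ ∀ y, T.run y = F (spt (uF e s) y) := by
  refine exists_tree (M := M + 1) ?_
  have h1 : Calc (M + 1) (Fintype.card (Ixb n l) * 1)
      (range (X : Fin N → MvPolynomial (Fin N) ℤ)) (range (uF e s)) :=
    Calc.range fun i => (calc_uF e s i).1.mono_M (Nat.le_add_left _ _)
  rw [mul_one] at h1
  refine h1.dec ?_
  have h2 := Dec.subst (m := 1) (f := uF e s) h (fun i => (calc_uF e s i).2)
    (K' := range (X : Fin N → MvPolynomial (Fin N) ℤ) ∪ range (uF e s)) (D' := univ) ?_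
    fun _ _ => mem_univ _
  · rw [mul_one] at h2
    exact h2.mono_M (Nat.le_add_right _ _)
  · rintro _ ⟨i, rfl⟩
    rw [bind₁_X_right]
    exact Or.inr ⟨i, rfl⟩

end Trans

lemma card_Ixb_le {n l : ℕ} (hn : 1 ≤ n) : Fintype.card (Ixb n l) ≤ (n + 1) ^ (l + 3) := by
  have h1 : Fintype.card (Ixb n l) = l * ((n + 1) * (n + 1) + ((n + 1) + 1)) := by
    simp [Fintype.card_sum, Fintype.card_prod]
  rw [h1, pow_add]
  refine Nat.mul_le_mul ?_ ?_
  · exact Nat.lt_two_pow_self.le.trans (Nat.pow_le_pow_left (by omega) _)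
  · nlinarith [sq_nonneg (n : ℤ), Nat.zero_le n, pow_succ (n + 1) 2, pow_succ (n + 1) 1]

/-- The final theorem; trees in the sense of `Tree`. -/
theorem final : ∃ C : ℕ, ∀ k l : ℕ, 2 ≤ k → 1 ≤ l → ∀ (N : ℕ)
    (e : Fin N ≃ Fin l × {m : Fin k →₀ ℕ // m.degree ≤ 2}),
    (∃ T : Tree ℕ N, T.depth ≤ k ^ (C * l) ∧ ∀ P : Fin l → MvPolynomial (Fin k) ℝ,
      (∀ i, (P i).totalDegree ≤ 2) →
        Finite (ConnectedComponents {x : Fin k → ℝ | ∀ i, 0 ≤ eval x (P i)}) ∧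
        T.run (fun j => coeff (e j).2.1 (P (e j).1)) =
          Nat.card (ConnectedComponents {x : Fin k → ℝ | ∀ i, 0 ≤ eval x (P i)})) ∧
    (∃ T : Tree ℕ N, T.depth ≤ k ^ (C * l) ∧ ∀ P : Fin l → MvPolynomial (Fin k) ℝ,
      (∀ i, (P i).totalDegree ≤ 2) →
        Finite (ConnectedComponents {x : Fin k → ℝ | ∀ i, eval x (P i) ≤ 0}) ∧
        T.run (fun j => coeff (e j).2.1 (P (e j).1)) =
          Nat.card (ConnectedComponents {x : Fin k → ℝ | ∀ i, eval x (P i) ≤ 0})) := by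
  obtain ⟨A, hA⟩ := count_dec
  refine ⟨A + 5, fun k l hk hl N e => ?_⟩
  obtain ⟨n, rfl⟩ : ∃ n, k = n + 1 := ⟨k - 1, by omega⟩
  have hn : 1 ≤ n := by omega
  obtain ⟨hfin, M, c, hc, hD⟩ := hA n l hn hl
  have hcost : Fintype.card (Ixb n l) + c ≤ (n + 1) ^ ((A + 5) * l) := by
    have h1 := card_Ixb_le (l := l) hn
    have h2 : (n + 1) ^ (l + 3) ≤ (n + 1) ^ ((A + 4) * l) :=
      Nat.pow_le_pow_right (by omega) (by nlinarith)
    have h3 : (n + 1) ^ (A * l) ≤ (n + 1) ^ ((A + 4) * l) :=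
      Nat.pow_le_pow_right (by omega) (by nlinarith)
    have h4 : (n + 1) ^ ((A + 5) * l) = (n + 1) ^ ((A + 4) * l) * (n + 1) ^ l := by
      rw [← pow_add]; congr 1; ring
    have h5 : 2 ≤ (n + 1) ^ l := by
      calc 2 = 2 ^ 1 := rfl
        _ ≤ 2 ^ l := Nat.pow_le_pow_right (by norm_num) hl
        _ ≤ (n + 1) ^ l := Nat.pow_le_pow_left (by omega) _
    rw [h4]
    nlinarith
  constructor
  · obtain ⟨T, hT1, hT2⟩ := tree_of_dec hD e 1
    refine ⟨T, hT1.trans hcost, fun P hP => ?_⟩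
    rw [hT2]
    have h6 := hfin (spt (uF e 1) fun j => coeff (e j).2.1 (P (e j).1))
    rw [Sset_spt_pos e P hP] at h6 ⊢
    exact ⟨h6, rfl⟩
  · obtain ⟨T, hT1, hT2⟩ := tree_of_dec hD e (-1)
    refine ⟨T, hT1.trans hcost, fun P hP => ?_⟩
    rw [hT2]
    have h6 := hfin (spt (uF e (-1)) fun j => coeff (e j).2.1 (P (e j).1))
    rw [Sset_spt_neg e P hP] at h6 ⊢
    exact ⟨h6, rfl⟩

end Pool.Agent.QC
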