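import Pool.Agent.QC.Rec

/-!
# MP_7c50a9_lc: the coefficients of the input
-/

namespace Pool.Agent.QC

/-- Index type of the coefficients of the input. -/
abbrev Ixb (n l : ℕ) := Fin l × ((Fin (n + 1) × Fin (n + 1)) ⊕ (Fin (n + 1) ⊕ Unit))

/-- The coefficients of the input. -/
def bcf {n l : ℕ} (b : Fin l → QP ℝ (n + 1)) : Ixb n l → ℝ :=
  fun i => Sum.elim (fun jk => (b i.1).1 jk.1 jk.2)
    (Sum.elim (fun j => (b i.1).2.1 j) (fun _ => (b i.1).2.2)) i.2

/-- The input with given coefficients. -/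
def ofcf {n l : ℕ} (x : Ixb n l → ℝ) : Fin l → QP ℝ (n + 1) :=
  fun i => (fun j k => x (i, Sum.inl (j, k)), fun j => x (i, Sum.inr (Sum.inl j)),
    x (i, Sum.inr (Sum.inr ())))

end Pool.Agent.QC
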