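import Pool.Agent.QC.Rec
import Pool.Agent.QC.LS.Defs
import Pool.Agent.QC.FYpart
import Pool.Agent.QC.Conn.Fam
import Pool.Agent.QC.Loc.Fams

/-!
# MP_7c50a9_lc: the concrete local systems

`famLS e a F`: functionals of exponent `a` over the family `F`.  `VLS` (pattern `eV`, parameters
`(q, z)`), `ZLS` (pattern `e0`, parameters `q`), `SLS` (slices `x_n = z`, pattern `e0`, `n`
variables, parameters `(q, z)`).
-/

namespace Pool.Agent.QC

open MvPolynomial Filter Topology Set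

/-- The conditions on a family. -/
structure FamOK {E : Type*} [NormedAddCommGroup E] [NormedSpace ℂ E] {m D : ℕ} (e : Fin m → ℕ)
    (F : E → Cf m D) : Prop where
  e_le : ∀ i, e i ≤ 1
  D_ge : 2 ≤ D
  top : ∃ c : Fin m → ℂ, ∀ p, TopF D c (pol (F p))
  smooth : ContDiff ℂ ⊤ F

section Fam

variable {E : Type*} [NormedAddCommGroup E] [NormedSpace ℂ E] [FiniteDimensional ℂ E] {m D : ℕ}
  {e : Fin m → ℕ} {a : ℝ} {F : E → Cf m D}

theorem fam_isOpen (H : FamOK e F) (ha : Irrational a) :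
    IsOpen {p : E | Reg e (pol (F p))} := by
  obtain ⟨c, hc⟩ := H.top
  exact (Fam.mk' H.e_le H.D_ge hc H.smooth ha).isOpen_reg

theorem fam_nice (H : FamOK e F) (ha : Irrational a) {p : E} (hp : Reg e (pol (F p))) {O : Set E}
    (hO : O ∈ 𝓝 p) : ∃ N, IsOpen N ∧ p ∈ N ∧ N ⊆ O ∧ N ⊆ {p : E | Reg e (pol (F p))} ∧
      IsPreconnected N ∧ ∀ q ∈ N, ∀ w ∈ Zs e a (pol (F q)), ∃ y, Sol e a F N y ∧ y q = w := by
  obtain ⟨c, hc⟩ := H.top
  exact (Fam.mk' H.e_le H.D_ge hc H.smooth ha).nice hp hO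

theorem fam_unique (H : FamOK e F) (ha : Irrational a) {N : Set E} {y y' : E → Fnl m} {p : E}
    (hNo : IsOpen N) (hN : IsPreconnected N) (hX : N ⊆ {p : E | Reg e (pol (F p))})
    (hy : Sol e a F N y) (hy' : Sol e a F N y') (hp : p ∈ N) (he : y p = y' p) :
    EqOn y y' N := by
  obtain ⟨c, hc⟩ := H.top
  exact (Fam.mk' H.e_le H.D_ge hc H.smooth ha).sol_unique hNo hN hX hy hy' hp he

/-- The local system of a family. -/
noncomputable def famLS (e : Fin m → ℕ) (a : ℝ) (F : E → Cf m D) (H : FamOK e F)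
    (ha : Irrational a) : LS E (Fnl m) where
  X := {p | Reg e (pol (F p))}
  V p := Zs e a (pol (F p))
  sol N y := IsOpen N ∧ Sol e a F N y
  isOpen_X := fam_isOpen H ha
  sol_open h := h.1
  sol_mem h p hp := (h.2.2 p hp).1
  sol_congr := by
    rintro N y y' ⟨h0, h1, h2⟩ he
    refine ⟨h0, fun P => (h1 P).congr fun p hp => by show y' p P = y p P; rw [he hp],
      fun p hp => ?_⟩
    obtain ⟨h3, y1, h4, h5⟩ := h2 p hp
    rw [← he hp]
    refine ⟨h3, y1, h4, fun P v => ?_⟩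
    have hev : ∀ᶠ s in 𝓝 p, s ∈ N := h0.mem_nhds hp
    have hcont : Tendsto (fun t : ℂ => p + t • v) (𝓝 0) (𝓝 p) := by
      have : Continuous fun t : ℂ => p + t • v := by fun_prop
      simpa using this.tendsto 0
    have := h5 P v
    refine HasDerivAt.congr_of_eventuallyEq this ?_
    filter_upwards [hcont.eventually hev] with t ht
    rw [he ht]
  sol_mono := by
    rintro N N' y ⟨h0, h1, h2⟩ hN hNN
    exact ⟨hN, fun P => (h1 P).mono hNN, fun p hp => h2 p (hNN hp)⟩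
  sol_local := by
    intro N y h
    refine ⟨isOpen_iff_mem_nhds.2 fun p hp => ?_, fun P p hp => ?_, fun p hp => ?_⟩
    · obtain ⟨N', h1, h2, h3⟩ := h p hp
      exact mem_of_superset (h3.1.mem_nhds h1) h2
    · obtain ⟨N', h1, h2, h3⟩ := h p hp
      exact ((h3.2.1 P).continuousAt (h3.1.mem_nhds h1)).continuousWithinAt
    · obtain ⟨N', h1, h2, h3⟩ := h p hp
      exact h3.2.2 p h1
  nice := by
    intro p hp O hO
    obtain ⟨N, h1, h2, h3, h4, h5, h6⟩ := fam_nice H ha hp hO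
    refine ⟨N, h1, h2, h3, h4, h5, fun q hq w hw => ?_⟩
    obtain ⟨y, h7, h8⟩ := h6 q hq w hw
    exact ⟨y, ⟨h1, h7⟩, h8⟩
  unique := by
    rintro N y y' p hN hX ⟨h0, h1⟩ ⟨h0', h1'⟩ hp he
    exact fam_unique H ha h0 hN hX h1 h1' hp he

theorem famLS_lin (H : FamOK e F) (ha : Irrational a) : (famLS e a F H ha).Lin where
  add h h' := ⟨h.1, h.2.add h'.2⟩
  smul t h := ⟨h.1, h.2.smul t⟩
  zero hN := ⟨hN, Sol.zero⟩

end Fam

/-! ## The three families -/

/-- The real parameters `en`, `eta`, `a`. -/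
structure Prm where
  /-- weight of `x_n ^ D` -/
  en : ℝ
  /-- factor of the auxiliary form -/
  eta : ℝ
  /-- the exponent -/
  a : ℝ
  en_pos : 0 < en
  eta_pos : 0 < eta
  irr : Irrational a
  two_lt : 2 < a

section Three

variable {n l : ℕ} (P : Prm)

/-- The polynomial `f` of a tuple. -/
noncomputable def Prm.f (q : Tup n l) : Pol (n + 1) := fpol P.en P.eta q

theorem pol_FV (p : Tup n l × ℂ) : pol (FV P.en P.eta p) = shift p.2 (P.f p.1) :=
  Loc.pol_FV' P.en_pos.ne' P.eta_pos.ne' p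

theorem pol_FZ (q : Tup n l) : pol (FZ P.en P.eta q) = P.f q :=
  Loc.pol_FZ' P.en_pos.ne' P.eta_pos.ne' q

theorem pol_FS (p : Tup n l × ℂ) : pol (FS P.en P.eta p) = slice (shift p.2 (P.f p.1)) :=
  Loc.pol_FS' P.eta_pos.ne' p

theorem FV_ok : FamOK (eV n) (FV (n := n) (l := l) P.en P.eta) where
  e_le := Loc.eV_le
  D_ge := Loc.two_le_DD
  top := ⟨_, fun p => by
    rw [pol_FV]; exact Loc.topF_shift P.en_pos.ne' P.eta_pos.ne' p.2 p.1⟩
  smooth := Loc.contDiff_FV _ _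

theorem FZ_ok : FamOK (e0 (n + 1)) (FZ (n := n) (l := l) P.en P.eta) where
  e_le := fun _ => Nat.zero_le 1
  D_ge := Loc.two_le_DD
  top := ⟨_, fun q => by
    rw [pol_FZ]; exact Loc.topF_fpol P.en_pos.ne' P.eta_pos.ne' q⟩
  smooth := Loc.contDiff_FZ _ _

theorem FS_ok : FamOK (e0 n) (FS (n := n) (l := l) P.en P.eta) where
  e_le := fun _ => Nat.zero_le 1
  D_ge := Loc.two_le_DD
  top := ⟨_, fun p => by
    rw [pol_FS]; exact Loc.topF_slice P.eta_pos.ne' p.2 p.1⟩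
  smooth := Loc.contDiff_FS _ _

/-- The local system `V_{f, z}`. -/
noncomputable def VLS (n l : ℕ) : LS (Tup n l × ℂ) (Fnl (n + 1)) :=
  famLS (eV n) P.a (FV P.en P.eta) (FV_ok P) P.irr

/-- The local system `Z_f`. -/
noncomputable def ZLS (n l : ℕ) : LS (Tup n l) (Fnl (n + 1)) :=
  famLS (e0 (n + 1)) P.a (FZ P.en P.eta) (FZ_ok P) P.irr

/-- The local system of the slices. -/
noncomputable def SLS (n l : ℕ) : LS (Tup n l × ℂ) (Fnl n) :=
  famLS (e0 n) P.a (FS P.en P.eta) (FS_ok P) P.irr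

theorem VLS_lin : (VLS P n l).Lin := famLS_lin _ _

theorem ZLS_lin : (ZLS P n l).Lin := famLS_lin _ _

theorem SLS_lin : (SLS P n l).Lin := famLS_lin _ _

theorem mem_VLS_X {p : Tup n l × ℂ} :
    p ∈ (VLS P n l).X ↔ SingF (P.f p.1) = ∅ ∧ p.2 ∉ SigF (P.f p.1) := by
  show Reg (eV n) (pol (FV P.en P.eta p)) ↔ _
  rw [pol_FV, Loc.reg_shift_iff]

theorem mem_ZLS_X {q : Tup n l} : q ∈ (ZLS P n l).X ↔ SingF (P.f q) = ∅ := by
  show Reg (e0 (n + 1)) (pol (FZ P.en P.eta q)) ↔ _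
  rw [pol_FZ, Loc.reg_e0_iff]

theorem mem_SLS_X {p : Tup n l × ℂ} : p ∈ (SLS P n l).X ↔ p.2 ∉ SigF (P.f p.1) := by
  show Reg (e0 n) (pol (FS P.en P.eta p)) ↔ _
  rw [pol_FS, Loc.reg_slice_shift_iff]

/-! ## y-part and slices -/

/-- The y-part of a functional at `z`: `P ↦ J[x_n P(x', x_n + z)]`. -/
noncomputable def ymap (z : ℂ) (J : Fnl (n + 1)) : Fnl (n + 1) :=
  J ∘ₗ LinearMap.mulLeft ℂ (X (Fin.last n)) ∘ₗ (shift z).toLinearMap

/-- The functional `P ↦ y[P(x', 0)]`. -/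
noncomputable def sl (y : Fnl n) : Fnl (n + 1) := y ∘ₗ slice.toLinearMap

/-- The y-part of a parallel section is parallel. -/
theorem Par.ymap {T : Type*} [TopologicalSpace T] {h : T → Tup n l × ℂ} {S : Set T}
    {u : T → Fnl (n + 1)} (hX : MapsTo h S (VLS P n l).X) (hh : ContinuousOn h S)
    (hu : (VLS P n l).Par h S u) :
    (ZLS P n l).Par (fun t => (h t).1) S (fun t => ymap (h t).2 (u t)) := by
  have h1 : Differentiable ℂ (FV (n := n) (l := l) P.en P.eta) :=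
    (FV_ok P).smooth.differentiable (by simp)
  have h2 : Differentiable ℂ (FZ (n := n) (l := l) P.en P.eta) :=
    (FZ_ok P).smooth.differentiable (by simp)
  exact Fy.par_yp h1 h2 (fun p => by rw [pol_FV, pol_FZ]) hh hu

/-- Slice sections are V-sections (`1 ≤ n` is not needed). -/
theorem Par.sl {T : Type*} [TopologicalSpace T] {h : T → Tup n l × ℂ} {S : Set T}
    {u : T → Fnl n} (hX : MapsTo h S (VLS P n l).X) (hh : ContinuousOn h S)
    (hu : (SLS P n l).Par h S u) : (VLS P n l).Par h S (fun t => sl (u t)) := by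
  have h1 : Differentiable ℂ (FV (n := n) (l := l) P.en P.eta) :=
    (FV_ok P).smooth.differentiable (by simp)
  have h2 : Differentiable ℂ (FS (n := n) (l := l) P.en P.eta) :=
    (FS_ok P).smooth.differentiable (by simp)
  exact Fy.par_slf h1 h2 (fun p => by rw [pol_FV, pol_FS]) hu

end Three

end Pool.Agent.QC
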