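import Pool.Agent.QC.Run

/-!
# Simulation over one more real variable

A computation with inputs `(y, z)` (`y : σ → ℝ`, `z` real, the variable `none` of `Option σ`) is
simulated by a computation with input `y` only: registers are the coefficients of the powers of
`z`, and a sign test is replaced by an oracle for the sign of a polynomial along a filter `φ y` in
the variable `z` (`φ y = 𝓝[>] 0`: infinitesimals, `φ y = pure ζ`: the value at a root `ζ`).
-/

namespace Pool.Agent.QC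

open MvPolynomial Filter Topology

variable {σ : Type*} {β γ : Type*}

/-- The point `(y, z)`. -/
def pt (y : σ → ℝ) (z : ℝ) : Option σ → ℝ := fun o => o.elim z y

@[simp] lemma pt_none (y : σ → ℝ) (z : ℝ) : pt y z none = z := rfl

@[simp] lemma pt_some (y : σ → ℝ) (z : ℝ) (i : σ) : pt y z (some i) = y i := rfl

/-- Evaluation at `y` as a ring homomorphism. -/
noncomputable def evHom (y : σ → ℝ) : MvPolynomial σ ℤ →+* ℝ :=
  (aeval y : MvPolynomial σ ℤ →ₐ[ℤ] ℝ).toRingHom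

@[simp] lemma evHom_apply (y : σ → ℝ) (p : MvPolynomial σ ℤ) : evHom y p = ev y p := rfl

/-- A polynomial in `(y, z)` as a polynomial in `z`. -/
noncomputable def zpoly (g : MvPolynomial (Option σ) ℤ) : Polynomial (MvPolynomial σ ℤ) :=
  optionEquivLeft ℤ σ g

@[simp] lemma zpoly_add (g h : MvPolynomial (Option σ) ℤ) : zpoly (g + h) = zpoly g + zpoly h := by
  simp [zpoly]

@[simp] lemma zpoly_sub (g h : MvPolynomial (Option σ) ℤ) : zpoly (g - h) = zpoly g - zpoly h := by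
  simp [zpoly]

@[simp] lemma zpoly_mul (g h : MvPolynomial (Option σ) ℤ) : zpoly (g * h) = zpoly g * zpoly h := by
  simp [zpoly]

@[simp] lemma zpoly_intCast (z : ℤ) : zpoly (z : MvPolynomial (Option σ) ℤ) =
    (z : Polynomial (MvPolynomial σ ℤ)) := by simp [zpoly]

@[simp] lemma zpoly_C (z : ℤ) : zpoly (C z : MvPolynomial (Option σ) ℤ) =
    Polynomial.C (C z) := optionEquivLeft_C ℤ σ z

@[simp] lemma zpoly_none : zpoly (X none : MvPolynomial (Option σ) ℤ) = Polynomial.X :=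
  optionEquivLeft_X_none ℤ σ

@[simp] lemma zpoly_some (i : σ) : zpoly (X (some i) : MvPolynomial (Option σ) ℤ) =
    Polynomial.C (X i) := optionEquivLeft_X_some ℤ σ i

lemma zpoly_rename (p : MvPolynomial σ ℤ) : zpoly (rename some p) = Polynomial.C p := by
  induction p using MvPolynomial.induction_on with
  | C a => simp
  | add p q hp hq => simp [hp, hq]
  | mul_X p i hp => simp [hp]

theorem ev_pt (g : MvPolynomial (Option σ) ℤ) (y : σ → ℝ) (z : ℝ) :
    ev (pt y z) g = ((zpoly g).map (evHom y)).eval z := by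
  induction g using MvPolynomial.induction_on with
  | C a => simp
  | add p q hp hq => simp [hp, hq]
  | mul_X p i hp =>
    rw [ev_mul, hp, zpoly_mul, Polynomial.map_mul, Polynomial.eval_mul]
    cases i <;> simp

/-- The coefficient of `z ^ i`. -/
noncomputable def zc (g : MvPolynomial (Option σ) ℤ) (i : ℕ) : MvPolynomial σ ℤ :=
  (zpoly g).coeff i

lemma totalDegree_zc (g : MvPolynomial (Option σ) ℤ) (i : ℕ) :
    (zc g i).totalDegree ≤ g.totalDegree := totalDegree_coeff_optionEquivLeft_le ℤ σ g i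

lemma natDegree_zpoly (g : MvPolynomial (Option σ) ℤ) : (zpoly g).natDegree ≤ g.totalDegree := by
  rw [zpoly, natDegree_optionEquivLeft]
  exact degreeOf_le_totalDegree g none

lemma zc_eq_zero (g : MvPolynomial (Option σ) ℤ) {i : ℕ} (h : g.totalDegree < i) : zc g i = 0 :=
  Polynomial.coeff_eq_zero_of_natDegree_lt ((natDegree_zpoly g).trans_lt h)

/-- One operation on polynomials in `(y, z)` costs `2 * (M + 1) ^ 2` operations on the
coefficients. -/
theorem calc_zc_step {M : ℕ} {K : Set (MvPolynomial σ ℤ)} {K' : Set (MvPolynomial (Option σ) ℤ)}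
    (hK : ∀ g ∈ K', ∀ i, zc g i ∈ K)
    {r : MvPolynomial (Option σ) ℤ} (hr : Step K' r) (hrM : r.totalDegree ≤ M) (i : ℕ)
    (hi : i ≤ M) : Calc M (2 * (M + 1)) K {zc r i} := by
  have hd : (zc r i).totalDegree ≤ M := (totalDegree_zc r i).trans hrM
  obtain ⟨p, hp, q, hq, rfl | rfl | rfl⟩ := hr
  · have h : zc (p + q) i = zc p i + zc q i := by simp [zc]
    rw [h] at hd ⊢
    exact (Calc.add (hK p hp i) (hK q hq i) hd).mono_c (by omega)
  · have h : zc (p - q) i = zc p i - zc q i := by simp [zc]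
    rw [h] at hd ⊢
    exact (Calc.sub (hK p hp i) (hK q hq i) hd).mono_c (by omega)
  · have h : zc (p * q) i = ∑ x ∈ Finset.HasAntidiagonal.antidiagonal i, zc p x.1 * zc q x.2 := by
      simp [zc, Polynomial.coeff_mul]
    rw [h]
    refine (Calc.dot (M := M) (K := K) (Finset.HasAntidiagonal.antidiagonal i)
      (f := fun x => zc p x.1) (g := fun x => zc q x.2) (fun x _ => hK p hp _) (fun x _ => hK q hq _) ?_).mono_c ?_
    · intro x _
      rcases eq_or_ne p 0 with rfl | hp0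
      · simp [zc, zpoly]
      rcases eq_or_ne q 0 with rfl | hq0
      · simp [zc, zpoly]
      rw [totalDegree_mul_of_isDomain hp0 hq0] at hrM
      refine (totalDegree_mul _ _).trans ?_
      have h1 := totalDegree_zc p x.1
      have h2 := totalDegree_zc q x.2
      omega
    · rw [Finset.Nat.card_antidiagonal]; omega

/-- See the header. -/
theorem Run.lift {M M₂ cs c : ℕ}
    {Q' : Set (MvPolynomial (Option σ) ℤ) → Set (Option σ → ℝ) → Prop}
    (φ : (σ → ℝ) → Filter ℝ) (K₀ : Set (MvPolynomial σ ℤ)) (D₀ : Set (σ → ℝ)) (hM : M ≤ M₂)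
    (oracle : ∀ g : MvPolynomial (Option σ) ℤ, g.totalDegree ≤ M →
      ∃ sg : (σ → ℝ) → SignType,
        (∀ y ∈ D₀, ∀ᶠ z in φ y, SignType.sign (ev (pt y z) g) = sg y) ∧
        ∀ K D, K₀ ⊆ K → (∀ i, zc g i ∈ K) → D ⊆ D₀ → Dec M₂ cs K D sg)
    {K' : Set (MvPolynomial (Option σ) ℤ)} {D' : Set (Option σ → ℝ)}
    (h : Run M Q' c K' D') (hK'M : ∀ g ∈ K', g.totalDegree ≤ M)
    {K : Set (MvPolynomial σ ℤ)} {D : Set (σ → ℝ)} (hK₀ : K₀ ⊆ K)
    (hK : ∀ g ∈ K', ∀ i, zc g i ∈ K) (hD₀ : D ⊆ D₀)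
    (hD : ∀ y ∈ D, ∀ᶠ z in φ y, pt y z ∈ D') :
    Run M₂ (fun K₁ D₁ => ∃ K₁' D₁', Q' K₁' D₁' ∧ (∀ g ∈ K₁', ∀ i, zc g i ∈ K₁) ∧ D₁ ⊆ D₀ ∧
      ∀ y ∈ D₁, ∀ᶠ z in φ y, pt y z ∈ D₁') (c * (cs + 2 * (M + 1) ^ 2)) K D := by
  induction h generalizing K D with
  | @ret c K' D' K₁ D₁ h1 h2 h3 =>
    exact Run.pure ⟨K₁, D₁, h3, fun g hg => hK g (h1 hg), hD₀,
      fun y hy => (hD y hy).mono fun z hz => h2 hz⟩
  | @cst c K' D' z _ ih =>
    refine Run.cst z (Run.cst 0 (ih ?_ ?_ ?_ hD₀ hD))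
    · rintro g (rfl | hg)
      · rw [totalDegree_C]; omega
      · exact hK'M g hg
    · exact hK₀.trans ((Set.subset_insert _ _).trans (Set.subset_insert _ _))
    · rintro g (rfl | hg) i
      · rcases Nat.eq_zero_or_pos i with rfl | hi
        · right; left; simp [zc]
        · left
          simp only [zc, zpoly_C, Polynomial.coeff_C, if_neg hi.ne', map_zero]
      · right; right; exact hK g hg i
  | @op c K' D' r h1 h2 _ ih =>
    have hc : Calc M₂ (Fintype.card (Fin (M + 1)) * (2 * (M + 1))) (insert (C 0) K)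
        (Set.range fun i : Fin (M + 1) => zc r i) := by
      refine Calc.range fun i => ?_
      exact ((calc_zc_step hK h1 h2 i (by omega)).mono_M hM).mono_K (Set.subset_insert _ _)
    have hsub : K ⊆ insert (C 0) K ∪ Set.range fun i : Fin (M + 1) => zc r i :=
      (Set.subset_insert _ _).trans Set.subset_union_left
    have h3 := ih (K := insert (C 0) K ∪ Set.range fun i : Fin (M + 1) => zc r i) (D := D)
      (by rintro g (rfl | hg)
          · exact h2
          · exact hK'M g hg)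
      (hK₀.trans hsub)
      (by rintro g (rfl | hg) i
          · by_cases hi : i ≤ M
            · exact Or.inr ⟨⟨i, by omega⟩, rfl⟩
            · left; left
              rw [zc_eq_zero g (by omega)]; simp
          · exact hsub (hK g hg i)) hD₀ hD
    refine Run.cst 0 ((hc.run h3).mono_c ?_)
    rw [Fintype.card_fin]
    nlinarith
  | @sgn c K' D' p h1 _ _ _ ih1 ih2 ih3 =>
    obtain ⟨sg, hsg, hdec⟩ := oracle p (hK'M p h1)
    have h4 := hdec K D hK₀ (hK p h1) hD₀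
    have h5 := Run.bind (c' := c * (cs + 2 * (M + 1) ^ 2))
      (Q' := fun K₁ D₁ => ∃ K₁' D₁', Q' K₁' D₁' ∧ (∀ g ∈ K₁', ∀ i, zc g i ∈ K₁) ∧ D₁ ⊆ D₀ ∧
        ∀ y ∈ D₁, ∀ᶠ z in φ y, pt y z ∈ D₁') h4 ?_
    · exact h5.mono_c (by nlinarith)
    intro _ D₂ hcst K₁ D₁ hK1 _ hD1 hD2
    have hcon : ∃ s, ∀ y ∈ D₁, ∀ᶠ z in φ y, SignType.sign (ev (pt y z) p) = s := by
      rcases Set.eq_empty_or_nonempty D₁ with rfl | ⟨y₀, hy₀⟩
      · exact ⟨0, by simp⟩
      · refine ⟨sg y₀, fun y hy => ?_⟩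
        rw [hcst y₀ (hD2 hy₀) y (hD2 hy)]
        exact hsg y (hD₀ (hD1 hy))
    obtain ⟨s, hs⟩ := hcon
    have hKK : ∀ g ∈ K', ∀ i, zc g i ∈ K₁ := fun g hg i => hK1 (hK g hg i)
    rcases s with _ | _ | _
    · refine ih2 hK'M (hK₀.trans hK1) hKK (hD1.trans hD₀) fun y hy => ?_
      filter_upwards [hD y (hD1 hy), hs y hy] with z hz1 hz2
      exact ⟨hz1, sign_eq_zero_iff.1 hz2⟩
    · refine ih1 hK'M (hK₀.trans hK1) hKK (hD1.trans hD₀) fun y hy => ?_
      filter_upwards [hD y (hD1 hy), hs y hy] with z hz1 hz2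
      exact ⟨hz1, sign_eq_neg_one_iff.1 hz2⟩
    · refine ih3 hK'M (hK₀.trans hK1) hKK (hD1.trans hD₀) fun y hy => ?_
      filter_upwards [hD y (hD1 hy), hs y hy] with z hz1 hz2
      exact ⟨hz1, sign_eq_one_iff.1 hz2⟩

/-- Simulation of the computation of a function: along the filter `φ y` the function `F'` is
constant, and its value is found. -/
theorem Dec.lift {M M₂ cs c : ℕ} {F' : (Option σ → ℝ) → β}
    (φ : (σ → ℝ) → Filter ℝ) (K₀ : Set (MvPolynomial σ ℤ)) (D₀ : Set (σ → ℝ))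
    (hφ : ∀ y ∈ D₀, (φ y).NeBot) (hM : M ≤ M₂)
    (oracle : ∀ g : MvPolynomial (Option σ) ℤ, g.totalDegree ≤ M →
      ∃ sg : (σ → ℝ) → SignType,
        (∀ y ∈ D₀, ∀ᶠ z in φ y, SignType.sign (ev (pt y z) g) = sg y) ∧
        ∀ K D, K₀ ⊆ K → (∀ i, zc g i ∈ K) → D ⊆ D₀ → Dec M₂ cs K D sg)
    {K' : Set (MvPolynomial (Option σ) ℤ)} {D' : Set (Option σ → ℝ)}
    (h : Dec M c K' D' F') (hK'M : ∀ g ∈ K', g.totalDegree ≤ M)
    {K : Set (MvPolynomial σ ℤ)} {D : Set (σ → ℝ)} (hK₀ : K₀ ⊆ K)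
    (hK : ∀ g ∈ K', ∀ i, zc g i ∈ K) (hD₀ : D ⊆ D₀)
    (hD : ∀ y ∈ D, ∀ᶠ z in φ y, pt y z ∈ D') :
    ∃ F : (σ → ℝ) → β, (∀ y ∈ D, ∀ᶠ z in φ y, F' (pt y z) = F y) ∧
      Dec M₂ (c * (cs + 2 * (M + 1) ^ 2)) K D F := by
  classical
  have h1 := Run.lift φ K₀ D₀ hM oracle h hK'M hK₀ hK hD₀ hD
  have h2 : ∀ y ∈ D, ∃ b, ∀ᶠ z in φ y, F' (pt y z) = b := by
    intro y hy
    obtain ⟨_, D₁, ⟨K₁', D₁', hc, _, _, h3⟩, hy1⟩ := h1.cover hy
    have := hφ y (hD₀ hy)
    obtain ⟨z₁, hz₁⟩ := (h3 y hy1).exists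
    exact ⟨F' (pt y z₁), (h3 y hy1).mono fun z hz => hc _ hz _ hz₁⟩
  refine ⟨fun y => if h : ∃ b, ∀ᶠ z in φ y, F' (pt y z) = b then h.choose else F' (pt y 0),
    fun y hy => ?_, ?_⟩
  · have h3 := h2 y hy
    simp only [dif_pos h3]
    exact h3.choose_spec
  · refine Run.mono h1 le_rfl le_rfl subset_rfl subset_rfl ?_
    rintro K₁ D₁ ⟨K₁', D₁', hc, _, hD1, h3⟩ x hx y hy
    have hx0 := hφ x (hD1 hx)
    have hy0 := hφ y (hD1 hy)
    obtain ⟨z₁, hz₁⟩ := (h3 x hx).exists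
    have ex : ∀ w ∈ D₁, ∀ᶠ z in φ w, F' (pt w z) = F' (pt x z₁) := fun w hw =>
      (h3 w hw).mono fun z hz => hc _ hz _ hz₁
    have hx3 : ∃ b, ∀ᶠ z in φ x, F' (pt x z) = b := ⟨_, ex x hx⟩
    have hy3 : ∃ b, ∀ᶠ z in φ y, F' (pt y z) = b := ⟨_, ex y hy⟩
    simp only [dif_pos hx3, dif_pos hy3]
    obtain ⟨z, hz, hz'⟩ := (hx3.choose_spec.and (ex x hx)).exists
    obtain ⟨w, hw, hw'⟩ := (hy3.choose_spec.and (ex y hy)).exists
    rw [← hz, ← hw, hz', hw']

end Pool.Agent.QC
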