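import Pool.Agent.QC.Run
import Pool.Agent.QC.Chistov

/-!
# Cost of matrix computations

Products, powers, characteristic polynomials, determinants and adjugates of matrices of
polynomials are computed with polynomially many ring operations (Chistov's algorithm).
-/

namespace Pool.Agent.QC

open MvPolynomial

variable {σ : Type*} {β γ : Type*}

namespace Calc

variable {M M' c c' : ℕ} {K K' P P' : Set (MvPolynomial σ ℤ)}

/-- Iterated computation. -/
theorem iter {P : ℕ → Set (MvPolynomial σ ℤ)} (n : ℕ)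
    (h : ∀ i < n, Calc M c (K ∪ {q | ∃ j < i, q ∈ P j}) (P i)) :
    Calc M (n * c) K {q | ∃ j < n, q ∈ P j} := by
  induction n with
  | zero =>
    have : {q : MvPolynomial σ ℤ | ∃ j < 0, q ∈ P j} = ∅ := by ext; simp
    rw [this, Nat.zero_mul]
    exact refl (Set.empty_subset _)
  | succ n ih =>
    have h1 := ih fun i hi => h i (by omega)
    have h2 := h n (by omega)
    have h3 := h1.trans h2
    rw [Nat.add_mul, one_mul]
    refine h3.mono_P ?_
    rintro q ⟨j, hj, hq⟩
    rcases Nat.lt_succ_iff_lt_or_eq.1 hj with hj | rfl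
    · exact Or.inl ⟨j, hj, hq⟩
    · exact Or.inr hq

/-- One polynomial after the other. -/
theorem iter' {p : ℕ → MvPolynomial σ ℤ} (n : ℕ)
    (h : ∀ i < n, Calc M c (K ∪ {q | ∃ j < i, q = p j}) {p i}) :
    Calc M (n * c) K {q | ∃ j < n, q = p j} := by
  have := iter (K := K) (M := M) (c := c) (P := fun i => {p i}) n (by simpa using h)
  simpa using this

/-- A matrix product. -/
theorem matMul {l m n : ℕ} {A : Matrix (Fin l) (Fin m) (MvPolynomial σ ℤ)}
    {B : Matrix (Fin m) (Fin n) (MvPolynomial σ ℤ)} (hA : ∀ i j, A i j ∈ K)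
    (hB : ∀ i j, B i j ∈ K) (hd : ∀ i j k, (A i j * B j k).totalDegree ≤ M) :
    Calc M (l * n * (2 * m)) K {q | ∃ i j, q = (A * B) i j} := by
  have h : ∀ x : Fin l × Fin n, Calc M (2 * m) K {(A * B) x.1 x.2} := by
    intro x
    have := dot (M := M) (K := K) (Finset.univ : Finset (Fin m)) (f := fun j => A x.1 j)
      (g := fun j => B j x.2) (fun j _ => hA _ _) (fun j _ => hB _ _) (fun j _ => hd _ _ _)
    rw [Finset.card_univ, Fintype.card_fin] at this
    rwa [Matrix.mul_apply]
  have h1 := range h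
  rw [Fintype.card_prod, Fintype.card_fin, Fintype.card_fin] at h1
  refine h1.mono_P ?_
  rintro _ ⟨i, j, rfl⟩
  exact ⟨(i, j), rfl⟩

end Calc

lemma totalDegree_matPow {n m : ℕ} {A : Matrix (Fin n) (Fin n) (MvPolynomial σ ℤ)}
    (hd : ∀ i j, (A i j).totalDegree ≤ m) (k : ℕ) (i j : Fin n) :
    ((A ^ k) i j).totalDegree ≤ k * m := by
  induction k generalizing i j with
  | zero =>
    rw [pow_zero, Matrix.one_apply]
    split_ifs <;> simp
  | succ k ih =>
    rw [pow_succ, Matrix.mul_apply]
    refine totalDegree_finsetSum_le fun l _ => (totalDegree_mul _ _).trans ?_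
    rw [Nat.add_mul, one_mul]
    exact add_le_add (ih i l) (hd l j)

/-- The first row of the powers of a matrix. -/
theorem Calc.firstRow {n m N M : ℕ} {K : Set (MvPolynomial σ ℤ)}
    {A : Matrix (Fin (n + 1)) (Fin (n + 1)) (MvPolynomial σ ℤ)} (hA : ∀ i j, A i j ∈ K)
    (hd : ∀ i j, (A i j).totalDegree ≤ m) (hM : N * m ≤ M) :
    Calc M (N * ((n + 1) * (2 * (n + 1)))) K {q | ∃ k < N + 1, ∃ j, q = (A ^ k) 0 j} := by
  have h0 : Calc M 0 K {q | ∃ j, q = (A ^ 0) 0 j} := by
    have h1 := (Calc.const (M := M) (K := K) 0).union (Calc.const (M := M) (K := K) 1)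
    refine h1.mono_P ?_
    rintro _ ⟨j, rfl⟩
    rw [pow_zero, Matrix.one_apply]
    split_ifs
    · right; simp
    · left; simp
  have h1 : Calc M (N * ((n + 1) * (2 * (n + 1)))) (K ∪ {q | ∃ j, q = (A ^ 0) 0 j})
      {q | ∃ k < N, q ∈ {q | ∃ j, q = (A ^ (k + 1)) 0 j}} := by
    refine Calc.iter (P := fun k => {q | ∃ j, q = (A ^ (k + 1)) 0 j}) N fun k hk => ?_
    have h2 : ∀ j : Fin (n + 1), Calc M (2 * (n + 1))
        (K ∪ {q | ∃ j, q = (A ^ 0) 0 j} ∪
          {q | ∃ i < k, q ∈ {q | ∃ j, q = (A ^ (i + 1)) 0 j}}) {(A ^ (k + 1)) 0 j} := by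
      intro j
      have h3 : (A ^ (k + 1)) 0 j = ∑ l, (A ^ k) 0 l * A l j := by
        rw [pow_succ, Matrix.mul_apply]
      rw [h3]
      have := Calc.dot (M := M) (K := K ∪ {q | ∃ j, q = (A ^ 0) 0 j} ∪
          {q | ∃ i < k, q ∈ {q | ∃ j, q = (A ^ (i + 1)) 0 j}})
        (Finset.univ : Finset (Fin (n + 1))) (f := fun l => (A ^ k) 0 l) (g := fun l => A l j)
        (fun l _ => ?_) (fun l _ => Or.inl (Or.inl (hA _ _))) (fun l _ => ?_)
      · rwa [Finset.card_univ, Fintype.card_fin] at this
      · rcases Nat.eq_zero_or_pos k with rfl | hk0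
        · exact Or.inl (Or.inr ⟨l, rfl⟩)
        · exact Or.inr ⟨k - 1, by omega, l, by rw [Nat.sub_add_cancel hk0]⟩
      · refine (totalDegree_mul _ _).trans ?_
        have h4 := totalDegree_matPow hd k 0 l
        have h5 := hd l j
        calc _ ≤ k * m + m := add_le_add h4 h5
          _ = (k + 1) * m := by ring
          _ ≤ N * m := Nat.mul_le_mul_right _ hk
          _ ≤ M := hM
    have h3 := Calc.range h2
    rw [Fintype.card_fin] at h3
    refine h3.mono_P ?_
    rintro _ ⟨j, rfl⟩
    exact ⟨j, rfl⟩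
  have h2 := h0.trans h1
  rw [zero_add] at h2
  refine h2.mono_P ?_
  rintro _ ⟨k, hk, j, rfl⟩
  rcases Nat.eq_zero_or_pos k with rfl | hk0
  · exact Or.inl ⟨j, rfl⟩
  · exact Or.inr ⟨k - 1, by omega, j, by rw [Nat.sub_add_cancel hk0]⟩

/-- The recursion for the coefficients of the reverse characteristic polynomial. -/
theorem charpolyRev_coeff_rec {R : Type*} [CommRing R] {n : ℕ}
    (A : Matrix (Fin (n + 1)) (Fin (n + 1)) R) (i : ℕ) :
    A.charpolyRev.coeff i = (A.submatrix Fin.succ Fin.succ).charpolyRev.coeff i -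
      ∑ j ∈ Finset.range i, A.charpolyRev.coeff j * (A ^ (i - j)) 0 0 := by
  have h := congrArg (PowerSeries.coeff i) (chistov A)
  rw [PowerSeries.coeff_mul, Polynomial.coeff_coe] at h
  rw [← h, Finset.Nat.sum_antidiagonal_eq_sum_range_succ_mk, Finset.sum_range_succ]
  simp

lemma totalDegree_charpolyRev_coeff {n m : ℕ} {A : Matrix (Fin n) (Fin n) (MvPolynomial σ ℤ)}
    (hd : ∀ i j, (A i j).totalDegree ≤ m) (i : ℕ) :
    (A.charpolyRev.coeff i).totalDegree ≤ i * m := by
  induction n generalizing i with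
  | zero =>
    have : A.charpolyRev = 1 := by simp [Matrix.charpolyRev]
    rw [this, Polynomial.coeff_one]
    split_ifs <;> simp
  | succ n ih =>
    induction i using Nat.strong_induction_on with
    | _ i ih2 =>
      rw [charpolyRev_coeff_rec]
      refine (totalDegree_sub _ _).trans (max_le (ih (fun i j => hd _ _) i) ?_)
      refine totalDegree_finsetSum_le fun j hj => (totalDegree_mul _ _).trans ?_
      have hj' := Finset.mem_range.1 hj
      have h1 := ih2 j hj'
      have h2 := totalDegree_matPow hd (i - j) 0 0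
      calc _ ≤ j * m + (i - j) * m := add_le_add h1 h2
        _ = i * m := by rw [← Nat.add_mul]; congr 1; omega

/-- The coefficients of the reverse characteristic polynomial are computed. -/
theorem Calc.charpolyRev {n m N M : ℕ} {K : Set (MvPolynomial σ ℤ)}
    {A : Matrix (Fin n) (Fin n) (MvPolynomial σ ℤ)} (hA : ∀ i j, A i j ∈ K)
    (hd : ∀ i j, (A i j).totalDegree ≤ m) (hM : N * m ≤ M) :
    Calc M (n * (N * (n * (2 * n)) + (N + 1) * (2 * N + 1))) K
      {q | ∃ i < N + 1, q = A.charpolyRev.coeff i} := by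
  induction n with
  | zero =>
    have : A.charpolyRev = 1 := by simp [Matrix.charpolyRev]
    have h1 := (Calc.const (M := M) (K := K) 0).union (Calc.const (M := M) (K := K) 1)
    refine h1.mono (le_refl _) (by simp) subset_rfl ?_
    rintro _ ⟨i, hi, rfl⟩
    rw [this, Polynomial.coeff_one]
    split_ifs
    · right; simp
    · left; simp
  | succ n ih =>
    have h1 := ih (A := A.submatrix Fin.succ Fin.succ) (fun i j => hA _ _) (fun i j => hd _ _)
    have h2 := Calc.firstRow (N := N) hA hd hM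
    have h3 := h1.union h2
    have h4 : Calc M ((N + 1) * (2 * N + 1))
        (K ∪ ({q | ∃ i < N + 1, q = (A.submatrix Fin.succ Fin.succ).charpolyRev.coeff i} ∪
          {q | ∃ k < N + 1, ∃ j, q = (A ^ k) 0 j}))
        {q | ∃ i < N + 1, q = A.charpolyRev.coeff i} := by
      refine Calc.iter' (N + 1) fun i hi => ?_
      have h5 : Calc M (2 * N) (K ∪
          ({q | ∃ i < N + 1, q = (A.submatrix Fin.succ Fin.succ).charpolyRev.coeff i} ∪
          {q | ∃ k < N + 1, ∃ j, q = (A ^ k) 0 j}) ∪ {q | ∃ j < i, q = A.charpolyRev.coeff j})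
          {∑ j ∈ Finset.range i, A.charpolyRev.coeff j * (A ^ (i - j)) 0 0} := by
        refine (Calc.dot (Finset.range i) (fun j hj => ?_) (fun j hj => ?_)
          (fun j hj => ?_)).mono_c (by rw [Finset.card_range]; omega)
        · exact Or.inr ⟨j, Finset.mem_range.1 hj, rfl⟩
        · exact Or.inl (Or.inr (Or.inr ⟨i - j, by omega, 0, rfl⟩))
        · have hj' := Finset.mem_range.1 hj
          refine (totalDegree_mul _ _).trans ?_
          calc _ ≤ j * m + (i - j) * m :=
                add_le_add (totalDegree_charpolyRev_coeff hd j) (totalDegree_matPow hd _ 0 0)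
            _ = i * m := by rw [← Nat.add_mul]; congr 1; omega
            _ ≤ N * m := Nat.mul_le_mul_right _ (by omega)
            _ ≤ M := hM
      have h6 := totalDegree_charpolyRev_coeff hd i
      rw [charpolyRev_coeff_rec] at h6 ⊢
      refine h5.trans' (Calc.sub (Or.inl (Or.inl (Or.inr (Or.inl ⟨i, hi, rfl⟩)))) (Or.inr rfl)
        (h6.trans ?_))
      exact (Nat.mul_le_mul_right _ (by omega)).trans hM
    refine (h3.trans' h4).mono_c ?_
    have : n * (N * (n * (2 * n)) + (N + 1) * (2 * N + 1)) ≤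
        n * (N * ((n + 1) * (2 * (n + 1))) + (N + 1) * (2 * N + 1)) := by
      gcongr <;> omega
    nlinarith

end Pool.Agent.QC
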