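import Pool.Agent.QC.Det

/-!
# A vector on which a nondegenerate quadratic form is positive

For a symmetric matrix `H` of computed polynomials with nonzero determinant, a computation of
polynomial length (with polynomials of degree `O(n m)`) either finds out that `H` is negative
definite or computes a vector `a` with `a . H a > 0`.
-/

namespace Pool.Agent.QC

open MvPolynomial Matrix

/-! ### Linear algebra -/

section Algebra

variable {ι : Type*} [Fintype ι] [DecidableEq ι]

/-- `H` is negative definite on the vectors supported in `I`. -/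
def NegOn (H : Matrix ι ι ℝ) (I : Finset ι) : Prop :=
  ∀ x : ι → ℝ, (∀ i, i ∉ I → x i = 0) → x ≠ 0 → x ⬝ᵥ H *ᵥ x < 0

omit [DecidableEq ι] in
lemma negOn_empty (H : Matrix ι ι ℝ) : NegOn H ∅ := by
  intro x hx hx0
  exact absurd (funext fun i => hx i (Finset.notMem_empty i)) hx0

omit [DecidableEq ι] in
lemma dot_symm {H : Matrix ι ι ℝ} (hH : H.IsSymm) (x y : ι → ℝ) :
    x ⬝ᵥ H *ᵥ y = y ⬝ᵥ H *ᵥ x := by
  rw [dotProduct_mulVec, ← mulVec_transpose, hH.eq, dotProduct_comm]

omit [DecidableEq ι] in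
lemma dot_add {H : Matrix ι ι ℝ} (hH : H.IsSymm) (x y : ι → ℝ) :
    (x + y) ⬝ᵥ H *ᵥ (x + y) = x ⬝ᵥ H *ᵥ x + 2 * (x ⬝ᵥ H *ᵥ y) + y ⬝ᵥ H *ᵥ y := by
  rw [mulVec_add, dotProduct_add, add_dotProduct, add_dotProduct, dot_symm hH y x]
  ring

omit [DecidableEq ι] in
lemma dot_sub {H : Matrix ι ι ℝ} (hH : H.IsSymm) (x y : ι → ℝ) :
    (x - y) ⬝ᵥ H *ᵥ (x - y) = x ⬝ᵥ H *ᵥ x - 2 * (x ⬝ᵥ H *ᵥ y) + y ⬝ᵥ H *ᵥ y := by
  rw [mulVec_sub, dotProduct_sub, sub_dotProduct, sub_dotProduct, dot_symm hH y x]
  ring

/-- The properties of the vector attached to `i ∉ I`. -/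
structure IsLift (H : Matrix ι ι ℝ) (I : Finset ι) (i : ι) (a : ι → ℝ) : Prop where
  /-- support -/
  supp : ∀ j, j ∉ I → j ≠ i → a j = 0
  /-- nonzero at `i` -/
  ne : a i ≠ 0
  /-- orthogonal to the coordinates in `I` -/
  orth : ∀ j ∈ I, (H *ᵥ a) j = 0

lemma NegOn.insert {H : Matrix ι ι ℝ} (hH : H.IsSymm) {I : Finset ι} (hI : NegOn H I) {i : ι}
    {a : ι → ℝ} (ha : IsLift H I i a) (hneg : a ⬝ᵥ H *ᵥ a < 0) : NegOn H (insert i I) := by
  by_cases hiI : i ∈ I
  · rwa [Finset.insert_eq_of_mem hiI]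
  intro x hx hx0
  set t : ℝ := x i / a i with ht
  set y : ι → ℝ := x - t • a with hy
  have hyi : y i = 0 := by
    simp only [hy, ht, Pi.sub_apply, Pi.smul_apply, smul_eq_mul]
    rw [div_mul_cancel₀ _ ha.ne, sub_self]
  have hysupp : ∀ j, j ∉ I → y j = 0 := by
    intro j hj
    rcases eq_or_ne j i with rfl | hji
    · exact hyi
    · have h1 : x j = 0 := hx j (by simp [hji, hj])
      have h2 : a j = 0 := ha.supp j hj hji
      simp [hy, h1, h2]
  have hya : y ⬝ᵥ H *ᵥ a = 0 := by
    rw [dotProduct]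
    refine Finset.sum_eq_zero fun j _ => ?_
    by_cases hj : j ∈ I
    · rw [ha.orth j hj, mul_zero]
    · rw [hysupp j hj, zero_mul]
  have hx1 : x = y + t • a := by simp [hy]
  have hx2 : x ⬝ᵥ H *ᵥ x = y ⬝ᵥ H *ᵥ y + t ^ 2 * (a ⬝ᵥ H *ᵥ a) := by
    rw [hx1, dot_add hH, mulVec_smul, dotProduct_smul, dotProduct_smul, smul_dotProduct, hya]
    simp only [smul_eq_mul]
    ring
  rw [hx2]
  by_cases hy0 : y = 0
  · have ht0 : t ≠ 0 := by
      rintro h
      apply hx0
      rw [hx1, hy0, h]
      simp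
    rw [hy0]
    have : 0 < t ^ 2 := by positivity
    simp only [mulVec_zero, dotProduct_zero, zero_add]
    nlinarith
  · have h1 := hI y hysupp hy0
    nlinarith [sq_nonneg t]

lemma NegOn.det_ne_zero {H : Matrix ι ι ℝ} {I : Finset ι} (hI : NegOn H I) :
    (H.submatrix (fun i : I => (i : ι)) (fun i : I => (i : ι))).det ≠ 0 := by
  intro h
  obtain ⟨v, hv0, hv⟩ := Matrix.exists_mulVec_eq_zero_iff.2 h
  set x : ι → ℝ := fun i => if h : i ∈ I then v ⟨i, h⟩ else 0 with hx
  have hxI : ∀ i : I, x i = v i := fun i => by simp [hx]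
  have hx0 : x ≠ 0 := by
    intro h0
    apply hv0
    funext i
    rw [← hxI i, h0]
    rfl
  have h1 := hI x (fun i hi => by simp [hx, hi]) hx0
  have h2 : ∀ i ∈ I, (H *ᵥ x) i = 0 := by
    intro i hi
    have h3 := congrFun hv ⟨i, hi⟩
    simp only [mulVec, dotProduct, submatrix_apply, Pi.zero_apply] at h3 ⊢
    rw [← h3, ← Finset.sum_subset (Finset.subset_univ I) (fun j _ hj => by simp [hx, hj]),
      ← Finset.sum_coe_sort I (fun j => H i j * x j)]
    exact Finset.sum_congr rfl fun j _ => by rw [hxI j]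
  have h3 : x ⬝ᵥ H *ᵥ x = 0 := by
    rw [dotProduct]
    refine Finset.sum_eq_zero fun j _ => ?_
    by_cases hj : j ∈ I
    · rw [h2 j hj, mul_zero]
    · simp [hx, hj]
  linarith

/-- If all values `a_i . H a_j` vanish, then `det H = 0`, unless nothing is left. -/
lemma det_eq_zero_of_forall {H : Matrix ι ι ℝ} {I : Finset ι}
    {a : ι → ι → ℝ} (ha : ∀ i, i ∉ I → IsLift H I i (a i))
    (h0 : ∀ i, i ∉ I → ∀ j, j ∉ I → a i ⬝ᵥ H *ᵥ a j = 0) {i : ι} (hi : i ∉ I) : H.det = 0 := by
  rw [← Matrix.exists_mulVec_eq_zero_iff]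
  refine ⟨a i, fun h => (ha i hi).ne (by rw [h]; rfl), ?_⟩
  funext j
  by_cases hj : j ∈ I
  · exact (ha i hi).orth j hj
  · have h1 := h0 j hj i hi
    rw [dotProduct, Finset.sum_eq_single j] at h1
    · exact (mul_eq_zero.1 h1).resolve_left (ha j hj).ne
    · intro k _ hk
      by_cases hkI : k ∈ I
      · rw [(ha i hi).orth k hkI, mul_zero]
      · rw [(ha j hj).supp k hkI hk, zero_mul]
    · simp

end Algebra

/-! ### The vectors by Cramer's rule -/

section Cramer

variable {ι : Type*} [Fintype ι] [DecidableEq ι] {R : Type*} [CommRing R]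

/-- The vector attached to `i ∉ I`. -/
noncomputable def cvec (H : Matrix ι ι R) (I : Finset ι) (i j : ι) : R :=
  if h : j ∈ I then
    0 - ((H.submatrix (fun i : I => (i : ι)) (fun i : I => (i : ι))).updateCol ⟨j, h⟩
      (fun k : I => H k i)).det
  else if j = i then (H.submatrix (fun i : I => (i : ι)) (fun i : I => (i : ι))).det
  else 0

omit [Fintype ι] in
lemma cvec_map {S : Type*} [CommRing S] (f : R →+* S) (H : Matrix ι ι R) (I : Finset ι)
    (i j : ι) : f (cvec H I i j) = cvec (H.map f) I i j := by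
  unfold cvec
  split_ifs with h1 h2
  · rw [map_sub, map_zero, RingHom.map_det]
    congr 2
    ext k l
    simp only [RingHom.mapMatrix_apply, map_apply, updateCol_apply, submatrix_apply]
    split_ifs <;> rfl
  · rw [RingHom.map_det]
    rfl
  · exact map_zero f

theorem isLift_cvec {H : Matrix ι ι ℝ} {I : Finset ι} (hI : NegOn H I)
    {i : ι} (hi : i ∉ I) : IsLift H I i (cvec H I i) := by
  refine ⟨fun j hj hji => ?_, ?_, fun k hk => ?_⟩
  · simp [cvec, hj, hji]
  · simp only [cvec, dif_neg hi, if_true]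
    exact hI.det_ne_zero
  · set A : Matrix I I ℝ := H.submatrix (fun i : I => (i : ι)) (fun i : I => (i : ι)) with hA
    have h1 : ∀ j : I, cvec H I i j = - cramer A (fun k : I => H k i) j := by
      intro j
      rw [cramer_apply]
      simp only [cvec, dif_pos j.2]
      ring
    have h2 : cvec H I i i = A.det := by simp [cvec, hi, hA]
    have h3 : ∀ j, j ∉ insert i I → H k j * cvec H I i j = 0 := by
      intro j hj
      have hj1 : j ∉ I := fun h => hj (Finset.mem_insert_of_mem h)
      have hj2 : j ≠ i := fun h => hj (by rw [h]; exact Finset.mem_insert_self i I)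
      simp [cvec, hj1, hj2]
    rw [mulVec, dotProduct, ← Finset.sum_subset (Finset.subset_univ (insert i I))
      (fun j _ hj => h3 j hj), Finset.sum_insert hi, h2,
      ← Finset.sum_coe_sort I (fun j => H k j * cvec H I i j)]
    have h4 : ∑ j : I, H k j * cvec H I i j =
        - (A *ᵥ cramer A (fun k : I => H k i)) ⟨k, hk⟩ := by
      rw [mulVec, dotProduct, ← Finset.sum_neg_distrib]
      refine Finset.sum_congr rfl fun j _ => ?_
      rw [h1 j, hA, submatrix_apply]
      ring
    rw [h4, mulVec_cramer]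
    simp only [Pi.smul_apply, smul_eq_mul]
    ring

end Cramer

/-! ### The computation -/

section Computation

variable {σ : Type*} {β γ : Type*}

/-- First find `S x`, then run something that depends on it. -/
theorem Dec.run {M c c' : ℕ} {K : Set (MvPolynomial σ ℤ)} {D : Set (σ → ℝ)}
    {Q : Set (MvPolynomial σ ℤ) → Set (σ → ℝ) → Prop} {S : (σ → ℝ) → γ} (h : Dec M c K D S)
    (h' : ∀ s, Run M Q c' K (D ∩ S ⁻¹' {s})) : Run M Q (c + c') K D := by
  refine Run.bind h fun K₀ D₀ h0 K₁ D₁ h1 _ h3 h4 => ?_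
  rcases Set.eq_empty_or_nonempty D₁ with rfl | ⟨x, hx⟩
  · exact (h' (S 0)).mono le_rfl le_rfl h1 (Set.empty_subset _) fun _ _ => id
  · refine (h' (S x)).mono le_rfl le_rfl h1 (fun y hy => ⟨h3 hy, ?_⟩) fun _ _ => id
    exact h0 y (h4 hy) x (h4 hx)

/-- Determinants are computed with `cst k` operations. -/
def DetCalc (σ : Type*) (cst : ℕ → ℕ) : Prop :=
  ∀ (κ : Type) [Fintype κ] [DecidableEq κ] (K : Set (MvPolynomial σ ℤ)) (m : ℕ)
    (B : Matrix κ κ (MvPolynomial σ ℤ)), (∀ i j, B i j ∈ K) → (∀ i j, (B i j).totalDegree ≤ m) →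
    Calc (Fintype.card κ * m) (cst (Fintype.card κ)) K {B.det}

lemma totalDegree_det_le {κ : Type*} [Fintype κ] [DecidableEq κ] {m : ℕ}
    (B : Matrix κ κ (MvPolynomial σ ℤ)) (h : ∀ i j, (B i j).totalDegree ≤ m) :
    B.det.totalDegree ≤ Fintype.card κ * m := by
  rw [Matrix.det_apply]
  refine totalDegree_finsetSum_le fun τ _ => ?_
  have h1 : (∏ i, B (τ i) i).totalDegree ≤ Fintype.card κ * m := by
    refine (totalDegree_finsetProd _ _).trans ?_
    refine (Finset.sum_le_card_nsmul _ _ m fun i _ => h _ _).trans ?_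
    simp
  rcases Int.units_eq_one_or (Equiv.Perm.sign τ) with h2 | h2
  · simpa [h2] using h1
  · simpa [h2] using h1

variable {n m : ℕ} (H : Matrix (Fin n) (Fin n) (MvPolynomial σ ℤ))

/-- The vectors as polynomials. -/
noncomputable def vpoly (I : Finset (Fin n)) (i j : Fin n) : MvPolynomial σ ℤ :=
  cvec H I i j

/-- The values of the form. -/
noncomputable def spoly (I : Finset (Fin n)) (i j : Fin n) : MvPolynomial σ ℤ :=
  ∑ k, vpoly H I i k * ∑ l, H k l * vpoly H I j l

lemma ev_vpoly (I : Finset (Fin n)) (i j : Fin n) (x : σ → ℝ) :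
    ev x (vpoly H I i j) = cvec (H.map (ev x)) I i j :=
  cvec_map ((aeval x : MvPolynomial σ ℤ →ₐ[ℤ] ℝ).toRingHom) H I i j

lemma ev_spoly (I : Finset (Fin n)) (i j : Fin n) (x : σ → ℝ) :
    ev x (spoly H I i j) = (fun k => ev x (vpoly H I i k)) ⬝ᵥ
      (H.map (ev x)) *ᵥ (fun k => ev x (vpoly H I j k)) := by
  simp only [spoly, ev_sum, ev_mul, dotProduct, mulVec, map_apply]

variable {H}

lemma totalDegree_vpoly (hm : ∀ i j, (H i j).totalDegree ≤ m) (I : Finset (Fin n))
    (i j : Fin n) : (vpoly H I i j).totalDegree ≤ I.card * m := by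
  unfold vpoly cvec
  split_ifs with h1 h2
  · rw [zero_sub, totalDegree_neg]
    have := totalDegree_det_le (m := m)
      ((H.submatrix (fun i : I => (i : Fin n)) (fun i : I => (i : Fin n))).updateCol ⟨j, h1⟩
        (fun k : I => H k i)) (fun k l => by
          simp only [updateCol_apply, submatrix_apply]
          split_ifs
          · exact hm _ _
          · exact hm _ _)
    simpa using this
  · have := totalDegree_det_le (m := m)
      (H.submatrix (fun i : I => (i : Fin n)) (fun i : I => (i : Fin n))) (fun k l => hm _ _)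
    simpa using this
  · simp

theorem calc_vpoly {cst : ℕ → ℕ} (hdet : DetCalc σ cst) {K : Set (MvPolynomial σ ℤ)}
    (hK : ∀ i j, H i j ∈ K) (hm : ∀ i j, (H i j).totalDegree ≤ m) (I : Finset (Fin n))
    (i j : Fin n) : Calc (I.card * m) (cst I.card + 1) K {vpoly H I i j} := by
  unfold vpoly cvec
  split_ifs with h1 h2
  · have h := hdet I K m
      ((H.submatrix (fun i : I => (i : Fin n)) (fun i : I => (i : Fin n))).updateCol ⟨j, h1⟩
        (fun k : I => H k i)) (fun k l => by
          simp only [updateCol_apply, submatrix_apply]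
          split_ifs
          · exact hK _ _
          · exact hK _ _) (fun k l => by
          simp only [updateCol_apply, submatrix_apply]
          split_ifs
          · exact hm _ _
          · exact hm _ _)
    have hd := totalDegree_vpoly hm I i j
    simp only [vpoly, cvec, dif_pos h1] at hd
    rw [Fintype.card_coe] at h
    have h3 : Calc (I.card * m) 0 K {(0 : MvPolynomial σ ℤ)} := by
      simpa using Calc.const (M := I.card * m) (K := K) 0
    refine ((h.union h3).trans' (Calc.sub (Or.inr (Or.inr rfl)) (Or.inr (Or.inl rfl)) hd)).mono_c ?_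
    omega
  · have h := hdet I K m
      (H.submatrix (fun i : I => (i : Fin n)) (fun i : I => (i : Fin n)))
      (fun k l => hK _ _) (fun k l => hm _ _)
    rw [Fintype.card_coe] at h
    exact h.mono_c (by omega)
  · have := Calc.const (M := I.card * m) (K := K) 0
    rw [C_0] at this
    exact this.mono_c (by omega)

/-- Cost of one stage. -/
def vcost (cst : ℕ → ℕ) (n : ℕ) : ℕ := n * n * (cst n + 1) + n * n * (4 * n) + n * n + n

/-- The goal of the computation. -/
def VGoal (H : Matrix (Fin n) (Fin n) (MvPolynomial σ ℤ)) (m : ℕ)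
    (K : Set (MvPolynomial σ ℤ)) (D : Set (σ → ℝ)) : Prop :=
  (∀ x ∈ D, NegOn (H.map (ev x)) Finset.univ) ∨
    ∃ a : Fin n → MvPolynomial σ ℤ, (∀ i, a i ∈ K) ∧ (∀ i, (a i).totalDegree ≤ n * m) ∧
      ∀ x ∈ D, 0 < (fun k => ev x (a k)) ⬝ᵥ (H.map (ev x)) *ᵥ (fun k => ev x (a k))

lemma exists_notMem_of_ne_univ {I : Finset (Fin n)} (hI : I ≠ Finset.univ) : ∃ i, i ∉ I := by
  by_contra h
  refine hI (Finset.eq_univ_iff_forall.2 fun i => ?_)
  by_contra h'
  exact h ⟨i, h'⟩

theorem calc_spoly {cst : ℕ → ℕ} (hcst : Monotone cst) (hdet : DetCalc σ cst)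
    {K : Set (MvPolynomial σ ℤ)} (hK : ∀ i j, H i j ∈ K)
    (hm : ∀ i j, (H i j).totalDegree ≤ m) {I : Finset (Fin n)} (hI : I ≠ Finset.univ) :
    Calc (2 * n * m) (n * n * (cst n + 1) + n * n * (4 * n)) K
      ((Set.range fun ij : Fin n × Fin n => vpoly H I ij.1 ij.2) ∪
        Set.range fun ij : Fin n × Fin n => spoly H I ij.1 ij.2) := by
  have hIc : I.card + 1 ≤ n := by
    obtain ⟨i, hi⟩ := exists_notMem_of_ne_univ hI
    have := Finset.card_lt_univ_of_notMem (s := I) hi
    rw [Fintype.card_fin] at this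
    omega
  have hIm : I.card * m + m ≤ n * m := by
    calc _ = (I.card + 1) * m := by ring
      _ ≤ _ := Nat.mul_le_mul_right _ hIc
  have h1 : Calc (2 * n * m) (Fintype.card (Fin n × Fin n) * (cst n + 1)) K
      (Set.range fun ij : Fin n × Fin n => vpoly H I ij.1 ij.2) := by
    refine Calc.range fun ij => ?_
    refine (calc_vpoly hdet hK hm I ij.1 ij.2).mono ?_ ?_ subset_rfl subset_rfl
    · nlinarith
    · exact Nat.succ_le_succ (hcst (by omega))
  set P := Set.range fun ij : Fin n × Fin n => vpoly H I ij.1 ij.2 with hP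
  have hvm : ∀ i j, (vpoly H I i j).totalDegree ≤ I.card * m := totalDegree_vpoly hm I
  have hg : ∀ k j, (∑ l, H k l * vpoly H I j l).totalDegree ≤ m + I.card * m := fun k j =>
    totalDegree_finsetSum_le fun l _ => (totalDegree_mul _ _).trans (add_le_add (hm _ _) (hvm _ _))
  have h2 : Calc (2 * n * m) (Fintype.card (Fin n × Fin n) * (2 * n)) (K ∪ P)
      (Set.range fun ij : Fin n × Fin n => ∑ l, H ij.1 l * vpoly H I ij.2 l) := by
    refine Calc.range fun ij => ?_
    refine (Calc.dot (M := 2 * n * m) (K := K ∪ P) Finset.univ (f := fun l => H ij.1 l)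
      (g := fun l => vpoly H I ij.2 l) (fun l _ => Or.inl (hK _ _))
      (fun l _ => Or.inr ⟨(ij.2, l), rfl⟩) fun l _ => ?_).mono_c (by simp)
    refine (totalDegree_mul _ _).trans ((add_le_add (hm _ _) (hvm _ _)).trans ?_)
    nlinarith
  set P' := Set.range fun ij : Fin n × Fin n => ∑ l, H ij.1 l * vpoly H I ij.2 l with hP'
  have h3 : Calc (2 * n * m) (Fintype.card (Fin n × Fin n) * (2 * n)) (K ∪ P ∪ P')
      (Set.range fun ij : Fin n × Fin n => spoly H I ij.1 ij.2) := by
    refine Calc.range fun ij => ?_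
    refine (Calc.dot (M := 2 * n * m) (K := K ∪ P ∪ P') Finset.univ
      (f := fun k => vpoly H I ij.1 k)
      (g := fun k => ∑ l, H k l * vpoly H I ij.2 l) (fun k _ => Or.inl (Or.inr ⟨(ij.1, k), rfl⟩))
      (fun k _ => Or.inr ⟨(k, ij.2), rfl⟩) fun k _ => ?_).mono_c (by simp)
    refine (totalDegree_mul _ _).trans ((add_le_add (hvm _ _) (hg _ _)).trans ?_)
    nlinarith
  have h4 := h1.trans (h2.trans' h3)
  refine h4.mono_c ?_
  rw [Fintype.card_prod, Fintype.card_fin]
  nlinarith

theorem totalDegree_vpoly_le (hm : ∀ i j, (H i j).totalDegree ≤ m) (I : Finset (Fin n))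
    (i j : Fin n) : (vpoly H I i j).totalDegree ≤ n * m := by
  refine (totalDegree_vpoly hm I i j).trans (Nat.mul_le_mul_right _ ?_)
  simpa using Finset.card_le_univ I

theorem run_vec_aux {cst : ℕ → ℕ} (hcst : Monotone cst) (hdet : DetCalc σ cst)
    (hsymm : H.IsSymm) (hm : ∀ i j, (H i j).totalDegree ≤ m) (r : ℕ) :
    ∀ (I : Finset (Fin n)) (K : Set (MvPolynomial σ ℤ)) (D : Set (σ → ℝ)), n - I.card ≤ r →
      (∀ i j, H i j ∈ K) → (∀ x ∈ D, NegOn (H.map (ev x)) I) →
      (∀ x ∈ D, (H.map (ev x)).det ≠ 0) →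
      Run (2 * n * m) (VGoal H m) (r * vcost cst n) K D := by
  induction r with
  | zero =>
    intro I K D hr _ hneg _
    have hI : I = Finset.univ := Finset.eq_univ_of_card I (by
      have := Finset.card_le_univ I
      rw [Fintype.card_fin] at this ⊢
      omega)
    subst hI
    exact Run.pure (Or.inl hneg)
  | succ r ih =>
    intro I K D hr hK hneg hdet0
    by_cases hI : I = Finset.univ
    · subst hI
      exact Run.pure (Or.inl hneg)
    have hsy : ∀ x : σ → ℝ, (H.map (ev x)).IsSymm := fun x => hsymm.map _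
    have hcalc := calc_spoly hcst hdet hK hm hI
    set P := (Set.range fun ij : Fin n × Fin n => vpoly H I ij.1 ij.2) ∪
        Set.range fun ij : Fin n × Fin n => spoly H I ij.1 ij.2 with hP
    have hv : ∀ i j, vpoly H I i j ∈ K ∪ P := fun i j => Or.inr (Or.inl ⟨(i, j), rfl⟩)
    have hsgn : Dec (2 * n * m) (Fintype.card (Fin n × Fin n) * 1) (K ∪ P) D
        (fun x (ij : Fin n × Fin n) => SignType.sign (ev x (spoly H I ij.1 ij.2))) :=
      Dec.pi fun ij => Dec.sign (Or.inr (Or.inr ⟨ij, rfl⟩))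
    have hlift : ∀ x ∈ D, ∀ i, i ∉ I →
        IsLift (H.map (ev x)) I i (fun k => ev x (vpoly H I i k)) := by
      intro x hx i hi
      have := isLift_cvec (hneg x hx) hi
      convert this using 1
      funext k
      exact ev_vpoly H I i k x
    have hmain : Run (2 * n * m) (VGoal H m) (r * vcost cst n + (n * n + n)) (K ∪ P) D := by
      have h5 := Dec.run (c' := r * vcost cst n + n) (Q := VGoal H m) hsgn ?_
      · refine h5.mono_c ?_
        rw [Fintype.card_prod, Fintype.card_fin]
        omega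
      intro s
      have hs : ∀ x ∈ D ∩ (fun x (ij : Fin n × Fin n) =>
          SignType.sign (ev x (spoly H I ij.1 ij.2))) ⁻¹' {s}, ∀ i j,
          SignType.sign ((fun k => ev x (vpoly H I i k)) ⬝ᵥ
            (H.map (ev x)) *ᵥ (fun k => ev x (vpoly H I j k))) = s (i, j) := by
        intro x hx i j
        rw [← ev_spoly]
        exact congrFun hx.2 (i, j)
      set D' := D ∩ (fun x (ij : Fin n × Fin n) =>
          SignType.sign (ev x (spoly H I ij.1 ij.2))) ⁻¹' {s} with hD'
      by_cases h1 : ∃ i, i ∉ I ∧ s (i, i) = 1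
      · obtain ⟨i, _, h1⟩ := h1
        refine Run.pure (Or.inr ⟨vpoly H I i, hv i, totalDegree_vpoly_le hm I i, fun x hx => ?_⟩)
        have := hs x hx i i
        rw [h1] at this
        exact sign_eq_one_iff.1 this
      by_cases h2 : ∃ i, i ∉ I ∧ s (i, i) = -1
      · obtain ⟨i, hi, h2⟩ := h2
        refine (ih (insert i I) (K ∪ P) D' ?_ (fun i j => Or.inl (hK i j)) (fun x hx => ?_)
          (fun x hx => hdet0 x hx.1)).mono_c (by omega)
        · rw [Finset.card_insert_of_notMem hi]; omega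
        · refine (hneg x hx.1).insert (hsy x) (hlift x hx.1 i hi) ?_
          have := hs x hx i i
          rw [h2] at this
          exact sign_eq_neg_one_iff.1 this
      have h3 : ∀ i, i ∉ I → s (i, i) = 0 := by
        intro i hi
        have h4 : s (i, i) ≠ 1 := fun h => h1 ⟨i, hi, h⟩
        have h5 : s (i, i) ≠ -1 := fun h => h2 ⟨i, hi, h⟩
        revert h4 h5
        generalize s (i, i) = t
        intro h4 h5
        rcases t with _ | _ | _
        · rfl
        · exact absurd rfl h5
        · exact absurd rfl h4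
      have h0 : ∀ x ∈ D', ∀ i, i ∉ I → (fun k => ev x (vpoly H I i k)) ⬝ᵥ
            (H.map (ev x)) *ᵥ (fun k => ev x (vpoly H I i k)) = 0 := by
        intro x hx i hi
        have := hs x hx i i
        rw [h3 i hi] at this
        exact sign_eq_zero_iff.1 this
      by_cases h4 : ∃ i j, i ∉ I ∧ j ∉ I ∧ s (i, j) = 1
      · obtain ⟨i, j, hi, hj, h4⟩ := h4
        have hcal : Calc (2 * n * m) (Fintype.card (Fin n) * 1) (K ∪ P)
            (Set.range fun k => vpoly H I i k + vpoly H I j k) :=
          Calc.range fun k => Calc.add (hv i k) (hv j k)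
            ((totalDegree_add _ _).trans (max_le
              ((totalDegree_vpoly_le hm I i k).trans (by nlinarith))
              ((totalDegree_vpoly_le hm I j k).trans (by nlinarith))))
        refine (hcal.run (c' := 0) (Run.pure (Or.inr
          ⟨fun k => vpoly H I i k + vpoly H I j k, fun k => Or.inr ⟨k, rfl⟩, fun k =>
            (totalDegree_add _ _).trans (max_le (totalDegree_vpoly_le hm I i k)
              (totalDegree_vpoly_le hm I j k)), fun x hx => ?_⟩))).mono_c
              (by rw [Fintype.card_fin]; omega)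
        have e1 : (fun k => ev x (vpoly H I i k + vpoly H I j k)) =
            (fun k => ev x (vpoly H I i k)) + (fun k => ev x (vpoly H I j k)) := by
          funext k; simp
        rw [e1, dot_add (hsy x), h0 x hx i hi, h0 x hx j hj]
        have := hs x hx i j
        rw [h4] at this
        have := sign_eq_one_iff.1 this
        linarith
      by_cases h5 : ∃ i j, i ∉ I ∧ j ∉ I ∧ s (i, j) = -1
      · obtain ⟨i, j, hi, hj, h5⟩ := h5
        have hcal : Calc (2 * n * m) (Fintype.card (Fin n) * 1) (K ∪ P)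
            (Set.range fun k => vpoly H I i k - vpoly H I j k) :=
          Calc.range fun k => Calc.sub (hv i k) (hv j k)
            ((totalDegree_sub _ _).trans (max_le
              ((totalDegree_vpoly_le hm I i k).trans (by nlinarith))
              ((totalDegree_vpoly_le hm I j k).trans (by nlinarith))))
        refine (hcal.run (c' := 0) (Run.pure (Or.inr
          ⟨fun k => vpoly H I i k - vpoly H I j k, fun k => Or.inr ⟨k, rfl⟩, fun k =>
            (totalDegree_sub _ _).trans (max_le (totalDegree_vpoly_le hm I i k)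
              (totalDegree_vpoly_le hm I j k)), fun x hx => ?_⟩))).mono_c
              (by rw [Fintype.card_fin]; omega)
        have e1 : (fun k => ev x (vpoly H I i k - vpoly H I j k)) =
            (fun k => ev x (vpoly H I i k)) - (fun k => ev x (vpoly H I j k)) := by
          funext k; simp
        rw [e1, dot_sub (hsy x), h0 x hx i hi, h0 x hx j hj]
        have := hs x hx i j
        rw [h5] at this
        have := sign_eq_neg_one_iff.1 this
        linarith
      have h6 : ∀ i, i ∉ I → ∀ j, j ∉ I → s (i, j) = 0 := by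
        intro i hi j hj
        have h7 : s (i, j) ≠ 1 := fun h => h4 ⟨i, j, hi, hj, h⟩
        have h8 : s (i, j) ≠ -1 := fun h => h5 ⟨i, j, hi, hj, h⟩
        revert h7 h8
        generalize s (i, j) = t
        intro h7 h8
        rcases t with _ | _ | _
        · rfl
        · exact absurd rfl h8
        · exact absurd rfl h7
      have hemp : D' = ∅ := by
        rw [Set.eq_empty_iff_forall_notMem]
        intro x hx
        obtain ⟨i, hi⟩ := exists_notMem_of_ne_univ hI
        refine hdet0 x hx.1 (det_eq_zero_of_forall (H := H.map (ev x)) (I := I)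
          (a := fun i k => ev x (vpoly H I i k)) (fun i hi => hlift x hx.1 i hi)
          (fun i hi j hj => ?_) hi)
        have := hs x hx i j
        rw [h6 i hi j hj] at this
        exact sign_eq_zero_iff.1 this
      rw [hemp]
      exact Run.pure (Or.inl (by simp))
    refine (hcalc.run hmain).mono_c ?_
    unfold vcost
    nlinarith

/-- A vector `a` with `a . H a > 0`, unless `H` is negative definite. -/
theorem run_vec {cst : ℕ → ℕ} (hcst : Monotone cst) (hdet : DetCalc σ cst)
    (hsymm : H.IsSymm) (hm : ∀ i j, (H i j).totalDegree ≤ m)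
    {K : Set (MvPolynomial σ ℤ)} {D : Set (σ → ℝ)} (hK : ∀ i j, H i j ∈ K)
    (hdet0 : ∀ x ∈ D, (H.map (ev x)).det ≠ 0) :
    Run (2 * n * m) (VGoal H m) (n * vcost cst n) K D :=
  run_vec_aux hcst hdet hsymm hm n ∅ K D (by simp) hK (fun _ _ => negOn_empty _) hdet0

theorem detCalc : DetCalc σ (fun k => 3 * (k + 1) ^ 4) := by
  intro κ _ _ K m B hK hm
  exact Calc.det hK hm le_rfl

/-- `run_vec` with the cost made explicit. -/
theorem run_vec' (hsymm : H.IsSymm) (hm : ∀ i j, (H i j).totalDegree ≤ m)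
    {K : Set (MvPolynomial σ ℤ)} {D : Set (σ → ℝ)} (hK : ∀ i j, H i j ∈ K)
    (hdet0 : ∀ x ∈ D, (H.map (ev x)).det ≠ 0) :
    Run (2 * n * m) (VGoal H m) (10 * (n + 1) ^ 7) K D := by
  refine (run_vec (cst := fun k => 3 * (k + 1) ^ 4) (fun a b hab =>
    Nat.mul_le_mul_left _ (Nat.pow_le_pow_left (by omega) _)) detCalc hsymm hm hK hdet0).mono_c ?_
  have hN : n ≤ n + 1 := Nat.le_succ n
  have h1 : n * n ≤ (n + 1) ^ 2 := by rw [sq]; exact Nat.mul_le_mul hN hN
  have h6 : ∀ e, e ≤ 6 → (n + 1) ^ e ≤ (n + 1) ^ 6 := fun e he =>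
    Nat.pow_le_pow_right (Nat.succ_pos n) he
  have hc : vcost (fun k => 3 * (k + 1) ^ 4) n ≤ 10 * (n + 1) ^ 6 := by
    show n * n * (3 * (n + 1) ^ 4 + 1) + n * n * (4 * n) + n * n + n ≤ 10 * (n + 1) ^ 6
    have e1 : n * n * (3 * (n + 1) ^ 4 + 1) ≤ 4 * (n + 1) ^ 6 := by
      calc n * n * (3 * (n + 1) ^ 4 + 1) ≤ (n + 1) ^ 2 * (3 * (n + 1) ^ 4 + 1) :=
            Nat.mul_le_mul_right _ h1
        _ = 3 * (n + 1) ^ 6 + (n + 1) ^ 2 := by ring
        _ ≤ 4 * (n + 1) ^ 6 := by have := h6 2 (by norm_num); omega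
    have e2 : n * n * (4 * n) ≤ 4 * (n + 1) ^ 6 := by
      calc n * n * (4 * n) ≤ (n + 1) ^ 2 * (4 * (n + 1)) :=
            Nat.mul_le_mul h1 (Nat.mul_le_mul_left _ hN)
        _ = 4 * (n + 1) ^ 3 := by ring
        _ ≤ 4 * (n + 1) ^ 6 := by have := h6 3 (by norm_num); omega
    have e3 : n * n ≤ (n + 1) ^ 6 := h1.trans (h6 2 (by norm_num))
    have e4 : n ≤ (n + 1) ^ 6 := hN.trans (by simpa using h6 1 (by norm_num))
    omega
  calc n * vcost (fun k => 3 * (k + 1) ^ 4) n ≤ (n + 1) * (10 * (n + 1) ^ 6) :=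
        Nat.mul_le_mul hN hc
    _ = 10 * (n + 1) ^ 7 := by ring

end Computation

end Pool.Agent.QC
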