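import Pool.Agent.QC.Sign.Sign

/-!
# Lemma R without oracle
-/

namespace Pool.Agent.QC

open MvPolynomial

variable {σ : Type*} {β : Type*}

/-- LEMMA R, complete.  `M`: degree bound of the computation on `(y, z)` and of the coefficients
of `P`; `c`: its cost; `d` bounds `M` and the degree of `P`. -/
theorem Dec.rootsR {M M₂ c d : ℕ} {F' : (Option σ → ℝ) → β}
    (P : Polynomial (MvPolynomial σ ℤ)) (hPd : P.natDegree ≤ d) (hMd : M ≤ d)
    (hPm : ∀ i, (P.coeff i).totalDegree ≤ M) (hM₂ : 64 * (d + 2) ^ 6 ≤ M₂)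
    {K' : Set (MvPolynomial (Option σ) ℤ)} {D' : Set (Option σ → ℝ)}
    (h : Dec M c K' D' F') (hK'M : ∀ g ∈ K', g.totalDegree ≤ M)
    {K : Set (MvPolynomial σ ℤ)} {D : Set (σ → ℝ)} (hPK : Set.range P.coeff ⊆ K)
    (hK : ∀ g ∈ K', ∀ i, zc g i ∈ K)
    (hD : ∀ y ∈ D, ∀ z ∈ rootList (spec P y), pt y z ∈ D') :
    Dec M₂ ((c + 1) * (d + 2) ^ 35) K D
      fun y => (rootList (spec P y)).map fun z => F' (pt y z) := by
  have hMM₂ : M ≤ M₂ := by
    refine le_trans ?_ hM₂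
    have h6 : (d + 2) ^ 1 ≤ (d + 2) ^ 6 := Nat.pow_le_pow_right (by omega) (by norm_num)
    rw [pow_one] at h6
    omega
  have h1 := Dec.roots (M₂ := M₂) (cs := (d + 2) ^ 32) P hPd (Set.range P.coeff) hMM₂ ?_ h hK'M
    hPK hK hD
  · refine h1.mono_c ?_
    have e1 : 2 * (M + 1) ^ 2 ≤ 2 * (d + 2) ^ 2 := by gcongr; omega
    have e2 : 2 * (d + 2) ^ 2 ≤ (d + 2) ^ 32 := by
      calc 2 * (d + 2) ^ 2 ≤ (d + 2) * (d + 2) ^ 2 := by gcongr; omega
        _ = (d + 2) ^ 3 := by ring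
        _ ≤ (d + 2) ^ 32 := Nat.pow_le_pow_right (by omega) (by norm_num)
    have e3 : (d + 2) ^ 35 = (d + 2) ^ 3 * (d + 2) ^ 32 := by
      rw [show (35 : ℕ) = 3 + 32 from rfl, pow_add]
    have e4 : 2 * d ≤ (d + 2) ^ 3 := by
      calc 2 * d ≤ (d + 2) * (d + 2) := by nlinarith
        _ = (d + 2) ^ 2 := by ring
        _ ≤ (d + 2) ^ 3 := Nat.pow_le_pow_right (by omega) (by norm_num)
    have e5 : 1 ≤ (d + 2) ^ 3 := Nat.one_le_pow _ _ (by omega)
    rw [e3]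
    generalize (d + 2) ^ 32 = X at *
    generalize (d + 2) ^ 3 = Y at *
    generalize 2 * (d + 2) ^ 2 = W at *
    generalize 2 * (M + 1) ^ 2 = V at *
    have e6 : X + V ≤ 2 * X := by omega
    calc X + d * (c * (X + V)) ≤ X + d * (c * (2 * X)) := by gcongr
      _ = (1 + 2 * d * c) * X := by ring
      _ ≤ (Y + Y * c) * X := by gcongr
      _ = (c + 1) * (Y * X) := by ring
  · intro g hg K D hPK hgK
    have h2 : ∀ y : σ → ℝ, ∀ z, ev (pt y z) g = (spec (zpoly g) y).eval z := fun y z => ev_pt g y z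
    simp only [h2]
    refine (Dec.signs (m := M) (d := d) P (zpoly g) hPd
      ((natDegree_zpoly g).trans (hg.trans hMd)) hPK ?_ hPm
      (fun i => (totalDegree_zc g i).trans hg) ?_)
    · rintro _ ⟨i, rfl⟩
      exact hgK i
    · refine le_trans ?_ hM₂
      calc 64 * (d + 2) ^ 5 * M ≤ 64 * (d + 2) ^ 5 * (d + 2) := by gcongr; omega
        _ = 64 * (d + 2) ^ 6 := by ring

end Pool.Agent.QC
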