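import Mathlib

/-!
# Computation trees, semantic form (MP_7c50a9_lc, part 10.2)

`Run M Q c K D`: on inputs `x ∈ D`, when the integer polynomials of the set `K` are already
computed, then after at most `c` further operations (additions, subtractions, multiplications of
known values or integer constants, and sign tests) we arrive in a situation `(K', D')` (more
computed polynomials, smaller set of inputs) with `Q K' D'`.  All newly computed polynomials have
total degree at most `M`.  The rule `ret` makes `Run` automatically monotone in `K` and antitone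
in `D`.

`Dec M c K D F`: the function `F` (with values in any type) is found with at most `c` steps.
-/

namespace Pool.Agent.QC

open MvPolynomial

variable {σ : Type*} {β γ : Type*}

/-- The value of an integer polynomial at a real point. -/
noncomputable def ev (x : σ → ℝ) (p : MvPolynomial σ ℤ) : ℝ := aeval x p

@[simp] lemma ev_add (x : σ → ℝ) (p q : MvPolynomial σ ℤ) : ev x (p + q) = ev x p + ev x q := by
  simp [ev]

@[simp] lemma ev_sub (x : σ → ℝ) (p q : MvPolynomial σ ℤ) : ev x (p - q) = ev x p - ev x q := by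
  simp [ev]

@[simp] lemma ev_mul (x : σ → ℝ) (p q : MvPolynomial σ ℤ) : ev x (p * q) = ev x p * ev x q := by
  simp [ev]

@[simp] lemma ev_neg (x : σ → ℝ) (p : MvPolynomial σ ℤ) : ev x (-p) = -ev x p := by
  simp [ev]

@[simp] lemma ev_C (x : σ → ℝ) (z : ℤ) : ev x (C z) = z := by
  simp [ev]

@[simp] lemma ev_intCast (x : σ → ℝ) (z : ℤ) : ev x (z : MvPolynomial σ ℤ) = z := by
  simp [ev]

@[simp] lemma ev_natCast (x : σ → ℝ) (z : ℕ) : ev x (z : MvPolynomial σ ℤ) = z := by
  simp [ev]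

@[simp] lemma ev_X (x : σ → ℝ) (i : σ) : ev x (X i) = x i := by
  simp [ev]

@[simp] lemma ev_zero (x : σ → ℝ) : ev x 0 = 0 := by simp [ev]

@[simp] lemma ev_one (x : σ → ℝ) : ev x 1 = 1 := by simp [ev]

@[simp] lemma ev_pow (x : σ → ℝ) (p : MvPolynomial σ ℤ) (n : ℕ) : ev x (p ^ n) = ev x p ^ n := by
  simp [ev]

lemma ev_sum {ι : Type*} (x : σ → ℝ) (s : Finset ι) (f : ι → MvPolynomial σ ℤ) :
    ev x (∑ i ∈ s, f i) = ∑ i ∈ s, ev x (f i) := by
  simp [ev]

lemma ev_prod {ι : Type*} (x : σ → ℝ) (s : Finset ι) (f : ι → MvPolynomial σ ℤ) :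
    ev x (∏ i ∈ s, f i) = ∏ i ∈ s, ev x (f i) := by
  simp [ev]

/-- `r` is the result of one ring operation on elements of `K`. -/
def Step (K : Set (MvPolynomial σ ℤ)) (r : MvPolynomial σ ℤ) : Prop :=
  ∃ p ∈ K, ∃ q ∈ K, r = p + q ∨ r = p - q ∨ r = p * q

lemma Step.mono {K K' : Set (MvPolynomial σ ℤ)} (h : K ⊆ K') {r : MvPolynomial σ ℤ}
    (hr : Step K r) : Step K' r := by
  obtain ⟨p, hp, q, hq, h1⟩ := hr
  exact ⟨p, h hp, q, h hq, h1⟩

lemma Step.add {K : Set (MvPolynomial σ ℤ)} {p q : MvPolynomial σ ℤ} (hp : p ∈ K) (hq : q ∈ K) :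
    Step K (p + q) := ⟨p, hp, q, hq, Or.inl rfl⟩

lemma Step.sub {K : Set (MvPolynomial σ ℤ)} {p q : MvPolynomial σ ℤ} (hp : p ∈ K) (hq : q ∈ K) :
    Step K (p - q) := ⟨p, hp, q, hq, Or.inr (Or.inl rfl)⟩

lemma Step.mul {K : Set (MvPolynomial σ ℤ)} {p q : MvPolynomial σ ℤ} (hp : p ∈ K) (hq : q ∈ K) :
    Step K (p * q) := ⟨p, hp, q, hq, Or.inr (Or.inr rfl)⟩

/-- See the header. -/
inductive Run (M : ℕ) (Q : Set (MvPolynomial σ ℤ) → Set (σ → ℝ) → Prop) :
    ℕ → Set (MvPolynomial σ ℤ) → Set (σ → ℝ) → Prop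
  | ret {c : ℕ} {K : Set (MvPolynomial σ ℤ)} {D : Set (σ → ℝ)}
      (K₀ : Set (MvPolynomial σ ℤ)) (D₀ : Set (σ → ℝ)) :
      K₀ ⊆ K → D ⊆ D₀ → Q K₀ D₀ → Run M Q c K D
  | cst {c : ℕ} {K : Set (MvPolynomial σ ℤ)} {D : Set (σ → ℝ)} (z : ℤ) :
      Run M Q c (insert (C z) K) D → Run M Q c K D
  | op {c : ℕ} {K : Set (MvPolynomial σ ℤ)} {D : Set (σ → ℝ)} {r : MvPolynomial σ ℤ} :
      Step K r → r.totalDegree ≤ M → Run M Q c (insert r K) D → Run M Q (c + 1) K D
  | sgn {c : ℕ} {K : Set (MvPolynomial σ ℤ)} {D : Set (σ → ℝ)} {p : MvPolynomial σ ℤ} :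
      p ∈ K → Run M Q c K (D ∩ {x | ev x p < 0}) → Run M Q c K (D ∩ {x | ev x p = 0}) →
      Run M Q c K (D ∩ {x | 0 < ev x p}) → Run M Q (c + 1) K D

namespace Run

variable {M M' c c' : ℕ} {K K' : Set (MvPolynomial σ ℤ)} {D D' : Set (σ → ℝ)}
  {Q Q' : Set (MvPolynomial σ ℤ) → Set (σ → ℝ) → Prop}

lemma pure (h : Q K D) : Run M Q c K D := ret K D subset_rfl subset_rfl h

/-- Monotonicity in everything. -/
theorem mono (h : Run M Q c K D) (hM : M ≤ M') (hc : c ≤ c') (hK : K ⊆ K') (hD : D' ⊆ D)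
    (hQ : ∀ K D, Q K D → Q' K D) : Run M' Q' c' K' D' := by
  induction h generalizing c' K' D' with
  | ret K₀ D₀ h1 h2 h3 => exact ret K₀ D₀ (h1.trans hK) (hD.trans h2) (hQ _ _ h3)
  | cst z _ ih => exact cst z (ih hc (Set.insert_subset_insert hK) hD)
  | op h1 h2 _ ih =>
    obtain ⟨c'', rfl⟩ : ∃ c'', c' = c'' + 1 := ⟨c' - 1, by omega⟩
    exact op (h1.mono hK) (h2.trans hM) (ih (by omega) (Set.insert_subset_insert hK) hD)
  | sgn h1 _ _ _ ih1 ih2 ih3 =>
    obtain ⟨c'', rfl⟩ : ∃ c'', c' = c'' + 1 := ⟨c' - 1, by omega⟩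
    exact sgn (hK h1) (ih1 (by omega) hK (Set.inter_subset_inter_left _ hD))
      (ih2 (by omega) hK (Set.inter_subset_inter_left _ hD))
      (ih3 (by omega) hK (Set.inter_subset_inter_left _ hD))

lemma mono_c (h : Run M Q c K D) (hc : c ≤ c') : Run M Q c' K D :=
  h.mono le_rfl hc subset_rfl subset_rfl fun _ _ => id

lemma mono_M (h : Run M Q c K D) (hM : M ≤ M') : Run M' Q c K D :=
  h.mono hM le_rfl subset_rfl subset_rfl fun _ _ => id

lemma mono_K (h : Run M Q c K D) (hK : K ⊆ K') : Run M Q c K' D :=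
  h.mono le_rfl le_rfl hK subset_rfl fun _ _ => id

lemma mono_D (h : Run M Q c K D) (hD : D' ⊆ D) : Run M Q c K D' :=
  h.mono le_rfl le_rfl subset_rfl hD fun _ _ => id

/-- Sequential composition.  The second computation may use everything that the first one has
computed and all that it has found out about the input. -/
theorem bind (h : Run M Q c K D)
    (h' : ∀ K₀ D₀, Q K₀ D₀ → ∀ K₁ D₁, K ⊆ K₁ → K₀ ⊆ K₁ → D₁ ⊆ D → D₁ ⊆ D₀ →
      Run M Q' c' K₁ D₁) : Run M Q' (c + c') K D := by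
  induction h with
  | @ret c K D K₀ D₀ h1 h2 h3 =>
    exact (h' K₀ D₀ h3 K D subset_rfl h1 subset_rfl h2).mono_c (by omega)
  | cst z _ ih =>
    refine cst z (ih ?_)
    intro K₀ D₀ h0 K₁ D₁ h1 h2 h3 h4
    exact h' K₀ D₀ h0 K₁ D₁ ((Set.subset_insert _ _).trans h1) h2 h3 h4
  | @op c K D r h1 h2 _ ih =>
    have : Run M Q' (c + c' + 1) K D := by
      refine op h1 h2 (ih ?_)
      intro K₀ D₀ h0 K₁ D₁ h1 h2 h3 h4
      exact h' K₀ D₀ h0 K₁ D₁ ((Set.subset_insert _ _).trans h1) h2 h3 h4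
    exact this.mono_c (by omega)
  | @sgn c K D p h1 _ _ _ ih1 ih2 ih3 =>
    have : Run M Q' (c + c' + 1) K D := by
      refine sgn h1 (ih1 ?_) (ih2 ?_) (ih3 ?_)
      all_goals
        intro K₀ D₀ h0 K₁ D₁ h1 h2 h3 h4
        exact h' K₀ D₀ h0 K₁ D₁ h1 h2 (h3.trans Set.inter_subset_left) h4
    exact this.mono_c (by omega)

/-- Every input ends up in some leaf. -/
theorem cover (h : Run M Q c K D) {x : σ → ℝ} (hx : x ∈ D) :
    ∃ K₀ D₀, Q K₀ D₀ ∧ x ∈ D₀ := by
  induction h with
  | ret K₀ D₀ h1 h2 h3 => exact ⟨K₀, D₀, h3, h2 hx⟩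
  | cst z _ ih => exact ih hx
  | op h1 h2 _ ih => exact ih hx
  | @sgn c K D p h1 _ _ _ ih1 ih2 ih3 =>
    rcases lt_trichotomy (ev x p) 0 with h | h | h
    · exact ih1 ⟨hx, h⟩
    · exact ih2 ⟨hx, h⟩
    · exact ih3 ⟨hx, h⟩

/-- An empty domain needs no computation. -/
theorem empty (h : Q K ∅) : Run M Q c K ∅ := pure h

end Run

/-! ### Computing a function with arbitrary values -/

/-- `Dec M c K D F`: for inputs in `D`, with the polynomials of `K` already computed, `F x` is
found with at most `c` operations and sign tests, all new polynomials having total degree at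
most `M`. -/
def Dec (M c : ℕ) (K : Set (MvPolynomial σ ℤ)) (D : Set (σ → ℝ)) (F : (σ → ℝ) → β) : Prop :=
  Run M (fun _ D' => ∀ x ∈ D', ∀ y ∈ D', F x = F y) c K D

namespace Dec

variable {M M' c c' : ℕ} {K K' : Set (MvPolynomial σ ℤ)} {D D' : Set (σ → ℝ)}
  {F F' : (σ → ℝ) → β} {S : (σ → ℝ) → γ}

/-- A function which is constant on the possible inputs costs nothing. -/
theorem leaf (h : ∀ x ∈ D, ∀ y ∈ D, F x = F y) : Dec M c K D F := Run.pure h

theorem mono (h : Dec M c K D F) (hM : M ≤ M') (hc : c ≤ c') (hK : K ⊆ K') (hD : D' ⊆ D) :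
    Dec M' c' K' D' F := Run.mono h hM hc hK hD fun _ _ => id

theorem mono_c (h : Dec M c K D F) (hc : c ≤ c') : Dec M c' K D F := Run.mono_c h hc

theorem mono_M (h : Dec M c K D F) (hM : M ≤ M') : Dec M' c K D F := Run.mono_M h hM

theorem mono_K (h : Dec M c K D F) (hK : K ⊆ K') : Dec M c K' D F := Run.mono_K h hK

theorem mono_D (h : Dec M c K D F) (hD : D' ⊆ D) : Dec M c K D' F := Run.mono_D h hD

/-- After a computation which reaches situations where `F` can be found, `F` is found. -/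
theorem of_run {Q : Set (MvPolynomial σ ℤ) → Set (σ → ℝ) → Prop} (h : Run M Q c K D)
    (h' : ∀ K₀ D₀, Q K₀ D₀ → ∀ K₁ D₁, K ⊆ K₁ → K₀ ⊆ K₁ → D₁ ⊆ D → D₁ ⊆ D₀ →
      Dec M c' K₁ D₁ F) : Dec M (c + c') K D F := Run.bind h h'

/-- First find `S x`, then, knowing it, find `F x`. -/
theorem bind (h : Dec M c K D S) (h' : ∀ s, Dec M c' K (D ∩ S ⁻¹' {s}) F) :
    Dec M (c + c') K D F := by
  refine Run.bind h fun K₀ D₀ h0 K₁ D₁ h1 _ h3 h4 => ?_
  rcases Set.eq_empty_or_nonempty D₁ with rfl | ⟨x, hx⟩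
  · exact leaf (by simp)
  · refine (h' (S x)).mono le_rfl le_rfl h1 fun y hy => ⟨h3 hy, ?_⟩
    exact h0 y (h4 hy) x (h4 hx)

/-- A function of a computed function is computed. -/
theorem factor (h : Dec M c K D S)
    (h' : ∀ x ∈ D, ∀ y ∈ D, S x = S y → F x = F y) : Dec M c K D F := by
  have := bind (c' := 0) h (F := F) fun s => leaf fun x hx y hy =>
    h' x hx.1 y hy.1 ((Set.mem_preimage.1 hx.2).trans (Set.mem_preimage.1 hy.2).symm)
  simpa using this

theorem congr (h : Dec M c K D F) (h' : ∀ x ∈ D, F x = F' x) : Dec M c K D F' :=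
  h.factor fun x hx y hy h1 => by rw [← h' x hx, ← h' y hy, h1]

theorem comp (h : Dec M c K D F) (g : β → γ) : Dec M c K D (fun x => g (F x)) :=
  h.factor fun _ _ _ _ h1 => by rw [h1]

/-- Computing a pair. -/
theorem pair (h : Dec M c K D F) (h' : Dec M c' K D S) :
    Dec M (c + c') K D (fun x => (F x, S x)) := by
  refine h.bind fun s => ?_
  refine (h'.mono_D Set.inter_subset_left).factor fun x hx y hy h1 => ?_
  have hx2 : F x = s := hx.2
  have hy2 : F y = s := hy.2
  rw [hx2, hy2, h1]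

/-- Computing finitely many functions. -/
theorem pi {ι : Type*} [Fintype ι] {T : ι → (σ → ℝ) → β} (h : ∀ i, Dec M c K D (T i)) :
    Dec M (Fintype.card ι * c) K D (fun x i => T i x) := by
  classical
  have key : ∀ s : Finset ι, Dec M (s.card * c) K D (fun x => fun i : s => T i x) := by
    intro s
    induction s using Finset.induction_on with
    | empty => exact leaf fun x _ y _ => by funext i; exact absurd i.2 (Finset.notMem_empty _)
    | @insert a s ha ih =>
      rw [Finset.card_insert_of_notMem ha, Nat.add_mul, one_mul]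
      refine (ih.pair (h a)).factor fun x _ y _ hxy => ?_
      funext i
      rcases Finset.mem_insert.1 i.2 with hi | hi
      · have := (Prod.mk.inj hxy).2
        rw [hi]; exact this
      · have := congrFun (Prod.mk.inj hxy).1 ⟨i.1, hi⟩
        exact this
  refine (key Finset.univ).factor fun x _ y _ hxy => ?_
  funext i
  exact congrFun hxy ⟨i, Finset.mem_univ i⟩

/-- The sign of a computed polynomial. -/
theorem sign {p : MvPolynomial σ ℤ} (hp : p ∈ K) :
    Dec M 1 K D (fun x => SignType.sign (ev x p)) := by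
  refine Run.sgn (c := 0) hp ?_ ?_ ?_
  all_goals
    refine Run.pure fun x hx y hy => ?_
    have hx2 := hx.2
    have hy2 := hy.2
    simp only [Set.mem_ofPred_eq] at hx2 hy2
    show SignType.sign (ev x p) = SignType.sign (ev y p)
  · rw [sign_neg hx2, sign_neg hy2]
  · rw [hx2, hy2]
  · rw [sign_pos hx2, sign_pos hy2]

end Dec

/-! ### Computing polynomials -/

/-- The polynomials of `P` are computed from those of `K` with `c` ring operations, all results
having total degree at most `M`. -/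
def Calc (M c : ℕ) (K P : Set (MvPolynomial σ ℤ)) : Prop :=
  ∀ (Q : Set (MvPolynomial σ ℤ) → Set (σ → ℝ) → Prop) (D : Set (σ → ℝ)) (M' c' : ℕ)
    (K' : Set (MvPolynomial σ ℤ)), M ≤ M' → K ⊆ K' → Run M' Q c' (K' ∪ P) D →
    Run M' Q (c + c') K' D

namespace Calc

variable {M M' c c' : ℕ} {K K' P P' : Set (MvPolynomial σ ℤ)}

theorem refl (h : P ⊆ K) : Calc M 0 K P := by
  intro Q D M' c' K' _ hK h'
  rw [Set.union_eq_self_of_subset_right (h.trans hK)] at h'
  simpa using h'

theorem const (z : ℤ) : Calc M 0 K {C z} := by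
  intro Q D M' c' K' _ _ h'
  rw [Set.union_singleton] at h'
  simpa using Run.cst z h'

theorem step {r : MvPolynomial σ ℤ} (h : Step K r) (hr : r.totalDegree ≤ M) :
    Calc M 1 K {r} := by
  intro Q D M' c' K' hM hK h'
  rw [Set.union_singleton] at h'
  have := Run.op (h.mono hK) (hr.trans hM) h'
  rwa [add_comm] at this

theorem add {p q : MvPolynomial σ ℤ} (hp : p ∈ K) (hq : q ∈ K) (h : (p + q).totalDegree ≤ M) :
    Calc M 1 K {p + q} := step (Step.add hp hq) h

theorem sub {p q : MvPolynomial σ ℤ} (hp : p ∈ K) (hq : q ∈ K) (h : (p - q).totalDegree ≤ M) :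
    Calc M 1 K {p - q} := step (Step.sub hp hq) h

theorem mul {p q : MvPolynomial σ ℤ} (hp : p ∈ K) (hq : q ∈ K) (h : (p * q).totalDegree ≤ M) :
    Calc M 1 K {p * q} := step (Step.mul hp hq) h

theorem mono (h : Calc M c K P) (hM : M ≤ M') (hc : c ≤ c') (hK : K ⊆ K') (hP : P' ⊆ P) :
    Calc M' c' K' P' := by
  intro Q D M'' c'' K'' hM' hK' h''
  exact (h Q D M'' c'' K'' (hM.trans hM') (hK.trans hK')
    (h''.mono_K (Set.union_subset_union_right _ hP))).mono_c (by omega)

theorem mono_c (h : Calc M c K P) (hc : c ≤ c') : Calc M c' K P :=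
  h.mono le_rfl hc subset_rfl subset_rfl

theorem mono_M (h : Calc M c K P) (hM : M ≤ M') : Calc M' c K P :=
  h.mono hM le_rfl subset_rfl subset_rfl

theorem mono_K (h : Calc M c K P) (hK : K ⊆ K') : Calc M c K' P :=
  h.mono le_rfl le_rfl hK subset_rfl

theorem mono_P (h : Calc M c K P) (hP : P' ⊆ P) : Calc M c K P' :=
  h.mono le_rfl le_rfl subset_rfl hP

theorem trans (h : Calc M c K P) (h' : Calc M c' (K ∪ P) P') : Calc M (c + c') K (P ∪ P') := by
  intro Q D M'' c'' K'' hM hK'' h''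
  rw [← Set.union_assoc] at h''
  have := h _ _ _ _ _ hM hK'' (h' _ _ _ _ _ hM (Set.union_subset_union_left _ hK'') h'')
  rwa [← add_assoc] at this

/-- Chain: first `P`, then `P'` out of both; only `P'` is recorded. -/
theorem trans' (h : Calc M c K P) (h' : Calc M c' (K ∪ P) P') : Calc M (c + c') K P' :=
  (h.trans h').mono_P Set.subset_union_right

theorem union (h : Calc M c K P) (h' : Calc M c' K P') : Calc M (c + c') K (P ∪ P') :=
  h.trans (h'.mono_K Set.subset_union_left)

/-- Finitely many polynomials. -/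
theorem biUnion {ι : Type*} (s : Finset ι) {p : ι → MvPolynomial σ ℤ}
    (h : ∀ i ∈ s, Calc M c K {p i}) : Calc M (s.card * c) K (p '' s) := by
  classical
  induction s using Finset.induction_on with
  | empty => simpa using refl (M := M) (Set.empty_subset K)
  | @insert a s ha ih =>
    rw [Finset.card_insert_of_notMem ha, Nat.add_mul, one_mul]
    refine ((ih fun i hi => h i (Finset.mem_insert_of_mem hi)).union
      (h a (Finset.mem_insert_self a s))).mono_P ?_
    rintro _ ⟨i, hi, rfl⟩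
    rcases Finset.mem_insert.1 (Finset.mem_coe.1 hi) with rfl | hi
    · exact Or.inr rfl
    · exact Or.inl ⟨i, hi, rfl⟩

theorem range {ι : Type*} [Fintype ι] {p : ι → MvPolynomial σ ℤ}
    (h : ∀ i, Calc M c K {p i}) : Calc M (Fintype.card ι * c) K (Set.range p) := by
  have := biUnion (K := K) (M := M) (c := c) Finset.univ (p := p) fun i _ => h i
  refine this.mono_P ?_
  rintro _ ⟨i, rfl⟩
  exact ⟨i, by simp, rfl⟩

/-- Use of computed polynomials inside a `Run`. -/
theorem run {Q : Set (MvPolynomial σ ℤ) → Set (σ → ℝ) → Prop} {D : Set (σ → ℝ)}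
    (h : Calc M c K P) (h' : Run M Q c' (K ∪ P) D) : Run M Q (c + c') K D :=
  h Q D M c' K le_rfl subset_rfl h'

theorem dec {F : (σ → ℝ) → β} {D : Set (σ → ℝ)}
    (h : Calc M c K P) (h' : Dec M c' (K ∪ P) D F) : Dec M (c + c') K D F :=
  h _ D M c' K le_rfl subset_rfl h'

/-- The sign of a polynomial that can be computed. -/
theorem sign {p : MvPolynomial σ ℤ} {D : Set (σ → ℝ)} (h : Calc M c K {p}) :
    Dec M (c + 1) K D (fun x => SignType.sign (ev x p)) :=
  h.dec (Dec.sign (Or.inr rfl))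

/-- A finite sum. -/
theorem sum {ι : Type*} (s : Finset ι) {f : ι → MvPolynomial σ ℤ} (hf : ∀ i ∈ s, f i ∈ K)
    (hd : ∀ i ∈ s, (f i).totalDegree ≤ M) : Calc M s.card K {∑ i ∈ s, f i} := by
  classical
  induction s using Finset.induction_on with
  | empty =>
    have := const (M := M) (K := K) 0
    simpa using this
  | @insert a s ha ih =>
    rw [Finset.sum_insert ha, Finset.card_insert_of_notMem ha]
    refine (ih (fun i hi => hf i (Finset.mem_insert_of_mem hi))
      (fun i hi => hd i (Finset.mem_insert_of_mem hi))).trans' ?_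
    refine add (Or.inl (hf a (Finset.mem_insert_self a s))) (Or.inr rfl) ?_
    refine (totalDegree_add _ _).trans (max_le (hd a (Finset.mem_insert_self a s)) ?_)
    exact (totalDegree_finsetSum_le fun i hi => hd i (Finset.mem_insert_of_mem hi))

/-- A finite sum of products. -/
theorem dot {ι : Type*} (s : Finset ι) {f g : ι → MvPolynomial σ ℤ} (hf : ∀ i ∈ s, f i ∈ K)
    (hg : ∀ i ∈ s, g i ∈ K) (hd : ∀ i ∈ s, (f i * g i).totalDegree ≤ M) :
    Calc M (2 * s.card) K {∑ i ∈ s, f i * g i} := by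
  classical
  have h1 : Calc M (s.card * 1) K ((fun i => f i * g i) '' s) :=
    biUnion s fun i hi => mul (hf i hi) (hg i hi) (hd i hi)
  have h2 : Calc M s.card (K ∪ (fun i => f i * g i) '' s) {∑ i ∈ s, f i * g i} :=
    sum s (fun i hi => Or.inr ⟨i, hi, rfl⟩) hd
  exact (h1.trans' h2).mono_c (by omega)

end Calc

end Pool.Agent.QC
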